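import Pool.Agent.Run7.h802.Cv14
import Pool.Agent.Y279.G.StepG
import Pool.Agent.Y824.G4.DESCG

/-!
# The quotients of the charts
-/

set_option autoImplicit false
set_option linter.unusedVariables false
set_option linter.unusedSectionVars false

namespace Run7.h802.Cv

open Pool.Agent.Y223.G Pool.Agent.W418.LU2 IsLocalRing Pool.Agent.H639R3 Pool.Agent.H920R2
  IsDedekindDomain

lemma PtL.congr {p : ℕ} {E : Type} [Field E] {V : ValuationSubring E} {t t' : E}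
    (h : PtL p V t) (ht' : IsUf V t') : PtL p V t' where
  uf := ht'
  arch x hx := h.arch x fun a => by rw [h.uf.val_eq ht']; exact hx a
  frob := h.frob

section prod

variable {k L : Type} [Field k] [Finite k] [Field L] [Algebra k L] {ι : Type} [Fintype ι]
  [DecidableEq ι] {E : ι → Type} [∀ i, Field (E i)] [∀ i, Algebra k (E i)]
  [∀ i, Algebra.EssFiniteType k (E i)] {e : ∀ i, E i →ₐ[k] L} {s : ∀ i, E i}
  {G : Type} [Group G] (ρ : ∀ i, G →* (E i ≃ₐ[k] E i))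

/-- The points with nontrivial inertia. -/
def ZA : Set (∀ i, ValuationSubring (E i)) :=
  {V | (∀ i, Pt k (V i)) ∧ ∃ g ∈ inr ρ V, g ≠ 1}

/-- The points of a chart with nontrivial inertia. -/
def ZZ (s : ∀ i, E i) (c : ι → Bool) : Set (∀ i, ValuationSubring (E i)) :=
  {V | V ∈ ZA ρ ∧ ∀ i, ch (s i) (c i) ∈ V i}

variable {ρ}

theorem ZA_fin [Finite G]
    (hs : ∀ i, SepEl k (s i)) (hfs : ∀ i g, ρ i g (s i) = s i)
    (hiso : ∀ V : ∀ i, ValuationSubring (E i), (∀ i, Pt k (V i)) → ∀ g ∈ inr ρ V, g ≠ 1 →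
      ∀ i, ρ i g ≠ 1) : (ZA ρ).Finite := by
  classical
  have h1 : ZA ρ ⊆ ⋃ g : {g : G // g ≠ 1}, {V | (∀ i, Pt k (V i)) ∧ (g : G) ∈ inr ρ V} := by
    rintro V ⟨hV, g, hg, hg1⟩
    exact Set.mem_iUnion.2 ⟨⟨g, hg1⟩, hV, hg⟩
  refine (Set.finite_iUnion fun g => ?_).subset h1
  by_cases hne : ∃ V : ∀ i, ValuationSubring (E i), (∀ i, Pt k (V i)) ∧ (g : G) ∈ inr ρ V
  · obtain ⟨V₀, hV₀, hgV₀⟩ := hne
    have h2 := hiso V₀ hV₀ g hgV₀ g.2
    have h3 : ∀ i, {V : ValuationSubring (E i) | Pt k V ∧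
        ∀ x ∈ V, V.valuation (ρ i g x - x) < 1}.Finite := by
      intro i
      refine finite_inert (hs i) (ρ i g) (hfs i g) ?_
      by_contra hcon
      push Not at hcon
      apply h2 i
      ext x
      exact hcon x
    refine (Set.Finite.pi' h3).subset ?_
    rintro V ⟨hV, hgV⟩ i
    exact ⟨hV i, mem_inr.1 hgV i⟩
  · refine (Set.finite_empty).subset ?_
    intro V hV
    exact absurd ⟨V, hV⟩ hne

lemma ZA_act {V : ∀ i, ValuationSubring (E i)} (hV : V ∈ ZA ρ) (g : G) : act ρ g V ∈ ZA ρ := by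
  obtain ⟨h1, h, hh, hh1⟩ := hV
  refine ⟨fun i => pt_act (h1 i) g, g * h * g⁻¹, inr_act hh g, ?_⟩
  intro h2
  apply hh1
  have h3 : g * h = g := by
    rw [mul_inv_eq_one] at h2
    exact h2
  exact mul_eq_left.1 h3

lemma ZZ_act (hfs : ∀ i g, ρ i g (s i) = s i) {c : ι → Bool} {V : ∀ i, ValuationSubring (E i)}
    (hV : V ∈ ZZ ρ s c) (g : G) : act ρ g V ∈ ZZ ρ s c := by
  refine ⟨ZA_act hV.1 g, fun i => ?_⟩
  rw [mem_act, ch_fix (ρ i g⁻¹) (hfs i g⁻¹)]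
  exact hV.2 i

lemma ZZ_act' (hfs : ∀ i g, ρ i g (s i) = s i) {c : ι → Bool} {V : ∀ i, ValuationSubring (E i)}
    (g : G) (hV : act ρ g V ∈ ZZ ρ s c) : V ∈ ZZ ρ s c := by
  have h := ZZ_act hfs hV g⁻¹
  rwa [act_inv] at h

/-- The filtration is stable. -/
lemma FF_st (p : ℕ) (σ : G →* (L ≃ₐ[k] L)) (hσ : ∀ g i x, σ g (e i x) = e i (ρ i g x))
    (hfs : ∀ i g, ρ i g (s i) = s i) (c : ι → Bool) (g : G) {d : ℤ} {x : L}
    (hx : x ∈ FF e (fun i => AA k (s i) (c i)) (ZZ ρ s c) (wt ρ p) d) :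
    σ g x ∈ FF e (fun i => AA k (s i) (c i)) (ZZ ρ s c) (wt ρ p) d := by
  rw [mem_FF] at hx ⊢
  refine ⟨BB_st (σ g) (fun i => ρ i g) (hσ g) (fun i a ha => AA_st (ρ i g) (hfs i g) (c i) ha)
    hx.1, fun V hV => ?_⟩
  have h1 := hx.2 (act ρ g⁻¹ V) (ZZ_act hfs hV g⁻¹)
  have h2 : wt ρ p (act ρ g⁻¹ V) = wt ρ p V := funext fun i => wt_act p V i g⁻¹
  rw [h2] at h1
  refine JJ_map (V := act ρ g⁻¹ V) (σ g) (fun i => ρ i g) (hσ g) ?_ h1
  intro i x
  rw [mem_act, inv_inv]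

lemma UV_map {V : ∀ i, ValuationSubring (E i)} {A : ∀ i, Subalgebra k (E i)}
    (hle : ∀ i, ∀ a ∈ A i, a ∈ V i)
    (τ : L ≃ₐ[k] L) (r : ∀ i, E i ≃ₐ[k] E i) (hτ : ∀ i x, τ (e i x) = e i (r i x))
    (hst : ∀ i, ∀ a ∈ A i, r i a ∈ A i)
    (hin : ∀ i, ∀ x ∈ V i, (V i).valuation (r i x - x) < 1) {u : L} (hu : UV e A V u) :
    UV e A V (τ u) := by
  obtain ⟨u, hu, rfl⟩ := hu
  refine ⟨fun i => r i (u i), fun i => ⟨hst i _ (hu i).1, ?_⟩, ?_⟩
  · refine le_antisymm (((V i).valuation_le_one_iff _).2 (hle i _ (hst i _ (hu i).1))) ?_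
    by_contra hcon
    have h5 : (V i).valuation (u i) < 1 := by
      have h6 : u i = r i (u i) - (r i (u i) - u i) := by ring
      rw [h6]
      exact (V i).valuation.map_sub_lt (not_le.1 hcon) (hin i _ (hle i _ (hu i).1))
    exact absurd (hu i).2 h5.ne
  · rw [map_prod]
    exact Finset.prod_congr rfl fun i _ => hτ i _

end prod

end Run7.h802.Cv
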