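import Pool.Agent.Run7.h802.Rz10
import Pool.Agent.Run7.h802.Cv15

/-!
# The elements which generate the ideals of fixed points
-/

set_option autoImplicit false
set_option linter.unusedVariables false
set_option linter.unusedSectionVars false

namespace Run7.h802.Rz

open Run7.h802.Cv
open Pool.Agent.Y223.G Pool.Agent.W418.LU2 IsLocalRing

section chain

variable {G : Type} [Group G]

open Classical in
/-- An element of a subgroup outside another subgroup. -/
noncomputable def pick (P K : Subgroup G) : G := if h : ∃ g ∈ P, g ∉ K then h.choose else 1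

lemma pick_mem (P K : Subgroup G) : pick P K ∈ P := by
  unfold pick
  split_ifs with h
  · exact h.choose_spec.1
  · exact P.one_mem

lemma pick_not (P K : Subgroup G) (h : ∃ g ∈ P, g ∉ K) : pick P K ∉ K := by
  unfold pick
  rw [dif_pos h]
  exact h.choose_spec.2

/-- The chain of subgroups. -/
noncomputable def Hc (P : Subgroup G) : ℕ → Subgroup G
  | 0 => ⊥
  | i + 1 => Hc P i ⊔ Subgroup.zpowers (pick P (Hc P i))

lemma sq_Hc (P : Subgroup G) (i : ℕ) : sq (fun i => pick P (Hc P i)) i = Hc P i := by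
  induction i with
  | zero => rfl
  | succ i ih =>
    change sq (fun i => pick P (Hc P i)) i ⊔ _ = Hc P i ⊔ _
    rw [ih]

lemma Hc_le (P : Subgroup G) (i : ℕ) : Hc P i ≤ P := by
  induction i with
  | zero => exact bot_le
  | succ i ih =>
    refine sup_le ih ?_
    rw [Subgroup.zpowers_le]
    exact pick_mem _ _

/-- The chain reaches the subgroup. -/
theorem exists_chain [Finite G] (P : Subgroup G) : ∃ (s : ℕ → G) (r : ℕ), (∀ i, s i ∈ P) ∧
    (∀ i < r, s i ∉ sq s i) ∧ sq s r = P := by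
  classical
  have hex : ∃ r, ¬ ∃ g ∈ P, g ∉ Hc P r := by
    by_contra hcon
    push Not at hcon
    have h1 : ∀ n, n + 1 ≤ Nat.card (Hc P n) := by
      intro n
      induction n with
      | zero => exact Nat.card_pos
      | succ n ih =>
        have h2 : Hc P n < Hc P (n + 1) := by
          refine lt_of_le_of_ne le_sup_left fun h => ?_
          have h3 : pick P (Hc P n) ∈ Hc P (n + 1) :=
            Subgroup.mem_sup_right (Subgroup.mem_zpowers _)
          rw [← h] at h3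
          exact pick_not P _ (hcon n) h3
        have h3 : Nat.card (Hc P n) < Nat.card (Hc P (n + 1)) := by
          have h4 := Subgroup.card_le_of_le h2.le
          refine lt_of_le_of_ne h4 fun h5 => h2.ne ?_
          exact Subgroup.eq_of_le_of_card_ge h2.le h5.ge
        omega
    have h2 := h1 (Nat.card G)
    have h3 := Subgroup.card_le_card_group (Hc P (Nat.card G))
    omega
  refine ⟨fun i => pick P (Hc P i), Nat.find hex, fun i => pick_mem _ _, fun i hi => ?_, ?_⟩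
  · rw [sq_Hc]
    exact pick_not P _ (not_not.1 (Nat.find_min hex hi))
  · rw [sq_Hc]
    refine le_antisymm (Hc_le P _) fun g hg => ?_
    by_contra hcon
    exact (Nat.find_spec hex) ⟨g, hg, hcon⟩

end chain

variable {k L : Type} [Field k] [Field L] [Algebra k L] {ι : Type} [Fintype ι] [DecidableEq ι]
  {E : ι → Type} [∀ i, Field (E i)] [∀ i, Algebra k (E i)]
  {e : ∀ i, E i →ₐ[k] L} {A : ∀ i, Subalgebra k (E i)}
  {Z : Set (∀ i, ValuationSubring (E i))} {wt : (∀ i, ValuationSubring (E i)) → ι → ℕ} {D : ℕ}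

lemma UV_map' {V : ∀ i, ValuationSubring (E i)} (hle : ∀ i, ∀ a ∈ A i, a ∈ V i)
    (τ : L ≃ₐ[k] L) (r : ∀ i, E i ≃ₐ[k] E i) (hτ : ∀ i x, τ (e i x) = e i (r i x))
    (hst : ∀ i, ∀ a ∈ A i, r i a ∈ A i)
    (hin : ∀ i, ∀ x ∈ V i, (V i).valuation (r i x - x) < 1) {u : L} (hu : UV e A V u) :
    UV e A V (τ u) := by
  obtain ⟨u, hu, rfl⟩ := hu
  refine ⟨fun i => r i (u i), fun i => ⟨hst i _ (hu i).1, ?_⟩, ?_⟩
  · refine le_antisymm (((V i).valuation_le_one_iff _).2 (hle i _ (hst i _ (hu i).1))) ?_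
    by_contra hcon
    have h5 : (V i).valuation (u i) < 1 := by
      have h6 : u i = r i (u i) - (r i (u i) - u i) := by ring
      rw [h6]
      exact (V i).valuation.map_sub_lt (not_le.1 hcon) (hin i _ (hle i _ (hu i).1))
    exact absurd (hu i).2 h5.ne
  · rw [map_prod]
    exact Finset.prod_congr rfl fun i _ => hτ i _

/-- Norms of units. -/
theorem exists_norm {G : Type} [Group G] [Finite G] {ρ : ∀ i, G →* (E i ≃ₐ[k] E i)}
    (σ : G →* (L ≃ₐ[k] L)) (hσ : ∀ g i x, σ g (e i x) = e i (ρ i g x))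
    (hst : ∀ g i, ∀ a ∈ A i, ρ i g a ∈ A i) {V : ∀ i, ValuationSubring (E i)}
    (hle : ∀ i, ∀ a ∈ A i, a ∈ V i) (P : Subgroup G) (hP : P ≤ inr ρ V) {u : L}
    (hu : UV e A V u) :
    ∃ c' y, UV e A V c' ∧ (∀ g ∈ P, σ g c' = c') ∧ y ∈ BB e A ∧ c' = u * y := by
  classical
  let _ : Fintype P := Fintype.ofFinite _
  have h1 : ∀ g : P, UV e A V (σ g u) := fun g =>
    UV_map' hle (σ g) (fun i => ρ i g) (hσ _) (hst _) (mem_inr.1 (hP g.2)) hu
  refine ⟨∏ g : P, σ g u, ∏ g ∈ Finset.univ.erase (1 : P), σ g u, ?_, ?_, ?_, ?_⟩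
  · have h2 : ∀ S : Finset P, UV e A V (∏ g ∈ S, σ g u) := by
      intro S
      induction S using Finset.induction_on with
      | empty => rw [Finset.prod_empty]; exact UV.one
      | insert W S hW ih => rw [Finset.prod_insert hW]; exact (h1 W).mul ih
    exact h2 _
  · intro g hg
    rw [map_prod]
    refine Fintype.prod_equiv (Equiv.mulLeft (⟨g, hg⟩ : P)) _ _ fun g' => ?_
    change σ g (σ g' u) = σ (g * g') u
    rw [map_mul, AlgEquiv.mul_apply]
  · exact Subalgebra.prod_mem _ fun g _ => (h1 g).mem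
  · rw [← Finset.mul_prod_erase Finset.univ _ (Finset.mem_univ (1 : P))]
    congr 1
    change σ ((1 : P) : G) u = u
    rw [Subgroup.coe_one, map_one, AlgEquiv.one_apply]

section pt

variable (h : CD e A Z wt D) {Q : Ideal (RF (FF e A Z wt) D)} (hQ : Q.IsPrime)
  {V : ∀ i, ValuationSubring (E i)} (hV : V ∈ Z) (hover : Over (Q.comap (j0 h)) V)
  {c : L} (hc : UV e A V c) (hcN : ∀ V' ∈ Z, V' ≠ V → c ∈ JJ e V' (wt V') D)
  {t : ∀ i, E i} (ht : ∀ i, t i ∈ A i ∧ IsUf (V i) (t i))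

include hQ hV hover hc hcN ht

/-- Elements of high degree of one factor. -/
theorem b_elem {j : ι} (hX : ¬ MQ Q (hm (wt V j : ℤ) (c * e j (t j)))) {Y : E j} {μ Λ : ℕ}
    (hY : (V j).valuation Y = (V j).valuation (t j) ^ μ) (hμ : wt V j * μ = Λ) (hΛ : Λ ≤ D)
    {c' : L} (hc' : UV e A V c') (hcB : c' * e j Y ∈ BB e A)
    (hcN' : ∀ V' ∈ Z, V' ≠ V → c' * e j Y ∈ JJ e V' (wt V') Λ) :
    hm (Λ : ℤ) (c' * e j Y) ∈ RF (FF e A Z wt) D ∧ ¬ MQ Q (hm (Λ : ℤ) (c' * e j Y)) := by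
  have hF := h.filt
  have hR : hm (Λ : ℤ) (c' * e j Y) ∈ RF (FF e A Z wt) D := by
    refine RF_hm hΛ (mem_FF.2 ⟨hcB, fun V' hV' => ?_⟩)
    by_cases hVV : V' = V
    · subst hVV
      have h1 := BB_le_JJ (e := e) (h.loc V' hV') (wt V') hc'.mem le_rfl
      have h2 : e j Y ∈ JJ e V' (wt V') Λ := by
        refine JJ_single (h.loc V' hV').uf' j ((pw_iff (ht j).2).2 hY.le) ?_
        rw [hμ]
      have h3 := JJ_mul h1 h2
      rwa [zero_add] at h3
    · exact hcN' V' hV' hVV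
  refine ⟨hR, fun hmem => ?_⟩
  obtain ⟨u, huV, hYu⟩ := (ht j).2.exists_mul hY.le
  have hu1 : (V j).valuation u = 1 := by
    rw [hYu, map_mul, map_pow] at hY
    exact mul_left_cancel₀ (pow_ne_zero _ (ht j).2.ne0) (hY.trans (mul_one _).symm)
  obtain ⟨a, ha, f, hf, hf1, huf⟩ := (h.loc V hV).den j u huV
  have ha1 : (V j).valuation a = 1 := by rw [← huf, map_mul, hu1, hf1, one_mul]
  have hXR := h.gens hV hc hcN ht j
  have h1 : hm 0 (c ^ μ * e j f) * hm (Λ : ℤ) (c' * e j Y) =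
      hm (wt V j : ℤ) (c * e j (t j)) ^ μ * hm 0 (c' * e j a) := by
    rw [hm_pow, hm_mul, hm_mul, zero_add, add_zero]
    have h2 : (μ : ℤ) * (wt V j : ℤ) = (Λ : ℤ) := by
      rw [← hμ]
      push_cast
      ring
    rw [h2]
    congr 1
    rw [hYu, ← huf]
    simp only [map_mul, map_pow]
    ring
  have h2 : MQ Q (hm 0 (c ^ μ * e j f) * hm (Λ : ℤ) (c' * e j Y)) :=
    MQ.mul_left (RF_zero hF ((BB e A).mul_mem ((BB e A).pow_mem hc.mem _) (mem_BB j hf))) hmem
  rw [h1] at h2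
  have ha' : UV e A V (c' * e j a) := hc'.mul (UV.single j ha ha1)
  exact not_MQ_mul hQ (Subalgebra.pow_mem _ hXR _) (RF_zero hF ha'.mem)
    (not_MQ_pow hQ hXR hX _) (ha'.not_MQ h hQ hV hover) h2

/-- The action on the elements. -/
theorem b_move (hk : ∀ i, ∀ x : k, algebraMap k (E i) x ∈ V i) {j : ι} {Y : E j} {Λ : ℕ}
    (hYV : (V j).valuation Y < 1) {c' : L} (hc' : UV e A V c')
    (hR : hm (Λ : ℤ) (c' * e j Y) ∈ RF (FF e A Z wt) D)
    (hRQ : ¬ MQ Q (hm (Λ : ℤ) (c' * e j Y)))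
    (τ : L ≃ₐ[k] L) (r : E j ≃ₐ[k] E j) (hτ : ∀ x, τ (e j x) = e j (r x)) (hcτ : τ c' = c')
    {κ : k} (hκ : κ ≠ 0) (hrY : r Y⁻¹ = Y⁻¹ + algebraMap k (E j) κ) (hY0 : Y ≠ 0) :
    ∃ s2 ∈ RF (FF e A Z wt) D, ∃ ξ ∈ RF (FF e A Z wt) D, ¬ MQ Q ξ ∧
      s2 * (tl τ (hm (Λ : ℤ) (c' * e j Y)) - hm (Λ : ℤ) (c' * e j Y)) =
        hm (-(Λ : ℤ)) 1 * ξ := by
  have hF := h.filt
  set κ' : E j := algebraMap k (E j) κ with hκ'
  have hκV : κ' ∈ V j := hk j κ
  have hκY : (V j).valuation (κ' * Y) < 1 := by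
    rw [map_mul]
    exact mul_lt_one_of_nonneg_of_lt_one_right (((V j).valuation_le_one_iff _).2 hκV) zero_le hYV
  have h1Y : (V j).valuation (1 + κ' * Y) = 1 := by
    have h1 := (V j).valuation.map_add_eq_of_lt_right (x := κ' * Y) (y := 1) (by rwa [map_one])
    rwa [add_comm, map_one] at h1
  have h1Y0 : 1 + κ' * Y ≠ 0 := by
    intro h0
    rw [h0, map_zero] at h1Y
    exact zero_ne_one h1Y
  obtain ⟨a, ha, f, hf, hf1, haf⟩ := (h.loc V hV).den j (1 + κ' * Y)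
    (((V j).valuation_le_one_iff _).1 h1Y.le)
  have ha1 : (V j).valuation a = 1 := by rw [← haf, map_mul, h1Y, hf1, one_mul]
  have hκ1 : (V j).valuation κ' = 1 := by
    refine le_antisymm (((V j).valuation_le_one_iff _).2 hκV) ?_
    have h3 := hk j κ⁻¹
    rw [map_inv₀] at h3
    have h4 : (V j).valuation κ'⁻¹ ≤ 1 := ((V j).valuation_le_one_iff _).2 h3
    rw [map_inv₀] at h4
    have h5 : (V j).valuation κ' ≠ 0 := by
      rw [Ne, map_eq_zero, hκ', map_eq_zero]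
      exact hκ
    exact (inv_le_one₀ (zero_lt_iff.2 h5)).1 h4
  have hκf : -(κ' * f) ∈ A j := (A j).neg_mem ((A j).mul_mem ((A j).algebraMap_mem κ) hf)
  have hκf1 : (V j).valuation (-(κ' * f)) = 1 := by
    rw [Valuation.map_neg, map_mul, hκ1, hf1, one_mul]
  have hκU : UV e A V (e j (-(κ' * f))) := UV.single j hκf hκf1
  have hrY2 : r Y - Y = -(κ' * Y ^ 2) / (1 + κ' * Y) := by
    have h3 : r Y = (Y⁻¹ + κ')⁻¹ := by
      rw [← hrY, map_inv₀, inv_inv]
    have h4 : Y⁻¹ + κ' = (1 + κ' * Y) / Y := by field_simp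
    rw [h3, h4]
    field_simp
    ring
  refine ⟨hm 0 (c' * e j a), RF_zero hF (hc'.mul (UV.single j ha ha1)).mem,
    hm (Λ : ℤ) (c' * e j Y) ^ 2 * hm 0 (e j (-(κ' * f))),
    Subalgebra.mul_mem _ (Subalgebra.pow_mem _ hR _) (RF_zero hF hκU.mem),
    not_MQ_mul hQ (Subalgebra.pow_mem _ hR _) (RF_zero hF hκU.mem) (not_MQ_pow hQ hR hRQ _)
      (hκU.not_MQ h hQ hV hover), ?_⟩
  rw [tl_hm', ← hm_sub, hm_pow, hm_mul, hm_mul, hm_mul, zero_add, add_zero]
  have h4 : -(Λ : ℤ) + ((2 : ℕ) : ℤ) * (Λ : ℤ) = (Λ : ℤ) := by push_cast; ring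
  rw [h4]
  congr 1
  have h5 : e j a * (e j (r Y) - e j Y) = e j Y ^ 2 * e j (-(κ' * f)) := by
    rw [← map_sub, ← map_mul, ← map_pow, ← map_mul, hrY2, ← haf]
    congr 1
    field_simp
  rw [map_mul, hcτ, hτ, one_mul]
  linear_combination (c' ^ 2) * h5

end pt

end Run7.h802.Rz
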