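import Pool.Agent.W369.WT.PCut
import Pool.Agent.W558.WT.All

/-!
# Restriction of a model to the Artin-Schreier divisor: the vertical logarithmic vectors on the poles
`chart3` is adapted from `Pool.Agent.W369.WT.chart2`.
-/

set_option autoImplicit false
set_option linter.unusedVariables false
set_option linter.unusedSectionVars false

universe u

open Polynomial

namespace Pool.Agent.Run7.h802.Ct

open Pool.Agent.W558 Pool.Agent.W973.CUT Pool.Agent.W973.CUT2 Pool.Agent.W177.WD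
open Pool.Agent.W174.WA Pool.Agent.W369.WT

section chart

variable {k L N : Type u} [Field k] [Field L] [Field N] [Algebra k L] [Algebra k N]
  [Algebra L N] [IsScalarTower k L N] {T0 I0 T I : Type} [Fintype I0] [Fintype I]

/-- A logarithmic vector which is vertical and tangent to `f = 0`, with a nonzero value of the
form of `x ^ μ * y`. -/
def VW (B : LM (⊥ : Subalgebra k L) ⊤ T0 I0) (M : LM (⊥ : Subalgebra k N) ⊤ T I) (t : T) (t0 : T0)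
    (le : ∀ a ∈ B.A t0, algebraMap L N a ∈ M.A t) (Θ : I → I0 → ℤ) (μ : I → ℤ) {y : N}
    (hy : y ∈ M.A t)
    {κ : Type u} [Field κ] [Algebra k κ] (φ : M.A t →ₐ[k] κ) (f : M.A t) : Prop :=
  ∃ v1 : LT φ (M.x t), v1.D.D f = 0 ∧
    (∀ a (ha : a ∈ B.A t0), v1.D.D ⟨algebraMap L N a, le a ha⟩ = 0) ∧
    (∀ i0, ∑ i, (Θ i i0 : κ) * v1.e i = 0) ∧ om v1 μ hy ≠ 0

/-- The value of the form on a vertical vector at a point where `y` is a unit. -/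
lemma om_vl {A : Subalgebra k N} {κ : Type u} [Field κ] [Algebra k κ] {φ : A →ₐ[k] κ} {y : N}
    {x : I → N} (w : LT φ (ox y x)) (hy : y ∈ A) (μ : I → ℤ) (hyi : y⁻¹ ∈ A) (hy0 : y ≠ 0)
    (h : w.e none + ∑ i, (μ i : κ) * w.e (some i) = 1) : om (drp w) μ hy ≠ 0 := by
  have h1 : om (drp w) μ hy = φ ⟨y, hy⟩ := by
    have e1 : w.D.D ⟨y, hy⟩ = φ ⟨y, hy⟩ * w.e none := w.hx none hy
    unfold om
    change w.D.D ⟨y, hy⟩ + φ ⟨y, hy⟩ * ∑ i, (μ i : κ) * w.e (some i) = _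
    rw [e1, ← mul_add, h, mul_one]
  rw [h1]
  exact (UN.of_inv (φ := φ) hy0 hy hyi).2

/-- type a -/
lemma ta3 (p : ℕ) [Fact p.Prime] [CharP k p] (B : LM (⊥ : Subalgebra k L) ⊤ T0 I0)
    (M : LM (⊥ : Subalgebra k N) ⊤ T I) (F : N) (Q : Subalgebra k N) (y r : T → N) (π : T → T0)
    (Θ : I → I0 → ℤ) (h0 : T0 → L) (n0 : I0 → ℤ) (c μ : I → ℤ)
    (hPS : PAS p M F Q y (fun t => algebraMap L N (h0 (π t))) r c μ)
    (hPT : PAT p B M π Θ F Q y h0 n0 c μ) (t : T)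
    (h1 : ∀ i, c i ≤ 0 ∨ (M.x t i)⁻¹ ∈ M.A t) (m0 : ∀ i, 0 ≤ -((p : ℤ) - 1) * μ i)
    (κ : Type u) [Field κ] [Algebra k κ] (φ : M.A t →ₐ[k] κ)
    (hX : (∏ i, M.x t i ^ (-c i)) * y t ^ p ∈ M.A t)
    (hY : (∏ i, M.x t i ^ (-((p : ℤ) - 1) * μ i - c i)) * y t ∈ M.A t)
    (hf : (∏ i, M.x t i ^ (-c i)) * y t ^ p -
      (∏ i, M.x t i ^ (-((p : ℤ) - 1) * μ i - c i)) * y t - algebraMap L N (h0 (π t)) ∈ M.A t)
    (hφ : φ ⟨_, hf⟩ = 0)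
    (hpole : ∃ i, μ i < 0 ∧ φ ⟨M.x t i, M.xA t i⟩ = 0) :
    VW B M t (π t) (hPT.ov.le t) Θ μ (hPS.yA t) φ ⟨_, hf⟩ ∧
    (∃ i0, n0 i0 < 0 ∧
      φ ⟨algebraMap L N (B.x (π t) i0), hPT.ov.le t _ (B.xA (π t) i0)⟩ = 0) ∧
    (φ ⟨algebraMap L N (h0 (π t)), hPS.hA t⟩ ≠ 0 → φ ⟨y t, hPS.yA t⟩ ≠ 0) := by
  have hx0 := M.x0 t
  have hp0 : (p : κ) = 0 := Pool.Agent.W177.WD.cast_zero (k := k) p κ
  have hp2 : (2 : ℤ) ≤ p := by exact_mod_cast (Fact.out : p.Prime).two_le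
  have he : ∀ i, 0 ≤ -((p : ℤ) - 1) * μ i - c i ∨ (M.x t i)⁻¹ ∈ M.A t := by
    intro i
    rcases h1 i with h | h
    · left
      have := m0 i
      omega
    · exact Or.inr h
  have e1 : (⟨_, hf⟩ : M.A t) = ⟨_, hX⟩ - ⟨_, hY⟩ - ⟨algebraMap L N (h0 (π t)), hPS.hA t⟩ := rfl
  obtain ⟨i, hmi, hi⟩ := hpole
  have hni := not_inv (φ := φ) (hx0 i) (M.xA t i) hi
  have hci : c i ≤ 0 := (h1 i).resolve_right hni
  have hpos : 0 < -((p : ℤ) - 1) * μ i - c i := by nlinarith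
  have hzm : ZE φ (∏ i, M.x t i ^ (-((p : ℤ) - 1) * μ i - c i)) :=
    ZE.prod _ (fun j => zpow_mem_of (M.xA t j) (he j)) i (ZE.zpow (hx0 i) (M.xA t i) _ hpos hi)
  have hz' : φ ⟨_, hY⟩ = 0 := (hzm.mul_left (hPS.yA t)).2
  refine ⟨?_, ?_, ?_⟩
  · rcases hPT.vt t κ φ with hy | ⟨D, hDy, hDx, hDB⟩
    · obtain ⟨w, hv1, hv2, hv3⟩ := hPT.vl t κ φ
      have hwh : w.D.D ⟨algebraMap L N (h0 (π t)), hPS.hA t⟩ = 0 := hv1 _ (hPT.hA (π t))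
      have hwc : ∑ i, (c i : κ) * w.e (some i) = 0 := by
        rw [sumc p hp0 c μ n0 Θ hPT.ce]
        refine Finset.sum_eq_zero fun i0 _ => ?_
        rw [hv2 i0, mul_zero]
      refine ⟨drp w, ?_, hv1, hv2, om_vl w (hPS.yA t) μ hy (hPS.y0 t) hv3⟩
      change w.D.D ⟨_, hf⟩ = 0
      rw [da p M t (y t) (algebraMap L N (h0 (π t))) c μ (hPS.yA t) (hPS.hA t) m0 h1 κ φ w hX hY
        hf, hwh, hwc, hz']
      ring
    · have hDh : D.D ⟨algebraMap L N (h0 (π t)), hPS.hA t⟩ = 0 := hDB _ (hPT.hA (π t))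
      refine ⟨⟨D, fun _ => 0, fun i _ => by rw [mul_zero]; exact hDx i⟩, ?_, hDB, fun i0 => by simp,
        ?_⟩
      · change D.D ⟨_, hf⟩ = 0
        have hLx : ∀ i, LG D (M.x t i) 0 := fun i => ⟨M.xA t i, by rw [hDx i, mul_zero]⟩
        have hc' : ∀ i, 0 ≤ -c i ∨ (M.x t i)⁻¹ ∈ M.A t := by
          intro i
          rcases h1 i with h | h
          · left; omega
          · exact Or.inr h
        have L1 : LG D (∏ i, M.x t i ^ (-c i)) (∑ i, ((-c i : ℤ) : κ) * 0) :=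
          LG.prod _ _ _ fun i _ => (hLx i).zpow (hx0 i) _ (hc' i)
        have L2 : LG D (∏ i, M.x t i ^ (-((p : ℤ) - 1) * μ i - c i))
            (∑ i, ((-((p : ℤ) - 1) * μ i - c i : ℤ) : κ) * 0) :=
          LG.prod _ _ _ fun i _ => (hLx i).zpow (hx0 i) _ (he i)
        simp only [mul_zero, Finset.sum_const_zero] at L1 L2
        have hyp : D.D (⟨y t, hPS.yA t⟩ ^ p) = 0 := by
          rw [D_pow, hp0, zero_mul]
        have e2 : (⟨_, hX⟩ : M.A t) = ⟨_, L1.mem⟩ * ⟨y t, hPS.yA t⟩ ^ p := rfl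
        have e3 : (⟨_, hY⟩ : M.A t) = ⟨_, L2.mem⟩ * ⟨y t, hPS.yA t⟩ := rfl
        have hU2 : φ ⟨_, L2.mem⟩ = 0 := hzm.2
        rw [e1, map_sub, map_sub, hDh, e2, e3, D.leib, D.leib, hyp, L1.eq, L2.eq, hU2]
        ring
      · have h5 : om (⟨D, fun _ => 0, fun i _ => by rw [mul_zero]; exact hDx i⟩ :
            LT φ (M.x t)) μ (hPS.yA t) = D.D ⟨y t, hPS.yA t⟩ := by
          unfold om
          simp
        rw [h5]
        exact hDy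
  · rcases hPT.ri t i hni (Or.inl hmi) with ⟨i0, hn0, hΘ⟩ | h
    · exact ⟨i0, hn0, pole hPT.ov t φ i hi i0 hΘ⟩
    · omega
  · intro hh hy
    apply hh
    have hX0 : φ ⟨_, hX⟩ = 0 := by
      have hc' : ∀ i, 0 ≤ -c i ∨ (M.x t i)⁻¹ ∈ M.A t := by
        intro i
        rcases h1 i with h | h
        · left; omega
        · exact Or.inr h
      have h2 : ∏ i, M.x t i ^ (-c i) ∈ M.A t :=
        (M.A t).prod_mem fun j _ => zpow_mem_of (M.xA t j) (hc' j)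
      have e2 : (⟨_, hX⟩ : M.A t) = ⟨_, h2⟩ * ⟨y t, hPS.yA t⟩ ^ p := rfl
      rw [e2, map_mul, map_pow, hy, zero_pow (Fact.out : p.Prime).ne_zero, mul_zero]
    rw [e1, map_sub, map_sub, hz', hX0] at hφ
    linear_combination -hφ

/-- type b -/
lemma tb3 (p : ℕ) [Fact p.Prime] [CharP k p] (B : LM (⊥ : Subalgebra k L) ⊤ T0 I0)
    (M : LM (⊥ : Subalgebra k N) ⊤ T I) (F : N) (Q : Subalgebra k N) (y r : T → N) (π : T → T0)
    (Θ : I → I0 → ℤ) (h0 : T0 → L) (n0 : I0 → ℤ) (c μ : I → ℤ)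
    (hPS : PAS p M F Q y (fun t => algebraMap L N (h0 (π t))) r c μ)
    (hPT : PAT p B M π Θ F Q y h0 n0 c μ) (t : T)
    (h1 : ∀ i, 0 ≤ c i ∨ (M.x t i)⁻¹ ∈ M.A t) (h2 : (y t)⁻¹ ∈ M.A t)
    (m0 : ∀ i, 0 ≤ -((p : ℤ) - 1) * μ i)
    (κ : Type u) [Field κ] [Algebra k κ] (φ : M.A t →ₐ[k] κ)
    (hX : (∏ i, M.x t i ^ c i) * (y t)⁻¹ ^ p ∈ M.A t)
    (hY : (∏ i, M.x t i ^ (-((p : ℤ) - 1) * μ i)) * ((y t)⁻¹ ^ p * y t) ∈ M.A t)
    (hf : 1 - (∏ i, M.x t i ^ (-((p : ℤ) - 1) * μ i)) * ((y t)⁻¹ ^ p * y t) -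
      (∏ i, M.x t i ^ c i) * (y t)⁻¹ ^ p * algebraMap L N (h0 (π t)) ∈ M.A t)
    (hφ : φ ⟨_, hf⟩ = 0)
    (hpole : ∃ i, μ i < 0 ∧ φ ⟨M.x t i, M.xA t i⟩ = 0) :
    VW B M t (π t) (hPT.ov.le t) Θ μ (hPS.yA t) φ ⟨_, hf⟩ ∧
    (∃ i0, n0 i0 < 0 ∧
      φ ⟨algebraMap L N (B.x (π t) i0), hPT.ov.le t _ (B.xA (π t) i0)⟩ = 0) ∧
    (φ ⟨algebraMap L N (h0 (π t)), hPS.hA t⟩ ≠ 0 → φ ⟨y t, hPS.yA t⟩ ≠ 0) := by
  have hx0 := M.x0 t
  have hp0 : (p : κ) = 0 := Pool.Agent.W177.WD.cast_zero (k := k) p κ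
  have hp2 : (2 : ℤ) ≤ p := by exact_mod_cast (Fact.out : p.Prime).two_le
  have e1 : (⟨_, hf⟩ : M.A t) = 1 - ⟨_, hY⟩ - ⟨_, hX⟩ *
    ⟨algebraMap L N (h0 (π t)), hPS.hA t⟩ := rfl
  have hUy : UN φ ((y t)⁻¹ ^ p * y t) :=
    (UN.pow (UN.of_inv (inv_ne_zero (hPS.y0 t)) h2 (by rw [inv_inv]; exact hPS.yA t)) p).mul
      (UN.of_inv (hPS.y0 t) (hPS.yA t) h2)
  obtain ⟨i, hmi, hi⟩ := hpole
  have hpos : 0 < -((p : ℤ) - 1) * μ i := by nlinarith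
  have hz : ZE φ ((∏ i, M.x t i ^ (-((p : ℤ) - 1) * μ i)) * ((y t)⁻¹ ^ p * y t)) := by
    refine ZE.mul_left (ZE.prod _ (fun j => zpow_mem_of (M.xA t j) (Or.inl (m0 j))) i ?_) hUy.1
    exact ZE.zpow (hx0 i) (M.xA t i) _ hpos hi
  have hz' : φ ⟨_, hY⟩ = 0 := hz.2
  have e2 : φ ⟨_, hX⟩ * φ ⟨algebraMap L N (h0 (π t)), hPS.hA t⟩ = 1 := by
    rw [e1, map_sub, map_sub, map_one, map_mul, hz', sub_zero, sub_eq_zero] at hφ
    exact hφ.symm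
  have hcj : c i ≤ 0 := by
    by_contra hcon
    push Not at hcon
    have h3 : ZE φ ((∏ i, M.x t i ^ c i) * (y t)⁻¹ ^ p) := by
      refine ZE.mul_left (ZE.prod _ (fun j => zpow_mem_of (M.xA t j) (h1 j)) i ?_)
        ((M.A t).pow_mem h2 p)
      exact ZE.zpow (hx0 i) (M.xA t i) _ hcon hi
    have h4 : φ ⟨_, hX⟩ = 0 := h3.2
    rw [h4, zero_mul] at e2
    exact zero_ne_one e2
  refine ⟨?_, ?_, fun _ => (UN.of_inv (hPS.y0 t) (hPS.yA t) h2).2⟩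
  · obtain ⟨w, hv1, hv2, hv3⟩ := hPT.vl t κ φ
    have hwh : w.D.D ⟨algebraMap L N (h0 (π t)), hPS.hA t⟩ = 0 := hv1 _ (hPT.hA (π t))
    have hwc : ∑ i, (c i : κ) * w.e (some i) = 0 := by
      rw [sumc p hp0 c μ n0 Θ hPT.ce]
      refine Finset.sum_eq_zero fun i0 _ => ?_
      rw [hv2 i0, mul_zero]
    refine ⟨drp w, ?_, hv1, hv2, om_vl w (hPS.yA t) μ h2 (hPS.y0 t) hv3⟩
    have hom0 : om w (fun o => o.elim 0 c) (hPS.hA t) = 0 := by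
      rw [om, Fintype.sum_option]
      simp only [Option.elim_none, Option.elim_some, Int.cast_zero, zero_mul, zero_add]
      rw [hwh, hwc, mul_zero, add_zero]
    change w.D.D ⟨_, hf⟩ = 0
    rw [db p M t (y t) (algebraMap L N (h0 (π t))) c μ (hPS.y0 t) (hPS.yA t) (hPS.hA t) m0 h1 h2 κ
      φ w hX hY hf, hom0, hz']
    ring
  · rcases hPT.ri t i (not_inv (φ := φ) (hx0 i) (M.xA t i) hi) (Or.inl hmi) with ⟨i0, hn0, hΘ⟩ | h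
    · exact ⟨i0, hn0, pole hPT.ov t φ i hi i0 hΘ⟩
    · omega

/-- The local equation of the divisor. -/
lemma chart3 (p : ℕ) [Fact p.Prime] [CharP k p] (B : LM (⊥ : Subalgebra k L) ⊤ T0 I0)
    (M : LM (⊥ : Subalgebra k N) ⊤ T I) (F : N) (Q : Subalgebra k N) (y r : T → N) (π : T → T0)
    (Θ : I → I0 → ℤ) (h0 : T0 → L) (n0 : I0 → ℤ) (c μ : I → ℤ)
    (hPS : PAS p M F Q y (fun t => algebraMap L N (h0 (π t))) r c μ)
    (hPT : PAT p B M π Θ F Q y h0 n0 c μ) (hF : Fin2 M y c) (t : T) :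
    ∃ f ∈ M.A t, ∃ u, u ≠ 0 ∧ u ∈ Q ∧ u⁻¹ ∈ Q ∧ F = u * f ∧
      (∀ (κ : Type u) [Field κ] [Algebra k κ] (φ : M.A t →ₐ[k] κ) (hf : f ∈ M.A t),
        φ ⟨f, hf⟩ = 0 → ∃ D : TV φ, D.D ⟨f, hf⟩ ≠ 0 ∧
          ∀ i, φ ⟨M.x t i, M.xA t i⟩ = 0 → D.D ⟨M.x t i, M.xA t i⟩ = 0) ∧
      (∀ (κ : Type u) [Field κ] [Algebra k κ] (φ : M.A t →ₐ[k] κ) (hf : f ∈ M.A t),
        φ ⟨f, hf⟩ = 0 → ∀ v : LT φ (ox (y t) (M.x t)),
          v.e none + ∑ i, (μ i : κ) * v.e (some i) = 0 →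
          ((∃ i0, n0 i0 < 0 ∧
            φ ⟨algebraMap L N (B.x (π t) i0), hPT.ov.le t _ (B.xA (π t) i0)⟩ = 0) →
            om v (fun o => o.elim 0 c) (hPS.hA t) = 0) →
          v.D.D ⟨f, hf⟩ = 0 ∨ VT B M t (π t) (hPT.ov.le t) Θ φ ⟨f, hf⟩) ∧
      (∀ (κ : Type u) [Field κ] [Algebra k κ] (φ : M.A t →ₐ[k] κ) (hf : f ∈ M.A t),
        φ ⟨f, hf⟩ = 0 → (∃ i, μ i < 0 ∧ φ ⟨M.x t i, M.xA t i⟩ = 0) →
          VW B M t (π t) (hPT.ov.le t) Θ μ (hPS.yA t) φ ⟨f, hf⟩ ∧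
          (∃ i0, n0 i0 < 0 ∧
            φ ⟨algebraMap L N (B.x (π t) i0), hPT.ov.le t _ (B.xA (π t) i0)⟩ = 0) ∧
          (φ ⟨algebraMap L N (h0 (π t)), hPS.hA t⟩ ≠ 0 → φ ⟨y t, hPS.yA t⟩ ≠ 0)) := by
  have hx0 := M.x0 t
  have hy0 := hPS.y0 t
  have hp2 : (2 : ℤ) ≤ p := by exact_mod_cast (Fact.out : p.Prime).two_le
  have m0 : ∀ i, 0 ≤ -((p : ℤ) - 1) * μ i := by
    intro i
    have := hPS.m0 i
    nlinarith
  have hxQ : ∀ i, M.x t i ∈ Q := fun i => hPS.AQ t (M.xA t i)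
  have hyQ : y t ∈ Q := hPS.AQ t (hPS.yA t)
  have hz : ∀ (n : ℤ) i, M.x t i ^ n ∈ Q := fun n i =>
    zpow_mem_of (hxQ i) (Or.inr (hPS.xQ t i))
  have hP0 : ∀ m : I → ℤ, ∏ i, M.x t i ^ m i ≠ 0 := fun m =>
    Finset.prod_ne_zero_iff.2 fun i _ => zpow_ne_zero _ (hx0 i)
  have hPQ : ∀ m : I → ℤ, ∏ i, M.x t i ^ m i ∈ Q := fun m => Q.prod_mem fun i _ => hz _ i
  have hPQ' : ∀ m : I → ℤ, (∏ i, M.x t i ^ m i)⁻¹ ∈ Q := fun m => by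
    rw [← Finset.prod_inv_distrib]
    refine Q.prod_mem fun i _ => ?_
    rw [← zpow_neg]
    exact hz _ i
  have hneg : ∀ m : I → ℤ, ∏ i, M.x t i ^ (-m i) = (∏ i, M.x t i ^ m i)⁻¹ := fun m => by
    rw [← Finset.prod_inv_distrib]
    exact Finset.prod_congr rfl fun i _ => zpow_neg _ _
  have hsub : ∀ m m' : I → ℤ, ∏ i, M.x t i ^ (m i - m' i) =
      (∏ i, M.x t i ^ m i) * (∏ i, M.x t i ^ m' i)⁻¹ := fun m m' => by
    rw [← hneg, ← Finset.prod_mul_distrib]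
    refine Finset.prod_congr rfl fun i _ => ?_
    rw [← zpow_add₀ (hx0 i), sub_eq_add_neg]
  have heq := hPS.eq t
  rcases hF t with h1 | ⟨h1, h2⟩
  · -- first case
    have hXA : (∏ i, M.x t i ^ (-c i)) * y t ^ p ∈ M.A t := by
      refine (M.A t).mul_mem ((M.A t).prod_mem fun i _ => ?_) ((M.A t).pow_mem (hPS.yA t) p)
      refine zpow_mem_of (M.xA t i) ?_
      rcases h1 i with h | h
      · left; omega
      · exact Or.inr h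
    have hYA : (∏ i, M.x t i ^ (-((p : ℤ) - 1) * μ i - c i)) * y t ∈ M.A t := by
      refine (M.A t).mul_mem ((M.A t).prod_mem fun i _ => ?_) (hPS.yA t)
      refine zpow_mem_of (M.xA t i) ?_
      rcases h1 i with h | h
      · left
        have := m0 i
        omega
      · exact Or.inr h
    refine ⟨(∏ i, M.x t i ^ (-c i)) * y t ^ p -
      (∏ i, M.x t i ^ (-((p : ℤ) - 1) * μ i - c i)) * y t - algebraMap L N (h0 (π t)),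
      (M.A t).sub_mem ((M.A t).sub_mem hXA hYA) (hPS.hA t),
      (∏ i, M.x t i ^ ((p : ℤ) * μ i)) * ∏ i, M.x t i ^ c i,
      mul_ne_zero (hP0 _) (hP0 _), Q.mul_mem (hPQ _) (hPQ _), ?_, ?_, ?_, ?_, ?_⟩
    · rw [mul_inv]
      exact Q.mul_mem (hPQ' _) (hPQ' _)
    · rw [hneg, hsub (fun i => -((p : ℤ) - 1) * μ i) c]
      have := hP0 c
      conv_lhs => rw [heq]
      rw [mul_assoc]
      congr 1
      field_simp
    · intro κ _ _ φ hf hφ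
      exact va p M F Q y _ r c μ hPS t h1 m0 κ φ hXA hYA hf hφ
    · intro κ _ _ φ hf hφ v hv hom
      exact ta p B M F Q y r π Θ h0 n0 c μ hPS hPT t h1 m0 κ φ hXA hYA hf hφ v hv hom
    · intro κ _ _ φ hf hφ hpole
      exact ta3 p B M F Q y r π Θ h0 n0 c μ hPS hPT t h1 m0 κ φ hXA hYA hf hφ hpole
  · -- second case
    have hXA : (∏ i, M.x t i ^ (c i)) * (y t)⁻¹ ^ p ∈ M.A t :=
      (M.A t).mul_mem ((M.A t).prod_mem fun i _ => zpow_mem_of (M.xA t i) (h1 i))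
        ((M.A t).pow_mem h2 p)
    have hYA : (∏ i, M.x t i ^ (-((p : ℤ) - 1) * μ i)) * ((y t)⁻¹ ^ p * y t) ∈ M.A t :=
      (M.A t).mul_mem ((M.A t).prod_mem fun i _ => zpow_mem_of (M.xA t i) (Or.inl (m0 i)))
        ((M.A t).mul_mem ((M.A t).pow_mem h2 p) (hPS.yA t))
    refine ⟨1 - (∏ i, M.x t i ^ (-((p : ℤ) - 1) * μ i)) * ((y t)⁻¹ ^ p * y t) -
      (∏ i, M.x t i ^ (c i)) * (y t)⁻¹ ^ p * algebraMap L N (h0 (π t)),
      (M.A t).sub_mem ((M.A t).sub_mem (M.A t).one_mem hYA) ((M.A t).mul_mem hXA (hPS.hA t)),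
      (∏ i, M.x t i ^ ((p : ℤ) * μ i)) * y t ^ p,
      mul_ne_zero (hP0 _) (pow_ne_zero _ hy0), Q.mul_mem (hPQ _) (Q.pow_mem hyQ p), ?_, ?_, ?_, ?_,
      ?_⟩
    · rw [mul_inv, ← inv_pow]
      exact Q.mul_mem (hPQ' _) (Q.pow_mem (hPS.yQ t) p)
    · conv_lhs => rw [heq]
      have := pow_ne_zero p hy0
      rw [mul_assoc]
      congr 1
      rw [inv_pow]
      field_simp
    · intro κ _ _ φ hf hφ
      exact vb p M F Q y _ r c μ hPS t h1 h2 m0 κ φ hXA hYA hf hφ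
    · intro κ _ _ φ hf hφ v hv hom
      exact tb p B M F Q y r π Θ h0 n0 c μ hPS hPT t h1 h2 m0 κ φ hXA hYA hf hφ v hv hom
    · intro κ _ _ φ hf hφ hpole
      exact tb3 p B M F Q y r π Θ h0 n0 c μ hPS hPT t h1 h2 m0 κ φ hXA hYA hf hφ hpole

end chart

end Pool.Agent.Run7.h802.Ct
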