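import Pool.Agent.Run7.h802.Ct1
import Pool.Agent.W558.WT.Asm1

/-!
# Restriction of a model to the Artin-Schreier divisor, with the normal form of the new function
`pcutP` is adapted from `Pool.Agent.W369.WT.pcut_main`.
-/

set_option autoImplicit false
set_option linter.unusedVariables false
set_option linter.unusedSectionVars false

universe u

open Polynomial

namespace Pool.Agent.Run7.h802.Ct

open Pool.Agent.W558 Pool.Agent.W973.CUT Pool.Agent.W973.CUT2 Pool.Agent.W177.WD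
open Pool.Agent.W174.WA Pool.Agent.W369.WT

/-- The point `φ` lies on a component where the exponent `n` is negative. -/
def PO {k K : Type u} [Field k] [Field K] [Algebra k K] {A : Subalgebra k K} {κ : Type u}
    [Field κ] [Algebra k κ] (φ : A →ₐ[k] κ) {I : Type} (x : I → K) (n : I → ℤ) : Prop :=
  ∃ i, n i < 0 ∧ ZE φ (x i)

section shift

variable {k N : Type u} [Field k] [Field N] [Algebra k N] {I : Type} [Fintype I]

/-- Adding a constant to a function with poles does not change the form. -/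
lemma om_shift {A : Subalgebra k N} {κ : Type u} [Field κ] [Algebra k κ] {φ : A →ₐ[k] κ}
    {x : I → N} (hx0 : ∀ i, x i ≠ 0) (hxA : ∀ i, x i ∈ A) (w : LT φ x) (μ : I → ℤ)
    (hμ : ∀ i, μ i ≤ 0) {y : N} (hy : y ∈ A) (c : k)
    (hY : y + algebraMap k N c * ∏ i, x i ^ (-μ i) ∈ A) : om w μ hY = om w μ hy := by
  have hLx : ∀ i, LG w.D (x i) (w.e i) := fun i => ⟨hxA i, w.hx i (hxA i)⟩
  have L1 : LG w.D (∏ i, x i ^ (-μ i)) (∑ i, ((-μ i : ℤ) : κ) * w.e i) :=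
    LG.prod _ _ _ fun i _ => (hLx i).zpow (hx0 i) _ (Or.inl (by have := hμ i; omega))
  have hc : algebraMap k N c ∈ A := A.algebraMap_mem c
  obtain ⟨hm, he⟩ := L1
  have e1 : (⟨_, hY⟩ : A) = ⟨y, hy⟩ + (algebraMap k A c) * ⟨_, hm⟩ := rfl
  have hs : ∑ i, ((-μ i : ℤ) : κ) * w.e i = -∑ i, (μ i : κ) * w.e i := by
    rw [← Finset.sum_neg_distrib]
    refine Finset.sum_congr rfl fun i _ => ?_
    push_cast
    ring
  have hDc : w.D.D (algebraMap k A c) = 0 := by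
    rw [Algebra.algebraMap_eq_smul_one, map_smul, w.D.D_one, smul_zero]
  unfold om
  rw [e1, map_add, w.D.leib, hDc, mul_zero, add_zero, map_add, map_mul, he, hs]
  ring

end shift

section lift

variable {k L N K : Type u} [Field k] [Field L] [Field N] [Field K] [Algebra k L] [Algebra k N]
  [Algebra L N] [IsScalarTower k L N] [Algebra k K] [Algebra L K] [IsScalarTower k L K]
  {T0 I0 T I : Type} [Fintype I0] [Fintype I] {Q : Subalgebra k N}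

/-- The vertical vectors, on a chart. -/
lemma vert_chart (p : ℕ) [Fact p.Prime] [CharP k p] (B : LM (⊥ : Subalgebra k L) ⊤ T0 I0)
    (M : LM (⊥ : Subalgebra k N) ⊤ T I) (F : N) (y : T → N) (π0 : T → T0)
    (Θ : I → I0 → ℤ) (h0 : T0 → L) (n0 : I0 → ℤ) (c μ : I → ℤ)
    (hA : ∀ t, algebraMap L N (h0 (π0 t)) ∈ M.A t)
    (hPT : PAT p B M π0 Θ F Q y h0 n0 c μ) (π : Q →ₐ[k] K)
    (hcomp : ∀ l, algebraMap L N l ∈ Q → pq π (algebraMap L N l) = algebraMap L K l)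
    (t : T) (f : N) (hfA : f ∈ M.A t) (hf0 : f ≠ 0) (hfπ : pq π f = 0)
    (hker : LK π (M.A t) f)
    (hv3 : ∀ (κ : Type u) [Field κ] [Algebra k κ] (φ : M.A t →ₐ[k] κ),
        φ ⟨f, hfA⟩ = 0 → (∃ i, μ i < 0 ∧ φ ⟨M.x t i, M.xA t i⟩ = 0) →
          VW B M t (π0 t) (hPT.ov.le t) Θ μ (hPT.yA t) φ ⟨f, hfA⟩ ∧
          (∃ i0, n0 i0 < 0 ∧
            φ ⟨algebraMap L N (B.x (π0 t) i0), hPT.ov.le t _ (B.xA (π0 t) i0)⟩ = 0) ∧
          (φ ⟨algebraMap L N (h0 (π0 t)), hA t⟩ ≠ 0 → φ ⟨y t, hPT.yA t⟩ ≠ 0))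
    (A' : Subalgebra k K) (x' : I → K) (hA' : A' = im π (M.A t) (hPT.AQ t))
    (hx' : x' = fun i => pq π (M.x t i))
    (le' : ∀ a ∈ B.A (π0 t), algebraMap L K a ∈ A') (c0 : k)
    (y' : K) (hy' : y' = pq π (y t + algebraMap k N c0 * ∏ i, M.x t i ^ (-μ i)))
    (hyA' : y' ∈ A')
    (κ : Type u) [Field κ] [Algebra k κ] (φ' : A' →ₐ[k] κ) (hpo : PO φ' x' μ) :
    (∃ v' : LT φ' x',
      (∀ a (ha : a ∈ B.A (π0 t)), v'.D.D ⟨algebraMap L K a, le' a ha⟩ = 0) ∧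
      (∀ i, ∑ i', (Θ i' i : κ) * v'.e i' = 0) ∧ om v' μ hyA' ≠ 0) ∧
    (∃ i0, n0 i0 < 0 ∧ φ' ⟨algebraMap L K (B.x (π0 t) i0), le' _ (B.xA (π0 t) i0)⟩ = 0) ∧
    (∀ hh : algebraMap L K (h0 (π0 t)) ∈ A', φ' ⟨_, hh⟩ ≠ 0 → φ' ⟨y', hyA'⟩ ≠ 0) := by
  subst hA' hx' hy'
  have hp0 : (p : κ) = 0 := Pool.Agent.W177.WD.cast_zero (k := k) p κ
  let φ : M.A t →ₐ[k] κ := φ'.comp (qm π (M.A t) (hPT.AQ t))
  have hφ : ∀ a (ha : a ∈ M.A t), φ ⟨a, ha⟩ = φ' ⟨pq π a, pq_mem π (hPT.AQ t) ha⟩ := by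
    intro a ha
    change φ' (qm π (M.A t) (hPT.AQ t) ⟨a, ha⟩) = _
    rw [qm_apply π (hPT.AQ t) ha]
  have hφL : ∀ a (ha : a ∈ B.A (π0 t)), φ ⟨algebraMap L N a, hPT.ov.le t a ha⟩ =
      φ' ⟨algebraMap L K a, le' a ha⟩ := by
    intro a ha
    rw [hφ]
    exact congrArg φ' (Subtype.ext (hcomp a (hPT.AQ t (hPT.ov.le t a ha))))
  have hfφ : φ ⟨f, hfA⟩ = 0 := by
    rw [hφ]
    have : (⟨pq π f, pq_mem π (hPT.AQ t) hfA⟩ : im π (M.A t) (hPT.AQ t)) = 0 := Subtype.ext hfπ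
    rw [this, map_zero]
  have hpole : ∃ i, μ i < 0 ∧ φ ⟨M.x t i, M.xA t i⟩ = 0 := by
    obtain ⟨i, hi, hiA, hz⟩ := hpo
    refine ⟨i, hi, ?_⟩
    rw [hφ]
    exact hz
  have hP : ∏ i, M.x t i ^ (-μ i) ∈ M.A t := (M.A t).prod_mem fun i _ =>
    zpow_mem_of (M.xA t i) (Or.inl (by have := hPT.m0 i; omega))
  have hYA : y t + algebraMap k N c0 * ∏ i, M.x t i ^ (-μ i) ∈ M.A t :=
    (M.A t).add_mem (hPT.yA t) ((M.A t).mul_mem ((M.A t).algebraMap_mem c0) hP)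
  obtain ⟨⟨w, hw0, hw1, hw2, hw3⟩, ⟨i0, hi0, hb⟩, hun⟩ := hv3 κ φ hfφ hpole
  refine ⟨?_, ⟨i0, hi0, ?_⟩, ?_⟩
  · obtain ⟨E, hE⟩ := desc2 π (hPT.AQ t) hfA hf0 hfπ hker φ' w.D hw0
    refine ⟨⟨E, w.e, ?_⟩, ?_, hw2, ?_⟩
    · intro i hi
      refine (hE _ (M.xA t i)).trans ?_
      rw [w.hx i (M.xA t i)]
      congr 1
      exact hφ _ _
    · intro a ha
      have e : (⟨algebraMap L K a, le' a ha⟩ : im π (M.A t) (hPT.AQ t)) =
          ⟨pq π (algebraMap L N a), pq_mem π (hPT.AQ t) (hPT.ov.le t a ha)⟩ :=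
        Subtype.ext (hcomp a (hPT.AQ t (hPT.ov.le t a ha))).symm
      change E.D ⟨algebraMap L K a, le' a ha⟩ = _
      rw [e, hE _ (hPT.ov.le t a ha)]
      exact hw1 a ha
    · have h1 : E.D ⟨_, hyA'⟩ + φ' ⟨_, hyA'⟩ * ∑ i, (μ i : κ) * w.e i = om w μ hYA := by
        have h2 := hE _ hYA
        have h3 := hφ _ hYA
        unfold om
        rw [h3]
        congr 1
      have h4 := om_shift (M.x0 t) (M.xA t) w μ hPT.m0 (hPT.yA t) c0 hYA
      unfold om at h4 ⊢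
      change E.D ⟨_, hyA'⟩ + φ' ⟨_, hyA'⟩ * ∑ i, (μ i : κ) * w.e i ≠ 0
      rw [h1]
      unfold om
      rw [h4]
      exact hw3
  · rw [← hφL _ (B.xA (π0 t) i0)]
    exact hb
  · intro hh hne
    have h1 : φ ⟨algebraMap L N (h0 (π0 t)), hA t⟩ ≠ 0 := by
      rw [hφ]
      have e : (⟨pq π (algebraMap L N (h0 (π0 t))), pq_mem π (hPT.AQ t) (hA t)⟩ :
          im π (M.A t) (hPT.AQ t)) = ⟨_, hh⟩ := Subtype.ext (hcomp _ (hPT.AQ t (hA t)))
      rw [e]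
      exact hne
    have h2 := hun h1
    have h3 := hφ _ hYA
    have h4 : φ ⟨_, hYA⟩ = φ ⟨y t, hPT.yA t⟩ := by
      have e1 : (⟨_, hYA⟩ : M.A t) = ⟨y t, hPT.yA t⟩ + algebraMap k (M.A t) c0 * ⟨_, hP⟩ := rfl
      obtain ⟨i, hi, hiz⟩ := hpole
      have h5 : ZE φ (∏ i, M.x t i ^ (-μ i)) := by
        refine ZE.prod _ (fun j => zpow_mem_of (M.xA t j) (Or.inl (by have := hPT.m0 j; omega))) i
          (ZE.zpow (M.x0 t i) (M.xA t i) _ (by omega) hiz)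
      have h6 : φ ⟨_, hP⟩ = 0 := h5.2
      rw [e1, map_add, map_mul, h6, mul_zero, add_zero]
    rw [← h3, h4]
    exact h2

end lift

/-- Restriction to the divisor of `F = Z ^ p - Z - f`, with the normal form of the image `z` of
`Z`. -/
theorem pcutP (p : ℕ) [Fact p.Prime] (k L N K : Type u) [Field k] [PerfectField k]
    [CharP k p] [Field L] [Field N] [Field K] [Algebra k L] [Algebra k N] [Algebra L N]
    [IsScalarTower k L N] [Algebra k K] [Algebra L K] [IsScalarTower k L K]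
    (T0 I0 T I G : Type) [Fintype I0] [Finite T] [Fintype I]
    (B : LM (⊥ : Subalgebra k L) ⊤ T0 I0) (f' : L) (n0 : I0 → ℤ) (a0 h0 : T0 → L)
    (M : LM (⊥ : Subalgebra k N) ⊤ T I) (F : N) (Q : Subalgebra k N) (y : T → N) (c μ : I → ℤ)
    (g : G → L) (Γ : G → I → ℤ) (hN : NAS p B f' n0 a0 h0) (hPX : PAX p B M F Q y h0 n0 c μ)
    (hLq : Lq M Q)
    (hFn : Fn M (fun b => algebraMap L N (g b)) Γ) (hF2 : Fin2 M y c)
    (hFQ : F ∈ Q) (hF0 : F ≠ 0) (π : Q →ₐ[k] K)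
    (hπ : ∀ q : Q, π q = 0 ↔ ∃ r ∈ Q, (q : N) = F * r)
    (hsurj : Function.Surjective π) (hQ : ∀ x : N, x ∈ Q ∨ x⁻¹ ∈ Q)
    (hcomp0 : ∀ (l : L) (hl : algebraMap L N l ∈ Q), π ⟨algebraMap L N l, hl⟩ = algebraMap L K l)
    (Z : N) (hFZ : F = Z ^ p - Z - algebraMap L N f') (hZQ : Z ∈ Q)
    (haQ : ∀ l : L, algebraMap L N l ∈ Q) :
    ∃ (T' I' : Type) (_ : Finite T') (_ : Fintype I') (M' : LM (⊥ : Subalgebra k K) ⊤ T' I')
      (π' : T' → T0) (Θ' : I' → I0 → ℤ) (ho : Ovr B M' π' Θ') (Γ' : G → I' → ℤ)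
      (ν : I' → ℤ) (y' : T' → K),
      CLift ho n0 h0 hN.hA ∧ Fn M' (fun b => algebraMap L K (g b)) Γ' ∧ Frc M' ∧
      (∀ i, ν i ≤ 0) ∧
      (∀ t, π ⟨Z, hZQ⟩ - algebraMap L K (a0 (π' t)) = (∏ i, M'.x t i ^ ν i) * y' t) ∧
      ∃ hy' : ∀ t, y' t ∈ M'.A t, ∀ t (κ : Type u) [Field κ] [Algebra k κ] (φ' : M'.A t →ₐ[k] κ),
        PO φ' (M'.x t) ν →
        (∃ v' : LT φ' (M'.x t),
          (∀ a (ha : a ∈ B.A (π' t)), v'.D.D ⟨algebraMap L K a, ho.le t a ha⟩ = 0) ∧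
          (∀ i, ∑ i', (Θ' i' i : κ) * v'.e i' = 0) ∧ om v' ν (hy' t) ≠ 0) ∧
        (∃ i0, n0 i0 < 0 ∧
          φ' ⟨algebraMap L K (B.x (π' t) i0), ho.le t _ (B.xA (π' t) i0)⟩ = 0) ∧
        (φ' ⟨algebraMap L K (h0 (π' t)), ho.le t _ (hN.hA (π' t))⟩ ≠ 0 → φ' ⟨y' t, hy' t⟩ ≠ 0) := by
  classical
  have hpas : WT_pas.{u} := wt_pas
  have hloc : S2_loc.{u} := loc_main
  have hT := nonempty_T M
  obtain ⟨h, r, hPS0⟩ := hpas p k L N T0 I0 T I B f' n0 a0 h0 M F Q y c μ hN hPX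
  obtain ⟨π0, Θ, hPT⟩ := hPX
  have hh : h = fun t => algebraMap L N (h0 (π0 t)) := by
    funext t
    have h1 := hPS0.eq t
    have h2 := hPT.eq t
    have hp1 : ∏ i, M.x t i ^ ((p : ℤ) * μ i) ≠ 0 :=
      Finset.prod_ne_zero_iff.2 fun i _ => zpow_ne_zero _ (M.x0 t i)
    have hp2 : ∏ i, M.x t i ^ c i ≠ 0 :=
      Finset.prod_ne_zero_iff.2 fun i _ => zpow_ne_zero _ (M.x0 t i)
    rw [h2] at h1
    have h3 := mul_left_cancel₀ hp1 h1
    exact (mul_left_cancel₀ hp2 (sub_right_injective h3)).symm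
  subst hh
  have hcomp : ∀ l, algebraMap L N l ∈ Q → pq π (algebraMap L N l) = algebraMap L K l := by
    intro l hl
    rw [pq_of π hl]
    exact hcomp0 l hl
  have hAQ := hPT.AQ
  choose f hfA u hu0 huQ huQ' hFu hv hv2 hv3 using
    chart3 p B M F Q y r π0 Θ h0 n0 c μ hPS0 hPT hF2
  have hf0 : ∀ t, f t ≠ 0 := by
    intro t h0
    apply hF0
    rw [hFu t, h0, mul_zero]
  have hFπ : pq π F = 0 := by
    rw [pq_of π hFQ, hπ]
    exact ⟨1, Q.one_mem, (mul_one F).symm⟩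
  have hfπ : ∀ t, pq π (f t) = 0 := by
    intro t
    have h1 : f t = (u t)⁻¹ * F := by
      rw [hFu t, ← mul_assoc, inv_mul_cancel₀ (hu0 t), one_mul]
    rw [h1, pq_mul π (huQ' t) hFQ, hFπ, mul_zero]
  have hker0 : ∀ a ∈ Q, pq π a = 0 → ∃ r ∈ Q, a = F * r := by
    intro a ha h0
    rw [pq_of π ha, hπ] at h0
    exact h0
  have hmin : ∀ t, RingHom.ker (qm π (M.A t) (hAQ t)) ∈
      (Ideal.span {(⟨f t, hfA t⟩ : M.A t)}).minimalPrimes := by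
    intro t
    refine ⟨⟨RingHom.ker_isPrime _, ?_⟩, ?_⟩
    · rw [Ideal.span_singleton_le_iff_mem, RingHom.mem_ker, qm_apply π (hAQ t) (hfA t)]
      exact Subtype.ext (hfπ t)
    · rintro P'' ⟨hp'', hle''⟩ hPle ⟨a, ha⟩ haker
      have ha0 : pq π a = 0 := by
        rw [RingHom.mem_ker, qm_apply π (hAQ t) ha] at haker
        exact congrArg Subtype.val haker
      obtain ⟨r, hr, har⟩ := hker0 a (hAQ t ha) ha0
      obtain ⟨α, hα, β, hβ, hβ0, hβQ, hαβ⟩ := hLq t (u t * r) (Q.mul_mem (huQ t) hr)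
      have h3 : (⟨β, hβ⟩ : M.A t) * ⟨a, ha⟩ = ⟨f t, hfA t⟩ * ⟨α, hα⟩ := by
        apply Subtype.ext
        change β * a = f t * α
        rw [har, ← hαβ, hFu t]
        ring
      have h4 : (⟨β, hβ⟩ : M.A t) * ⟨a, ha⟩ ∈ P'' := by
        rw [h3]
        exact P''.mul_mem_right _ (hle'' (Ideal.mem_span_singleton_self _))
      rcases hp''.mem_or_mem h4 with h5 | h5
      · exfalso
        have h6 := hPle h5
        rw [RingHom.mem_ker, qm_apply π (hAQ t) hβ] at h6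
        exact pq_ne π hβ0 (hAQ t hβ) hβQ (congrArg Subtype.val h6)
      · exact h5
  have hv0 : ∀ t (κ : Type u) [Field κ] [Algebra k κ] (φ : M.A t →ₐ[k] κ),
      φ ⟨f t, hfA t⟩ = 0 → ∃ D : TV φ, D.D ⟨f t, hfA t⟩ ≠ 0 := by
    intro t κ _ _ φ hφ
    obtain ⟨δ, h1, -⟩ := hv t κ φ (hfA t) hφ
    exact ⟨δ, h1⟩
  have hker : ∀ t, LK π (M.A t) (f t) := by
    intro t m' hm' hPm'
    have hsm := M.sm t
    have hsq : Algebra.Smooth k (M.A t ⧸ Ideal.span {(⟨f t, hfA t⟩ : M.A t)}) :=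
      smooth_quot _ (hv0 t)
    obtain ⟨e, he, h1⟩ := local_ker hloc (k := k) (⟨f t, hfA t⟩ : M.A t)
      (RingHom.ker (qm π (M.A t) (hAQ t))) m' (hmin t) hm' (by
        rintro ⟨a, ha⟩ haker
        rw [RingHom.mem_ker, qm_apply π (hAQ t) ha] at haker
        exact hPm' a ha (congrArg Subtype.val haker))
    refine ⟨e, he, fun a ha h0 => ?_⟩
    obtain ⟨b', hb'⟩ := h1 ⟨a, ha⟩ (by
      rw [RingHom.mem_ker, qm_apply π (hAQ t) ha]
      exact Subtype.ext h0)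
    have h2 : (e : N) * a = f t * b' := congrArg Subtype.val hb'
    rw [h2, mul_div_cancel_left₀ _ (hf0 t)]
    exact b'.2
  have hsm' : ∀ t, Algebra.Smooth k (im π (M.A t) (hAQ t)) := by
    intro t
    have := M.sm t
    exact smooth_im2 π hloc (hAQ t) (hfA t) (hfπ t) (hmin t) (hv0 t)
  have hK' : ∀ x : N, (∃ a b : Q, π b ≠ 0 ∧ x * b = a) ∨ (∃ a b : Q, π b ≠ 0 ∧ x⁻¹ * b = a) := by
    intro x
    rcases hQ x with h1 | h1
    · left
      exact ⟨⟨x, h1⟩, 1, by rw [map_one]; exact one_ne_zero, by simp⟩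
    · right
      exact ⟨⟨x⁻¹, h1⟩, 1, by rw [map_one]; exact one_ne_zero, by simp⟩
  obtain ⟨M', hA', hx'⟩ := exists_model2 π hK' M hAQ hPT.xQ f hfA hf0 hfπ hker hsm'
    (fun t => snc_option M t (f t) (hfA t) (hv t))
  have hA't : ∀ t, M'.A t = im π (M.A t) (hAQ t) := fun t => congrFun hA' t
  have hx't : ∀ t, M'.x t = fun i => pq π (M.x t i) := fun t => congrFun hx' t
  have hgQ : ∀ b, algebraMap L N (g b) ∈ Q := fun b => haQ _
  have ho : Ovr B M' π0 Θ := by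
    refine ⟨?_, ?_, hPT.ov.Θ0⟩
    · intro t a ha
      have h1 := hPT.ov.le t a ha
      rw [hA't, ← hcomp a (hAQ t h1)]
      exact pq_mem π (hAQ t) h1
    · intro t i0
      have h1 := hPT.ov.le t _ (B.xA (π0 t) i0)
      rw [← hcomp _ (hAQ t h1), hPT.ov.x t i0, hx't]
      have h4 : ∀ i, M.x t i ^ Θ i i0 ∈ Q := fun i =>
        zpow_mem_of (hAQ t (M.xA t i)) (Or.inr (hPT.xQ t i))
      rw [pq_prod π _ _ fun i _ => h4 i]
      refine Finset.prod_congr rfl fun i _ => ?_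
      exact pq_zpow π (M.x0 t i) (hAQ t (M.xA t i)) (hPT.xQ t i) _
  -- the normal form of `Z`
  have hcN : CharP N p := charP_of_injective_algebraMap (algebraMap k N).injective p
  have hmul : ∀ t (m m' : I → ℤ), (∏ i, M.x t i ^ m i) * ∏ i, M.x t i ^ m' i =
      ∏ i, M.x t i ^ (m i + m' i) := by
    intro t m m'
    rw [← Finset.prod_mul_distrib]
    exact Finset.prod_congr rfl fun i _ => (zpow_add₀ (M.x0 t i) _ _).symm
  have hpow : ∀ t, (∏ i, M.x t i ^ μ i) ^ p = ∏ i, M.x t i ^ ((p : ℤ) * μ i) := by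
    intro t
    rw [← Finset.prod_pow]
    refine Finset.prod_congr rfl fun i _ => ?_
    rw [← zpow_natCast, ← zpow_mul, mul_comm]
  have hzc : ∀ t, ∃ c0 : k, Z - algebraMap L N (a0 (π0 t)) - (∏ i, M.x t i ^ μ i) * y t =
      algebraMap k N c0 := by
    intro t
    have h1 := hPT.eq t
    have h2 : algebraMap L N (∏ i, B.x (π0 t) i ^ n0 i) =
        (∏ i, M.x t i ^ ((p : ℤ) * μ i)) * ∏ i, M.x t i ^ c i := by
      rw [Pool.Agent.W32.WT.mon_pull hPT.ov t n0, hmul]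
      refine Finset.prod_congr rfl fun i _ => ?_
      rw [hPT.ce i]
      congr 1
      ring
    have h3 : (∏ i, M.x t i ^ ((p : ℤ) * μ i)) * ∏ i, M.x t i ^ (-((p : ℤ) - 1) * μ i) =
        ∏ i, M.x t i ^ μ i := by
      rw [hmul]
      refine Finset.prod_congr rfl fun i _ => ?_
      congr 1
      ring
    have h4 : (Z - algebraMap L N (a0 (π0 t)) - (∏ i, M.x t i ^ μ i) * y t) ^ p =
        Z - algebraMap L N (a0 (π0 t)) - (∏ i, M.x t i ^ μ i) * y t := by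
      have h5 : algebraMap L N f' = algebraMap L N (a0 (π0 t)) ^ p - algebraMap L N (a0 (π0 t)) +
          algebraMap L N (∏ i, B.x (π0 t) i ^ n0 i) * algebraMap L N (h0 (π0 t)) := by
        rw [← map_pow, ← map_sub, ← map_mul, ← map_add, ← hN.eq (π0 t)]
      rw [sub_pow_char, sub_pow_char, mul_pow, hpow]
      have h6 : Z ^ p - Z - algebraMap L N f' = (∏ i, M.x t i ^ ((p : ℤ) * μ i)) * y t ^ p -
          (∏ i, M.x t i ^ μ i) * y t -
          algebraMap L N (∏ i, B.x (π0 t) i ^ n0 i) * algebraMap L N (h0 (π0 t)) := by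
        rw [← hFZ, h1, h2, ← h3]
        ring
      rw [h5] at h6
      linear_combination h6
    obtain ⟨c1, hc1⟩ := Pool.Agent.W558.zc_of_pow p _ h4
    refine ⟨zc p k c1, ?_⟩
    rw [alg_zc]
    exact hc1
  choose c0 hc0 using hzc
  have hZt : ∀ t, Z - algebraMap L N (a0 (π0 t)) = (∏ i, M.x t i ^ μ i) *
      (y t + algebraMap k N (c0 t) * ∏ i, M.x t i ^ (-μ i)) := by
    intro t
    have h1 : (∏ i, M.x t i ^ μ i) * ∏ i, M.x t i ^ (-μ i) = 1 := by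
      rw [hmul]
      exact Finset.prod_eq_one fun i _ => by rw [add_neg_cancel, zpow_zero]
    linear_combination hc0 t - algebraMap k N (c0 t) * h1
  have hYA : ∀ t, y t + algebraMap k N (c0 t) * ∏ i, M.x t i ^ (-μ i) ∈ M.A t := fun t =>
    (M.A t).add_mem (hPT.yA t) ((M.A t).mul_mem ((M.A t).algebraMap_mem (c0 t))
      ((M.A t).prod_mem fun i _ => zpow_mem_of (M.xA t i) (Or.inl (by
        have := hPT.m0 i; omega))))
  have hy' : ∀ t, pq π (y t + algebraMap k N (c0 t) * ∏ i, M.x t i ^ (-μ i)) ∈ M'.A t := by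
    intro t
    rw [hA't]
    exact pq_mem π (hAQ t) (hYA t)
  have hmQ : ∀ t i, M.x t i ^ μ i ∈ Q := fun t i =>
    zpow_mem_of (hAQ t (M.xA t i)) (Or.inr (hPT.xQ t i))
  refine ⟨T, I, inferInstance, inferInstance, M', π0, Θ, ho, Γ, μ,
    fun t => pq π (y t + algebraMap k N (c0 t) * ∏ i, M.x t i ^ (-μ i)), ?_, ?_, ?_, hPT.m0, ?_,
    hy', ?_⟩
  · intro t κ _ _ φ' v0 hpole
    exact lift_chart p B M F y π0 Θ h0 n0 c μ hPS0.hA hPT π hcomp t (f t) (hfA t) (hf0 t) (hfπ t)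
      (hker t) (fun κ _ _ φ hφ v h1 h2 => hv2 t κ φ (hfA t) hφ v h1 h2) (M'.A t) (M'.x t)
      (hA't t) (hx't t) (ho.le t) κ φ' v0 hpole
  · intro a t
    obtain ⟨w, h0, h1, h2, h3⟩ := hFn a t
    change algebraMap L N (g a) = _ at h3
    rw [hA', hx']
    refine ⟨pq π w, pq_ne π h0 (hAQ t h1) (hAQ t h2), pq_mem π (hAQ t) h1, ?_, ?_⟩
    · rw [← pq_inv π h0 (hAQ t h1) (hAQ t h2)]
      exact pq_mem π (hAQ t) h2
    · have h4 : ∀ i, M.x t i ^ Γ a i ∈ Q := fun i =>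
        zpow_mem_of (hAQ t (M.xA t i)) (Or.inr (hPT.xQ t i))
      change algebraMap L K (g a) = _
      rw [← hcomp _ (hgQ a), h3, pq_mul π (hAQ t h1) (Q.prod_mem fun i _ => h4 i),
        pq_prod π _ _ fun i _ => h4 i]
      congr 1
      refine Finset.prod_congr rfl fun i _ => ?_
      exact pq_zpow π (M.x0 t i) (hAQ t (M.xA t i)) (hPT.xQ t i) _
  · intro t x
    obtain ⟨q, rfl⟩ := hsurj x
    obtain ⟨α, hα, β, hβ, hβ0, hβQ, hαβ⟩ := hLq t q q.2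
    rw [hA']
    have h1 : pq π β ≠ 0 := pq_ne π hβ0 (hAQ t hβ) hβQ
    refine ⟨pq π α, pq_mem π (hAQ t) hα, pq π β, pq_mem π (hAQ t) hβ, h1, ?_⟩
    rw [eq_mul_inv_iff_mul_eq₀ h1, ← pq_coe π q, ← pq_mul π q.2 (hAQ t hβ), hαβ]
  · intro t
    have h1 : π ⟨Z, hZQ⟩ - algebraMap L K (a0 (π0 t)) =
        pq π (Z - algebraMap L N (a0 (π0 t))) := by
      have h2 : Z - algebraMap L N (a0 (π0 t)) ∈ Q := Q.sub_mem hZQ (haQ _)
      rw [pq_of π h2]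
      have e : (⟨Z - algebraMap L N (a0 (π0 t)), h2⟩ : Q) =
          ⟨Z, hZQ⟩ - ⟨algebraMap L N (a0 (π0 t)), haQ _⟩ := rfl
      rw [e, map_sub, hcomp0]
    rw [h1, hZt t, pq_mul π (Q.prod_mem fun i _ => hmQ t i) (hAQ t (hYA t)),
      pq_prod π _ _ fun i _ => hmQ t i, hx't]
    congr 1
    refine Finset.prod_congr rfl fun i _ => ?_
    exact pq_zpow π (M.x0 t i) (hAQ t (M.xA t i)) (hPT.xQ t i) _
  · intro t κ _ _ φ' hpo
    obtain ⟨h1, h2, h3⟩ := vert_chart p B M F y π0 Θ h0 n0 c μ hPS0.hA hPT π hcomp t (f t)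
      (hfA t) (hf0 t) (hfπ t) (hker t) (fun κ _ _ φ hφ hpo => hv3 t κ φ (hfA t) hφ hpo) (M'.A t)
      (M'.x t) (hA't t) (hx't t) (ho.le t) (c0 t) _ rfl (hy' t) κ φ' hpo
    exact ⟨h1, h2, h3 _⟩

end Pool.Agent.Run7.h802.Ct
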