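import Pool.Agent.Run7.h802.Ct2
import Pool.Agent.H176.Mix.MT

/-!
# One Artin-Schreier extension of a model with jointly clean functions
-/

set_option autoImplicit false
set_option linter.unusedVariables false
set_option linter.unusedSectionVars false

universe u

open Polynomial

namespace Pool.Agent.Run7.h802.Ct

open Pool.Agent.W558 Pool.Agent.W177.WD Pool.Agent.W174.WA

section st

variable {k K : Type u} [Field k] [Field K] [Algebra k K] {T I ι : Type} [Fintype I]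

/-- The functions `F j` are jointly clean on the model: `F j = x ^ (n j) * h j`, `n j ≤ 0`, and the
logarithmic forms of those which have a pole at a point are linearly independent; the `h j` with
`U j` have no zeros on the poles of `x ^ (n j)`. -/
structure St (M : LM (⊥ : Subalgebra k K) ⊤ T I) (F : ι → K) (n : ι → I → ℤ) (h : T → ι → K)
    (U : ι → Prop) : Prop where
  n0 : ∀ j i, n j i ≤ 0
  hA : ∀ t j, h t j ∈ M.A t
  eq : ∀ t j, F j = (∏ i, M.x t i ^ n j i) * h t j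
  ln : ∀ t (κ : Type u) [Field κ] [Algebra k κ] (φ : M.A t →ₐ[k] κ) (j : ι),
    PO φ (M.x t) (n j) → ∃ v : LT φ (M.x t), om v (n j) (hA t j) ≠ 0 ∧
      ∀ l, l ≠ j → PO φ (M.x t) (n l) → om v (n l) (hA t l) = 0
  un : ∀ t (κ : Type u) [Field κ] [Algebra k κ] (φ : M.A t →ₐ[k] κ) (j : ι), U j →
    PO φ (M.x t) (n j) → φ ⟨h t j, hA t j⟩ ≠ 0

/-- The function `e` has smaller poles than `x ^ n`. -/
def SmM (M : LM (⊥ : Subalgebra k K) ⊤ T I) (n : I → ℤ) (e : K) : Prop :=
  ∀ t, e * ∏ i, M.x t i ^ (-n i) ∈ M.A t ∧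
    ∀ i, n i < 0 → ∃ s ∈ M.A t, e * ∏ i, M.x t i ^ (-n i) = M.x t i * s

lemma po_iff {A : Subalgebra k K} {κ : Type u} [Field κ] [Algebra k κ] {φ : A →ₐ[k] κ}
    {x : I → K} (hx : ∀ i, x i ∈ A) {n : I → ℤ} : PO φ x n ↔ ∃ i, n i < 0 ∧ φ ⟨x i, hx i⟩ = 0 := by
  constructor
  · rintro ⟨i, hi, ha, h0⟩
    exact ⟨i, hi, h0⟩
  · rintro ⟨i, hi, h0⟩
    exact ⟨i, hi, hx i, h0⟩

/-- The form and the value of a product with a local equation of the pole. -/
lemma om_mul_x {A : Subalgebra k K} {κ : Type u} [Field κ] [Algebra k κ] {φ : A →ₐ[k] κ}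
    {x : I → K} (hx : ∀ i, x i ∈ A) (v : LT φ x) (n : I → ℤ) {e : K} (he : e ∈ A) {i : I}
    (h0 : φ ⟨x i, hx i⟩ = 0) (hs : ∃ s ∈ A, e = x i * s) : om v n he = 0 ∧ φ ⟨e, he⟩ = 0 := by
  obtain ⟨s, hs, rfl⟩ := hs
  have e1 : (⟨x i * s, he⟩ : A) = ⟨x i, hx i⟩ * ⟨s, hs⟩ := rfl
  unfold om
  rw [e1, v.D.leib, map_mul, h0, v.hx i (hx i), h0]
  simp

/-- The form of `c * h ^ m + e`. -/
lemma om_pow {A : Subalgebra k K} {κ : Type u} [Field κ] [Algebra k κ] {φ : A →ₐ[k] κ}
    {x : I → K} (v : LT φ x) (n : I → ℤ) {h e : K} (hh : h ∈ A) (he : e ∈ A) (c : k) (m : ℕ)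
    (H : algebraMap k K c * h ^ m + e ∈ A) :
    om v (fun i => (m : ℤ) * n i) H = algebraMap k κ c * (m : κ) * φ ⟨h, hh⟩ ^ (m - 1) * om v n hh +
      om v (fun i => (m : ℤ) * n i) he := by
  have e1 : (⟨_, H⟩ : A) = algebraMap k A c * ⟨h, hh⟩ ^ m + ⟨e, he⟩ := rfl
  have hDc : v.D.D (algebraMap k A c) = 0 := by
    rw [Algebra.algebraMap_eq_smul_one, map_smul, v.D.D_one, smul_zero]
  have hs : ∑ i, (((m : ℤ) * n i : ℤ) : κ) * v.e i = (m : κ) * ∑ i, (n i : κ) * v.e i := by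
    rw [Finset.mul_sum]
    refine Finset.sum_congr rfl fun i _ => ?_
    push_cast
    ring
  have hpm : (m : κ) * φ ⟨h, hh⟩ ^ m = (m : κ) * (φ ⟨h, hh⟩ ^ (m - 1) * φ ⟨h, hh⟩) := by
    rcases m with _ | m
    · simp
    · rw [Nat.add_sub_cancel, pow_succ]
  unfold om
  rw [e1, map_add, v.D.leib, hDc, mul_zero, add_zero, D_pow, map_add, map_mul, map_pow,
    AlgHom.commutes, hs]
  linear_combination (algebraMap k κ c * ∑ i, (n i : κ) * v.e i) * hpm

/-- Linear combinations of logarithmic vectors. -/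
lemma lt_comb {A : Subalgebra k K} {κ : Type u} [Field κ] [Algebra k κ] {φ : A →ₐ[k] κ}
    {x : I → K} (v w : LT φ x) (s : κ) : ∃ v' : LT φ x,
      (∀ a, v'.D.D a = v.D.D a + s * w.D.D a) ∧ (∀ i, v'.e i = v.e i + s * w.e i) := by
  refine ⟨⟨TV.comb 1 s v.D w.D, fun i => v.e i + s * w.e i, ?_⟩, ?_, fun i => rfl⟩
  · intro i hi
    rw [TV.comb_D, v.hx i hi, w.hx i hi]
    ring
  · intro a
    change (TV.comb 1 s v.D w.D).D a = _
    rw [TV.comb_D, one_mul]

lemma om_comb {A : Subalgebra k K} {κ : Type u} [Field κ] [Algebra k κ] {φ : A →ₐ[k] κ}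
    {x : I → K} (v w v' : LT φ x) (s : κ) (h1 : ∀ a, v'.D.D a = v.D.D a + s * w.D.D a)
    (h2 : ∀ i, v'.e i = v.e i + s * w.e i) (n : I → ℤ) {h : K} (hh : h ∈ A) :
    om v' n hh = om v n hh + s * om w n hh := by
  unfold om
  have h3 : ∑ i, (n i : κ) * v'.e i = ∑ i, (n i : κ) * v.e i + s * ∑ i, (n i : κ) * w.e i := by
    rw [Finset.mul_sum, ← Finset.sum_add_distrib]
    refine Finset.sum_congr rfl fun i _ => ?_
    rw [h2]
    ring
  rw [h1, h3]
  ring

end st

section step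

variable {k K : Type u} [Field k] [Field K] [Algebra k K] {T I ι G : Type} [Fintype I] [Finite T]
  {M : LM (⊥ : Subalgebra k K) ⊤ T I} {F : ι → K} {n : ι → I → ℤ} {h : T → ι → K} {U : ι → Prop}
  {p : ℕ} [Fact p.Prime] [PerfectField k] [CharP k p]

/-- The normal form of `c * F j ^ m + e`. -/
lemma nas_of_St (hS : St M F n h U) (j : ι) (c : k) (hc : c ≠ 0) (m : ℕ) (hm : ¬ p ∣ m)
    (hmU : m = 1 ∨ U j) (e : K) (he : SmM M (fun i => (m : ℤ) * n j i) e) :
    NAS p M (algebraMap k K c * F j ^ m + e) (fun i => (m : ℤ) * n j i) (fun _ => 0)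
      (fun t => algebraMap k K c * h t j ^ m + e * ∏ i, M.x t i ^ (-((m : ℤ) * n j i))) ∧
    ∀ (hA : ∀ t, algebraMap k K c * h t j ^ m + e * ∏ i, M.x t i ^ (-((m : ℤ) * n j i)) ∈ M.A t)
      t (κ : Type u) [Field κ] [Algebra k κ] (φ : M.A t →ₐ[k] κ),
      PO φ (M.x t) (fun i => (m : ℤ) * n j i) →
      PO φ (M.x t) (n j) ∧
      (∀ v : LT φ (M.x t), om v (n j) (hS.hA t j) = 0 →
        om v (fun i => (m : ℤ) * n j i) (hA t) = 0) ∧
      (U j → φ ⟨_, hA t⟩ ≠ 0) := by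
  have hp : p.Prime := Fact.out
  have hm0 : 0 < m := Nat.pos_of_ne_zero fun h0 => hm (h0 ▸ dvd_zero p)
  have hA : ∀ t, algebraMap k K c * h t j ^ m + e * ∏ i, M.x t i ^ (-((m : ℤ) * n j i)) ∈ M.A t :=
    fun t => (M.A t).add_mem ((M.A t).mul_mem ((M.A t).algebraMap_mem c)
      ((M.A t).pow_mem (hS.hA t j) m)) (he t).1
  have hpo : ∀ t (κ : Type u) [Field κ] [Algebra k κ] (φ : M.A t →ₐ[k] κ),
      PO φ (M.x t) (fun i => (m : ℤ) * n j i) → PO φ (M.x t) (n j) := by
    rintro t κ _ _ φ ⟨i, hi, hz⟩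
    refine ⟨i, ?_, hz⟩
    have h1 : (m : ℤ) * n j i < 0 := hi
    have h2 := hS.n0 j i
    rcases lt_or_eq_of_le h2 with h3 | h3
    · exact h3
    · rw [h3, mul_zero] at h1
      exact absurd h1 (lt_irrefl _)
  have hval : ∀ t (κ : Type u) [Field κ] [Algebra k κ] (φ : M.A t →ₐ[k] κ),
      PO φ (M.x t) (fun i => (m : ℤ) * n j i) → ∀ v : LT φ (M.x t),
      om v (fun i => (m : ℤ) * n j i) (hA t) =
        algebraMap k κ c * (m : κ) * φ ⟨h t j, hS.hA t j⟩ ^ (m - 1) * om v (n j) (hS.hA t j) := by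
    rintro t κ _ _ φ ⟨i, hi, hz⟩ v
    have h1 := om_mul_x (M.xA t) v (fun i => (m : ℤ) * n j i) (he t).1 hz.2 ((he t).2 i hi)
    rw [om_pow v (n j) (hS.hA t j) (he t).1 c m (hA t), h1.1, add_zero]
  have hvv : ∀ t (κ : Type u) [Field κ] [Algebra k κ] (φ : M.A t →ₐ[k] κ),
      PO φ (M.x t) (fun i => (m : ℤ) * n j i) →
      φ ⟨_, hA t⟩ = algebraMap k κ c * φ ⟨h t j, hS.hA t j⟩ ^ m := by
    rintro t κ _ _ φ ⟨i, hi, hz⟩
    have e1 : (⟨_, hA t⟩ : M.A t) = algebraMap k (M.A t) c * ⟨h t j, hS.hA t j⟩ ^ m +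
        ⟨_, (he t).1⟩ := rfl
    obtain ⟨s, hs, hes⟩ := (he t).2 i hi
    have e2 : (⟨_, (he t).1⟩ : M.A t) = ⟨M.x t i, M.xA t i⟩ * ⟨s, hs⟩ := Subtype.ext hes
    have h0 : φ ⟨M.x t i, M.xA t i⟩ = 0 := hz.2
    rw [e1, map_add, e2, map_mul φ ⟨M.x t i, _⟩, h0, zero_mul, add_zero, map_mul, map_pow,
      AlgHom.commutes]
  have hcne : ∀ (κ : Type u) [Field κ] [Algebra k κ], algebraMap k κ c ≠ 0 := fun κ _ _ =>
    (_root_.map_ne_zero (algebraMap k κ)).2 hc
  refine ⟨⟨?_, hA, ?_, ?_⟩, ?_⟩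
  · intro i
    exact mul_nonpos_of_nonneg_of_nonpos (Int.natCast_nonneg m) (hS.n0 j i)
  · intro t
    have h1 : (∏ i, M.x t i ^ ((m : ℤ) * n j i)) = (∏ i, M.x t i ^ n j i) ^ m := by
      rw [← Finset.prod_pow]
      refine Finset.prod_congr rfl fun i _ => ?_
      rw [← zpow_natCast, ← zpow_mul, mul_comm]
    have h2 : (∏ i, M.x t i ^ ((m : ℤ) * n j i)) * ∏ i, M.x t i ^ (-((m : ℤ) * n j i)) = 1 := by
      rw [← Finset.prod_mul_distrib]
      refine Finset.prod_eq_one fun i _ => ?_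
      rw [← zpow_add₀ (M.x0 t i), add_neg_cancel, zpow_zero]
    rw [zero_pow hp.ne_zero, sub_zero, zero_add, hS.eq t j, mul_pow, ← h1]
    linear_combination (-e) * h2
  · intro t κ _ _ φ hpole
    have hP : PO φ (M.x t) (fun i => (m : ℤ) * n j i) := (po_iff (M.xA t)).2 hpole
    obtain ⟨v, hv, -⟩ := hS.ln t κ φ j (hpo t κ φ hP)
    refine ⟨v, ?_⟩
    rw [hval t κ φ hP v]
    have hmκ : (m : κ) ≠ 0 := by
      have hcκ : CharP κ p := charP_of_injective_algebraMap (algebraMap k κ).injective p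
      rw [Ne, CharP.cast_eq_zero_iff κ p]
      exact hm
    refine mul_ne_zero (mul_ne_zero (mul_ne_zero (hcne κ) hmκ) ?_) hv
    rcases hmU with h1 | h1
    · rw [h1]
      simp
    · exact pow_ne_zero _ (hS.un t κ φ j h1 (hpo t κ φ hP))
  · intro hA' t κ _ _ φ hP
    refine ⟨hpo t κ φ hP, ?_, ?_⟩
    · intro v hv
      rw [hval t κ φ hP v, hv, mul_zero]
    · intro hUj
      rw [hvv t κ φ hP]
      exact mul_ne_zero (hcne κ) (pow_ne_zero _ (hS.un t κ φ j hUj (hpo t κ φ hP)))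

/-- One Artin-Schreier extension `z ^ p - z = c * F j ^ m + e`: there is a model on which the
functions `F l`, `l ≠ j`, and `z` are jointly clean. -/
theorem step (hS : St M F n h U) (hFrc : Frc M) {g : G → K} {Γ : G → I → ℤ} (hFn : Fn M g Γ)
    (K1 : Type u) [Field K1] [Algebra k K1] [Algebra K K1] [IsScalarTower k K K1]
    (j : ι) [DecidableEq ι] (c : k) (hc : c ≠ 0) (m : ℕ) (hm : ¬ p ∣ m)
    (hmU : m = 1 ∨ U j) (e : K) (he : SmM M (fun i => (m : ℤ) * n j i) e) (z : K1)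
    (hz : z ^ p - z = algebraMap K K1 (algebraMap k K c * F j ^ m + e))
    (hzL : ∀ b : K, b ^ p - b ≠ algebraMap k K c * F j ^ m + e)
    (hgen0 : IntermediateField.adjoin K {z} = ⊤) :
    ∃ (T' I' : Type) (_ : Finite T') (_ : Fintype I') (M' : LM (⊥ : Subalgebra k K1) ⊤ T' I')
      (π : T' → T) (Θ : I' → I → ℤ) (n' : ι → I' → ℤ) (h' : T' → ι → K1) (Γ' : G → I' → ℤ)
      (ho : Pool.Agent.TH188.WQ.Ovr M M' π Θ)
      (hS' : St M' (Function.update (fun l => algebraMap K K1 (F l)) j z) n' h' U),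
      (∀ t (κ : Type u) [Field κ] [Algebra k κ] (φ : M'.A t →ₐ[k] κ) (ψ : M.A (π t) →ₐ[k] κ),
        (∀ a (ha : a ∈ M.A (π t)), φ ⟨algebraMap K K1 a, ho.le t a ha⟩ = ψ ⟨a, ha⟩) →
        ∀ v0 : LT ψ (M.x (π t)),
          (∀ l, PO ψ (M.x (π t)) (n l) → om v0 (n l) (hS.hA (π t) l) = 0) →
          ∃ v : LT φ (M'.x t), Pool.Agent.TH188.WQ.Cp v0 v Θ ∧
            ∀ l, PO φ (M'.x t) (n' l) → om v (n' l) (hS'.hA t l) = 0) ∧
      Fn M' (fun b => algebraMap K K1 (g b)) Γ' ∧ Frc M' := by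
  classical
  have hp : p.Prime := Fact.out
  have hall := wt_pack.{u}
  have hcK : CharP K p := charP_of_injective_algebraMap (algebraMap k K).injective p
  have hcK1 : CharP K1 p := charP_of_injective_algebraMap (algebraMap k K1).injective p
  set f' : K := algebraMap k K c * F j ^ m + e with hf'
  set n1 : I → ℤ := fun i => (m : ℤ) * n j i with hn1
  set h1 : T → K := fun t => algebraMap k K c * h t j ^ m +
    e * ∏ i, M.x t i ^ (-((m : ℤ) * n j i)) with hh1
  obtain ⟨hN1, hN2⟩ := nas_of_St (p := p) hS j c hc m hm hmU e he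
  have hN3 := hN2 hN1.hA
  have hgen : ∀ y : K1, ∃ P : K[X], aeval z P = y := by
    intro y
    have hint : IsIntegral K z := by
      refine ⟨X ^ p - (X + C f'), ?_, ?_⟩
      · apply monic_X_pow_sub
        rw [degree_X_add_C]
        exact_mod_cast hp.one_lt
      · rw [← aeval_def, map_sub, map_add, map_pow, aeval_X, aeval_C, ← hz]
        ring
    have h8 : y ∈ Algebra.adjoin K {z} := by
      have h9 : y ∈ (IntermediateField.adjoin K {z}).toSubalgebra := by
        rw [hgen0]; trivial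
      rwa [IntermediateField.adjoin_simple_toSubalgebra_of_isAlgebraic hint.isAlgebraic] at h9
    rw [Algebra.adjoin_singleton_eq_range_aeval] at h8
    exact h8
  have hirr : Irreducible (X ^ p - X - C f' : K[X]) := hall.irr p K f' hzL
  have hF : Prime (X ^ p - X - C f' : K[X]) := hirr.prime
  have hz0 : aeval z (X ^ p - X - C f' : K[X]) = 0 := by
    rw [map_sub, map_sub, map_pow, aeval_X, aeval_C, hz, sub_self]
  have hmon : (X ^ p - X - C f' : K[X]).Monic := by
    have h1 : (X ^ p - X - C f' : K[X]) = X ^ p - (X + C f') := by ring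
    rw [h1]
    apply monic_X_pow_sub
    rw [degree_X_add_C]
    exact_mod_cast hp.one_lt
  have hz' : ∀ P : K[X], aeval z P = 0 ↔ (X ^ p - X - C f' : K[X]) ∣ P := by
    intro P
    have h1 : minpoly K z = X ^ p - X - C f' :=
      (minpoly.eq_of_irreducible_of_monic hirr hz0 hmon).symm
    rw [← h1]
    exact (minpoly.dvd_iff).symm
  let N' := FractionRing K[X]
  let Z : N' := algebraMap K[X] N' X
  have hZ : ∀ P : K[X], aeval Z P = algebraMap K[X] N' P := by
    intro P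
    have h1 : aeval Z = IsScalarTower.toAlgHom K K[X] N' := by
      ext; simp [Z]
    rw [h1]; rfl
  have htr : Transcendental K Z := by
    rw [transcendental_iff]
    intro P hP
    rw [hZ] at hP
    exact (FaithfulSMul.algebraMap_eq_zero_iff K[X] N').1 hP
  have hfr : ∀ x : N', ∃ P P' : K[X], P' ≠ 0 ∧ x * aeval Z P' = aeval Z P := by
    intro x
    obtain ⟨P, P', hP, rfl⟩ := IsFractionRing.div_surjective (A := K[X]) x
    have h0 := nonZeroDivisors.ne_zero hP
    refine ⟨P, P', h0, ?_⟩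
    rw [hZ, hZ, div_mul_cancel₀ _ (alg_ne_zero h0)]
  have hQ : IsQA p Z f' (FQ (k := k) hF) := by
    intro x
    simp only [hZ]
    exact mem_FQ hF
  obtain ⟨T1, I1, hT1, hI1, M1, y1, c1, μ1, Γ1, hP1, hL1, hF1⟩ :=
    hall.bun p k K N' T I G M f' n1 _ h1 (fun b => g b) Γ hN1 hFrc hFn hzL Z
      htr hfr (FQ (k := k) hF) hQ
  obtain ⟨T2, I2, hT2, hI2, M2, y2, c2, μ2, Γ2, hP2, hL2, hF2, hfin⟩ :=
    hall.ppr p k K N' T I T1 I1 G M f' n1 _ h1 M1 _ (FQ (k := k) hF) y1 c1 μ1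
      (fun b => algebraMap K N' (g b)) Γ1 hN1 hP1 hL1 hF1
  have eF : Z ^ p - Z - algebraMap K N' f' = algebraMap K[X] N' (X ^ p - X - C f') := by
    rw [← hZ, map_sub, map_sub, map_pow, aeval_X, aeval_C]
  rw [eF] at hP2
  have haQ : ∀ l : K, algebraMap K N' l ∈ FQ (k := k) hF := by
    intro l
    have h1 : algebraMap K N' l = algebraMap K[X] N' (C l) := by
      rw [← hZ, aeval_C]
    rw [h1]
    exact mem_FQ_of hF
  obtain ⟨T3, I3, hT3, hI3, M3, π', Θ', ho, Γ3, ν, y', hCL, hF3, hR3, hν, hzν, hy', hV⟩ :=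
    pcutP p k K N' K1 T I T2 I2 G M f' n1 _ h1 M2 _ (FQ (k := k) hF) y2 c2 μ2
      (fun b => g b) Γ2
      hN1 hP2 hL2 hF2 hfin (mem_FQ_of hF) (alg_ne_zero hF.ne_zero) (piZ hF z hz')
      (piZ_eq_zero hF z hz') (piZ_surj hF z hz' hgen) (FQ_total hF) (by
        intro l hl
        have h1 : algebraMap K N' l = algebraMap K[X] N' (C l) := by
          rw [← hZ, aeval_C]
        have h2 : (⟨algebraMap K N' l, hl⟩ : FQ (k := k) hF) =
            ⟨algebraMap K[X] N' (C l), mem_FQ_of hF⟩ := Subtype.ext h1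
        rw [h2, piZ_alg, aeval_C]) Z eF.symm (mem_FQ_of hF) haQ
  have hπZ : piZ (k := k) hF z hz' ⟨Z, mem_FQ_of hF⟩ = z := by
    change piZ (k := k) hF z hz' ⟨algebraMap K[X] N' X, _⟩ = z
    rw [piZ_alg, aeval_X]
  -- the new state
  have hsumΘ : ∀ (κ : Type u) [Field κ] (v : I3 → κ) (l : I → ℤ),
      ∑ i', ((∑ i, Θ' i' i * l i : ℤ) : κ) * v i' = ∑ i, (l i : κ) * ∑ i', (Θ' i' i : κ) * v i' := by
    intro κ _ v l
    simp only [Int.cast_sum, Int.cast_mul, Finset.sum_mul, Finset.mul_sum]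
    rw [Finset.sum_comm]
    refine Finset.sum_congr rfl fun i _ => Finset.sum_congr rfl fun i' _ => ?_
    ring
  have hhA : ∀ t l, algebraMap K K1 (h (π' t) l) ∈ M3.A t := fun t l =>
    ho.le t _ (hS.hA (π' t) l)
  -- poles of the base
  have hpull : ∀ t (κ : Type u) [Field κ] [Algebra k κ] (φ : M3.A t →ₐ[k] κ) (l : ι),
      PO φ (M3.x t) (fun i' => ∑ i, Θ' i' i * n l i) →
      PO (φ.comp (ci (ho.le t))) (M.x (π' t)) (n l) := by
    rintro t κ _ _ φ l ⟨i, hi, hz⟩
    have h2 : Pool.Agent.H176.Mix.Pole M3 t φ (fun i' => ∑ i, Θ' i' i * n l i) :=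
      ⟨i, hi, hz.2⟩
    have ho' : Pool.Agent.TH188.WQ.Ovr M M3 π' Θ' := ⟨ho.le, ho.x, ho.Θ0⟩
    obtain ⟨i0, hi0, h3⟩ := Pool.Agent.H176.Mix.pole_pull (k := k) (L := K) (K := K1) ho' t φ
      (φ.comp (ci (ho.le t))) (fun a ha => rfl) (hS.n0 l) (fun i => rfl) h2
    exact ⟨i0, hi0, M.xA _ i0, h3⟩
  -- forms of functions of the base
  have hbase : ∀ t (κ : Type u) [Field κ] [Algebra k κ] (φ : M3.A t →ₐ[k] κ)
      (v0 : LT (φ.comp (ci (ho.le t))) (M.x (π' t))) (v : LT φ (M3.x t)),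
      (∀ a (ha : a ∈ M.A (π' t)), v.D.D ⟨algebraMap K K1 a, ho.le t a ha⟩ = v0.D.D ⟨a, ha⟩) →
      (∀ i, ∑ i', (Θ' i' i : κ) * v.e i' = v0.e i) → ∀ l,
      om v (fun i' => ∑ i, Θ' i' i * n l i) (hhA t l) = om v0 (n l) (hS.hA (π' t) l) := by
    intro t κ _ _ φ v0 v hv1 hv2 l
    unfold om
    rw [hv1 _ (hS.hA (π' t) l), hsumΘ]
    congr 2
    exact Finset.sum_congr rfl fun i _ => by rw [hv2 i]
  have ho2 : Pool.Agent.TH188.WQ.Ovr M M3 π' Θ' := ⟨ho.le, ho.x, ho.Θ0⟩
  have hA' : ∀ t l, (if l = j then y' t else algebraMap K K1 (h (π' t) l)) ∈ M3.A t := by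
    intro t l
    split_ifs with hl
    · exact hy' t
    · exact hhA t l
  -- the forms of the new functions
  have homj : ∀ t (κ : Type u) [Field κ] [Algebra k κ] (φ : M3.A t →ₐ[k] κ) (v : LT φ (M3.x t)),
      om v (if j = j then ν else fun i' => ∑ i, Θ' i' i * n j i) (hA' t j) =
        om v ν (hy' t) := by
    intro t κ _ _ φ v
    exact Pool.Agent.H176.Mix.om_congr v _ _ (if_pos rfl) (if_pos rfl)
  have homl : ∀ t (κ : Type u) [Field κ] [Algebra k κ] (φ : M3.A t →ₐ[k] κ) (v : LT φ (M3.x t))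
      (l : ι) (hl : l ≠ j),
      om v (if l = j then ν else fun i' => ∑ i, Θ' i' i * n l i) (hA' t l) =
        om v (fun i' => ∑ i, Θ' i' i * n l i) (hhA t l) := by
    intro t κ _ _ φ v l hl
    exact Pool.Agent.H176.Mix.om_congr v _ _ (if_neg hl) (if_neg hl)
  have hS' : St M3 (Function.update (fun l => algebraMap K K1 (F l)) j z)
      (fun l => if l = j then ν else fun i' => ∑ i, Θ' i' i * n l i)
      (fun t l => if l = j then y' t else algebraMap K K1 (h (π' t) l)) U := by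
   refine ⟨?_, hA', ?_, ?_, ?_⟩
   · intro l i'
     by_cases hl : l = j
     · simp only [hl, if_true]
       exact hν i'
     · simp only [hl, if_false]
       exact Finset.sum_nonpos fun i _ =>
         mul_nonpos_of_nonneg_of_nonpos (ho.Θ0 i' i) (hS.n0 l i)
   · intro t l
     by_cases hl : l = j
     · subst hl
       rw [Function.update_self]
       simp only [if_true]
       rw [← hzν t, hπZ, map_zero, sub_zero]
     · rw [Function.update_of_ne hl]
       simp only [hl, if_false]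
       rw [hS.eq (π' t) l, map_mul]
       congr 1
       exact Pool.Agent.W32.WT.mon_pull ho t (n l)
   · intro t κ _ _ φ l hpo
     by_cases hl : l = j
     · subst hl
       have hpo' : PO φ (M3.x t) ν := by
         simp only [if_true] at hpo
         exact hpo
       obtain ⟨⟨v, hv1, hv2, hv3⟩, -, -⟩ := hV t κ φ hpo'
       refine ⟨v, ?_, ?_⟩
       · rw [homj]
         exact hv3
       · intro l' hl' _
         rw [homl t κ φ v l' hl']
         unfold om
         rw [hv1 _ (hS.hA (π' t) l'), hsumΘ]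
         have h2 : ∑ i, (n l' i : κ) * ∑ i', (Θ' i' i : κ) * v.e i' = 0 :=
           Finset.sum_eq_zero fun i _ => by rw [hv2 i, mul_zero]
         rw [h2, mul_zero, add_zero]
     · have hpo' : PO φ (M3.x t) (fun i' => ∑ i, Θ' i' i * n l i) := by
         simp only [hl, if_false] at hpo
         exact hpo
       have hψ := hpull t κ φ l hpo'
       obtain ⟨v0, hv1, hv2⟩ := hS.ln (π' t) κ (φ.comp (ci (ho.le t))) l hψ
       obtain ⟨v, hv3, hv4⟩ := hCL t κ φ v0 (by
         intro hpole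
         have hP : PO (φ.comp (ci (ho.le t))) (M.x (π' t)) (fun i => (m : ℤ) * n j i) := by
           obtain ⟨i, hi, hi0⟩ := hpole
           exact ⟨i, hi, M.xA _ i, hi0⟩
         obtain ⟨h3, h4, -⟩ := hN3 (π' t) κ (φ.comp (ci (ho.le t))) hP
         exact h4 v0 (hv2 j (fun h => hl h.symm) h3))
       have hvb := hbase t κ φ v0 v hv3 hv4
       by_cases hpj : PO φ (M3.x t) ν
       · obtain ⟨⟨w, hw1, hw2, hw3⟩, -, -⟩ := hV t κ φ hpj
         have hwb : ∀ l', l' ≠ j → om w (fun i' => ∑ i, Θ' i' i * n l' i) (hhA t l') = 0 := by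
           intro l' hl'
           unfold om
           rw [hw1 _ (hS.hA (π' t) l'), hsumΘ]
           have h2 : ∑ i, (n l' i : κ) * ∑ i', (Θ' i' i : κ) * w.e i' = 0 :=
             Finset.sum_eq_zero fun i _ => by rw [hw2 i, mul_zero]
           rw [h2, mul_zero, add_zero]
         obtain ⟨v', hv5, hv6⟩ := lt_comb v w (-(om v ν (hy' t) / om w ν (hy' t)))
         refine ⟨v', ?_, ?_⟩
         · rw [homl t κ φ v' l hl, om_comb v w v' _ hv5 hv6, hwb l hl, mul_zero, add_zero, hvb l]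
           exact hv1
         · intro l' hl' hpl'
           by_cases hlj : l' = j
           · subst hlj
             rw [homj, om_comb v w v' _ hv5 hv6]
             field_simp
             ring
           · rw [homl t κ φ v' l' hlj, om_comb v w v' _ hv5 hv6, hwb l' hlj, mul_zero, add_zero,
               hvb l']
             refine hv2 l' hl' (hpull t κ φ l' ?_)
             simp only [hlj, if_false] at hpl'
             exact hpl'
       · refine ⟨v, ?_, ?_⟩
         · rw [homl t κ φ v l hl, hvb l]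
           exact hv1
         · intro l' hl' hpl'
           by_cases hlj : l' = j
           · subst hlj
             simp only [if_true] at hpl'
             exact absurd hpl' hpj
           · rw [homl t κ φ v l' hlj, hvb l']
             refine hv2 l' hl' (hpull t κ φ l' ?_)
             simp only [hlj, if_false] at hpl'
             exact hpl'
   · intro t κ _ _ φ l hUl hpo
     by_cases hl : l = j
     · subst hl
       have hpo' : PO φ (M3.x t) ν := by
         simp only [if_true] at hpo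
         exact hpo
       obtain ⟨-, ⟨i0, hi0, hb⟩, hun⟩ := hV t κ φ hpo'
       have hP : PO (φ.comp (ci (ho.le t))) (M.x (π' t)) (fun i => (m : ℤ) * n l i) :=
         ⟨i0, hi0, M.xA _ i0, hb⟩
       obtain ⟨-, -, h5⟩ := hN3 (π' t) κ (φ.comp (ci (ho.le t))) hP
       have h6 := hun (h5 hUl)
       have e1 : (⟨if l = l then y' t else algebraMap K K1 (h (π' t) l), hA' t l⟩ : M3.A t) =
           ⟨y' t, hy' t⟩ := Subtype.ext (if_pos rfl)
       rw [e1]
       exact h6
     · have hpo' : PO φ (M3.x t) (fun i' => ∑ i, Θ' i' i * n l i) := by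
         simp only [hl, if_false] at hpo
         exact hpo
       have h6 := hS.un (π' t) κ (φ.comp (ci (ho.le t))) l hUl (hpull t κ φ l hpo')
       have e1 : (⟨if l = j then y' t else algebraMap K K1 (h (π' t) l), hA' t l⟩ : M3.A t) =
           ⟨_, hhA t l⟩ := Subtype.ext (if_neg hl)
       rw [e1]
       exact h6
  refine ⟨T3, I3, hT3, hI3, M3, π', Θ', _, _, Γ3, ho2, hS', ?_, hF3, hR3⟩
  intro t κ _ _ φ ψ hψ v0 hv0
  have hφψ : φ.comp (ci (ho.le t)) = ψ := AlgHom.ext fun a => hψ a a.2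
  subst hφψ
  obtain ⟨v, hv3, hv4⟩ := hCL t κ φ v0 (by
    intro hpole
    have hP : PO (φ.comp (ci (ho.le t))) (M.x (π' t)) (fun i => (m : ℤ) * n j i) := by
      obtain ⟨i, hi, hi0⟩ := hpole
      exact ⟨i, hi, M.xA _ i, hi0⟩
    obtain ⟨h3, h4, -⟩ := hN3 (π' t) κ (φ.comp (ci (ho.le t))) hP
    exact h4 v0 (hv0 j h3))
  have hvb := hbase t κ φ v0 v hv3 hv4
  by_cases hpj : PO φ (M3.x t) ν
  · obtain ⟨⟨w, hw1, hw2, hw3⟩, -, -⟩ := hV t κ φ hpj
    have hwb : ∀ l', l' ≠ j → om w (fun i' => ∑ i, Θ' i' i * n l' i) (hhA t l') = 0 := by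
      intro l' hl'
      unfold om
      rw [hw1 _ (hS.hA (π' t) l'), hsumΘ]
      have h2 : ∑ i, (n l' i : κ) * ∑ i', (Θ' i' i : κ) * w.e i' = 0 :=
        Finset.sum_eq_zero fun i _ => by rw [hw2 i, mul_zero]
      rw [h2, mul_zero, add_zero]
    obtain ⟨v', hv5, hv6⟩ := lt_comb v w (-(om v ν (hy' t) / om w ν (hy' t)))
    refine ⟨v', ⟨fun a ha ha' => rfl, ?_, ?_⟩, ?_⟩
    · intro a ha ha'
      have h1 := hw1 a ha
      have h2 := hv3 a ha
      rw [hv5, h1, mul_zero, add_zero]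
      exact h2
    · intro i
      have h1 : ∑ i', (Θ' i' i : κ) * v'.e i' = ∑ i', (Θ' i' i : κ) * v.e i' +
          (-(om v ν (hy' t) / om w ν (hy' t))) * ∑ i', (Θ' i' i : κ) * w.e i' := by
        rw [Finset.mul_sum, ← Finset.sum_add_distrib]
        refine Finset.sum_congr rfl fun i' _ => ?_
        rw [hv6]
        ring
      rw [h1, hw2 i, mul_zero, add_zero, hv4 i]
    · intro l' hpl'
      by_cases hlj : l' = j
      · subst hlj
        rw [homj, om_comb v w v' _ hv5 hv6]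
        field_simp
        ring
      · rw [homl t κ φ v' l' hlj, om_comb v w v' _ hv5 hv6, hwb l' hlj, mul_zero, add_zero,
          hvb l']
        refine hv0 l' (hpull t κ φ l' ?_)
        simp only [hlj, if_false] at hpl'
        exact hpl'
  · refine ⟨v, ⟨fun a ha ha' => rfl, fun a ha ha' => hv3 a ha, hv4⟩, ?_⟩
    intro l' hpl'
    by_cases hlj : l' = j
    · subst hlj
      simp only [if_true] at hpl'
      exact absurd hpl' hpj
    · rw [homl t κ φ v l' hlj, hvb l']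
      refine hv0 l' (hpull t κ φ l' ?_)
      simp only [hlj, if_false] at hpl'
      exact hpl'

end step

end Pool.Agent.Run7.h802.Ct
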