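import Pool.Agent.Run7.h802.Ct3
import Mathlib.RingTheory.Valuation.LocalSubring

/-!
# Functions with smaller poles, by valuations
-/

set_option autoImplicit false
set_option linter.unusedVariables false
set_option linter.unusedSectionVars false

universe u

open Polynomial

namespace Pool.Agent.Run7.h802.Ct

open Pool.Agent.W558 Pool.Agent.W177.WD Pool.Agent.W174.WA

section val

variable {E : Type u} [Field E]

/-- The elements which are contained in all valuation rings over `A` are integral over `A`. -/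
lemma val_int (A : Subring E) (γ : E) (h : ∀ V : ValuationSubring E, A ≤ V.toSubring → γ ∈ V) :
    IsIntegral A γ := by
  have h1 := iInf_valuationSubring_superset (K := E) (s := (A : Set E))
  have h2 : γ ∈ (⨅ V : {V : ValuationSubring E // (A : Set E) ⊆ V.toSubring},
      V.1.toSubring) := by
    rw [Subring.mem_iInf]
    rintro ⟨V, hV⟩
    exact h V hV
  rw [h1] at h2
  have h3 : IsIntegral (Subring.closure (A : Set E)) γ := h2
  obtain ⟨P, hP, h0⟩ := h3
  have hle : Subring.closure (A : Set E) ≤ A := Subring.closure_le.2 le_rfl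
  refine ⟨P.map (Subring.inclusion hle), hP.map _, ?_⟩
  rw [eval₂_map]
  exact h0

/-- The elements of the form `a / γ ^ N`. -/
def locS (A : Subring E) (γ : E) (hγ : γ ∈ A) : Subring E where
  carrier := {x | ∃ N : ℕ, x * γ ^ N ∈ A}
  mul_mem' := by
    rintro x y ⟨N, hN⟩ ⟨N', hN'⟩
    refine ⟨N + N', ?_⟩
    have h1 : x * y * γ ^ (N + N') = (x * γ ^ N) * (y * γ ^ N') := by ring
    rw [h1]
    exact A.mul_mem hN hN'
  one_mem' := ⟨0, by simp⟩
  add_mem' := by
    rintro x y ⟨N, hN⟩ ⟨N', hN'⟩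
    refine ⟨N + N', ?_⟩
    have h1 : (x + y) * γ ^ (N + N') = (x * γ ^ N) * γ ^ N' + (y * γ ^ N') * γ ^ N := by ring
    rw [h1]
    exact A.add_mem (A.mul_mem hN (A.pow_mem hγ _)) (A.mul_mem hN' (A.pow_mem hγ _))
  zero_mem' := ⟨0, by simp⟩
  neg_mem' := by
    rintro x ⟨N, hN⟩
    exact ⟨N, by rw [neg_mul]; exact A.neg_mem hN⟩

/-- A power of `γ` is divisible by `x` if `γ` is a nonunit at all valuation rings over `A` at which
`x` is a nonunit. -/
lemma val_dvd (A : Subring E) (γ x : E) (hγ : γ ∈ A) (hx : x ∈ A) (hx0 : x ≠ 0) (hγ0 : γ ≠ 0)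
    (h : ∀ V : ValuationSubring E, A ≤ V.toSubring → V.valuation x < 1 → V.valuation γ < 1) :
    ∃ N : ℕ, ∃ s ∈ A, γ ^ N = x * s := by
  have hAB : A ≤ locS A γ hγ := fun a ha => ⟨0, by simpa using ha⟩
  by_cases htop : Ideal.span {(⟨x, hAB hx⟩ : locS A γ hγ)} = ⊤
  · rw [Ideal.eq_top_iff_one, Ideal.mem_span_singleton] at htop
    obtain ⟨⟨b, N, hb⟩, h1⟩ := htop
    have h2 : (1 : E) = x * b := congrArg Subtype.val h1
    refine ⟨N, b * γ ^ N, hb, ?_⟩
    rw [← mul_assoc, ← h2, one_mul]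
  · exfalso
    obtain ⟨V, hV1, hV2⟩ := Ideal.image_subset_nonunits_valuationSubring _ htop
    have h3 : V.valuation x < 1 := by
      have h4 : x ∈ V.nonunits := hV2 ⟨⟨x, hAB hx⟩, Ideal.mem_span_singleton_self _, rfl⟩
      exact h4
    have h5 := h V (hAB.trans hV1) h3
    have h6 : γ⁻¹ ∈ V := by
      apply hV1
      refine ⟨1, ?_⟩
      rw [pow_one, inv_mul_cancel₀ hγ0]
      exact A.one_mem
    have h7 : V.valuation γ⁻¹ ≤ 1 := (V.valuation_le_one_iff _).2 h6
    have h8 : V.valuation γ * V.valuation γ⁻¹ = 1 := by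
      rw [← map_mul, mul_inv_cancel₀ hγ0, map_one]
    have h9 : V.valuation γ * V.valuation γ⁻¹ < 1 := by
      calc V.valuation γ * V.valuation γ⁻¹ ≤ V.valuation γ * 1 := by gcongr
        _ = V.valuation γ := mul_one _
        _ < 1 := h5
    rw [h8] at h9
    exact lt_irrefl _ h9

end val

section sm

variable {k K E : Type u} [Field k] [Field K] [Algebra k K] [Field E] [Algebra K E]
  {T I : Type} [Fintype I]

/-- `e` has smaller poles than `Φ` at the valuation ring `V`. -/
def SmV (V : ValuationSubring E) (e Φ : E) : Prop :=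
  (Φ ∈ V → e ∈ V) ∧ (Φ ∉ V → V.valuation e < V.valuation Φ)

lemma smM_of_val (M : LM (⊥ : Subalgebra k K) ⊤ T I) (hR : Frc M) (n : I → ℤ)
    (hn : ∀ i, n i ≤ 0) (Φ e : K) (h : T → K) (hA : ∀ t, h t ∈ M.A t)
    (hΦ : ∀ t, Φ = (∏ i, M.x t i ^ n i) * h t)
    (hv : ∀ t (V : ValuationSubring E), (∀ a ∈ M.A t, algebraMap K E a ∈ V) →
      SmV V (algebraMap K E e) (algebraMap K E Φ)) : SmM M n e := by
  classical
  intro t
  have hsm := M.sm t
  have hinj : Function.Injective (algebraMap K E) := (algebraMap K E).injective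
  have hmonA : ∏ i, M.x t i ^ (-n i) ∈ M.A t := (M.A t).prod_mem fun i _ =>
    zpow_mem_of (M.xA t i) (Or.inl (by have := hn i; omega))
  have hmon0 : ∏ i, M.x t i ^ (-n i) ≠ 0 :=
    Finset.prod_ne_zero_iff.2 fun i _ => zpow_ne_zero _ (M.x0 t i)
  have hm1 : (∏ i, M.x t i ^ n i) * ∏ i, M.x t i ^ (-n i) = 1 := by
    rw [← Finset.prod_mul_distrib]
    refine Finset.prod_eq_one fun i _ => ?_
    rw [← zpow_add₀ (M.x0 t i), add_neg_cancel, zpow_zero]
  have hΦm : Φ * ∏ i, M.x t i ^ (-n i) = h t := by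
    rw [hΦ t]
    linear_combination (h t) * hm1
  let A' : Subring E := (M.A t).toSubring.map (algebraMap K E)
  have hA' : ∀ a ∈ M.A t, algebraMap K E a ∈ A' := fun a ha => ⟨a, ha, rfl⟩
  have hV1 : ∀ V : ValuationSubring E, A' ≤ V.toSubring → ∀ a ∈ M.A t, algebraMap K E a ∈ V :=
    fun V hV a ha => hV (hA' a ha)
  have hle1 : ∀ V : ValuationSubring E, A' ≤ V.toSubring → ∀ a ∈ M.A t,
      V.valuation (algebraMap K E a) ≤ 1 := fun V hV a ha =>
    (V.valuation_le_one_iff _).2 (hV1 V hV a ha)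
  set γ : K := e * ∏ i, M.x t i ^ (-n i) with hγ
  have hγE : algebraMap K E γ = algebraMap K E e * algebraMap K E (∏ i, M.x t i ^ (-n i)) :=
    map_mul _ _ _
  have hΦE : algebraMap K E Φ * algebraMap K E (∏ i, M.x t i ^ (-n i)) =
      algebraMap K E (h t) := by rw [← map_mul, hΦm]
  have hmE0 : ∀ V : ValuationSubring E,
      0 < V.valuation (algebraMap K E (∏ i, M.x t i ^ (-n i))) := fun V =>
    (Valuation.pos_iff _).2 ((_root_.map_ne_zero (algebraMap K E)).2 hmon0)
  -- the two cases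
  have hcase : ∀ V : ValuationSubring E, A' ≤ V.toSubring →
      (algebraMap K E e ∈ V ∨ V.valuation (algebraMap K E γ) < 1) := by
    intro V hV
    obtain ⟨h1, h2⟩ := hv t V (hV1 V hV)
    by_cases hP : algebraMap K E Φ ∈ V
    · exact Or.inl (h1 hP)
    · right
      rw [hγE, map_mul]
      calc V.valuation (algebraMap K E e) * V.valuation (algebraMap K E (∏ i, M.x t i ^ (-n i)))
          < V.valuation (algebraMap K E Φ) *
            V.valuation (algebraMap K E (∏ i, M.x t i ^ (-n i))) :=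
            mul_lt_mul_of_pos_right (h2 hP) (hmE0 V)
        _ = V.valuation (algebraMap K E (h t)) := by rw [← map_mul, hΦE]
        _ ≤ 1 := hle1 V hV _ (hA t)
  have hγA : γ ∈ M.A t := by
    apply Pool.Agent.H176.Mix.int_mem hR t
    have h1 : IsIntegral A' (algebraMap K E γ) := by
      apply val_int
      intro V hV
      rcases hcase V hV with h1 | h1
      · rw [hγE]
        exact V.mul_mem _ _ h1 (hV1 V hV _ hmonA)
      · exact (V.valuation_le_one_iff _).1 h1.le
    obtain ⟨P, hP, hP0⟩ := h1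
    -- transport of the equation
    have hsurj : ∀ c : A', ∃ a : M.A t, algebraMap K E (a : K) = c := by
      rintro ⟨c, a, ha, rfl⟩
      exact ⟨⟨a, ha⟩, rfl⟩
    let ψ : M.A t →+* A' := ((algebraMap K E).comp (M.A t).val.toRingHom).codRestrict A'
      fun a => hA' a a.2
    have hψ : Function.Surjective ψ := by
      intro c
      obtain ⟨a, ha⟩ := hsurj c
      exact ⟨a, Subtype.ext ha⟩
    obtain ⟨P', hP', hdeg, hmonic⟩ := Polynomial.lifts_and_natDegree_eq_and_monic
      ((Polynomial.mem_lifts (f := ψ) P).2 (by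
        obtain ⟨P', hP'⟩ := Polynomial.map_surjective ψ hψ P
        exact ⟨P', hP'⟩)) hP
    refine ⟨P', hmonic, ?_⟩
    apply hinj
    rw [map_zero, Polynomial.hom_eval₂]
    have e2 : (algebraMap K E).comp (algebraMap (M.A t) K) = (algebraMap A' E).comp ψ := rfl
    rw [e2, ← Polynomial.eval₂_map, hP']
    exact hP0
  refine ⟨hγA, fun i hi => ?_⟩
  by_cases hγ0 : γ = 0
  · exact ⟨0, (M.A t).zero_mem, by rw [hγ0, mul_zero]⟩
  have hx0E : algebraMap K E (M.x t i) ≠ 0 := (_root_.map_ne_zero (algebraMap K E)).2 (M.x0 t i)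
  obtain ⟨N, s, ⟨s', hs', rfl⟩, h1⟩ := val_dvd A' (algebraMap K E γ) (algebraMap K E (M.x t i))
    (hA' _ hγA) (hA' _ (M.xA t i)) hx0E ((_root_.map_ne_zero (algebraMap K E)).2 hγ0) (by
      intro V hV hx
      rcases hcase V hV with h1 | h1
      · rw [hγE, map_mul]
        have h2 : V.valuation (algebraMap K E e) ≤ 1 := (V.valuation_le_one_iff _).2 h1
        have h3 : V.valuation (algebraMap K E (∏ i, M.x t i ^ (-n i))) < 1 := by
          rw [← Finset.mul_prod_erase Finset.univ _ (Finset.mem_univ i), map_mul, map_mul]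
          have h4 : V.valuation (algebraMap K E (∏ l ∈ Finset.univ.erase i,
              M.x t l ^ (-n l))) ≤ 1 := hle1 V hV _ ((M.A t).prod_mem fun l _ =>
            zpow_mem_of (M.xA t l) (Or.inl (by have := hn l; omega)))
          have h5 : V.valuation (algebraMap K E (M.x t i ^ (-n i))) < 1 := by
            obtain ⟨d, hd⟩ := Int.eq_ofNat_of_zero_le (show 0 ≤ -n i - 1 by omega)
            have h6 : -n i = ((d + 1 : ℕ) : ℤ) := by push_cast; omega
            rw [h6, zpow_natCast, map_pow, map_pow]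
            exact pow_lt_one₀ zero_le hx (Nat.succ_ne_zero d)
          calc _ ≤ V.valuation (algebraMap K E (M.x t i ^ (-n i))) * 1 := by gcongr
            _ = V.valuation (algebraMap K E (M.x t i ^ (-n i))) := mul_one _
            _ < 1 := h5
        calc _ ≤ 1 * V.valuation (algebraMap K E (∏ i, M.x t i ^ (-n i))) := by gcongr
          _ = V.valuation (algebraMap K E (∏ i, M.x t i ^ (-n i))) := one_mul _
          _ < 1 := h3
      · exact h1)
  have h2 : γ ^ N = M.x t i * s' := by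
    apply hinj
    rw [map_mul (algebraMap K E) (M.x t i) s', map_pow]
    exact h1
  have h3 : (⟨M.x t i, M.xA t i⟩ : M.A t) ∣ (⟨γ, hγA⟩ : M.A t) ^ N :=
    ⟨⟨s', hs'⟩, Subtype.ext h2⟩
  obtain ⟨c, hc⟩ := Pool.Agent.TH188.WP.dvd_of_dvd_pow' (M.snc t) (M.xA t) i _ N h3
  exact ⟨c, c.2, congrArg Subtype.val hc⟩

end sm

end Pool.Agent.Run7.h802.Ct
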