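import Pool.Agent.Run7.h802.Ct4

/-!
# Towers of Artin-Schreier extensions over jointly clean functions
-/

set_option autoImplicit false
set_option linter.unusedVariables false
set_option linter.unusedSectionVars false

universe u

open Polynomial

namespace Pool.Agent.Run7.h802.Ct

open Pool.Agent.W558 Pool.Agent.W177.WD Pool.Agent.W174.WA Pool.Agent.W498.Tor
open Pool.Agent.TH188.WQ (Cp exists_lt)

section gtc

variable {k L : Type u} [Field k] [Field L] [Algebra k L] {T0 I0 ι G : Type} [Fintype I0]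
  [Finite T0]

/-- The extension `K` of `L` has a model over the model `M0` of `L`, on which the functions `F j`
are jointly clean; the logarithmic tangent vectors of `M0` on which the forms of the functions
`f j` vanish can be lifted to vectors on which the forms of the functions `F j` vanish. -/
def GTC (M0 : LM (⊥ : Subalgebra k L) ⊤ T0 I0) (n0 : ι → I0 → ℤ) (h0 : T0 → ι → L)
    (hA0 : ∀ t j, h0 t j ∈ M0.A t) (U : ι → Prop) (g : G → L)
    (K : Type u) [Field K] [Algebra k K] [Algebra L K] [IsScalarTower k L K] (F : ι → K) : Prop :=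
  ∃ (T I : Type) (_ : Finite T) (_ : Fintype I) (M : LM (⊥ : Subalgebra k K) ⊤ T I)
    (π : T → T0) (Θ : I → I0 → ℤ) (n : ι → I → ℤ) (h : T → ι → K) (Γ : G → I → ℤ)
    (ho : Pool.Agent.TH188.WQ.Ovr M0 M π Θ) (hS : St M F n h U),
    (∀ t (κ : Type u) [Field κ] [Algebra k κ] (φ : M.A t →ₐ[k] κ) (ψ : M0.A (π t) →ₐ[k] κ),
      (∀ a (ha : a ∈ M0.A (π t)), φ ⟨algebraMap L K a, ho.le t a ha⟩ = ψ ⟨a, ha⟩) →
      ∀ v0 : LT ψ (M0.x (π t)),
        (∀ l, PO ψ (M0.x (π t)) (n0 l) → om v0 (n0 l) (hA0 (π t) l) = 0) →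
        ∃ v : LT φ (M.x t), Cp v0 v Θ ∧
          ∀ l, PO φ (M.x t) (n l) → om v (n l) (hS.hA t l) = 0) ∧
    Fn M (fun b => algebraMap L K (g b)) Γ ∧ Frc M

variable {M0 : LM (⊥ : Subalgebra k L) ⊤ T0 I0} {f : ι → L} {n0 : ι → I0 → ℤ}
  {h0 : T0 → ι → L} {U : ι → Prop} {g : G → L}

/-- The beginning. -/
theorem gtc_init (hS : St M0 f n0 h0 U) {Γ : G → I0 → ℤ} (hG : Fn M0 g Γ) (hR : Frc M0) :
    GTC M0 n0 h0 hS.hA U g L f := by
  classical
  have ho := (Pool.Agent.H176.Mix.ASt.refl (k := k) (L := L) n0 h0 hS.hA (∅ : Set ι)).ov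
  refine ⟨T0, I0, inferInstance, inferInstance, M0, id, _, n0, h0, Γ, ho, hS, ?_, hG, hR⟩
  intro t κ _ _ φ ψ hψ v0 hv0
  have hφψ : φ = ψ := AlgHom.ext fun a => hψ a a.2
  subst hφψ
  refine ⟨v0, ⟨fun a ha ha' => rfl, fun a ha ha' => rfl, ?_⟩, hv0⟩
  intro i0
  rw [Finset.sum_eq_single i0]
  · rw [if_pos rfl]; push_cast; rw [one_mul]
  · intro b _ hb
    rw [if_neg hb]; push_cast; rw [zero_mul]
  · intro h
    exact absurd (Finset.mem_univ _) h

variable {p : ℕ} [Fact p.Prime] [PerfectField k] [CharP k p]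

/-- One step. -/
theorem gtc_step {hA0 : ∀ t j, h0 t j ∈ M0.A t} {K : Type u} [Field K] [Algebra k K]
    [Algebra L K] [IsScalarTower k L K] {F : ι → K} (hM : GTC M0 n0 h0 hA0 U g K F)
    (K1 : Type u) [Field K1] [Algebra k K1] [Algebra L K1] [Algebra K K1]
    [IsScalarTower k L K1] [IsScalarTower k K K1] [IsScalarTower L K K1]
    {E : Type u} [Field E] [Algebra L E] [Algebra K E] [IsScalarTower L K E]
    [DecidableEq ι] (j : ι) (c : k) (hc : c ≠ 0) (m : ℕ) (hm : ¬ p ∣ m)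
    (hmU : m = 1 ∨ U j) (e : K)
    (he : ∀ t0 (V : ValuationSubring E), (∀ a ∈ M0.A t0, algebraMap L E a ∈ V) →
      SmV V (algebraMap K E e) (algebraMap K E (F j ^ m))) (z : K1)
    (hz : z ^ p - z = algebraMap K K1 (algebraMap k K c * F j ^ m + e))
    (hzL : ∀ b : K, b ^ p - b ≠ algebraMap k K c * F j ^ m + e)
    (hgen0 : IntermediateField.adjoin K {z} = ⊤) :
    GTC M0 n0 h0 hA0 U g K1 (Function.update (fun l => algebraMap K K1 (F l)) j z) := by
  obtain ⟨T, I, hT, hI, M, π, Θ, n, h, Γ, ho, hS, hL, hFn, hR⟩ := hM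
  have hmon : ∀ t, F j ^ m = (∏ i, M.x t i ^ ((m : ℤ) * n j i)) * h t j ^ m := by
    intro t
    have h1 : (∏ i, M.x t i ^ ((m : ℤ) * n j i)) = (∏ i, M.x t i ^ n j i) ^ m := by
      rw [← Finset.prod_pow]
      refine Finset.prod_congr rfl fun i _ => ?_
      rw [← zpow_natCast, ← zpow_mul, mul_comm]
    rw [h1, hS.eq t j, mul_pow]
  have hsm : SmM M (fun i => (m : ℤ) * n j i) e := by
    refine smM_of_val (E := E) M hR _ (fun i => mul_nonpos_of_nonneg_of_nonpos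
      (Int.natCast_nonneg m) (hS.n0 j i)) (F j ^ m) e (fun t => h t j ^ m)
      (fun t => (M.A t).pow_mem (hS.hA t j) m) hmon ?_
    intro t V hV
    refine he (π t) V fun a ha => ?_
    rw [IsScalarTower.algebraMap_apply L K E]
    exact hV _ (ho.le t a ha)
  obtain ⟨T1, I1, hT1, hI1, M1, π1, Θ1, n1, h1, Γ1, ho1, hS1, hL1, hFn1, hR1⟩ :=
    step (p := p) hS hR hFn K1 j c hc m hm hmU e hsm z hz hzL hgen0
  have e2 : (fun b => algebraMap K K1 (algebraMap L K (g b))) =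
      fun b => algebraMap L K1 (g b) :=
    funext fun b => (IsScalarTower.algebraMap_apply L K K1 _).symm
  rw [e2] at hFn1
  refine ⟨T1, I1, hT1, hI1, M1, fun t => π (π1 t), fun i1 i0 => ∑ i, Θ1 i1 i * Θ i i0, n1, h1, Γ1,
    ho.comp ho1, hS1, ?_, hFn1, hR1⟩
  intro t κ _ _ φ ψ hψ v0 hv0
  have hle := ho.le (π1 t)
  have hψ' : ∀ a (ha : a ∈ M0.A (π (π1 t))), (φ.comp (Pool.Agent.TH188.WQ.ci (ho1.le t)))
      ⟨algebraMap L K a, hle a ha⟩ = ψ ⟨a, ha⟩ := by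
    intro a ha
    rw [← hψ a ha]
    change φ ⟨_, _⟩ = _
    congr 1
    exact Subtype.ext (IsScalarTower.algebraMap_apply L K K1 a).symm
  obtain ⟨v, hv, hv'⟩ := hL (π1 t) κ (φ.comp (Pool.Agent.TH188.WQ.ci (ho1.le t))) ψ hψ' v0 hv0
  obtain ⟨v1, hv1, hv1'⟩ := hL1 t κ φ (φ.comp (Pool.Agent.TH188.WQ.ci (ho1.le t)))
    (fun a ha => rfl) v hv'
  exact ⟨v1, hv.comp hle hv1, hv1'⟩

/-- Transport. -/
theorem gtc_surj {hA0 : ∀ t j, h0 t j ∈ M0.A t} {K : Type u} [Field K] [Algebra k K]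
    [Algebra L K] [IsScalarTower k L K] {F : ι → K} (hM : GTC M0 n0 h0 hA0 U g K F)
    (K1 : Type u) [Field K1] [Algebra k K1] [Algebra L K1] [Algebra K K1]
    [IsScalarTower k L K1] [IsScalarTower k K K1] [IsScalarTower L K K1]
    (hsurj : Function.Surjective (algebraMap K K1)) :
    GTC M0 n0 h0 hA0 U g K1 (fun l => algebraMap K K1 (F l)) := by
  classical
  obtain ⟨T, I, hT, hI, M, π, Θ, n, h, Γ, ho, hS, hL, hFn, hFrc⟩ := hM
  have hinj : Function.Injective (em k K K1) := em_inj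
  have key : ∀ a, algebraMap L K1 a = em k K K1 (algebraMap L K a) := fun a =>
    IsScalarTower.algebraMap_apply L K K1 a
  have hmon : ∀ t (m : I → ℤ), ∏ i, (mapLM (K := K1) M).x t i ^ m i =
      em k K K1 (∏ i, M.x t i ^ m i) := by
    intro t m
    rw [map_prod]
    refine Finset.prod_congr rfl fun i _ => ?_
    rw [map_zpow₀]
    rfl
  have hle : ∀ t, ∀ a ∈ M0.A (π t), algebraMap L K1 a ∈ (mapLM (K := K1) M).A t := by
    intro t a ha
    rw [key]
    exact ⟨_, ho.le t a ha, rfl⟩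
  have ho1 : Pool.Agent.TH188.WQ.Ovr M0 (mapLM (K := K1) M) π Θ := by
    refine ⟨hle, ?_, ho.Θ0⟩
    intro t i0
    rw [hmon, key, ho.x]
  have hA1 : ∀ t j, algebraMap K K1 (h t j) ∈ (mapLM (K := K1) M).A t := fun t j =>
    ⟨_, hS.hA t j, rfl⟩
  -- transport of the vectors
  have hlt : ∀ t (κ : Type u) [Field κ] [Algebra k κ] (φ : (mapLM (K := K1) M).A t →ₐ[k] κ)
      (v : LT (φ.comp (eqv (K := K1) (M.A t)).toAlgHom) (M.x t)),
      ∃ v' : LT φ ((mapLM (K := K1) M).x t), v'.e = v.e ∧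
        (∀ (b : K) (hb : b ∈ M.A t) (hb' : algebraMap K K1 b ∈ (mapLM (K := K1) M).A t),
          v'.D.D ⟨algebraMap K K1 b, hb'⟩ = v.D.D ⟨b, hb⟩) ∧
        ∀ l, om v' (n l) (hA1 t l) = om v (n l) (hS.hA t l) := by
    intro t κ _ _ φ v
    obtain ⟨v', he, hD⟩ := exists_lt M t φ v
    have hval : ∀ (b : K) (hb : b ∈ M.A t) (hb' : algebraMap K K1 b ∈ (mapLM (K := K1) M).A t),
        (φ.comp (eqv (K := K1) (M.A t)).toAlgHom) ⟨b, hb⟩ = φ ⟨algebraMap K K1 b, hb'⟩ := by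
      intro b hb hb'
      change φ (eqv (K := K1) (M.A t) ⟨b, hb⟩) = _
      congr 1
    refine ⟨v', he, hD, ?_⟩
    intro l
    unfold om
    rw [he, ← hval _ (hS.hA t l) (hA1 t l)]
    congr 1
    exact hD _ (hS.hA t l) (hA1 t l)
  have hpo : ∀ t (κ : Type u) [Field κ] [Algebra k κ] (φ : (mapLM (K := K1) M).A t →ₐ[k] κ)
      (m : I → ℤ), PO φ ((mapLM (K := K1) M).x t) m →
      PO (φ.comp (eqv (K := K1) (M.A t)).toAlgHom) (M.x t) m := by
    rintro t κ _ _ φ m ⟨i, hi, hA, h0⟩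
    exact ⟨i, hi, M.xA t i, h0⟩
  have hS1 : St (mapLM (K := K1) M) (fun l => algebraMap K K1 (F l)) n
      (fun t l => algebraMap K K1 (h t l)) U := by
    refine ⟨hS.n0, hA1, ?_, ?_, ?_⟩
    · intro t j
      rw [hS.eq t j, map_mul, hmon]
      rfl
    · intro t κ _ _ φ j hj
      obtain ⟨v, hv1, hv2⟩ := hS.ln t κ (φ.comp (eqv (K := K1) (M.A t)).toAlgHom) j
        (hpo t κ φ _ hj)
      obtain ⟨v', he, hD, hom⟩ := hlt t κ φ v
      refine ⟨v', ?_, ?_⟩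
      · rw [hom j]
        exact hv1
      · intro l hl hpl
        rw [hom l]
        exact hv2 l hl (hpo t κ φ _ hpl)
    · intro t κ _ _ φ j hU hj
      have h1 := hS.un t κ (φ.comp (eqv (K := K1) (M.A t)).toAlgHom) j hU (hpo t κ φ _ hj)
      exact h1
  refine ⟨T, I, hT, hI, mapLM (K := K1) M, π, Θ, n, fun t l => algebraMap K K1 (h t l), Γ, ho1,
    hS1, ?_, ?_, ?_⟩
  · intro t κ _ _ φ ψ hψ v0 hv0
    obtain ⟨v, hv, hv'⟩ := hL t κ (φ.comp (eqv (K := K1) (M.A t)).toAlgHom) ψ (by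
      intro a ha
      rw [← hψ a ha]
      change φ (eqv (K := K1) (M.A t) ⟨_, _⟩) = φ ⟨_, _⟩
      congr 1
      exact Subtype.ext (key a).symm) v0 hv0
    obtain ⟨v', he, hD, hom⟩ := hlt t κ φ v
    refine ⟨v', ⟨?_, ?_, ?_⟩, ?_⟩
    · intro a ha ha'
      exact hψ a ha
    · intro a ha ha'
      have h1 := hD (algebraMap L K a) (ho.le t a ha) ((key a) ▸ ha')
      have e1 : (⟨algebraMap L K1 a, ha'⟩ : (mapLM (K := K1) M).A t) =
        ⟨algebraMap K K1 (algebraMap L K a), (key a) ▸ ha'⟩ := Subtype.ext (key a)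
      rw [e1, h1, hv.dd a ha]
    · intro i0
      rw [he]
      exact hv.ee i0
    · intro l hl
      rw [hom l]
      exact hv' l (hpo t κ φ _ hl)
  · intro b t
    obtain ⟨w, hw0, hw, hw', h1⟩ := hFn b t
    refine ⟨em k K K1 w, (map_ne_zero_iff _ hinj).2 hw0, ⟨w, hw, rfl⟩,
      ⟨w⁻¹, hw', map_inv₀ (em k K K1) w⟩, ?_⟩
    have h2 : ∏ i, (mapLM (K := K1) M).x t i ^ Γ b i = em k K K1 (∏ i, M.x t i ^ Γ b i) := hmon t _
    rw [h2, ← map_mul]
    change algebraMap L K1 (g b) = _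
    rw [IsScalarTower.algebraMap_apply L K K1]
    exact congrArg _ h1
  · intro t x
    obtain ⟨l, rfl⟩ := hsurj x
    obtain ⟨c, hc, d, hd, hd0, h1⟩ := hFrc t l
    refine ⟨em k K K1 c, ⟨c, hc, rfl⟩, em k K K1 d, ⟨d, hd, rfl⟩,
      (map_ne_zero_iff _ hinj).2 hd0, ?_⟩
    change em k K K1 l = _
    rw [h1, map_mul, map_inv₀]

end gtc

end Pool.Agent.Run7.h802.Ct
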