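import Pool.Agent.Run7.h802.Ct5

/-!
# Towers in an extension field, and `p`-th roots over them
-/

set_option autoImplicit false
set_option linter.unusedVariables false
set_option linter.unusedSectionVars false

universe u

open Polynomial

namespace Pool.Agent.Run7.h802.Ct

open Pool.Agent.W558 Pool.Agent.W177.WD Pool.Agent.W174.WA Pool.Agent.W498.Tor
open Pool.Agent.TH188.WQ (Cp exists_lt pw)
open Pool.Agent.TH214 (Dm)
open Pool.Agent.H176.Mix (ASt Pole tower_add' tower_mul' nfj_of_ASt)

section twr

variable {k L : Type u} [Field k] [Field L] [Algebra k L] {T0 ι : Type} [DecidableEq ι]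
  {E : Type u} [Field E] [Algebra k E] [Algebra L E] [IsScalarTower k L E]

/-- The towers: `K` is generated over `L` by roots of Artin-Schreier equations
`z ^ p - z = c * F j ^ m + e`; after each step the function `F j` is replaced by `z`. -/
inductive Twr (p : ℕ) (A0 : T0 → Subalgebra k L) (f : ι → L) (U : ι → Prop) :
    IntermediateField L E → (ι → E) → Prop
  | base : Twr p A0 f U ⊥ (fun j => algebraMap L E (f j))
  | step {K : IntermediateField L E} {F : ι → E} (h : Twr p A0 f U K F) (j : ι) (z e : E) (c : k)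
      (m : ℕ) (he : e ∈ K) (hc : c ≠ 0) (hm : ¬ p ∣ m) (hU : m = 1 ∨ U j)
      (hz : z ^ p - z = algebraMap k E c * F j ^ m + e)
      (hs : ∀ t0 (V : ValuationSubring E), (∀ a ∈ A0 t0, algebraMap L E a ∈ V) →
        SmV V e (F j ^ m)) (hzK : z ∉ K) :
      Twr p A0 f U (K ⊔ IntermediateField.adjoin L {z}) (Function.update F j z)

variable {I0 G : Type} [Fintype I0] [Finite T0] {M0 : LM (⊥ : Subalgebra k L) ⊤ T0 I0}
  {f : ι → L} {n0 : ι → I0 → ℤ} {h0 : T0 → ι → L} {U : ι → Prop} {g : G → L}
  {p : ℕ} [Fact p.Prime] [PerfectField k] [CharP k p]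

theorem gtc_twr (hS : St M0 f n0 h0 U) {Γ : G → I0 → ℤ} (hG : Fn M0 g Γ) (hR : Frc M0)
    {K : IntermediateField L E} {F : ι → E} (hT : Twr p M0.A f U K F) :
    ∃ hF : ∀ j, F j ∈ K, GTC M0 n0 h0 hS.hA U g K (fun j => (⟨F j, hF j⟩ : K)) := by
  have hp : p.Prime := Fact.out
  have hcE : CharP E p := charP_of_injective_algebraMap (algebraMap k E).injective p
  induction hT with
  | base =>
    refine ⟨fun j => IntermediateField.algebraMap_mem _ _, ?_⟩
    have h1 := gtc_surj (gtc_init (k := k) hS hG hR) (⊥ : IntermediateField L E) (by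
      intro y
      obtain ⟨x, hx⟩ := IntermediateField.mem_bot.1 y.2
      exact ⟨x, Subtype.ext hx⟩)
    exact h1
  | @step K F h j z e c m he hc hm hU hz hs hzK ih =>
    obtain ⟨hF, hM⟩ := ih
    let K1 : IntermediateField L E := K ⊔ IntermediateField.adjoin L {z}
    have hle : K ≤ K1 := le_sup_left
    have hzK1 : z ∈ K1 := by
      have h1 : z ∈ IntermediateField.adjoin L {z} := IntermediateField.mem_adjoin_simple_self L z
      exact (le_sup_right : IntermediateField.adjoin L {z} ≤ K1) h1
    let _ : Algebra K K1 := (IntermediateField.inclusion hle).toRingHom.toAlgebra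
    have t1 : IsScalarTower L K K1 := IsScalarTower.of_algebraMap_eq fun c => rfl
    have t2 : IsScalarTower k K K1 := IsScalarTower.of_algebraMap_eq fun c => rfl
    have t3 : IsScalarTower K K1 E := IsScalarTower.of_algebraMap_eq fun c => rfl
    let z' : K1 := ⟨z, hzK1⟩
    have hF1 : ∀ i, Function.update F j z i ∈ K1 := by
      intro i
      by_cases hi : i = j
      · subst hi
        rw [Function.update_self]
        exact hzK1
      · rw [Function.update_of_ne hi]
        exact hle (hF i)
    refine ⟨hF1, ?_⟩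
    have hgen : IntermediateField.adjoin K {z'} = ⊤ := by
      rw [eq_top_iff]
      intro y _
      have h1 : K1 ≤ ((IntermediateField.adjoin K {z'}).restrictScalars L).map K1.val := by
        refine sup_le ?_ ?_
        · intro x hx
          refine ⟨algebraMap K K1 ⟨x, hx⟩, ?_, rfl⟩
          exact IntermediateField.algebraMap_mem (IntermediateField.adjoin K {z'}) (⟨x, hx⟩ : K)
        · rw [IntermediateField.adjoin_le_iff]
          rintro _ rfl
          exact ⟨z', IntermediateField.mem_adjoin_simple_self K z', rfl⟩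
      obtain ⟨y', hy', hyy⟩ := h1 y.2
      have h3 : y' = y := Subtype.ext hyy
      rw [← h3]
      exact hy'
    have hstep := gtc_step (p := p) hM K1 (E := E) j c hc m hm hU (⟨e, he⟩ : K) (by
        intro t0 V hV
        exact hs t0 V hV) z' (by
        apply (algebraMap K1 E).injective
        rw [map_sub, map_pow]
        exact hz) (by
        intro b hb
        apply hzK
        have h1 : (b : E) ^ p - b = algebraMap k E c * F j ^ m + e :=
          congrArg (algebraMap K E) hb
        have h2 : (z - b) ^ p = z - b := by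
          rw [sub_pow_char]
          linear_combination hz - h1
        obtain ⟨c1, hc1⟩ := Pool.Agent.W558.zc_of_pow p _ h2
        have h4 : zc p E c1 ∈ K := by
          have hcK : CharP K p := charP_of_injective_algebraMap (algebraMap k K).injective p
          have h5 : algebraMap K E (zc p K c1) = zc p E c1 := alg_zc p c1
          rw [← h5]
          exact (zc p K c1).2
        have h6 : z = b + zc p E c1 := by linear_combination hc1
        rw [h6]
        exact add_mem b.2 h4) hgen
    have e1 : (fun i => (⟨Function.update F j z i, hF1 i⟩ : K1)) =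
        Function.update (fun l => algebraMap K K1 (⟨F l, hF l⟩ : K)) j z' := by
      funext i
      apply Subtype.ext
      change Function.update F j z i = ((Function.update
        (fun l => algebraMap K K1 (⟨F l, hF l⟩ : K)) j z' i : K1) : E)
      by_cases hi : i = j
      · subst hi
        rw [Function.update_self, Function.update_self]
      · rw [Function.update_of_ne hi, Function.update_of_ne hi]
        rfl
    rw [e1]
    exact hstep

/-- Models of towers with `p`-th roots, lying over the given model. -/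
theorem model_ct {ν : Type} [Fintype ν] (hS : St M0 f n0 h0 U) {Γ : G → I0 → ℤ}
    (hG : Fn M0 g Γ) (hR : Frc M0) {Fu : ν → L} {m : ν → I0 → ℤ} {b c : T0 → ν → L}
    (hc : ∀ t u, c t u ∈ M0.A t)
    (hF : ∀ t u, Fu u = b t u ^ p + (∏ i, M0.x t i ^ m u i) * c t u)
    (hln : ∀ t (κ : Type u) [Field κ] [Algebra k κ] (ψ : M0.A t →ₐ[k] κ) (u : ν),
      ∃ v : LT ψ (M0.x t), om v (m u) (hc t u) ≠ 0 ∧ (∀ l, l ≠ u → om v (m l) (hc t l) = 0) ∧
        ∀ j, Pole M0 t ψ (n0 j) → om v (n0 j) (hS.hA t j) = 0)
    {K1 : IntermediateField L E} {F : ι → E} (hT : Twr p M0.A f U K1 F)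
    {q : ℕ} (w : Fin q → E)
    (hw : (∀ l, ∃ lam : ν → k, ∃ b ∈ K1,
        w l ^ p = algebraMap L E (∑ u, algebraMap k L (lam u) * Fu u) + b ^ p) ∨
      ((∀ u, ∃ i, g i = Fu u) ∧ (∀ u, Fu u ≠ 0) ∧ ∀ l, ∃ e : ν → ℤ,
        ∃ b ∈ K1, b ≠ 0 ∧ w l ^ p = algebraMap L E (∏ u, Fu u ^ e u) * b ^ p))
    (hgen : IntermediateField.adjoin K1 (Set.range w) = ⊤) :
    ∃ (T I : Type) (_ : Finite T) (_ : Fintype I) (M' : LM (⊥ : Subalgebra k E) ⊤ T I)
      (Γ' : G → I → ℤ), Fn M' (fun b => algebraMap L E (g b)) Γ' ∧ Frc M' ∧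
        Dm M0.A (algebraMap L E) M' := by
  classical
  have hp : p.Prime := Fact.out
  have hcE : CharP E p := charP_of_injective_algebraMap (algebraMap k E).injective p
  have hcL : CharP L p := charP_of_injective_algebraMap (algebraMap k L).injective p
  have tK1 : IsScalarTower k K1 E := IsScalarTower.of_algebraMap_eq fun c => rfl
  have hcK1 : CharP K1 p := charP_of_injective_algebraMap (algebraMap k K1).injective p
  obtain ⟨hFK, T, I, hT', hI, M1, π, Θ, n, h, Γ1, ho, hS1, hL, hF1, hR1⟩ :=
    gtc_twr (p := p) hS hG hR hT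
  -- the lifting of logarithmic vectors
  have hASt : ASt n0 h0 hS.hA (Set.univ : Set ι) M1 π Θ := by
    refine ⟨ho, ?_⟩
    intro t κ _ _ φ ψ hψ v0 hv0
    obtain ⟨v, hv, -⟩ := hL t κ φ ψ hψ v0 (fun l hl => hv0 l trivial (by
      obtain ⟨i, hi, hA, h0⟩ := hl
      exact ⟨i, hi, h0⟩))
    exact ⟨v, hv⟩
  have hNJ := nfj_of_ASt hASt hc hF (fun t κ _ _ ψ u => by
    obtain ⟨v, h1, h2, h3⟩ := hln t κ ψ u
    exact ⟨v, h1, h2, fun j _ hp => h3 j hp⟩)
  -- the generation
  have hgen2 : ∀ w' : Fin q → E, (∀ l, w l ∈ IntermediateField.adjoin K1 (Set.range w')) →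
      IntermediateField.adjoin K1 (Set.range w') = ⊤ := by
    intro w' hw'
    rw [eq_top_iff, ← hgen, IntermediateField.adjoin_le_iff]
    rintro y ⟨l, rfl⟩
    exact hw' l
  have hdm : ∀ {T2 I2 : Type} (M2 : LM (⊥ : Subalgebra k E) ⊤ T2 I2),
      Dm M1.A (algebraMap K1 E) M2 → Dm M0.A (algebraMap L E) M2 := by
    intro T2 I2 M2 hD t
    obtain ⟨s, hs⟩ := hD t
    refine ⟨π s, fun x hx => ?_⟩
    rw [IsScalarTower.algebraMap_apply L K1 E]
    exact hs _ (ho.le s x hx)
  have hgK : (fun b => algebraMap K1 E (algebraMap L K1 (g b))) =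
      fun b => algebraMap L E (g b) :=
    funext fun b => (IsScalarTower.algebraMap_apply L K1 E (g b)).symm
  rcases hw with hw | ⟨hFg, hF0, hw⟩
  · choose lw bw hbw hlw using hw
    let w' : Fin q → E := fun l => w l - bw l
    obtain ⟨T2, I2, hT2, hI2, M2, Γ2, hF2, hR2, hD2⟩ := tower_add' p M1 E hNJ hF1 hR1 q w' lw (by
      intro l
      change (w l - bw l) ^ p = _
      rw [sub_pow_char, hlw, add_sub_cancel_right, map_sum, map_sum]
      refine Finset.sum_congr rfl fun u _ => ?_
      rw [map_mul, map_mul, ← IsScalarTower.algebraMap_apply L K1 E,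
        ← IsScalarTower.algebraMap_apply k L E, ← IsScalarTower.algebraMap_apply k K1 E])
      (hgen2 w' (by
        intro l
        have h2 : w l = w' l + bw l := by
          change w l = w l - bw l + bw l
          ring
        rw [h2]
        refine add_mem (IntermediateField.subset_adjoin K1 _ ⟨l, rfl⟩) ?_
        exact IntermediateField.algebraMap_mem (IntermediateField.adjoin K1 (Set.range w'))
          (⟨bw l, hbw l⟩ : K1)))
    rw [hgK] at hF2
    exact ⟨T2, I2, hT2, hI2, M2, Γ2, hF2, hR2, hdm M2 hD2⟩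
  · choose e bw hbw hb0 hlw using hw
    -- the correction
    let y0 : Fin q → L := fun l => ∏ u, Fu u ^ (e l u / (p : ℤ))
    have hy00 : ∀ l, y0 l ≠ 0 := fun l =>
      Finset.prod_ne_zero_iff.2 fun u _ => zpow_ne_zero _ (hF0 u)
    let y : Fin q → E := fun l => algebraMap L E (y0 l) * bw l
    have hy0 : ∀ l, y l ≠ 0 := fun l =>
      mul_ne_zero ((_root_.map_ne_zero (algebraMap L E)).2 (hy00 l)) (hb0 l)
    have hyK : ∀ l, y l ∈ K1 := fun l =>
      mul_mem (IntermediateField.algebraMap_mem K1 (y0 l)) (hbw l)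
    let w' : Fin q → E := fun l => w l * (y l)⁻¹
    have hval : ∀ (e : ℤ), (((e : ZMod p).val : ℕ) : ℤ) = e % p := by
      intro e
      exact ZMod.val_intCast e
    have hyp : ∀ l, (∏ u, Fu u ^ e l u) =
        pw p Fu (fun u => ((e l u : ℤ) : ZMod p)) * y0 l ^ p := by
      intro l
      change _ = (∏ u, Fu u ^ (((e l u : ℤ) : ZMod p)).val) *
        (∏ u, Fu u ^ (e l u / (p : ℤ))) ^ p
      rw [← Finset.prod_pow, ← Finset.prod_mul_distrib]
      refine Finset.prod_congr rfl fun u _ => ?_
      rw [← zpow_natCast, ← zpow_natCast (Fu u ^ (e l u / (p : ℤ))), ← zpow_mul,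
        ← zpow_add₀ (hF0 u), hval]
      congr 1
      rw [mul_comm (e l u / (p : ℤ))]
      exact (Int.emod_add_mul_ediv _ _).symm
    obtain ⟨T2, I2, hT2, hI2, M2, Γ2, hF2, hR2, hD2⟩ := tower_mul' p M1 E hNJ hF1 hR1 (by
        intro u
        obtain ⟨i, hi⟩ := hFg u
        exact Submonoid.subset_closure ⟨i, congrArg (algebraMap L K1) hi⟩) (by
        intro u
        exact (_root_.map_ne_zero (algebraMap L K1)).2 (hF0 u)) q w'
      (fun l u => ((e l u : ℤ) : ZMod p)) (by
        intro l
        have h1 : w' l ^ p = algebraMap L E (pw p Fu (fun u => ((e l u : ℤ) : ZMod p))) := by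
          change (w l * (y l)⁻¹) ^ p = _
          rw [mul_pow, inv_pow, hlw, hyp l, map_mul, map_pow]
          change _ * algebraMap L E (y0 l) ^ p * bw l ^ p * ((algebraMap L E (y0 l) * bw l) ^ p)⁻¹ = _
          have h2 : algebraMap L E (y0 l) ≠ 0 := (_root_.map_ne_zero (algebraMap L E)).2 (hy00 l)
          have h3 := hb0 l
          rw [mul_pow]
          field_simp
        rw [h1]
        unfold pw
        rw [map_prod, map_prod]
        refine Finset.prod_congr rfl fun u _ => ?_
        rw [map_pow, map_pow, ← IsScalarTower.algebraMap_apply L K1 E])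
      (hgen2 w' (by
        intro l
        have h2 : w l = w' l * y l := by
          change w l = w l * (y l)⁻¹ * y l
          rw [mul_assoc, inv_mul_cancel₀ (hy0 l), mul_one]
        rw [h2]
        refine mul_mem (IntermediateField.subset_adjoin K1 _ ⟨l, rfl⟩) ?_
        exact IntermediateField.algebraMap_mem (IntermediateField.adjoin K1 (Set.range w'))
          (⟨y l, hyK l⟩ : K1)))
    rw [hgK] at hF2
    exact ⟨T2, I2, hT2, hI2, M2, Γ2, hF2, hR2, hdm M2 hD2⟩

end twr

end Pool.Agent.Run7.h802.Ct
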