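import Mathlib

/-!
# Ramification of an automorphism of a discrete valuation ring of characteristic `p`
-/

set_option autoImplicit false
set_option linter.unusedVariables false
set_option linter.unusedSectionVars false

namespace Run7.h802.Cv

variable {E : Type} [Field E]

/-- `t` is a uniformizer of the valuation ring `V`. -/
def IsUf (V : ValuationSubring E) (t : E) : Prop :=
  t ≠ 0 ∧ V.valuation t < 1 ∧ ∀ x, V.valuation x < 1 → V.valuation x ≤ V.valuation t

lemma IsUf.val_eq {V : ValuationSubring E} {t t' : E} (h : IsUf V t) (h' : IsUf V t') :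
    V.valuation t = V.valuation t' :=
  le_antisymm (h'.2.2 _ h.2.1) (h.2.2 _ h'.2.1)

lemma IsUf.ne0 {V : ValuationSubring E} {t : E} (h : IsUf V t) : V.valuation t ≠ 0 :=
  (map_ne_zero _).2 h.1

lemma IsUf.pow_pos {V : ValuationSubring E} {t : E} (h : IsUf V t) (a : ℕ) :
    0 < V.valuation t ^ a := zero_lt_iff.2 (pow_ne_zero _ h.ne0)

lemma IsUf.pow_anti {V : ValuationSubring E} {t : E} (h : IsUf V t) {a b : ℕ} (hab : a ≤ b) :
    V.valuation t ^ b ≤ V.valuation t ^ a :=
  pow_le_pow_right_of_le_one' h.2.1.le hab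

lemma IsUf.pow_strict {V : ValuationSubring E} {t : E} (h : IsUf V t) {a b : ℕ} (hab : a < b) :
    V.valuation t ^ b < V.valuation t ^ a := by
  obtain ⟨c, rfl⟩ := Nat.exists_eq_add_of_le (Nat.succ_le_of_lt hab)
  have h1 : V.valuation t ^ (a + 1 + c) ≤ V.valuation t ^ (a + 1) := h.pow_anti (by omega)
  refine lt_of_le_of_lt h1 ?_
  rw [pow_succ]
  calc V.valuation t ^ a * V.valuation t < V.valuation t ^ a * 1 :=
        mul_lt_mul_of_pos_left h.2.1 (h.pow_pos a)
    _ = V.valuation t ^ a := mul_one _

lemma IsUf.exists_mul {V : ValuationSubring E} {t : E} (h : IsUf V t) {a : ℕ} {x : E}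
    (hx : V.valuation x ≤ V.valuation t ^ a) : ∃ z ∈ V, x = t ^ a * z := by
  refine ⟨x / t ^ a, ?_, ?_⟩
  · rw [← V.valuation_le_one_iff, map_div₀, map_pow]
    exact (div_le_one₀ (h.pow_pos a)).2 hx
  · have := h.1
    field_simp

lemma IsUf.le_of_mul {V : ValuationSubring E} {t : E} (h : IsUf V t) {a : ℕ} {z : E}
    (hz : z ∈ V) : V.valuation (t ^ a * z) ≤ V.valuation t ^ a := by
  rw [map_mul, map_pow]
  calc V.valuation t ^ a * V.valuation z ≤ V.valuation t ^ a * 1 := by
        gcongr
        exact (V.valuation_le_one_iff _).2 hz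
    _ = V.valuation t ^ a := mul_one _

/-- The bound for the values of `g - 1`. -/
theorem ram_le (p : ℕ) [Fact p.Prime] [CharP E p] {V : ValuationSubring E} {t : E}
    (ht : IsUf V t) (g : E ≃+* E) {r : ℕ} (hr : 0 < r)
    (hq : ∀ x ∈ V, V.valuation (x ^ p ^ r - x) < 1)
    (hg : ∀ x ∈ V, V.valuation (g x - x) < 1) {b : ℕ}
    (hb : V.valuation (g t - t) ≤ V.valuation t ^ b) :
    ∀ x ∈ V, V.valuation (g x - x) ≤ V.valuation t ^ b := by
  have hp : p.Prime := Fact.out
  have hexp : ExpChar E p := ExpChar.prime hp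
  -- the Teichmüller powers
  have hQ : ∀ M : ℕ, ∀ x ∈ V, V.valuation (x ^ (p ^ r) ^ M - x) < 1 := by
    intro M
    induction M with
    | zero => intro x _; simp
    | succ M ih =>
      intro x hx
      have h1 : x ^ (p ^ r) ^ (M + 1) - x =
          ((x ^ (p ^ r) ^ M) ^ p ^ r - x ^ (p ^ r) ^ M) + (x ^ (p ^ r) ^ M - x) := by
        rw [pow_succ (p ^ r) M, pow_mul]
        ring
      rw [h1]
      exact V.valuation.map_add_lt (hq _ (pow_mem hx _)) (ih x hx)
  have key : ∀ a : ℕ, a ≤ b → ∀ x ∈ V, V.valuation (g x - x) ≤ V.valuation t ^ a := by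
    intro a
    induction a with
    | zero => intro _ x hx; rw [pow_zero]; exact (hg x hx).le
    | succ a ih =>
      intro hab x hx
      have ih' := ih (by omega)
      set y := x ^ (p ^ r) ^ (a + 1) with hy
      have hyx := hQ (a + 1) x hx
      have h1 : V.valuation (x - y) ≤ V.valuation t ^ 1 := by
        rw [pow_one, Valuation.map_sub_swap]
        exact ht.2.2 _ hyx
      obtain ⟨z, hz, hxz⟩ := ht.exists_mul h1
      rw [pow_one] at hxz
      have h2 : g x - x = (g y - y) + ((g t - t) * g z + t * (g z - z)) := by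
        have : x = y + t * z := by rw [← hxz]; ring
        rw [this, map_add, map_mul]
        ring
      have h3 : V.valuation (g y - y) ≤ V.valuation t ^ (a + 1) := by
        have e1 : g y - y = (g x - x) ^ (p ^ r) ^ (a + 1) := by
          rw [hy, map_pow, ← pow_mul, sub_pow_expChar_pow]
        rw [e1, map_pow]
        have h4 : V.valuation (g x - x) ≤ V.valuation t := ht.2.2 _ (hg x hx)
        have h5 : a + 1 ≤ (p ^ r) ^ (a + 1) := by
          have h6 : 2 ≤ p ^ r := le_trans hp.two_le (Nat.le_self_pow hr.ne' p)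
          calc a + 1 ≤ 2 ^ (a + 1) := Nat.lt_two_pow_self.le
            _ ≤ (p ^ r) ^ (a + 1) := Nat.pow_le_pow_left h6 _
        exact (pow_le_pow_left' h4 _).trans (ht.pow_anti h5)
      have hgz : g z ∈ V := by
        have h7 : g z = (g z - z) + z := by ring
        rw [h7]
        exact V.add_mem _ _ ((V.valuation_le_one_iff _).1 (hg z hz).le) hz
      have h8 : V.valuation ((g t - t) * g z) ≤ V.valuation t ^ (a + 1) := by
        rw [map_mul]
        calc V.valuation (g t - t) * V.valuation (g z) ≤ V.valuation t ^ b * 1 := by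
              gcongr
              exact (V.valuation_le_one_iff _).2 hgz
          _ ≤ V.valuation t ^ (a + 1) := by rw [mul_one]; exact ht.pow_anti hab
      have h9 : V.valuation (t * (g z - z)) ≤ V.valuation t ^ (a + 1) := by
        rw [map_mul, pow_succ']
        gcongr
        exact ih' z hz
      rw [h2]
      exact V.valuation.map_add_le h3 (V.valuation.map_add_le h8 h9)
  exact key b le_rfl

/-- The operator `g - 1` raises the values by `m`. -/
theorem shift {V : ValuationSubring E} {t : E} (ht : IsUf V t) (g : E ≃+* E) {m : ℕ}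
    (hm : ∀ x ∈ V, V.valuation (g x - x) ≤ V.valuation t ^ (m + 1)) {a : ℕ} {x : E}
    (hx : V.valuation x ≤ V.valuation t ^ a) :
    V.valuation (g x - x) ≤ V.valuation t ^ (a + m) := by
  have htV : t ∈ V := (V.valuation_le_one_iff _).1 ht.2.1.le
  have hgV : ∀ z ∈ V, g z ∈ V := by
    intro z hz
    have h7 : g z = (g z - z) + z := by ring
    rw [h7]
    refine V.add_mem _ _ ((V.valuation_le_one_iff _).1 ((hm z hz).trans ?_)) hz
    exact pow_le_one' ht.2.1.le _
  have hgt : V.valuation (g t) ≤ V.valuation t := by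
    have h1 : g t = (g t - t) + t := by ring
    rw [h1]
    refine V.valuation.map_add_le ((hm t htV).trans ?_) le_rfl
    calc V.valuation t ^ (m + 1) ≤ V.valuation t ^ 1 := ht.pow_anti (by omega)
      _ = V.valuation t := pow_one _
  have hpow : ∀ a : ℕ, V.valuation (g t ^ a - t ^ a) ≤ V.valuation t ^ (a + m) := by
    intro a
    induction a with
    | zero => simp
    | succ a ih =>
      have h1 : g t ^ (a + 1) - t ^ (a + 1) = (g t ^ a - t ^ a) * g t + t ^ a * (g t - t) := by
        ring
      rw [h1]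
      apply V.valuation.map_add_le
      · rw [map_mul]
        calc V.valuation (g t ^ a - t ^ a) * V.valuation (g t) ≤
              V.valuation t ^ (a + m) * V.valuation t := by gcongr
          _ = V.valuation t ^ (a + 1 + m) := by rw [← pow_succ]; congr 1; omega
      · rw [map_mul, map_pow]
        calc V.valuation t ^ a * V.valuation (g t - t) ≤
              V.valuation t ^ a * V.valuation t ^ (m + 1) := by
                gcongr
                exact hm t htV
          _ = V.valuation t ^ (a + 1 + m) := by rw [← pow_add]; congr 1; omega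
  obtain ⟨z, hz, rfl⟩ := ht.exists_mul hx
  have h2 : g (t ^ a * z) - t ^ a * z = (g t ^ a - t ^ a) * g z + t ^ a * (g z - z) := by
    rw [map_mul, map_pow]
    ring
  rw [h2]
  apply V.valuation.map_add_le
  · rw [map_mul]
    calc V.valuation (g t ^ a - t ^ a) * V.valuation (g z) ≤ V.valuation t ^ (a + m) * 1 := by
          gcongr
          · exact hpow a
          · exact (V.valuation_le_one_iff _).2 (hgV z hz)
      _ = V.valuation t ^ (a + m) := mul_one _
  · rw [map_mul, map_pow]
    calc V.valuation t ^ a * V.valuation (g z - z) ≤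
          V.valuation t ^ a * V.valuation t ^ (m + 1) := by
            gcongr
            exact hm z hz
      _ ≤ V.valuation t ^ (a + m) := by
          rw [← pow_add]
          exact ht.pow_anti (by omega)

/-- An element of the inertia group which acts trivially on the cotangent space is trivial, if its
order is a unit of the residue field. -/
theorem tame_trivial (p : ℕ) [Fact p.Prime] [CharP E p] {V : ValuationSubring E} {t : E}
    (ht : IsUf V t) (harch : ∀ x, (∀ a : ℕ, V.valuation x ≤ V.valuation t ^ a) → x = 0)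
    (g : E ≃+* E) {r : ℕ} (hr : 0 < r)
    (hq : ∀ x ∈ V, V.valuation (x ^ p ^ r - x) < 1)
    (hg : ∀ x ∈ V, V.valuation (g x - x) < 1)
    (hw : V.valuation (g t - t) ≤ V.valuation t ^ 2) {l : ℕ} (hl : l ≠ 0)
    (hlp : V.valuation (l : E) = 1) (hgl : ∀ x, g^[l] x = x) : ∀ x ∈ V, g x = x := by
  have htV : t ∈ V := (V.valuation_le_one_iff _).1 ht.2.1.le
  by_cases h0 : ∀ a : ℕ, V.valuation (g t - t) ≤ V.valuation t ^ a
  · intro x hx
    have h1 := harch (g x - x) fun a => ram_le p ht g hr hq hg (h0 a) x hx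
    exact sub_eq_zero.1 h1
  exfalso
  push Not at h0
  -- the value of `g t - t`
  classical
  obtain ⟨a, ha1, hmin⟩ : ∃ a, V.valuation t ^ a < V.valuation (g t - t) ∧
      ∀ b < a, ¬ V.valuation t ^ b < V.valuation (g t - t) :=
    ⟨Nat.find h0, Nat.find_spec h0, fun b hb => Nat.find_min h0 hb⟩
  have ha2 : 3 ≤ a := by
    by_contra hcon
    have : a ≤ 2 := by omega
    have h2 := ht.pow_anti this
    exact absurd ha1 (not_lt.2 (hw.trans h2))
  obtain ⟨m, rfl⟩ : ∃ m, a = m + 2 := ⟨a - 2, by omega⟩
  have hm1 : 1 ≤ m := by omega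
  have ha3 : V.valuation (g t - t) ≤ V.valuation t ^ (m + 1) :=
    not_lt.1 (hmin (m + 1) (by omega))
  have hmV := ram_le p ht g hr hq hg ha3
  set y := g t - t with hy
  have hgy : ∀ j : ℕ, V.valuation (g^[j] t - t - j * y) ≤ V.valuation t ^ (m + 1 + m) := by
    intro j
    induction j with
    | zero => simp
    | succ j ih =>
      have h4 : g^[j + 1] t - t - ((j + 1 : ℕ) : E) * y =
          g (g^[j] t - t - j * y) + j * (g y - y) := by
        rw [Function.iterate_succ_apply', map_sub, map_sub, map_mul, map_natCast]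
        push_cast
        rw [hy]
        ring
      rw [h4]
      apply V.valuation.map_add_le
      · have h5 : g (g^[j] t - t - j * y) = (g (g^[j] t - t - j * y) - (g^[j] t - t - j * y)) +
            (g^[j] t - t - j * y) := by ring
        rw [h5]
        refine V.valuation.map_add_le ((shift ht g hmV ih).trans (ht.pow_anti (by omega))) ih
      · rw [map_mul]
        calc V.valuation (j : E) * V.valuation (g y - y) ≤ 1 * V.valuation t ^ (m + 1 + m) := by
              gcongr
              · exact (V.valuation_le_one_iff _).2 (natCast_mem V j)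
              · exact shift ht g hmV ha3
          _ = V.valuation t ^ (m + 1 + m) := one_mul _
  have h6 := hgy l
  rw [hgl t, sub_self, zero_sub, Valuation.map_neg, map_mul, hlp, one_mul] at h6
  have h7 : V.valuation t ^ (m + 1 + m) ≤ V.valuation t ^ (m + 2) := ht.pow_anti (by omega)
  exact absurd ha1 (not_lt.2 (h6.trans h7))

/-- The exact value of `g t - t`. -/
theorem exists_ram (p : ℕ) [Fact p.Prime] [CharP E p] {V : ValuationSubring E} {t : E}
    (ht : IsUf V t) (harch : ∀ x, (∀ a : ℕ, V.valuation x ≤ V.valuation t ^ a) → x = 0)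
    (g : E ≃+* E) {r : ℕ} (hr : 0 < r)
    (hq : ∀ x ∈ V, V.valuation (x ^ p ^ r - x) < 1)
    (hg : ∀ x ∈ V, V.valuation (g x - x) < 1) (hne : ∃ x ∈ V, g x ≠ x) :
    ∃ m : ℕ, V.valuation (g t - t) = V.valuation t ^ (m + 1) ∧
      ∀ x ∈ V, V.valuation (g x - x) ≤ V.valuation t ^ (m + 1) := by
  classical
  have htV : t ∈ V := (V.valuation_le_one_iff _).1 ht.2.1.le
  have h0 : ∃ a : ℕ, V.valuation t ^ a < V.valuation (g t - t) := by
    by_contra hcon
    push Not at hcon
    obtain ⟨x, hx, hxg⟩ := hne
    exact hxg (sub_eq_zero.1 (harch (g x - x) fun a => ram_le p ht g hr hq hg (hcon a) x hx))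
  obtain ⟨a, ha1, hmin⟩ : ∃ a, V.valuation t ^ a < V.valuation (g t - t) ∧
      ∀ b < a, ¬ V.valuation t ^ b < V.valuation (g t - t) :=
    ⟨Nat.find h0, Nat.find_spec h0, fun b hb => Nat.find_min h0 hb⟩
  have ha2 : 2 ≤ a := by
    by_contra hcon
    have h1 : a ≤ 1 := by omega
    have h2 := ht.pow_anti h1
    rw [pow_one] at h2
    exact absurd ha1 (not_lt.2 ((ht.2.2 _ (hg t htV)).trans h2))
  obtain ⟨m, rfl⟩ : ∃ m, a = m + 2 := ⟨a - 2, by omega⟩
  have h3 : V.valuation (g t - t) ≤ V.valuation t ^ (m + 1) :=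
    not_lt.1 (hmin (m + 1) (by omega))
  refine ⟨m, le_antisymm h3 ?_, ram_le p ht g hr hq hg h3⟩
  obtain ⟨z, hz, hzt⟩ := ht.exists_mul h3
  have h4 : V.valuation z = 1 := by
    refine le_antisymm ((V.valuation_le_one_iff _).2 hz) ?_
    by_contra hcon
    have h5 := ht.2.2 z (not_le.1 hcon)
    rw [hzt, map_mul, map_pow] at ha1
    have h6 : V.valuation t ^ (m + 1) * V.valuation z ≤ V.valuation t ^ (m + 2) := by
      rw [pow_succ _ (m + 1)]
      gcongr
    exact absurd ha1 (not_lt.2 h6)
  rw [hzt, map_mul, map_pow, h4, mul_one]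

/-- The group element is tame and moves the uniformizer by a unit. -/
theorem val_eq_of_not_le {V : ValuationSubring E} {t : E} (ht : IsUf V t) {x : E}
    (hx : V.valuation x < 1) (hx2 : ¬ V.valuation x ≤ V.valuation t ^ 2) :
    V.valuation x = V.valuation t := by
  have h1 : V.valuation x ≤ V.valuation t ^ 1 := by rw [pow_one]; exact ht.2.2 _ hx
  obtain ⟨z, hz, rfl⟩ := ht.exists_mul h1
  have h4 : V.valuation z = 1 := by
    refine le_antisymm ((V.valuation_le_one_iff _).2 hz) ?_
    by_contra hcon
    have h5 := ht.2.2 z (not_le.1 hcon)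
    apply hx2
    rw [map_mul, map_pow, pow_one, pow_two]
    gcongr
  rw [map_mul, map_pow, pow_one, h4, mul_one]

end Run7.h802.Cv
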