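import Pool.Agent.Run7.h802.Cv5

/-!
# Inertia groups of a finite group which acts on a product of curves
-/

set_option autoImplicit false
set_option linter.unusedVariables false
set_option linter.unusedSectionVars false

namespace Run7.h802.Cv

section one

variable {E : Type} [Field E]

/-- The automorphism is in the inertia group of the valuation ring. -/
def In1 (V : ValuationSubring E) (g : E ≃+* E) : Prop := ∀ x ∈ V, V.valuation (g x - x) < 1

variable {V : ValuationSubring E} {g : E ≃+* E}

lemma In1.mem (h : In1 V g) {x : E} (hx : x ∈ V) : g x ∈ V := by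
  have h1 : g x = (g x - x) + x := by ring
  rw [h1]
  exact V.add_mem _ _ ((V.valuation_le_one_iff _).1 (h x hx).le) hx

lemma In1.mem_iff (h : In1 V g) (x : E) : x ∈ V ↔ g x ∈ V := by
  refine ⟨h.mem, fun hx => ?_⟩
  rcases V.mem_or_inv_mem x with h1 | h1
  · exact h1
  rcases eq_or_ne x 0 with rfl | hx0
  · exact V.zero_mem
  by_contra hxV
  have h2 : V.valuation x⁻¹ < 1 := by
    rw [map_inv₀]
    have h3 : 1 < V.valuation x := by
      rw [← not_le, V.valuation_le_one_iff]
      exact hxV
    exact inv_lt_one_of_one_lt₀ h3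
  have h3 := h _ h1
  have h4 : V.valuation (g x⁻¹) < 1 := by
    have h5 : g x⁻¹ = (g x⁻¹ - x⁻¹) + x⁻¹ := by ring
    rw [h5]
    exact V.valuation.map_add_lt h3 h2
  rw [map_inv₀, map_inv₀] at h4
  have h5 : V.valuation (g x) ≤ 1 := (V.valuation_le_one_iff _).2 hx
  have h6 : V.valuation (g x) ≠ 0 := (map_ne_zero _).2 ((map_ne_zero_iff g g.injective).2 hx0)
  have h7 : 1 ≤ (V.valuation (g x))⁻¹ := (one_le_inv₀ (zero_lt_iff.2 h6)).2 h5
  exact absurd h4 (not_lt.2 h7)

lemma In1.pw (h : In1 V g) {a : ℕ} {y : E} (hy : Pw V a y) : Pw V a (g y) :=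
  hy.map g h.mem_iff

lemma In1.uf (h : In1 V g) {t : E} (ht : IsUf V t) : IsUf V (g t) := isUf_map g h.mem_iff ht

lemma Pw.add {a : ℕ} {x y : E} (hx : Pw V a x) (hy : Pw V a y) : Pw V a (x + y) := by
  obtain ⟨t, ht, h⟩ := hx
  rw [pw_iff ht] at hy ⊢
  exact V.valuation.map_add_le h hy

lemma Pw.neg {a : ℕ} {x : E} (hx : Pw V a x) : Pw V a (-x) := by
  obtain ⟨t, ht, h⟩ := hx
  exact ⟨t, ht, by rwa [Valuation.map_neg]⟩

/-- An element of the inertia group of order `p` acts trivially on the cotangent space. -/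
theorem wild_cot (p : ℕ) [Fact p.Prime] [CharP E p] {t : E} (ht : IsUf V t) (h : In1 V g)
    (hg : ∀ x, g^[p] x = x) : Pw V 2 (g t - t) := by
  have hp : p.Prime := Fact.out
  have hexp : ExpChar E p := ExpChar.prime hp
  have hgt := h.uf ht
  obtain ⟨u, hu⟩ : ∃ u, u = g t / t := ⟨_, rfl⟩
  have hut : g t = u * t := by rw [hu, div_mul_cancel₀ _ ht.1]
  have huV : V.valuation u = 1 := by
    rw [hu, map_div₀, hgt.val_eq ht, div_self ht.ne0]
  have key : ∀ j : ℕ, g^[j] t / t ∈ V ∧ V.valuation (g^[j] t / t - u ^ j) < 1 := by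
    intro j
    induction j with
    | zero =>
      rw [Function.iterate_zero, id, div_self ht.1, pow_zero, sub_self, map_zero]
      exact ⟨V.one_mem, zero_lt_one⟩
    | succ j ih =>
      have h1 : g^[j + 1] t / t = g (g^[j] t / t) * u := by
        rw [Function.iterate_succ_apply', map_div₀, hut]
        have hu0 : u ≠ 0 := by
          intro h0
          rw [h0, map_zero] at huV
          exact zero_ne_one huV
        have := ht.1
        field_simp
      rw [h1]
      refine ⟨V.mul_mem _ _ (h.mem ih.1) ((V.valuation_le_one_iff _).1 huV.le), ?_⟩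
      have h2 : g (g^[j] t / t) * u - u ^ (j + 1) =
          (g (g^[j] t / t) - g^[j] t / t) * u + (g^[j] t / t - u ^ j) * u := by ring
      rw [h2]
      apply V.valuation.map_add_lt
      · rw [map_mul, huV, mul_one]
        exact h _ ih.1
      · rw [map_mul, huV, mul_one]
        exact ih.2
  have h3 := (key p).2
  rw [hg, div_self ht.1] at h3
  have h4 : (1 : E) - u ^ p = (1 - u) ^ p := by
    rw [sub_pow_expChar, one_pow]
  rw [h4, map_pow] at h3
  have h5 : V.valuation (1 - u) < 1 := by
    by_contra hcon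
    exact absurd h3 (not_lt.2 (one_le_pow₀ (not_lt.1 hcon)))
  have h6 : g t - t = t * (u - 1) := by rw [hut]; ring
  have h7 : Pw V 1 (u - 1) := by
    rw [pw_one ht, Valuation.map_sub_swap]
    exact h5
  have h8 : Pw V 1 t := (pw_one ht).2 ht.2.1
  rw [h6]
  exact h8.mul h7

end one

section grp

variable {E : Type} [Field E] {G : Type} [Group G] (r : G →* (E ≃+* E))

/-- The inertia group of a valuation ring. -/
def in1 (V : ValuationSubring E) : Subgroup G where
  carrier := {g | In1 V (r g)}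
  mul_mem' {a b} ha hb := by
    intro x hx
    have h1 : r (a * b) x - x = (r a (r b x) - r b x) + (r b x - x) := by
      rw [map_mul, RingAut.mul_apply]
      ring
    rw [h1]
    exact V.valuation.map_add_lt (ha _ (In1.mem hb hx)) (hb x hx)
  one_mem' := by
    intro x _
    rw [map_one, RingAut.one_apply, sub_self, map_zero]
    exact zero_lt_one
  inv_mem' {a} ha := by
    intro x hx
    have h0 : r a (r a⁻¹ x) = x := by
      rw [← RingAut.mul_apply, ← map_mul, mul_inv_cancel, map_one, RingAut.one_apply]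
    have h1 : r a⁻¹ x ∈ V := by
      rw [In1.mem_iff ha, h0]
      exact hx
    have h2 := ha _ h1
    rw [h0, Valuation.map_sub_swap] at h2
    exact h2

variable {r}

lemma mem_in1 {V : ValuationSubring E} {g : G} : g ∈ in1 r V ↔ In1 V (r g) := Iff.rfl

/-- The kernel of the action on the cotangent space. -/
def kin (r : G →* (E ≃+* E)) (V : ValuationSubring E) {t : E} (ht : IsUf V t) : Subgroup G where
  carrier := {g | g ∈ in1 r V ∧ Pw V 2 (r g t - t)}
  mul_mem' {a b} ha hb := by
    refine ⟨(in1 r V).mul_mem ha.1 hb.1, ?_⟩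
    have h1 : r (a * b) t - t = r a (r b t - t) + (r a t - t) := by
      rw [map_mul, RingAut.mul_apply, map_sub]
      ring
    rw [h1]
    exact (ha.1.pw hb.2).add ha.2
  one_mem' := by
    refine ⟨(in1 r V).one_mem, ?_⟩
    rw [map_one, RingAut.one_apply, sub_self]
    exact ⟨t, ht, by rw [map_zero]; exact zero_le⟩
  inv_mem' {a} ha := by
    have h4 := (in1 r V).inv_mem ha.1
    refine ⟨h4, ?_⟩
    have h0 : r a⁻¹ (r a t) = t := by
      rw [← RingAut.mul_apply, ← map_mul, inv_mul_cancel, map_one, RingAut.one_apply]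
    have h1 : r a⁻¹ t - t = -(r a⁻¹ (r a t - t)) := by
      rw [map_sub, h0]
      ring
    rw [h1]
    exact (In1.pw h4 ha.2).neg

lemma mem_kin {V : ValuationSubring E} {t : E} {ht : IsUf V t} {g : G} :
    g ∈ kin r V ht ↔ g ∈ in1 r V ∧ Pw V 2 (r g t - t) := Iff.rfl

lemma iter_eq (g : G) (n : ℕ) (x : E) : (r g)^[n] x = r (g ^ n) x := by
  induction n with
  | zero => rw [Function.iterate_zero, id, pow_zero, map_one, RingAut.one_apply]
  | succ n ih =>
    rw [Function.iterate_succ_apply', ih, pow_succ', map_mul, RingAut.mul_apply]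

lemma wild_kin (p : ℕ) [Fact p.Prime] [CharP E p] {V : ValuationSubring E} {t : E}
    (ht : IsUf V t) {g : G} (hg : g ∈ in1 r V) (hgp : g ^ p = 1) : g ∈ kin r V ht := by
  refine ⟨hg, wild_cot p ht hg fun x => ?_⟩
  rw [iter_eq, hgp, map_one, RingAut.one_apply]

/-- The kernel is a `p`-group. -/
theorem kin_card (p : ℕ) [Fact p.Prime] [CharP E p] {V : ValuationSubring E} {t : E}
    (ht : IsUf V t) (harch : ∀ x, (∀ a : ℕ, V.valuation x ≤ V.valuation t ^ a) → x = 0)
    (hq : ∃ r : ℕ, 0 < r ∧ ∀ x ∈ V, V.valuation (x ^ p ^ r - x) < 1) [Finite G]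
    (H : Subgroup G) (hH : H ≤ kin r V ht) (hfix : ∀ g ∈ H, g ≠ 1 → r g ≠ 1) :
    ∃ a : ℕ, Nat.card H = p ^ a := by
  have hp : p.Prime := Fact.out
  refine ⟨_, Nat.eq_prime_pow_of_unique_prime_dvd Nat.card_pos.ne' fun {l} hl hdvd => ?_⟩
  by_contra hne
  have hlf : Fact l.Prime := ⟨hl⟩
  obtain ⟨g, hg⟩ := exists_prime_orderOf_dvd_card' l hdvd
  obtain ⟨q, hq0, hq⟩ := hq
  have hgG : (g : G) ∈ kin r V ht := hH g.2
  have hgl : (g : G) ^ l = 1 := by
    have h1 := pow_orderOf_eq_one g
    rw [hg] at h1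
    exact congrArg Subtype.val h1
  have hg1 : (g : G) ≠ 1 := by
    intro h1
    have h2 : g = 1 := Subtype.ext h1
    rw [h2, orderOf_one] at hg
    exact hl.one_lt.ne hg
  have hlp : V.valuation (l : E) = 1 := by
    have hcop : Nat.Coprime l p := (Nat.coprime_primes hl hp).2 hne
    have h1 : ((l : ℤ) : E) * (Nat.gcdA l p : E) = 1 := by
      have h2 := Nat.gcd_eq_gcd_ab l p
      rw [hcop.gcd_eq_one] at h2
      have h3 := congrArg (fun z : ℤ => (z : E)) h2
      push_cast at h3
      rw [CharP.cast_eq_zero E p, zero_mul, add_zero] at h3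
      rw [Int.cast_natCast, ← h3]
    have h4 : V.valuation (l : E) ≤ 1 := (V.valuation_le_one_iff _).2 (natCast_mem V l)
    have h5 : V.valuation (Nat.gcdA l p : E) ≤ 1 := (V.valuation_le_one_iff _).2 (intCast_mem V _)
    have h6 := congrArg V.valuation h1
    rw [map_mul, map_one, Int.cast_natCast] at h6
    refine le_antisymm h4 ?_
    rw [← h6]
    calc V.valuation (l : E) * V.valuation (Nat.gcdA l p : E) ≤ V.valuation (l : E) * 1 := by
          gcongr
      _ = V.valuation (l : E) := mul_one _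
  have h7 := tame_trivial p ht harch (r g) hq0 hq hgG.1 ((pw_iff ht).1 hgG.2) hl.ne_zero hlp
    (fun x => by rw [iter_eq, hgl, map_one, RingAut.one_apply])
  apply hfix g g.2 hg1
  ext x
  rw [RingAut.one_apply]
  rcases V.mem_or_inv_mem x with h8 | h8
  · exact h7 x h8
  · have h9 := h7 _ h8
    rw [map_inv₀] at h9
    exact inv_injective h9

end grp

end Run7.h802.Cv
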