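import Pool.Agent.Run7.h802.Cv3
import Pool.Agent.Run7.h802.Cv10

/-!
# The weights of a point of a product of curves
-/

set_option autoImplicit false
set_option linter.unusedVariables false
set_option linter.unusedSectionVars false

namespace Run7.h802.Cv

section prod

variable {k : Type} [Field k] {ι : Type} [Fintype ι] [DecidableEq ι]
  {E : ι → Type} [∀ i, Field (E i)] [∀ i, Algebra k (E i)] {G : Type} [Group G]
  (ρ : ∀ i, G →* (E i ≃ₐ[k] E i))

/-- The underlying action by ring automorphisms. -/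
def rr (i : ι) : G →* (E i ≃+* E i) where
  toFun g := (ρ i g : E i ≃+* E i)
  map_one' := by ext x; change ρ i 1 x = x; rw [map_one]; rfl
  map_mul' g h := by ext x; change ρ i (g * h) x = ρ i g (ρ i h x); rw [map_mul]; rfl

lemma rr_apply (i : ι) (g : G) (x : E i) : rr ρ i g x = ρ i g x := rfl

/-- The inertia group of a point of the product. -/
def inr (V : ∀ i, ValuationSubring (E i)) : Subgroup G := ⨅ i, in1 (rr ρ i) (V i)

variable {ρ}

lemma mem_inr {V : ∀ i, ValuationSubring (E i)} {g : G} :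
    g ∈ inr ρ V ↔ ∀ i, ∀ x ∈ V i, (V i).valuation (ρ i g x - x) < 1 := by
  unfold inr
  rw [Subgroup.mem_iInf]
  rfl

lemma rho_inv (i : ι) (g : G) (x : E i) : ρ i g⁻¹ (ρ i g x) = x := by
  rw [← AlgEquiv.mul_apply, ← map_mul, inv_mul_cancel, map_one, AlgEquiv.one_apply]

lemma rho_inv' (i : ι) (g : G) (x : E i) : ρ i g (ρ i g⁻¹ x) = x := by
  rw [← AlgEquiv.mul_apply, ← map_mul, mul_inv_cancel, map_one, AlgEquiv.one_apply]

variable (ρ)

/-- The action of the group on the points. -/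
def act (g : G) (V : ∀ i, ValuationSubring (E i)) : ∀ i, ValuationSubring (E i) :=
  fun i => (V i).comap (ρ i g⁻¹ : E i →+* E i)

variable {ρ}

lemma mem_act {V : ∀ i, ValuationSubring (E i)} {g : G} {i : ι} {x : E i} :
    x ∈ act ρ g V i ↔ ρ i g⁻¹ x ∈ V i := Iff.rfl

lemma act_mem {V : ∀ i, ValuationSubring (E i)} {g : G} {i : ι} (x : E i) :
    x ∈ V i ↔ ρ i g x ∈ act ρ g V i := by
  rw [mem_act, rho_inv]

lemma act_inv (g : G) (V : ∀ i, ValuationSubring (E i)) : act ρ g⁻¹ (act ρ g V) = V := by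
  funext i
  ext x
  rw [mem_act, mem_act, inv_inv, rho_inv]

lemma act_inv' (g : G) (V : ∀ i, ValuationSubring (E i)) : act ρ g (act ρ g⁻¹ V) = V := by
  funext i
  ext x
  rw [mem_act, mem_act, inv_inv, rho_inv']

lemma pt_act {V : ∀ i, ValuationSubring (E i)} {i : ι} (h : Pt k (V i)) (g : G) :
    Pt k (act ρ g V i) where
  const c := by
    rw [mem_act, AlgEquiv.commutes]
    exact h.const c
  ne htop := by
    apply h.ne
    rw [eq_top_iff]
    intro x _
    rw [act_mem (ρ := ρ) (g := g), htop]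
    trivial

lemma conj_apply (i : ι) (g h : G) (x : E i) :
    ρ i (g * h * g⁻¹) (ρ i g x) - ρ i g x = ρ i g (ρ i h x - x) := by
  rw [map_sub, map_mul, map_mul, AlgEquiv.mul_apply, AlgEquiv.mul_apply, rho_inv]

lemma inr_act {V : ∀ i, ValuationSubring (E i)} {h : G} (hh : h ∈ inr ρ V) (g : G) :
    g * h * g⁻¹ ∈ inr ρ (act ρ g V) := by
  rw [mem_inr] at hh ⊢
  intro i x hx
  obtain ⟨y, rfl⟩ := (ρ i g).surjective x
  rw [← act_mem] at hx
  rw [conj_apply]
  exact (val_lt_one_map (ρ i g : E i ≃+* E i) (fun x => act_mem x) _).2 (hh i y hx)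

variable (ρ)

/-- The set of the integers which are at least the ramification number. -/
def mS (p : ℕ) (V : ∀ i, ValuationSubring (E i)) (i : ι) : Set ℕ :=
  {m | ∃ h ∈ inr ρ V, h ^ p = 1 ∧ ∃ x ∈ V i, ¬ Pw (V i) (m + 2) (ρ i h x - x)}

/-- The ramification number. -/
noncomputable def mm (p : ℕ) (V : ∀ i, ValuationSubring (E i)) (i : ι) : ℕ := sInf (mS ρ p V i)

/-- The weights. -/
noncomputable def wt (p : ℕ) (V : ∀ i, ValuationSubring (E i)) (i : ι) : ℕ :=
  ∏ j ∈ Finset.univ.erase i, max (mm ρ p V j) 1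

variable {ρ}

lemma mS_act_le (p : ℕ) (V : ∀ i, ValuationSubring (E i)) (i : ι) (g : G) :
    mS ρ p V i ⊆ mS ρ p (act ρ g V) i := by
  rintro m ⟨h, hh, hp, x, hx, hP⟩
  refine ⟨g * h * g⁻¹, inr_act hh g, ?_, ρ i g x, (act_mem x).1 hx, ?_⟩
  · rw [conj_pow, hp, mul_one, mul_inv_cancel]
  · rw [conj_apply]
    intro h1
    apply hP
    have h2 := h1.map (V' := V i) (ρ i g⁻¹ : E i ≃+* E i) (fun x => Iff.rfl)
    change Pw (V i) (m + 2) (ρ i g⁻¹ (ρ i g _)) at h2
    rwa [rho_inv] at h2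

lemma mS_act (p : ℕ) (V : ∀ i, ValuationSubring (E i)) (i : ι) (g : G) :
    mS ρ p (act ρ g V) i = mS ρ p V i := by
  refine subset_antisymm ?_ (mS_act_le p V i g)
  have h := mS_act_le (ρ := ρ) p (act ρ g V) i g⁻¹
  rwa [act_inv] at h

lemma wt_act (p : ℕ) (V : ∀ i, ValuationSubring (E i)) (i : ι) (g : G) :
    wt ρ p (act ρ g V) i = wt ρ p V i := by
  unfold wt mm
  exact Finset.prod_congr rfl fun j _ => by rw [mS_act]

lemma wt_pos (p : ℕ) (V : ∀ i, ValuationSubring (E i)) (i : ι) : 1 ≤ wt ρ p V i :=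
  Finset.one_le_prod' fun j _ => le_max_right _ _

/-- The structure of the inertia groups. -/
theorem wild_dich (p : ℕ) [Fact p.Prime] [CharP k p] [Finite G]
    {V : ∀ i, ValuationSubring (E i)}
    (hiso : ∀ g ∈ inr ρ V, g ≠ 1 → ∀ i, ρ i g ≠ 1) (hcard : ¬ p ^ 2 ∣ Nat.card (inr ρ V))
    {t : ∀ i, E i} (hL : ∀ i, PtL p (V i) (t i)) :
    (∀ i, inr ρ V ⊓ kin (rr ρ i) (V i) (hL i).uf = ⊥) ∨
      ∃ τ, τ ∈ inr ρ V ∧ τ ^ p = 1 ∧ τ ≠ 1 ∧
        ∀ i, inr ρ V ⊓ kin (rr ρ i) (V i) (hL i).uf ≤ Subgroup.zpowers τ := by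
  classical
  have hp : p.Prime := Fact.out
  have hcd : ∀ i, Nat.card (inr ρ V ⊓ kin (rr ρ i) (V i) (hL i).uf : Subgroup G) = 1 ∨
      Nat.card (inr ρ V ⊓ kin (rr ρ i) (V i) (hL i).uf : Subgroup G) = p := by
    intro i
    have hchar : CharP (E i) p := charP_of_injective_algebraMap (algebraMap k (E i)).injective p
    obtain ⟨a, ha⟩ := kin_card p (hL i).uf (hL i).arch (hL i).frob
      (inr ρ V ⊓ kin (rr ρ i) (V i) (hL i).uf) inf_le_right (by
        intro g hg hg1 h1
        apply hiso g hg.1 hg1 i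
        ext x
        exact congrArg (fun f : E i ≃+* E i => f x) h1)
    have h2 : Nat.card (inr ρ V ⊓ kin (rr ρ i) (V i) (hL i).uf : Subgroup G) ∣
        Nat.card (inr ρ V) := Subgroup.card_dvd_of_le inf_le_left
    rw [ha] at h2 ⊢
    have h3 : a < 2 := by
      by_contra hcon
      exact hcard ((pow_dvd_pow p (not_lt.1 hcon)).trans h2)
    interval_cases a
    · left; exact pow_zero p
    · right; exact pow_one p
  by_cases hw : ∃ τ, τ ∈ inr ρ V ∧ τ ^ p = 1 ∧ τ ≠ 1
  · right
    obtain ⟨τ, hτ, hτp, hτ1⟩ := hw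
    refine ⟨τ, hτ, hτp, hτ1, fun i => ?_⟩
    have hchar : CharP (E i) p := charP_of_injective_algebraMap (algebraMap k (E i)).injective p
    have hord : orderOf τ = p := orderOf_eq_prime hτp hτ1
    have h1 : Subgroup.zpowers τ ≤ inr ρ V ⊓ kin (rr ρ i) (V i) (hL i).uf := by
      rw [Subgroup.zpowers_le]
      refine ⟨hτ, wild_kin p (hL i).uf ?_ hτp⟩
      exact fun x hx => mem_inr.1 hτ i x hx
    have h2 : Nat.card (Subgroup.zpowers τ) = p := by rw [Nat.card_zpowers, hord]
    rcases hcd i with h3 | h3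
    · exfalso
      have h4 := Subgroup.card_le_of_le h1
      rw [h2, h3] at h4
      exact absurd hp.one_lt (by omega)
    · refine (Subgroup.eq_of_le_of_card_ge h1 ?_).ge
      rw [h2, h3]
  · left
    push Not at hw
    intro i
    rcases hcd i with h3 | h3
    · exact Subgroup.card_eq_one.1 h3
    · exfalso
      obtain ⟨g, hg⟩ := exists_prime_orderOf_dvd_card' (G := (inr ρ V ⊓
        kin (rr ρ i) (V i) (hL i).uf : Subgroup G)) p (by rw [h3])
      have h5 : (g : G) ^ p = 1 := by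
        have h6 := pow_orderOf_eq_one g
        rw [hg] at h6
        exact congrArg Subtype.val h6
      have h7 := hw g g.2.1 h5
      have h8 : g = 1 := Subtype.ext h7
      rw [h8, orderOf_one] at hg
      exact absurd hp.one_lt (by omega)

/-- The ramification numbers. -/
theorem mm_spec (p : ℕ) [Fact p.Prime] [CharP k p] [Finite G]
    {V : ∀ i, ValuationSubring (E i)} {t : ∀ i, E i} (hL : ∀ i, PtL p (V i) (t i))
    {τ : G} (hτ : τ ∈ inr ρ V) (hτp : τ ^ p = 1) (hτρ : ∀ i, ρ i τ ≠ 1)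
    (hK : ∀ i, inr ρ V ⊓ kin (rr ρ i) (V i) (hL i).uf ≤ Subgroup.zpowers τ) (i : ι) :
    1 ≤ mm ρ p V i ∧
      (V i).valuation (ρ i τ (t i) - t i) = (V i).valuation (t i) ^ (mm ρ p V i + 1) ∧
      ∀ x ∈ V i, (V i).valuation (ρ i τ x - x) ≤ (V i).valuation (t i) ^ (mm ρ p V i + 1) := by
  classical
  have hp : p.Prime := Fact.out
  have hchar : CharP (E i) p := charP_of_injective_algebraMap (algebraMap k (E i)).injective p
  have htV : t i ∈ V i := ((V i).valuation_le_one_iff _).1 (hL i).uf.2.1.le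
  have hne : ∃ x ∈ V i, (rr ρ i τ) x ≠ x := by
    by_contra hcon
    push Not at hcon
    apply hτρ i
    ext x
    rw [AlgEquiv.one_apply]
    rcases (V i).mem_or_inv_mem x with h8 | h8
    · exact hcon x h8
    · have h9 := hcon _ h8
      rw [map_inv₀] at h9
      exact inv_injective h9
  obtain ⟨q, hq0, hq⟩ := (hL i).frob
  have hin : In1 (V i) (rr ρ i τ) := fun x hx => mem_inr.1 hτ i x hx
  obtain ⟨m, hm1, hm2⟩ := exists_ram p (hL i).uf (hL i).arch (rr ρ i τ) hq0 hq hin hne
  have hkin := wild_kin p (hL i).uf (r := rr ρ i) hin hτp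
  have hmpos : 1 ≤ m := by
    have h1 := (pw_iff (hL i).uf).1 hkin.2
    rw [hm1] at h1
    by_contra hcon
    have h2 : m = 0 := by omega
    subst h2
    exact absurd h1 (not_le.2 ((hL i).uf.pow_strict (by omega)))
  have hmm : mm ρ p V i = m := by
    apply le_antisymm
    · apply Nat.sInf_le
      refine ⟨τ, hτ, hτp, t i, htV, ?_⟩
      rw [pw_iff (hL i).uf]
      change ¬ (V i).valuation (rr ρ i τ (t i) - t i) ≤ _
      rw [hm1, not_le]
      exact (hL i).uf.pow_strict (by omega)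
    · apply le_csInf
      · refine ⟨m, τ, hτ, hτp, t i, htV, ?_⟩
        rw [pw_iff (hL i).uf]
        change ¬ (V i).valuation (rr ρ i τ (t i) - t i) ≤ _
        rw [hm1, not_le]
        exact (hL i).uf.pow_strict (by omega)
      · rintro m' ⟨h, hh, hhp, x, hx, hP⟩
        by_contra hcon
        apply hP
        have hin' : In1 (V i) (rr ρ i h) := fun x hx => mem_inr.1 hh i x hx
        have h1 : h ∈ Subgroup.zpowers τ := hK i ⟨hh, wild_kin p (hL i).uf hin' hhp⟩
        rw [← mem_powers_iff_mem_zpowers] at h1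
        obtain ⟨n, rfl⟩ := h1
        have key : ∀ n : ℕ, ∀ x ∈ V i, Pw (V i) (m + 1) (ρ i (τ ^ n) x - x) := by
          intro n
          induction n with
          | zero =>
            intro x hx
            rw [pow_zero, map_one, AlgEquiv.one_apply, sub_self]
            exact ⟨t i, (hL i).uf, by rw [map_zero]; exact zero_le⟩
          | succ n ih =>
            intro x hx
            have h2 : ρ i (τ ^ (n + 1)) x - x =
                (ρ i (τ ^ n) (ρ i τ x) - ρ i τ x) + (ρ i τ x - x) := by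
              rw [pow_succ, map_mul, AlgEquiv.mul_apply]
              ring
            rw [h2]
            exact (ih _ (hin.mem hx)).add ((pw_iff (hL i).uf).2 (hm2 x hx))
        exact (key n x hx).mono (by omega)
  rw [hmm]
  exact ⟨hmpos, hm1, hm2⟩

end prod

end Run7.h802.Cv
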