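import Pool.Agent.Run7.h802.Cv8

/-!
# Prime ideals of the graded algebra over a point
-/

set_option autoImplicit false
set_option linter.unusedVariables false
set_option linter.unusedSectionVars false

namespace Run7.h802.Cv

open Pool.Agent.Y223.G Pool.Agent.W418.LU2 IsLocalRing

section mq

variable {k L : Type} [Field k] [Field L] [Algebra k L] {R : Subalgebra k (LP L)} {Q : Ideal R}

/-- Membership in an ideal of a subalgebra. -/
def MQ (Q : Ideal R) (f : LP L) : Prop := ∃ h : f ∈ R, (⟨f, h⟩ : R) ∈ Q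

lemma MQ.mul_left {r f : LP L} (hr : r ∈ R) (hf : MQ Q f) : MQ Q (r * f) := by
  obtain ⟨h, hf⟩ := hf
  have h1 := Q.mul_mem_left ⟨r, hr⟩ hf
  rw [MulMemClass.mk_mul_mk] at h1
  exact ⟨R.mul_mem hr h, h1⟩

lemma MQ.add {f g : LP L} (hf : MQ Q f) (hg : MQ Q g) : MQ Q (f + g) := by
  obtain ⟨h, hf⟩ := hf
  obtain ⟨h', hg⟩ := hg
  exact ⟨R.add_mem h h', Q.add_mem hf hg⟩

lemma MQ.zero : MQ Q (0 : LP L) := ⟨R.zero_mem, Q.zero_mem⟩

lemma MQ.neg {f : LP L} (hf : MQ Q f) : MQ Q (-f) := by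
  obtain ⟨h, hf⟩ := hf
  exact ⟨R.neg_mem h, Q.neg_mem hf⟩

lemma MQ.sub {f g : LP L} (hf : MQ Q f) (hg : MQ Q g) : MQ Q (f - g) := by
  rw [sub_eq_add_neg]
  exact hf.add hg.neg

lemma MQ.prime (hQ : Q.IsPrime) {a b : LP L} (ha : a ∈ R) (hb : b ∈ R) (h : MQ Q (a * b)) :
    MQ Q a ∨ MQ Q b := by
  obtain ⟨h1, h2⟩ := h
  have h3 : (⟨a, ha⟩ : R) * ⟨b, hb⟩ ∈ Q := by
    rw [MulMemClass.mk_mul_mk]
    exact h2
  rcases hQ.mem_or_mem h3 with h | h
  · exact Or.inl ⟨ha, h⟩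
  · exact Or.inr ⟨hb, h⟩

lemma not_MQ_mul (hQ : Q.IsPrime) {a b : LP L} (ha : a ∈ R) (hb : b ∈ R) (ha' : ¬ MQ Q a)
    (hb' : ¬ MQ Q b) : ¬ MQ Q (a * b) := fun h => (MQ.prime hQ ha hb h).elim ha' hb'

lemma not_MQ_one (hQ : Q.IsPrime) : ¬ MQ Q (1 : LP L) := fun ⟨_, h⟩ =>
  hQ.ne_top ((Ideal.eq_top_iff_one _).2 h)

lemma not_MQ_pow (hQ : Q.IsPrime) {a : LP L} (ha : a ∈ R) (ha' : ¬ MQ Q a) (n : ℕ) :
    ¬ MQ Q (a ^ n) := by
  induction n with
  | zero => rw [pow_zero]; exact not_MQ_one hQ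
  | succ n ih => rw [pow_succ]; exact not_MQ_mul hQ (R.pow_mem ha n) ha ih ha'

end mq

variable {k L : Type} [Field k] [Field L] [Algebra k L] {ι : Type} [Fintype ι] [DecidableEq ι]
  {E : ι → Type} [∀ i, Field (E i)] [∀ i, Algebra k (E i)]
  {e : ∀ i, E i →ₐ[k] L} {A : ∀ i, Subalgebra k (E i)}
  {Z : Set (∀ i, ValuationSubring (E i))} {wt : (∀ i, ValuationSubring (E i)) → ι → ℕ} {D : ℕ}

/-- The elements of degree zero. -/
noncomputable def j0 (h : CD e A Z wt D) : BB e A →+* RF (FF e A Z wt) D where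
  toFun x := ⟨hm 0 (x : L), RF_zero h.filt x.2⟩
  map_one' := rfl
  map_mul' x y := by
    apply Subtype.ext
    change hm 0 ((x : L) * y) = hm 0 (x : L) * hm 0 (y : L)
    rw [hm_mul, add_zero]
  map_zero' := by
    apply Subtype.ext
    change hm 0 (0 : L) = 0
    rw [hm_zero]
  map_add' x y := by
    apply Subtype.ext
    change hm 0 ((x : L) + y) = hm 0 (x : L) + hm 0 (y : L)
    rw [hm_add]

lemma mem_comap_j0 (h : CD e A Z wt D) {Q : Ideal (RF (FF e A Z wt) D)} {x : L}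
    (hx : x ∈ BB e A) : (⟨x, hx⟩ : BB e A) ∈ Q.comap (j0 h) ↔ MQ Q (hm 0 x) :=
  ⟨fun h1 => ⟨_, h1⟩, fun ⟨_, h1⟩ => h1⟩

lemma UV.not_MQ (h : CD e A Z wt D) {Q : Ideal (RF (FF e A Z wt) D)} (hQ : Q.IsPrime)
    {V : ∀ i, ValuationSubring (E i)} (hV : V ∈ Z) (hover : Over (Q.comap (j0 h)) V) {s : L}
    (hs : UV e A V s) : ¬ MQ Q (hm 0 s) := by
  have hq : (Q.comap (j0 h)).IsPrime := Ideal.comap_isPrime _ _
  have h1 := hover.not_mem hq (h.loc V hV) hs
  rwa [mem_comap_j0] at h1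

/-- Outside the vertex one of the weighted parameters does not vanish. -/
theorem CD.offv (h : CD e A Z wt D) {Q : Ideal (RF (FF e A Z wt) D)} (hQ : Q.IsPrime)
    {V : ∀ i, ValuationSubring (E i)} (hV : V ∈ Z) (hover : Over (Q.comap (j0 h)) V)
    {c : L} (hc : UV e A V c) (hcN : ∀ V' ∈ Z, V' ≠ V → c ∈ JJ e V' (wt V') D)
    {t : ∀ i, E i} (ht : ∀ i, t i ∈ A i ∧ IsUf (V i) (t i))
    {d : ℕ} {η : L} (hd : 0 < d) (hη : hm (d : ℤ) η ∈ RF (FF e A Z wt) D)
    (hηQ : ¬ MQ Q (hm (d : ℤ) η)) : ∃ i, ¬ MQ Q (hm (wt V i : ℤ) (c * e i (t i))) := by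
  classical
  by_contra hcon
  push Not at hcon
  have hF := h.filt
  have key : ∀ (d : ℤ) (x : L), 0 < d → x ∈ KK e A t (wt V) d →
      ∃ N : ℕ, MQ Q (hm d (c ^ N * x)) := by
    intro d x hd hx
    induction hx using Submodule.span_induction with
    | mem x hx =>
      obtain ⟨a, b, hb, h1, rfl⟩ := hx
      refine ⟨∑ i, a i, ?_⟩
      have h2 : ∏ i, hm (wt V i : ℤ) (c * e i (t i)) ^ a i =
          hm ((∑ i, wt V i * a i : ℕ) : ℤ) (c ^ (∑ i, a i) * ∏ i, e i (t i) ^ a i) := by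
        simp_rw [hm_pow]
        rw [hm_prod]
        congr 1
        · push_cast
          exact Finset.sum_congr rfl fun i _ => mul_comm _ _
        · rw [← Finset.prod_pow_eq_pow_sum, ← Finset.prod_mul_distrib]
          exact Finset.prod_congr rfl fun i _ => mul_pow _ _ _
      have h3 : hm d (c ^ (∑ i, a i) * (b * ∏ i, e i (t i) ^ a i)) =
          hm (d - ((∑ i, wt V i * a i : ℕ) : ℤ)) b *
            ∏ i, hm (wt V i : ℤ) (c * e i (t i)) ^ a i := by
        rw [h2, hm_mul]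
        congr 1
        · ring
        · ring
      rw [h3]
      apply MQ.mul_left (RF_nonpos hF hb (by omega))
      obtain ⟨i, hi⟩ : ∃ i, a i ≠ 0 := by
        by_contra hcon2
        push Not at hcon2
        have h4 : ∑ i, wt V i * a i = 0 := Finset.sum_eq_zero fun i _ => by
          rw [hcon2 i, mul_zero]
        rw [h4] at h1
        simp only [Nat.cast_zero] at h1
        omega
      rw [← Finset.prod_erase_mul Finset.univ _ (Finset.mem_univ i)]
      obtain ⟨n, hn⟩ := Nat.exists_eq_succ_of_ne_zero hi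
      rw [hn, pow_succ, ← mul_assoc]
      apply MQ.mul_left _ (hcon i)
      exact Subalgebra.mul_mem _ (Subalgebra.prod_mem _ fun j _ =>
        Subalgebra.pow_mem _ (hcon j).1 _) (Subalgebra.pow_mem _ (hcon i).1 _)
    | zero => exact ⟨0, by rw [mul_zero, hm_zero]; exact MQ.zero⟩
    | add x y _ _ hx hy =>
      obtain ⟨N, hN⟩ := hx
      obtain ⟨N', hN'⟩ := hy
      refine ⟨N + N', ?_⟩
      have h1 : hm d (c ^ (N + N') * (x + y)) =
          hm 0 (c ^ N') * hm d (c ^ N * x) + hm 0 (c ^ N) * hm d (c ^ N' * y) := by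
        rw [hm_mul, hm_mul, zero_add, ← hm_add]
        congr 1
        ring
      rw [h1]
      exact (MQ.mul_left (RF_zero hF (Subalgebra.pow_mem _ hc.mem _)) hN).add
        (MQ.mul_left (RF_zero hF (Subalgebra.pow_mem _ hc.mem _)) hN')
    | smul r x _ hx =>
      obtain ⟨N, hN⟩ := hx
      refine ⟨N, ?_⟩
      have h1 : hm d (c ^ N * r • x) = hm 0 (algebraMap k L r) * hm d (c ^ N * x) := by
        rw [hm_mul, zero_add]
        congr 1
        rw [Algebra.smul_def]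
        ring
      rw [h1]
      exact MQ.mul_left (RF_zero hF ((BB e A).algebraMap_mem r)) hN
  have h1 := (mem_FF.1 (RF_mem hF hη)).2 V hV
  obtain ⟨s, hs, hsη⟩ := exists_KK (h.loc V hV) ht h1
  obtain ⟨N, hN⟩ := key d _ (by exact_mod_cast hd) hsη
  have h2 : hm (d : ℤ) (c ^ N * (s * η)) = hm 0 (c ^ N * s) * hm (d : ℤ) η := by
    rw [hm_mul, zero_add, mul_assoc]
  rw [h2] at hN
  have hcs : UV e A V (c ^ N * s) := (hc.pow N).mul hs
  rcases MQ.prime hQ (RF_zero hF hcs.mem) hη hN with h3 | h3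
  · exact hcs.not_MQ h hQ hV hover h3
  · exact hηQ h3

end Run7.h802.Cv
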