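import Pool.Agent.Run7.h802.Cv12

/-!
# Automorphisms at the prime ideals over a point
-/

set_option autoImplicit false
set_option linter.unusedVariables false
set_option linter.unusedSectionVars false

namespace Run7.h802.Cv

open Pool.Agent.Y223.G Pool.Agent.W418.LU2 IsLocalRing

variable {k L : Type} [Field k] [Field L] [Algebra k L] {ι : Type} [Fintype ι] [DecidableEq ι]
  {E : ι → Type} [∀ i, Field (E i)] [∀ i, Algebra k (E i)]
  {e : ∀ i, E i →ₐ[k] L} {A : ∀ i, Subalgebra k (E i)}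
  {Z : Set (∀ i, ValuationSubring (E i))} {wt : (∀ i, ValuationSubring (E i)) → ι → ℕ} {D : ℕ}

/-- The coordinate ring is stable. -/
lemma BB_st (τ : L ≃ₐ[k] L) (r : ∀ i, E i ≃ₐ[k] E i) (hτ : ∀ i x, τ (e i x) = e i (r i x))
    (hst : ∀ i, ∀ a ∈ A i, r i a ∈ A i) {x : L} (hx : x ∈ BB e A) : τ x ∈ BB e A := by
  have h1 : BB e A ≤ (BB e A).comap (τ : L →ₐ[k] L) := by
    refine iSup_le fun i => ?_
    rintro _ ⟨a, ha, rfl⟩
    change τ (e i a) ∈ BB e A
    rw [hτ]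
    exact mem_BB i (hst i a ha)
  exact h1 hx

/-- An automorphism in the inertia group of a point acts trivially modulo the ideal of the
point. -/
lemma fix_BB (q : Ideal (BB e A)) {V : ∀ i, ValuationSubring (E i)} (hover : Over q V)
    (hle : ∀ i, ∀ a ∈ A i, a ∈ V i)
    (τ : L ≃ₐ[k] L) (r : ∀ i, E i ≃ₐ[k] E i) (hτ : ∀ i x, τ (e i x) = e i (r i x))
    (hst : ∀ i, ∀ a ∈ A i, r i a ∈ A i)
    (hin : ∀ i, ∀ x ∈ V i, (V i).valuation (r i x - x) < 1) {x : L} (hx : x ∈ BB e A) :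
    ∃ h : τ x - x ∈ BB e A, (⟨τ x - x, h⟩ : BB e A) ∈ q := by
  let T : Subalgebra k L :=
    { carrier := {x | x ∈ BB e A ∧ ∃ h : τ x - x ∈ BB e A, (⟨τ x - x, h⟩ : BB e A) ∈ q}
      mul_mem' := by
        rintro a b ⟨ha, ha1, ha2⟩ ⟨hb, hb1, hb2⟩
        have hb3 : τ b ∈ BB e A := BB_st τ r hτ hst hb
        refine ⟨(BB e A).mul_mem ha hb, ?_⟩
        have h1 : τ (a * b) - a * b = (τ a - a) * τ b + a * (τ b - b) := by
          rw [map_mul]; ring
        have h2 : τ (a * b) - a * b ∈ BB e A := by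
          rw [h1]
          exact (BB e A).add_mem ((BB e A).mul_mem ha1 hb3) ((BB e A).mul_mem ha hb1)
        refine ⟨h2, ?_⟩
        have h3 : (⟨τ (a * b) - a * b, h2⟩ : BB e A) =
            ⟨τ a - a, ha1⟩ * ⟨τ b, hb3⟩ + ⟨a, ha⟩ * ⟨τ b - b, hb1⟩ := Subtype.ext h1
        rw [h3]
        exact q.add_mem (q.mul_mem_right _ ha2) (q.mul_mem_left _ hb2)
      add_mem' := by
        rintro a b ⟨ha, ha1, ha2⟩ ⟨hb, hb1, hb2⟩
        refine ⟨(BB e A).add_mem ha hb, ?_⟩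
        have h1 : τ (a + b) - (a + b) = (τ a - a) + (τ b - b) := by
          rw [map_add]; ring
        have h2 : τ (a + b) - (a + b) ∈ BB e A := by
          rw [h1]
          exact (BB e A).add_mem ha1 hb1
        refine ⟨h2, ?_⟩
        have h3 : (⟨τ (a + b) - (a + b), h2⟩ : BB e A) =
            ⟨τ a - a, ha1⟩ + ⟨τ b - b, hb1⟩ := Subtype.ext h1
        rw [h3]
        exact q.add_mem ha2 hb2
      algebraMap_mem' := by
        intro c
        refine ⟨(BB e A).algebraMap_mem c, ?_⟩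
        have h1 : τ (algebraMap k L c) - algebraMap k L c = 0 := by
          rw [AlgEquiv.commutes, sub_self]
        have h2 : τ (algebraMap k L c) - algebraMap k L c ∈ BB e A := by
          rw [h1]
          exact (BB e A).zero_mem
        refine ⟨h2, ?_⟩
        have h3 : (⟨τ (algebraMap k L c) - algebraMap k L c, h2⟩ : BB e A) = 0 := Subtype.ext h1
        rw [h3]
        exact q.zero_mem }
  have hle2 : BB e A ≤ T := by
    refine iSup_le fun i => ?_
    rintro _ ⟨a, ha, rfl⟩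
    refine ⟨mem_BB i ha, ?_⟩
    have h1 : τ (e i a) - e i a = e i (r i a - a) := by rw [hτ, map_sub]
    have h0 : r i a - a ∈ A i := (A i).sub_mem (hst i a ha) ha
    have h2 : τ (e i a) - e i a ∈ BB e A := by
      rw [h1]
      exact mem_BB i h0
    have h3 : (⟨τ (e i a) - e i a, h2⟩ : BB e A) = ⟨e i (r i a - a), mem_BB i h0⟩ :=
      Subtype.ext h1
    have h4 : (⟨τ (e i a) - e i a, h2⟩ : BB e A) ∈ q := by
      rw [h3]
      exact hover i _ h0 (hin i a (hle i a ha))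
    exact ⟨h2, h4⟩
  exact (hle2 hx).2

lemma tl_hm' (τ : L ≃ₐ[k] L) (d : ℤ) (a : L) : tl τ (hm d a) = hm d (τ a) := tl_hm d a

section pt

variable (h : CD e A Z wt D) {Q : Ideal (RF (FF e A Z wt) D)} (hQ : Q.IsPrime)
  {V : ∀ i, ValuationSubring (E i)} (hV : V ∈ Z) (hover : Over (Q.comap (j0 h)) V)
  {c : L} (hc : UV e A V c) (hcN : ∀ V' ∈ Z, V' ≠ V → c ∈ JJ e V' (wt V') D)
  {t : ∀ i, E i} (ht : ∀ i, t i ∈ A i ∧ IsUf (V i) (t i))
  (τ : L ≃ₐ[k] L) (r : ∀ i, E i ≃ₐ[k] E i) (hτ : ∀ i x, τ (e i x) = e i (r i x))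
  (hst : ∀ i, ∀ a ∈ A i, r i a ∈ A i)
  (hin : ∀ i, ∀ x ∈ V i, (V i).valuation (r i x - x) < 1)

include hQ hV hover hc hcN ht hτ hst hin

/-- A tame automorphism moves the weighted parameters. -/
theorem tame_move (i : ι) (hX : ¬ MQ Q (hm (wt V i : ℤ) (c * e i (t i))))
    (hnk : ¬ Pw (V i) 2 (r i (t i) - t i)) :
    ¬ MQ Q (tl τ (hm (wt V i : ℤ) (c * e i (t i))) - hm (wt V i : ℤ) (c * e i (t i))) := by
  intro hmem
  have htV : t i ∈ V i := ((V i).valuation_le_one_iff _).1 (ht i).2.2.1.le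
  have h1 : (V i).valuation (r i (t i) - t i) < 1 := hin i _ htV
  have h2 : (V i).valuation (r i (t i) - t i) = (V i).valuation (t i) :=
    val_eq_of_not_le (ht i).2 h1 fun h3 => hnk ((pw_iff (ht i).2).2 h3)
  have h3 : (V i).valuation (r i (t i) - t i) ≤ (V i).valuation (t i) ^ 1 := by
    rw [pow_one]; exact h2.le
  obtain ⟨z, hz, hzt⟩ := (ht i).2.exists_mul h3
  rw [pow_one] at hzt
  have hz1 : (V i).valuation z = 1 := by
    rw [hzt, map_mul] at h2
    exact mul_left_cancel₀ (ht i).2.ne0 (h2.trans (mul_one _).symm)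
  obtain ⟨a, ha, f, hf, hf1, hzf⟩ := (h.loc V hV).den i z hz
  have ha1 : (V i).valuation a = 1 := by
    rw [← hzf, map_mul, hz1, hf1, one_mul]
  have hrt : f * r i (t i) = t i * (f + a) := by
    have h4 : r i (t i) = t i + t i * z := by rw [← hzt]; ring
    rw [h4, ← hzf]
    ring
  obtain ⟨hcB, hcq⟩ := fix_BB (Q.comap (j0 h)) hover (h.loc V hV).le τ r hτ hst hin hc.mem
  have hcq' : MQ Q (hm 0 (τ c - c)) := ⟨_, hcq⟩
  have hF := h.filt
  have e1 : hm 0 (c * e i f) * (tl τ (hm (wt V i : ℤ) (c * e i (t i))) -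
      hm (wt V i : ℤ) (c * e i (t i))) =
      hm (wt V i : ℤ) (c * e i (t i)) * hm 0 ((τ c - c) * e i (f + a) + c * e i a) := by
    rw [tl_hm', ← hm_sub, hm_mul, hm_mul, zero_add, add_zero]
    congr 1
    have h5 : e i f * e i (r i (t i)) = e i (t i) * (e i f + e i a) := by
      rw [← map_mul, hrt, map_mul, map_add]
    rw [map_mul, hτ, map_add]
    linear_combination (c * τ c) * h5
  have hfa : f + a ∈ A i := (A i).add_mem hf ha
  have hm1 : MQ Q (hm (wt V i : ℤ) (c * e i (t i)) *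
      hm 0 ((τ c - c) * e i (f + a) + c * e i a)) := by
    rw [← e1]
    exact MQ.mul_left (RF_zero hF ((BB e A).mul_mem hc.mem (mem_BB i hf))) hmem
  have hXR := h.gens hV hc hcN ht i
  have hgB : (τ c - c) * e i (f + a) + c * e i a ∈ BB e A :=
    (BB e A).add_mem ((BB e A).mul_mem hcB (mem_BB i hfa))
      ((BB e A).mul_mem hc.mem (mem_BB i ha))
  rcases MQ.prime hQ hXR (RF_zero hF hgB) hm1 with h6 | h6
  · exact hX h6
  · have h7 : hm 0 (c * e i a) = hm 0 ((τ c - c) * e i (f + a) + c * e i a) -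
        hm 0 (e i (f + a)) * hm 0 (τ c - c) := by
      rw [hm_mul, zero_add, ← hm_sub]
      congr 1
      ring
    have h8 : MQ Q (hm 0 (c * e i a)) := by
      rw [h7]
      exact h6.sub (MQ.mul_left (RF_zero hF (mem_BB i hfa)) hcq')
    exact (hc.mul (UV.single i ha ha1)).not_MQ h hQ hV hover h8

/-- The ideal of the fixed points of a wild automorphism is principal. -/
theorem wild_prin (hcτ : τ c = c) (m : ι → ℕ) {M : ℕ} (hwm : ∀ i, wt V i * m i = M)
    (hm2 : ∀ i, ∀ x ∈ V i, (V i).valuation (r i x - x) ≤ (V i).valuation (t i) ^ (m i + 1))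
    (i : ι) (hX : ¬ MQ Q (hm (wt V i : ℤ) (c * e i (t i))))
    (hm1 : (V i).valuation (r i (t i) - t i) = (V i).valuation (t i) ^ (m i + 1)) :
    ∃ b ∈ RF (FF e A Z wt) D, ∀ f ∈ RF (FF e A Z wt) D,
      ∃ (s : LP L) (hs : s ∈ RF (FF e A Z wt) D), (⟨s, hs⟩ : RF (FF e A Z wt) D) ∉ Q ∧
        ∃ u ∈ RF (FF e A Z wt) D, s * (tl τ f - f) = u * (tl τ b - b) := by
  have hF := h.filt
  have hXR := h.gens hV hc hcN ht
  obtain ⟨z, hz, hzt⟩ := (ht i).2.exists_mul hm1.le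
  have hz1 : (V i).valuation z = 1 := by
    rw [hzt, map_mul, map_pow] at hm1
    exact mul_left_cancel₀ (pow_ne_zero _ (ht i).2.ne0) (hm1.trans (mul_one _).symm)
  obtain ⟨a, ha, f₀, hf₀, hf1, hzf⟩ := (h.loc V hV).den i z hz
  have ha1 : (V i).valuation a = 1 := by
    rw [← hzf, map_mul, hz1, hf1, one_mul]
  obtain ⟨X, hXdef⟩ : ∃ X, X = hm (wt V i : ℤ) (c * e i (t i)) := ⟨_, rfl⟩
  rw [← hXdef] at hX
  have hXR' : X ∈ RF (FF e A Z wt) D := by rw [hXdef]; exact hXR i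
  obtain ⟨s2, hs2⟩ : ∃ s, s = hm 0 (e i f₀ * c ^ m i) := ⟨_, rfl⟩
  have hs2R : s2 ∈ RF (FF e A Z wt) D := by
    rw [hs2]
    exact RF_zero hF ((BB e A).mul_mem (mem_BB i hf₀) ((BB e A).pow_mem hc.mem _))
  obtain ⟨ξ, hξ⟩ : ∃ ξ, ξ = X ^ (m i + 1) * hm 0 (e i a) := ⟨_, rfl⟩
  have hξR : ξ ∈ RF (FF e A Z wt) D := by
    rw [hξ]
    exact Subalgebra.mul_mem _ (Subalgebra.pow_mem _ hXR' _) (RF_zero hF (mem_BB i ha))
  have hξQ : ¬ MQ Q ξ := by
    rw [hξ]
    exact not_MQ_mul hQ (Subalgebra.pow_mem _ hXR' _) (RF_zero hF (mem_BB i ha))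
      (not_MQ_pow hQ hXR' hX _) ((UV.single i ha ha1).not_MQ h hQ hV hover)
  have e1 : s2 * (tl τ X - X) = hm (-(M : ℤ)) 1 * ξ := by
    rw [hs2, hξ, hXdef, tl_hm', ← hm_sub, hm_pow, hm_mul, hm_mul, hm_mul, zero_add, add_zero]
    have h4 : -(M : ℤ) + ((m i + 1 : ℕ) : ℤ) * (wt V i : ℤ) = (wt V i : ℤ) := by
      rw [← hwm i]
      push_cast
      ring
    rw [h4]
    congr 1
    have h5 : e i f₀ * (e i (r i (t i)) - e i (t i)) = e i (t i) ^ (m i + 1) * e i a := by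
      rw [← map_sub, ← map_mul, ← map_pow, ← map_mul, hzt, ← hzf]
      congr 1
      ring
    rw [map_mul, hcτ, hτ, one_mul]
    linear_combination (c ^ (m i + 1)) * h5
  refine ⟨X, hXR', ?_⟩
  -- homogeneous elements
  have key : ∀ (d : ℤ) (x : L), hm d x ∈ RF (FF e A Z wt) D →
      ∃ s ∈ RF (FF e A Z wt) D, ¬ MQ Q s ∧
        ∃ u ∈ RF (FF e A Z wt) D, s * (tl τ (hm d x) - hm d x) = u * (tl τ X - X) := by
    intro d x hx
    have h1 := (mem_FF.1 (RF_mem hF hx)).2 V hV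
    have h2 : τ x - x ∈ JJ e V (wt V) (d + M) := by
      refine JJ_shift τ r hτ m hwm ?_ ?_ h1
      · intro j b y hy
        rw [pw_iff (ht j).2] at hy ⊢
        exact shift (ht j).2 (r j : E j ≃+* E j) (hm2 j) hy
      · intro j b y hy
        have h3 : r j y = (r j y - y) + y := by ring
        rw [h3]
        rw [pw_iff (ht j).2] at hy ⊢
        refine (V j).valuation.map_add_le ?_ hy
        exact (shift (ht j).2 (r j : E j ≃+* E j) (hm2 j) hy).trans
          ((ht j).2.pow_anti (by omega))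
    obtain ⟨s, hs, hsx⟩ := exists_KK (h.loc V hV) ht h2
    obtain ⟨N, hN⟩ := gen_loc hF hc.mem hXR hsx
    have hcs : UV e A V (c ^ N * s) := (hc.pow N).mul hs
    refine ⟨hm 0 (c ^ N * s) * ξ, Subalgebra.mul_mem _ (RF_zero hF hcs.mem) hξR,
      not_MQ_mul hQ (RF_zero hF hcs.mem) hξR (hcs.not_MQ h hQ hV hover) hξQ,
      hm (d + M) (c ^ N * (s * (τ x - x))) * s2, Subalgebra.mul_mem _ hN hs2R, ?_⟩
    have e2 : hm 0 (c ^ N * s) * (tl τ (hm d x) - hm d x) =
        hm (-(M : ℤ)) 1 * hm (d + M) (c ^ N * (s * (τ x - x))) := by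
      rw [tl_hm', ← hm_sub, hm_mul, hm_mul]
      congr 1
      · ring
      · ring
    calc hm 0 (c ^ N * s) * ξ * (tl τ (hm d x) - hm d x) =
          (hm 0 (c ^ N * s) * (tl τ (hm d x) - hm d x)) * ξ := by ring
      _ = hm (-(M : ℤ)) 1 * hm (d + M) (c ^ N * (s * (τ x - x))) * ξ := by rw [e2]
      _ = hm (d + M) (c ^ N * (s * (τ x - x))) * (hm (-(M : ℤ)) 1 * ξ) := by ring
      _ = hm (d + M) (c ^ N * (s * (τ x - x))) * s2 * (tl τ X - X) := by rw [← e1]; ring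
  intro f hf
  have hsum : ∀ S : Finset ℤ, ∃ s ∈ RF (FF e A Z wt) D, ¬ MQ Q s ∧
      ∃ u ∈ RF (FF e A Z wt) D, s * (tl τ (∑ d ∈ S, hm d (f.coeff d)) -
        ∑ d ∈ S, hm d (f.coeff d)) = u * (tl τ X - X) := by
    intro S
    induction S using Finset.induction_on with
    | empty =>
      refine ⟨1, Subalgebra.one_mem _, not_MQ_one hQ, 0, Subalgebra.zero_mem _, ?_⟩
      rw [Finset.sum_empty, map_zero, sub_zero, mul_zero, zero_mul]
    | insert d S hd ih =>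
      obtain ⟨s, hs, hsQ, u, hu, h1⟩ := ih
      obtain ⟨s', hs', hsQ', u', hu', h2⟩ := key d (f.coeff d) (RF_gr f hf d)
      refine ⟨s * s', Subalgebra.mul_mem _ hs hs', not_MQ_mul hQ hs hs' hsQ hsQ',
        s * u' + s' * u, Subalgebra.add_mem _ (Subalgebra.mul_mem _ hs hu')
          (Subalgebra.mul_mem _ hs' hu), ?_⟩
      rw [Finset.sum_insert hd, map_add]
      linear_combination s * h2 + s' * h1
  obtain ⟨s, hs, hsQ, u, hu, h1⟩ := hsum f.coeff.support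
  rw [← eq_sum_hm f] at h1
  exact ⟨s, hs, fun hmem => hsQ ⟨hs, hmem⟩, u, hu, h1⟩

end pt

end Run7.h802.Cv
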