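import Pool.Agent.Run7.h802.Cv9
import Pool.Agent.Run7.h802.Cv11
import Pool.Agent.Run7.h802.Cv13

/-!
# Inertia of the prime ideals of the charts
-/

set_option autoImplicit false
set_option linter.unusedVariables false
set_option linter.unusedSectionVars false

namespace Run7.h802.Cv

open Pool.Agent.Y223.G Pool.Agent.W418.LU2 IsLocalRing Pool.Agent.H639R3 Pool.Agent.H920R2
  IsDedekindDomain

section gen

variable {k L : Type} [Field k] [Field L] [Algebra k L] {ι : Type} [Fintype ι] [DecidableEq ι]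
  {E : ι → Type} [∀ i, Field (E i)] [∀ i, Algebra k (E i)]
  {e : ∀ i, E i →ₐ[k] L} {A : ∀ i, Subalgebra k (E i)}

lemma inr_of_fix {q : Ideal (BB e A)} (hq : q.IsPrime) {V : ∀ i, ValuationSubring (E i)}
    (hV : LocV A V) (hover : Over q V)
    (τ : L ≃ₐ[k] L) (r : ∀ i, E i ≃ₐ[k] E i) (hτ : ∀ i x, τ (e i x) = e i (r i x))
    (hst : ∀ i, ∀ a ∈ A i, r i a ∈ A i)
    (hfx : ∀ x ∈ BB e A, ∃ h : τ x - x ∈ BB e A, (⟨τ x - x, h⟩ : BB e A) ∈ q) :
    ∀ i, ∀ x ∈ V i, (V i).valuation (r i x - x) < 1 := by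
  intro i
  have h1 : ∀ a ∈ A i, (V i).valuation (r i a - a) < 1 := by
    intro a ha
    have h0 : r i a - a ∈ A i := (A i).sub_mem (hst i a ha) ha
    by_contra hcon
    have h2 : (V i).valuation (r i a - a) = 1 :=
      le_antisymm (((V i).valuation_le_one_iff _).2 (hV.le i _ h0)) (not_lt.1 hcon)
    have h3 : UV e A V (e i (r i a - a)) := UV.single i h0 h2
    obtain ⟨h4, h5⟩ := hfx (e i a) (mem_BB i ha)
    have h6 : (⟨τ (e i a) - e i a, h4⟩ : BB e A) = ⟨e i (r i a - a), h3.mem⟩ := by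
      apply Subtype.ext
      change τ (e i a) - e i a = e i (r i a - a)
      rw [hτ, map_sub]
    rw [h6] at h5
    exact hover.not_mem hq hV h3 h5
  intro x hx
  obtain ⟨a, ha, f, hf, hf1, hxf⟩ := hV.den i x hx
  have h2 := h1 a ha
  have h3 := h1 f hf
  have h4 : (V i).valuation (r i f) = 1 := by
    refine le_antisymm (((V i).valuation_le_one_iff _).2 (hV.le i _ (hst i f hf))) ?_
    by_contra hcon
    have h5 : (V i).valuation f < 1 := by
      have h6 : f = r i f - (r i f - f) := by ring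
      rw [h6]
      exact (V i).valuation.map_sub_lt (not_le.1 hcon) h3
    exact absurd hf1 h5.ne
  have h5 : (r i x - x) * r i f = (r i a - a) - x * (r i f - f) := by
    rw [← hxf, map_mul]
    ring
  have h6 : (V i).valuation ((r i x - x) * r i f) < 1 := by
    rw [h5]
    apply (V i).valuation.map_sub_lt h2
    rw [map_mul]
    exact mul_lt_one_of_nonneg_of_lt_one_right (((V i).valuation_le_one_iff _).2 hx) zero_le h3
  rwa [map_mul, h4, mul_one] at h6

end gen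

section prod

variable {k L : Type} [Field k] [Finite k] [Field L] [Algebra k L] {ι : Type} [Fintype ι]
  [DecidableEq ι] {E : ι → Type} [∀ i, Field (E i)] [∀ i, Algebra k (E i)]
  [∀ i, Algebra.EssFiniteType k (E i)] {e : ∀ i, E i →ₐ[k] L} {s : ∀ i, E i}

/-- The embedding of the chart of a factor. -/
noncomputable def phi (e : ∀ i, E i →ₐ[k] L) (A : ∀ i, Subalgebra k (E i)) (i : ι) :
    A i →+* BB e A where
  toFun a := ⟨e i a, mem_BB i a.2⟩
  map_one' := Subtype.ext (map_one (e i))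
  map_mul' x y := Subtype.ext (map_mul (e i) (x : E i) (y : E i))
  map_zero' := Subtype.ext (map_zero (e i))
  map_add' x y := Subtype.ext (map_add (e i) (x : E i) (y : E i))

/-- The point of a maximal ideal. -/
theorem pt_of_max (hs : ∀ i, SepEl k (s i)) (c : ι → Bool)
    (𝔪 : Ideal (BB e (fun i => AA k (s i) (c i)))) (hm : 𝔪.IsMaximal) :
    ∃ V : ∀ i, ValuationSubring (E i), (∀ i, Pt k (V i)) ∧ (∀ i, ch (s i) (c i) ∈ V i) ∧
      ∀ i (a : E i) (ha : a ∈ AA k (s i) (c i)),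
        ((⟨e i a, mem_BB (A := fun i => AA k (s i) (c i)) i ha⟩ :
          BB e (fun i => AA k (s i) (c i))) ∈ 𝔪 ↔ (V i).valuation a < 1) := by
  have hft := bb_ft (e := e) hs c
  have hfin : Finite (BB e (fun i => AA k (s i) (c i)) ⧸ 𝔪) := by
    let _ : Field (BB e (fun i => AA k (s i) (c i)) ⧸ 𝔪) := Ideal.Quotient.field 𝔪
    have h1 : Module.Finite k (BB e (fun i => AA k (s i) (c i)) ⧸ 𝔪) :=
      finite_of_finite_type_of_isJacobsonRing k _
    exact Module.finite_of_finite k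
  have key : ∀ i, ∃ V : ValuationSubring (E i), Pt k V ∧ ch (s i) (c i) ∈ V ∧
      ∀ (a : E i) (ha : a ∈ AA k (s i) (c i)),
        ((⟨e i a, mem_BB (A := fun i => AA k (s i) (c i)) i ha⟩ :
          BB e (fun i => AA k (s i) (c i))) ∈ 𝔪 ↔ V.valuation a < 1) := by
    intro i
    have := AA_ded (hs i) (c i)
    have := AA_frac (hs i) (c i)
    have hnf := AA_nf (hs i) (c i)
    set 𝔫 : Ideal (AA k (s i) (c i)) := 𝔪.comap (phi e (fun i => AA k (s i) (c i)) i) with h𝔫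
    have h𝔫p : 𝔫.IsPrime := Ideal.comap_isPrime _ _
    have hfq : Finite (AA k (s i) (c i) ⧸ 𝔫) :=
      Finite.of_injective _ (Ideal.quotientMap_injective (I := 𝔪)
        (f := phi e (fun i => AA k (s i) (c i)) i))
    have hfield : IsField (AA k (s i) (c i) ⧸ 𝔫) := Finite.isField_of_domain _
    have hmax : 𝔫.IsMaximal := Ideal.Quotient.maximal_of_isField 𝔫 hfield
    have hne : 𝔫 ≠ ⊥ := Ring.ne_bot_of_isMaximal_of_not_isField hmax hnf
    obtain ⟨V, h, hV, hcent⟩ := exists_of_height_one (F := E i)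
      (⟨𝔫, h𝔫p, hne⟩ : HeightOneSpectrum (AA k (s i) (c i)))
    refine ⟨V, ⟨fun x => h (algebraMap k (AA k (s i) (c i)) x), hV⟩, ?_, ?_⟩
    · exact h ⟨ch (s i) (c i), ch_mem (c i)⟩
    · intro a ha
      have h1 := mem_cent V h ⟨a, ha⟩
      rw [hcent] at h1
      exact h1
  choose V hV1 hV2 hV3 using key
  exact ⟨V, hV1, hV2, hV3⟩

/-- A prime ideal with nontrivial inertia lies over a point. -/
theorem over_of_fix {G : Type} [Group G] (ρ : ∀ i, G →* (E i ≃ₐ[k] E i))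
    (hs : ∀ i, SepEl k (s i)) (hfs : ∀ i g, ρ i g (s i) = s i)
    (hiso : ∀ V : ∀ i, ValuationSubring (E i), (∀ i, Pt k (V i)) → ∀ g ∈ inr ρ V, g ≠ 1 →
      ∀ i, ρ i g ≠ 1) (c : ι → Bool) {q : Ideal (BB e (fun i => AA k (s i) (c i)))}
    (hq : q.IsPrime) {g : G} (hg : g ≠ 1) (τ : L ≃ₐ[k] L) (hτ : ∀ i x, τ (e i x) = e i (ρ i g x))
    (hfx : ∀ x ∈ BB e (fun i => AA k (s i) (c i)),
      ∃ h : τ x - x ∈ BB e (fun i => AA k (s i) (c i)),
        (⟨τ x - x, h⟩ : BB e (fun i => AA k (s i) (c i))) ∈ q) :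
    ∃ V : ∀ i, ValuationSubring (E i), (∀ i, Pt k (V i)) ∧ (∀ i, ch (s i) (c i) ∈ V i) ∧
      g ∈ inr ρ V ∧ Over q V := by
  obtain ⟨𝔪, hm, hle⟩ := q.exists_le_maximal hq.ne_top
  obtain ⟨V, hPt, hch, hiff⟩ := pt_of_max hs c 𝔪 hm
  have hover : Over 𝔪 V := fun i a ha h => (hiff i a ha).2 h
  have hloc := locV hs c hPt hch
  have hgV : g ∈ inr ρ V := by
    rw [mem_inr]
    exact inr_of_fix hm.isPrime hloc hover τ (fun i => ρ i g) hτ
      (fun i a ha => AA_st (ρ i g) (hfs i g) (c i) ha) fun x hx => by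
        obtain ⟨h1, h2⟩ := hfx x hx
        exact ⟨h1, hle h2⟩
  refine ⟨V, hPt, hch, hgV, ?_⟩
  intro i a ha hva
  have := AA_ded (hs i) (c i)
  have := AA_frac (hs i) (c i)
  obtain ⟨h, hmax⟩ := AA_max (hs i) (V i) (hPt i) (c i) (hch i)
  set 𝔫 : Ideal (AA k (s i) (c i)) := q.comap (phi e (fun i => AA k (s i) (c i)) i) with h𝔫
  have h𝔫p : 𝔫.IsPrime := Ideal.comap_isPrime _ _
  obtain ⟨f, hf⟩ : ∃ f : AA k (s i) (c i), ρ i g f ≠ f := by
    by_contra hcon
    push Not at hcon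
    apply hiso V hPt g hgV hg i
    ext x
    rw [AlgEquiv.one_apply]
    obtain ⟨a, b, hb, rfl⟩ := IsFractionRing.div_surjective (A := AA k (s i) (c i)) x
    rw [map_div₀]
    have h1 : ∀ a : AA k (s i) (c i), ρ i g (algebraMap (AA k (s i) (c i)) (E i) a) =
        algebraMap (AA k (s i) (c i)) (E i) a := fun a => hcon a
    rw [h1, h1]
  have h0 : ρ i g f - f ∈ AA k (s i) (c i) :=
    (AA k (s i) (c i)).sub_mem (AA_st (ρ i g) (hfs i g) (c i) f.2) f.2
  have h1 : (⟨ρ i g f - f, h0⟩ : AA k (s i) (c i)) ∈ 𝔫 := by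
    obtain ⟨h2, h3⟩ := hfx (e i f) (mem_BB (A := fun i => AA k (s i) (c i)) i f.2)
    have h4 : phi e (fun i => AA k (s i) (c i)) i ⟨ρ i g f - f, h0⟩ = ⟨τ (e i f) - e i f, h2⟩ := by
      apply Subtype.ext
      change e i (ρ i g f - f) = τ (e i f) - e i f
      rw [hτ, map_sub]
    rw [h𝔫, Ideal.mem_comap, h4]
    exact h3
  have hne : 𝔫 ≠ ⊥ := by
    intro h2
    rw [h2, Ideal.mem_bot] at h1
    exact hf (sub_eq_zero.1 (congrArg Subtype.val h1))
  have hmax' : 𝔫.IsMaximal := h𝔫p.isMaximal hne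
  have heq : 𝔫 = cent (V i) h := by
    apply hmax'.eq_of_le hmax.ne_top
    intro y hy
    rw [mem_cent]
    exact (hiff i y y.2).1 (hle hy)
  have h5 : (⟨a, ha⟩ : AA k (s i) (c i)) ∈ 𝔫 := by
    rw [heq, mem_cent]
    exact hva
  exact h5

end prod

end Run7.h802.Cv
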