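import Pool.Agent.Run7.h802.Cv15

/-!
# The quotients of the charts are regular outside the vertex
-/

set_option autoImplicit false
set_option linter.unusedVariables false
set_option linter.unusedSectionVars false

namespace Run7.h802.Cv

open Pool.Agent.Y223.G Pool.Agent.W418.LU2 IsLocalRing Pool.Agent.H639R3 IsDedekindDomain
open Pool.Agent.H920R2 (SepEl)

section prod

variable {k L : Type} [Field k] [Finite k] [Field L] [Algebra k L] {ι : Type} [Fintype ι]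
  [DecidableEq ι] {E : ι → Type} [∀ i, Field (E i)] [∀ i, Algebra k (E i)]
  [∀ i, Algebra.EssFiniteType k (E i)] {e : ∀ i, E i →ₐ[k] L} {s : ∀ i, E i}
  {G : Type} [Group G] {ρ : ∀ i, G →* (E i ≃ₐ[k] E i)}

/-- The data of a chart. -/
lemma cd_chart [Finite G] (p : ℕ) [Fact p.Prime] [CharP k p] (hs : ∀ i, SepEl k (s i))
    (hld : ∀ (S : Finset ι) (i : ι), i ∉ S → (⨆ j ∈ S, (e j).range).LinearDisjoint (e i).range)
    (hfs : ∀ i g, ρ i g (s i) = s i)
    (hiso : ∀ V : ∀ i, ValuationSubring (E i), (∀ i, Pt k (V i)) → ∀ g ∈ inr ρ V, g ≠ 1 →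
      ∀ i, ρ i g ≠ 1) {D : ℕ} (hD : 1 ≤ D) (hwD : ∀ V ∈ ZA ρ, ∀ i, wt ρ p V i ≤ D)
    (c : ι → Bool) : CD e (fun i => AA k (s i) (c i)) (ZZ ρ s c) (wt ρ p) D :=
  cd_curve p hs hld c (ZZ ρ s c) ((ZA_fin hs hfs hiso).subset fun V hV => hV.1)
    (fun V hV i => ⟨hV.1.1 i, hV.2 i⟩) (wt ρ p) D (fun V _ i => wt_pos p V i)
    (fun V hV i => hwD V hV.1 i) hD

/-- The invariant element. -/
lemma exists_inv {A : ∀ i, Subalgebra k (E i)} {Z : Set (∀ i, ValuationSubring (E i))}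
    {w : (∀ i, ValuationSubring (E i)) → ι → ℕ} {D : ℕ} (p : ℕ) (hp : 0 < p)
    (hZ : ∀ V ∈ Z, LocV A V)
    (σ : G →* (L ≃ₐ[k] L)) (hσ : ∀ g i x, σ g (e i x) = e i (ρ i g x))
    (hst : ∀ g i, ∀ a ∈ A i, ρ i g a ∈ A i)
    {V : ∀ i, ValuationSubring (E i)} (hV : V ∈ Z) {τ : G} (hτ : τ ∈ inr ρ V) (hτp : τ ^ p = 1)
    {c : L} (hc : UV e A V c) (hcN : ∀ V' ∈ Z, V' ≠ V → c ∈ JJ e V' (w V') D) :
    ∃ c', UV e A V c' ∧ (∀ V' ∈ Z, V' ≠ V → c' ∈ JJ e V' (w V') D) ∧ σ τ c' = c' := by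
  classical
  have hpow : ∀ j : ℕ, UV e A V (σ (τ ^ j) c) := by
    intro j
    have h1 : τ ^ j ∈ inr ρ V := (inr ρ V).pow_mem hτ j
    exact UV_map (hZ V hV).le (σ (τ ^ j)) (fun i => ρ i (τ ^ j)) (hσ _) (hst _)
      (mem_inr.1 h1) hc
  refine ⟨∏ j ∈ Finset.range p, σ (τ ^ j) c, ?_, ?_, ?_⟩
  · have h2 : ∀ n : ℕ, UV e A V (∏ j ∈ Finset.range n, σ (τ ^ j) c) := by
      intro n
      induction n with
      | zero => rw [Finset.prod_range_zero]; exact UV.one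
      | succ n ih => rw [Finset.prod_range_succ]; exact ih.mul (hpow n)
    exact h2 p
  · intro V' hV' hne
    obtain ⟨n, rfl⟩ : ∃ n, p = n + 1 := ⟨p - 1, by omega⟩
    rw [Finset.prod_range_succ', pow_zero, map_one, AlgEquiv.one_apply]
    have h3 := JJ_mul (BB_le_JJ (e := e) (hZ V' hV') (w V')
      (Subalgebra.prod_mem (BB e A) (t := Finset.range n) (f := fun j => σ (τ ^ (j + 1)) c)
        fun j _ => (hpow (j + 1)).mem) le_rfl) (hcN V' hV' hne)
    rwa [zero_add] at h3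
  · have h0 : c ≠ 0 := hc.ne
    have h4 : σ τ (∏ j ∈ Finset.range p, σ (τ ^ j) c) =
        ∏ j ∈ Finset.range p, σ (τ ^ (j + 1)) c := by
      rw [map_prod]
      refine Finset.prod_congr rfl fun j _ => ?_
      rw [pow_succ', map_mul, AlgEquiv.mul_apply]
    rw [h4]
    have h5 : (∏ j ∈ Finset.range p, σ (τ ^ (j + 1)) c) * σ (τ ^ 0) c =
        (∏ j ∈ Finset.range p, σ (τ ^ j) c) * σ (τ ^ p) c := by
      rw [← Finset.prod_range_succ' (fun j => σ (τ ^ j) c), Finset.prod_range_succ]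
    rw [hτp, pow_zero, map_one, AlgEquiv.one_apply] at h5
    exact mul_right_cancel₀ h0 h5

/-- The quotient of a chart. -/
theorem ch_chart [Nonempty ι] [Finite G] (p : ℕ) [Fact p.Prime] [CharP k p]
    {F : Type} [Field F] [Algebra k F] (κ : F →ₐ[k] L) (hs : ∀ i, SepEl k (s i))
    (hld : ∀ (S : Finset ι) (i : ι), i ∉ S → (⨆ j ∈ S, (e j).range).LinearDisjoint (e i).range)
    (hfs : ∀ i g, ρ i g (s i) = s i)
    (σ : G →* (L ≃ₐ[k] L)) (hσ : ∀ g i x, σ g (e i x) = e i (ρ i g x))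
    (hfix : ∀ x, (∀ g, σ g x = x) ↔ ∃ y, κ y = x)
    (hiso : ∀ V : ∀ i, ValuationSubring (E i), (∀ i, Pt k (V i)) → ∀ g ∈ inr ρ V, g ≠ 1 →
      ∀ i, ρ i g ≠ 1)
    (hcard : ∀ V : ∀ i, ValuationSubring (E i), (∀ i, Pt k (V i)) →
      ¬ p ^ 2 ∣ Nat.card (inr ρ V)) {D : ℕ} (hD : 1 ≤ D)
    (hwD : ∀ V ∈ ZA ρ, ∀ i, wt ρ p V i ≤ D) (c : ι → Bool) :
    Ch (res κ (RF (FF e (fun i => AA k (s i) (c i)) (ZZ ρ s c) (wt ρ p)) D)) := by
  classical
  have hp : p.Prime := Fact.out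
  have hCD := cd_chart p hs hld hfs hiso hD hwD c
  have hF := hCD.filt
  have hst : ∀ g i, ∀ a ∈ AA k (s i) (c i), ρ i g a ∈ AA k (s i) (c i) := fun g i a ha =>
    AA_st (ρ i g) (hfs i g) (c i) ha
  have hfx : ∀ {q : Ideal (BB e (fun i => AA k (s i) (c i)))} {g : G},
      (∀ x ∈ BB e (fun i => AA k (s i) (c i)), ∀ h : σ g x - x ∈
        BB e (fun i => AA k (s i) (c i)),
        (⟨σ g x - x, h⟩ : BB e (fun i => AA k (s i) (c i))) ∈ q) →
      ∀ x ∈ BB e (fun i => AA k (s i) (c i)),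
      ∃ h : σ g x - x ∈ BB e (fun i => AA k (s i) (c i)),
        (⟨σ g x - x, h⟩ : BB e (fun i => AA k (s i) (c i))) ∈ q := by
    intro q g hx x hxB
    have h1 : σ g x - x ∈ BB e (fun i => AA k (s i) (c i)) :=
      (BB e _).sub_mem (BB_st (σ g) (fun i => ρ i g) (hσ g) (hst g) hxB) hxB
    exact ⟨h1, hx x hxB h1⟩
  refine Pool.Agent.Y279.G.t_STEPG Pool.Agent.Y824.G4.t_DESCG k L F κ G σ hfix _ hCD.isCh
    (fun g f hf => RF_tl (σ g) (fun d x hx => FF_st p σ hσ hfs c g hx) hf) ?_ ?_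
  · -- faithful
    intro g hg
    by_contra hg1
    have hbot : (⊥ : Ideal (BB e (fun i => AA k (s i) (c i)))).IsPrime := Ideal.isPrime_bot
    obtain ⟨V, hPt, hch, hgV, hover⟩ := over_of_fix ρ hs hfs hiso c hbot hg1 (σ g) (hσ g)
      (hfx fun x hx h => by
        have h1 := hg (hm 0 x) (RF_zero hF hx)
        rw [tl_hm'] at h1
        have h2 := hm_inj h1
        have h3 : (⟨σ g x - x, h⟩ : BB e (fun i => AA k (s i) (c i))) = 0 := by
          apply Subtype.ext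
          change σ g x - x = 0
          rw [h2, sub_self]
        rw [h3]
        exact Ideal.zero_mem _)
    obtain ⟨i⟩ := (inferInstance : Nonempty ι)
    obtain ⟨t, htA, ht⟩ := (locV hs c hPt hch).uf i
    have h4 := hover i t htA ht.2.1
    rw [Ideal.mem_bot] at h4
    exact ht.1 ((map_eq_zero_iff (e i) (e i).toRingHom.injective).1 (congrArg Subtype.val h4))
  · intro Q hQ ⟨d, η, hη, hd, hηQ⟩
    have hη' : ¬ MQ Q (hm (d : ℤ) η) := fun ⟨h1, h2⟩ => hηQ h2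
    have hq : (Q.comap (j0 hCD)).IsPrime := Ideal.comap_isPrime _ _
    have hinq : ∀ g, (∀ f ∈ RF (FF e (fun i => AA k (s i) (c i)) (ZZ ρ s c) (wt ρ p)) D,
        ∃ h : tl (σ g) f - f ∈ RF (FF e (fun i => AA k (s i) (c i)) (ZZ ρ s c) (wt ρ p)) D,
          (⟨tl (σ g) f - f, h⟩ : RF (FF e (fun i => AA k (s i) (c i)) (ZZ ρ s c) (wt ρ p)) D) ∈
            Q) → ∀ x ∈ BB e (fun i => AA k (s i) (c i)),
        ∃ h : σ g x - x ∈ BB e (fun i => AA k (s i) (c i)),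
        (⟨σ g x - x, h⟩ : BB e (fun i => AA k (s i) (c i))) ∈ Q.comap (j0 hCD) := by
      intro g hg
      refine hfx fun x hx h => ?_
      rw [mem_comap_j0]
      have h1 := hg (hm 0 x) (RF_zero hF hx)
      rw [tl_hm', ← hm_sub] at h1
      exact h1
    by_cases hov : ∃ V ∈ ZZ ρ s c, Over (Q.comap (j0 hCD)) V
    · obtain ⟨V, hV, hover⟩ := hov
      have hPt : ∀ i, Pt k (V i) := hV.1.1
      have hloc := hCD.loc V hV
      choose t htA ht using hloc.uf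
      have htt : ∀ i, t i ∈ AA k (s i) (c i) ∧ IsUf (V i) (t i) := fun i => ⟨htA i, ht i⟩
      have hL : ∀ i, PtL p (V i) (t i) := by
        intro i
        obtain ⟨t', ht'⟩ := exists_t (hs i) p (V i) (hPt i)
        exact ht'.congr (ht i)
      obtain ⟨c₀, hc₀, hc₀N⟩ := exists_sep (e := e) hCD.fin hCD.loc hCD.wt1 hCD.sep hV D
      have hinr : ∀ g, (∀ f ∈ RF (FF e (fun i => AA k (s i) (c i)) (ZZ ρ s c) (wt ρ p)) D,
          ∃ h : tl (σ g) f - f ∈ RF (FF e (fun i => AA k (s i) (c i)) (ZZ ρ s c) (wt ρ p)) D,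
          (⟨tl (σ g) f - f, h⟩ : RF (FF e (fun i => AA k (s i) (c i)) (ZZ ρ s c) (wt ρ p)) D) ∈
            Q) → g ∈ inr ρ V := by
        intro g hg
        rw [mem_inr]
        exact inr_of_fix hq hloc hover (σ g) (fun i => ρ i g) (hσ g) (hst g) (hinq g hg)
      have hkin : ∀ g, (∀ f ∈ RF (FF e (fun i => AA k (s i) (c i)) (ZZ ρ s c) (wt ρ p)) D,
          ∃ h : tl (σ g) f - f ∈ RF (FF e (fun i => AA k (s i) (c i)) (ZZ ρ s c) (wt ρ p)) D,
          (⟨tl (σ g) f - f, h⟩ : RF (FF e (fun i => AA k (s i) (c i)) (ZZ ρ s c) (wt ρ p)) D) ∈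
            Q) → ∀ c' : L, UV e (fun i => AA k (s i) (c i)) V c' →
          (∀ V' ∈ ZZ ρ s c, V' ≠ V → c' ∈ JJ e V' (wt ρ p V') D) → ∀ i,
          ¬ MQ Q (hm (wt ρ p V i : ℤ) (c' * e i (t i))) →
          g ∈ inr ρ V ⊓ kin (rr ρ i) (V i) (hL i).uf := by
        intro g hg c' hc' hc'N i hX
        have hgV := hinr g hg
        refine ⟨hgV, fun x hx => mem_inr.1 hgV i x hx, ?_⟩
        by_contra hcon
        refine tame_move hCD hQ hV hover hc' hc'N htt (σ g) (fun i => ρ i g) (hσ g) (hst g)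
          (mem_inr.1 hgV) i hX hcon ?_
        exact hg _ (hCD.gens hV hc' hc'N htt i)
      rcases wild_dich p (hiso V hPt) (hcard V hPt) hL with hK | ⟨τ, hτ, hτp, hτ1, hK⟩
      · left
        intro g hg
        obtain ⟨i, hi⟩ := hCD.offv hQ hV hover hc₀ hc₀N htt hd hη hη'
        have h1 := hkin g hg c₀ hc₀ hc₀N i hi
        rw [hK i] at h1
        exact Subgroup.mem_bot.1 h1
      · right
        obtain ⟨c', hc', hc'N, hc'τ⟩ := exists_inv (w := wt ρ p) p hp.pos hCD.loc σ hσ hst hV hτ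
          hτp hc₀ hc₀N
        obtain ⟨i, hi⟩ := hCD.offv hQ hV hover hc' hc'N htt hd hη hη'
        have hτρ := hiso V hPt τ hτ hτ1
        have hmm := mm_spec p hL hτ hτp hτρ hK
        have hwm : ∀ j, wt ρ p V j * mm ρ p V j = ∏ j, mm ρ p V j := by
          intro j
          unfold wt
          rw [← Finset.prod_erase_mul Finset.univ _ (Finset.mem_univ j)]
          congr 1
          exact Finset.prod_congr rfl fun j' _ => max_eq_left (hmm j').1
        refine ⟨p, τ, hp, hτp, fun g hg => hK i (hkin g hg c' hc' hc'N i hi), ?_⟩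
        exact wild_prin hCD hQ hV hover hc' hc'N htt (σ τ) (fun i => ρ i τ) (hσ τ) (hst τ)
          (mem_inr.1 hτ) hc'τ (mm ρ p V) hwm (fun i => (hmm i).2.2) i hi (hmm i).2.1
    · left
      intro g hg
      by_contra hg1
      obtain ⟨V, hPt, hch, hgV, hover⟩ := over_of_fix ρ hs hfs hiso c hq hg1 (σ g) (hσ g)
        (hinq g hg)
      exact hov ⟨V, ⟨⟨hPt, g, hgV, hg1⟩, hch⟩, hover⟩

end prod

end Run7.h802.Cv
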