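import Pool.Agent.Run7.h802.Cv16

/-!
# Gluing of the charts
-/

set_option autoImplicit false
set_option linter.unusedVariables false
set_option linter.unusedSectionVars false

namespace Run7.h802.Cv

open Pool.Agent.Y223.G Pool.Agent.W418.LU2 IsLocalRing Pool.Agent.H639R3 IsDedekindDomain
open Pool.Agent.H920R2 (SepEl)

/-- Extension of valuation rings. -/
theorem ext_val {F L : Type} [Field F] [Field L] (κ : F →+* L) (V : ValuationSubring F) :
    ∃ W : ValuationSubring L, ∀ x, κ x ∈ W ↔ x ∈ V := by
  obtain ⟨W, hW⟩ := (LocalSubring.range (κ.comp V.subtype)).exists_le_valuationSubring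
  obtain ⟨hle, hloc⟩ := LocalSubring.le_def.1 hW
  have h1 : ∀ x ∈ V, κ x ∈ (LocalSubring.range (κ.comp V.subtype)).toSubring := by
    intro x hx
    exact ⟨⟨x, hx⟩, rfl⟩
  refine ⟨W, fun x => ⟨fun hx => ?_, fun hx => hle (h1 x hx)⟩⟩
  by_contra hxV
  have hx0 : x ≠ 0 := by
    rintro rfl
    exact hxV V.zero_mem
  have hinv : x⁻¹ ∈ V := (V.mem_or_inv_mem x).resolve_left hxV
  have hu : IsUnit (Subring.inclusion hle ⟨κ x⁻¹, h1 _ hinv⟩) := by
    refine IsUnit.of_mul_eq_one (⟨κ x, hx⟩ : W.toLocalSubring.toSubring) ?_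
    apply Subtype.ext
    change κ x⁻¹ * κ x = 1
    rw [← map_mul, inv_mul_cancel₀ hx0, map_one]
  obtain ⟨u, hu'⟩ := hloc.map_nonunit _ hu
  have h2 : κ x⁻¹ * ((u⁻¹ : (LocalSubring.range (κ.comp V.subtype)).toSubringˣ) :
      (LocalSubring.range (κ.comp V.subtype)).toSubring) = (1 : L) := by
    have h3 := u.mul_inv
    rw [hu'] at h3
    exact congrArg Subtype.val h3
  obtain ⟨y, hy⟩ := ((u⁻¹ : (LocalSubring.range (κ.comp V.subtype)).toSubringˣ) :
      (LocalSubring.range (κ.comp V.subtype)).toSubring).2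
  have hy' : κ (y : F) = ((u⁻¹ : (LocalSubring.range (κ.comp V.subtype)).toSubringˣ) :
      (LocalSubring.range (κ.comp V.subtype)).toSubring) := hy
  rw [← hy', ← map_mul] at h2
  have h4 : x⁻¹ * (y : F) = 1 := κ.injective (h2.trans (map_one κ).symm)
  have h5 : (y : F) = x := by
    field_simp at h4
    exact h4
  exact hxV (h5 ▸ y.2)

section prod

variable {k L : Type} [Field k] [Finite k] [Field L] [Algebra k L] {ι : Type} [Fintype ι]
  [DecidableEq ι] {E : ι → Type} [∀ i, Field (E i)] [∀ i, Algebra k (E i)]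
  [∀ i, Algebra.EssFiniteType k (E i)] {e : ∀ i, E i →ₐ[k] L} {s : ∀ i, E i}
  {G : Type} [Group G] {ρ : ∀ i, G →* (E i ≃ₐ[k] E i)}

/-- The function of the transition. -/
noncomputable def uu (e : ∀ i, E i →ₐ[k] L) (s : ∀ i, E i) (a b : ι → Bool) : L :=
  ∏ i, e i (if a i = b i then 1 else ch (s i) (a i))

lemma uf_mem (a b : ι → Bool) (i : ι) :
    (if a i = b i then 1 else ch (s i) (a i)) ∈ AA k (s i) (a i) := by
  split_ifs
  · exact (AA k (s i) (a i)).one_mem
  · exact ch_mem (a i)

lemma uu_mem (a b : ι → Bool) : uu e s a b ∈ BB e (fun i => AA k (s i) (a i)) :=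
  Subalgebra.prod_mem _ fun i _ => mem_BB (A := fun i => AA k (s i) (a i)) i (uf_mem a b i)

/-- Gluing of the coordinate rings. -/
lemma glue_BB (hs : ∀ i, SepEl k (s i)) (a b : ι → Bool) {x : L}
    (hx : x ∈ BB e (fun i => AA k (s i) (b i))) :
    ∃ n : ℕ, uu e s a b ^ n * x ∈ BB e (fun i => AA k (s i) (a i)) := by
  let T : Subalgebra k L :=
    { carrier := {x | ∃ n : ℕ, uu e s a b ^ n * x ∈ BB e (fun i => AA k (s i) (a i))}
      mul_mem' := by
        rintro x y ⟨n, hn⟩ ⟨m, hm⟩
        refine ⟨n + m, ?_⟩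
        have h1 : uu e s a b ^ (n + m) * (x * y) = (uu e s a b ^ n * x) * (uu e s a b ^ m * y) := by
          ring
        rw [h1]
        exact (BB e _).mul_mem hn hm
      add_mem' := by
        rintro x y ⟨n, hn⟩ ⟨m, hm⟩
        refine ⟨n + m, ?_⟩
        have h1 : uu e s a b ^ (n + m) * (x + y) = uu e s a b ^ m * (uu e s a b ^ n * x) +
            uu e s a b ^ n * (uu e s a b ^ m * y) := by ring
        rw [h1]
        exact (BB e _).add_mem ((BB e _).mul_mem ((BB e _).pow_mem (uu_mem a b) _) hn)
          ((BB e _).mul_mem ((BB e _).pow_mem (uu_mem a b) _) hm)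
      algebraMap_mem' := fun c => ⟨0, by
        rw [pow_zero, one_mul]
        exact (BB e _).algebraMap_mem c⟩ }
  have hle : BB e (fun i => AA k (s i) (b i)) ≤ T := by
    refine iSup_le fun i => ?_
    rintro _ ⟨z, hz, rfl⟩
    by_cases hab : a i = b i
    · refine ⟨0, ?_⟩
      rw [pow_zero, one_mul]
      refine mem_BB (A := fun i => AA k (s i) (a i)) i ?_
      rw [hab]
      exact hz
    · have hb : b i = !(a i) := by
        cases h1 : a i <;> cases h2 : b i
        · exact absurd (h1.trans h2.symm) hab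
        · rfl
        · rfl
        · exact absurd (h1.trans h2.symm) hab
      have hz' : z ∈ AA k (s i) (!(a i)) := by
        rw [← hb]
        exact hz
      obtain ⟨n, hn⟩ := AA_den (hs i) (a i) hz'
      refine ⟨n, ?_⟩
      have h1 : uu e s a b ^ n * e i z = (∏ j ∈ Finset.univ.erase i,
          e j (if a j = b j then 1 else ch (s j) (a j))) ^ n * e i (ch (s i) (a i) ^ n * z) := by
        unfold uu
        rw [← Finset.prod_erase_mul Finset.univ _ (Finset.mem_univ i), if_neg hab, map_mul,
          map_pow]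
        ring
      change uu e s a b ^ n * e i z ∈ _
      rw [h1]
      refine (BB e _).mul_mem ((BB e _).pow_mem (Subalgebra.prod_mem _ fun j _ =>
        mem_BB (A := fun i => AA k (s i) (a i)) j (uf_mem a b j)) _) ?_
      exact mem_BB (A := fun i => AA k (s i) (a i)) i hn
  exact hle hx

/-- Gluing of the graded algebras. -/
theorem glue_RF (hs : ∀ i, SepEl k (s i)) (p D : ℕ) (a b : ι → Bool) {f : LP L}
    (hf : f ∈ RF (FF e (fun i => AA k (s i) (b i)) (ZZ ρ s b) (wt ρ p)) D) :
    ∃ n : ℕ, hm 0 (uu e s a b) ^ n * f ∈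
      RF (FF e (fun i => AA k (s i) (a i)) (ZZ ρ s a) (wt ρ p)) D := by
  have hloc : ∀ V ∈ ZZ ρ s a, LocV (fun i => AA k (s i) (a i)) V := fun V hV =>
    locV hs a hV.1.1 hV.2
  have hloc' : ∀ V ∈ ZZ ρ s b, LocV (fun i => AA k (s i) (b i)) V := fun V hV =>
    locV hs b hV.1.1 hV.2
  have hFa := filt_FF (e := e) (wt := wt ρ p) hloc
  have hFb := filt_FF (e := e) (wt := wt ρ p) hloc'
  have hu : hm 0 (uu e s a b) ∈ RF (FF e (fun i => AA k (s i) (a i)) (ZZ ρ s a) (wt ρ p)) D :=
    RF_zero hFa (uu_mem a b)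
  have hle : RF (FF e (fun i => AA k (s i) (b i)) (ZZ ρ s b) (wt ρ p)) D ≤
      loc (RF (FF e (fun i => AA k (s i) (a i)) (ZZ ρ s a) (wt ρ p)) D) _ hu := by
    unfold RF
    rw [Algebra.adjoin_le_iff]
    rintro f (hf | ⟨d, x, hd, hx, rfl⟩)
    · rw [Set.mem_singleton_iff] at hf
      rw [hf]
      exact le_loc _ _ hu RF_ss
    · rw [mem_FF] at hx
      obtain ⟨n, hn⟩ := glue_BB hs a b hx.1
      refine ⟨d + n, ?_⟩
      rw [hm_pow, hm_mul, mul_zero, zero_add]
      refine RF_hm hd (mem_FF.2 ⟨?_, fun V hV => ?_⟩)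
      · rw [pow_add, mul_assoc]
        exact (BB e _).mul_mem ((BB e _).pow_mem (uu_mem a b) _) hn
      · by_cases hVb : ∀ i, ch (s i) (b i) ∈ V i
        · have h1 := hx.2 V ⟨hV.1, hVb⟩
          have h2 := JJ_mul (BB_le_JJ (e := e) (hloc V hV) (wt ρ p V)
            ((BB e _).pow_mem (uu_mem a b) (d + n)) le_rfl) h1
          rwa [zero_add] at h2
        · push Not at hVb
          obtain ⟨i, hi⟩ := hVb
          have hai := hV.2 i
          have hab : a i ≠ b i := by
            intro h1
            rw [← h1] at hi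
            exact hi hai
          have hinv : ch (s i) (a i) = (ch (s i) (b i))⁻¹ := by
            cases h1 : a i <;> cases h2 : b i
            · exact absurd (h1.trans h2.symm) hab
            · change s i = (s i)⁻¹⁻¹
              rw [inv_inv]
            · rfl
            · exact absurd (h1.trans h2.symm) hab
          have hlt : (V i).valuation (ch (s i) (a i)) < 1 := by
            rw [hinv, map_inv₀]
            have h3 : 1 < (V i).valuation (ch (s i) (b i)) := by
              rw [← not_le, (V i).valuation_le_one_iff]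
              exact hi
            exact inv_lt_one_of_one_lt₀ h3
          have h4 : e i (ch (s i) (a i)) ∈ JJ e V (wt ρ p V) 1 := by
            obtain ⟨t, ht⟩ := (hloc V hV).uf' i
            refine JJ_single (hloc V hV).uf' i ((pw_one ht).2 hlt) ?_
            have h5 := wt_pos (ρ := ρ) p V i
            rw [mul_one]
            exact_mod_cast h5
          have h5 : uu e s a b ∈ JJ e V (wt ρ p V) 1 := by
            have h6 : uu e s a b = (∏ j ∈ Finset.univ.erase i,
                e j (if a j = b j then 1 else ch (s j) (a j))) * e i (ch (s i) (a i)) := by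
              unfold uu
              rw [← Finset.prod_erase_mul Finset.univ _ (Finset.mem_univ i), if_neg hab]
            rw [h6]
            have h7 := JJ_mul (BB_le_JJ (e := e) (hloc V hV) (wt ρ p V)
              (Subalgebra.prod_mem (BB e (fun i => AA k (s i) (a i))) (t := Finset.univ.erase i)
                (f := fun j => e j (if a j = b j then 1 else ch (s j) (a j))) fun j _ =>
                mem_BB (A := fun i => AA k (s i) (a i)) j (uf_mem a b j)) le_rfl) h4
            rwa [zero_add] at h7
          have h8 := JJ_pow (hloc V hV).uf' h5 d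
          rw [mul_one] at h8
          have h9 := JJ_mul h8 (BB_le_JJ (e := e) (hloc V hV) (wt ρ p V) hn le_rfl)
          rw [add_zero] at h9
          rw [pow_add, mul_assoc]
          exact h9
  exact hle hf

/-- The coordinate ring is contained in the valuation rings which contain the coordinates. -/
lemma BB_val (c : ι → Bool) (W : ValuationSubring L) (hW : ∀ x : k, algebraMap k L x ∈ W)
    (hc : ∀ i, e i (ch (s i) (c i)) ∈ W) {x : L} (hx : x ∈ BB e (fun i => AA k (s i) (c i))) :
    x ∈ W := by
  let T : Subalgebra k L := { W.toSubring.toSubsemiring with algebraMap_mem' := hW }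
  have hle : BB e (fun i => AA k (s i) (c i)) ≤ T := by
    refine iSup_le fun i => ?_
    rintro _ ⟨z, hz, rfl⟩
    have h1 : z ∈ W.comap (e i : E i →+* L) := by
      refine AA_val (W.comap (e i : E i →+* L)) (fun x => ?_) (c i) (hc i) hz
      change e i (algebraMap k (E i) x) ∈ W
      rw [AlgHom.commutes]
      exact hW x
    exact h1
  exact hle hx

/-- The field of fractions of the coordinate ring. -/
lemma BB_frac (hs : ∀ i, SepEl k (s i)) (hgen : ⨆ i, (e i).fieldRange = ⊤) (c : ι → Bool)
    (x : L) : ∃ b ∈ BB e (fun i => AA k (s i) (c i)), ∃ b' ∈ BB e (fun i => AA k (s i) (c i)),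
      b' ≠ 0 ∧ x = b / b' := by
  have h1 : x ∈ IntermediateField.adjoin k
      (BB e (fun i => AA k (s i) (c i)) : Set L) := by
    have h2 : (⊤ : IntermediateField k L) ≤ IntermediateField.adjoin k
        (BB e (fun i => AA k (s i) (c i)) : Set L) := by
      rw [← hgen]
      refine iSup_le fun i => ?_
      rintro _ ⟨z, rfl⟩
      have := AA_ded (hs i) (c i)
      have := AA_frac (hs i) (c i)
      obtain ⟨a, b, hb, rfl⟩ := IsFractionRing.div_surjective (A := AA k (s i) (c i)) z
      change e i (algebraMap _ (E i) a / algebraMap _ (E i) b) ∈ _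
      rw [map_div₀]
      exact IntermediateField.div_mem _
        (IntermediateField.subset_adjoin k _ (mem_BB (A := fun i => AA k (s i) (c i)) i a.2))
        (IntermediateField.subset_adjoin k _ (mem_BB (A := fun i => AA k (s i) (c i)) i b.2))
    exact h2 trivial
  rw [IntermediateField.mem_adjoin_iff_div] at h1
  obtain ⟨r, hr, r', hr', hx⟩ := h1
  rw [Algebra.adjoin_eq] at hr hr'
  rcases eq_or_ne r' 0 with h0 | h0
  · refine ⟨0, Subalgebra.zero_mem _, 1, Subalgebra.one_mem _, one_ne_zero, ?_⟩
    rw [hx, h0, div_zero, zero_div]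
  · exact ⟨r, hr, r', hr', h0, hx⟩

end prod

end Run7.h802.Cv
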