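import Pool.Agent.Run7.h802.Cv17
import Pool.Agent.N864.GT.Mod7

/-!
# Quotients of products of curves: the model
-/

set_option autoImplicit false
set_option linter.unusedVariables false
set_option linter.unusedSectionVars false

namespace Run7.h802.Cv

open Pool.Agent.Y223.G Pool.Agent.W418.LU2 IsLocalRing Pool.Agent.H639R3 IsDedekindDomain
  Pool.Agent.H918R2.Quad AlgebraicGeometry CategoryTheory
open Pool.Agent.H920R2 (SepEl)
open Pool.Agent.Y232.G6 (Ph Ph_hm mem_res)

section prod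

variable {k L : Type} [Field k] [Finite k] [Field L] [Algebra k L] {ι : Type} [Fintype ι]
  [DecidableEq ι] {E : ι → Type} [∀ i, Field (E i)] [∀ i, Algebra k (E i)]
  [∀ i, Algebra.EssFiniteType k (E i)] {e : ∀ i, E i →ₐ[k] L}
  {G : Type} [Group G] {ρ : ∀ i, G →* (E i ≃ₐ[k] E i)}

/-- The quotient of a product of curves has a regular projective model. -/
theorem curve_hasModule [Nonempty ι] [Finite G] (p : ℕ) [Fact p.Prime] [CharP k p]
    {F : Type} [Field F] [Algebra k F] [Algebra F L] [IsScalarTower k F L]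
    (htr : ∀ i, Algebra.trdeg k (E i) = 1)
    (hld : ∀ (S : Finset ι) (i : ι), i ∉ S → (⨆ j ∈ S, (e j).range).LinearDisjoint (e i).range)
    (hgen : ⨆ i, (e i).fieldRange = ⊤)
    (σ : G →* (L ≃ₐ[k] L)) (hσ : ∀ g i x, σ g (e i x) = e i (ρ i g x))
    (hfix : ∀ x, (∀ g, σ g x = x) ↔ ∃ y : F, algebraMap F L y = x)
    (hiso : ∀ V : ∀ i, ValuationSubring (E i), (∀ i, Pt k (V i)) → ∀ g ∈ inr ρ V, g ≠ 1 →
      ∀ i, ρ i g ≠ 1)
    (hcard : ∀ V : ∀ i, ValuationSubring (E i), (∀ i, Pt k (V i)) →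
      ¬ p ^ 2 ∣ Nat.card (inr ρ V)) : HasModule k F := by
  classical
  let _ : Fintype G := Fintype.ofFinite G
  choose s hs hfs using fun i => exists_coord (htr i) (ρ i)
  let κ : F →ₐ[k] L := IsScalarTower.toAlgHom k F L
  have hκ : ∀ x, (∀ g, σ g x = x) ↔ ∃ y, κ y = x := hfix
  have hκ0 : ∀ {y : F}, κ y = 0 → y = 0 := fun {y} h =>
    (map_eq_zero_iff κ κ.toRingHom.injective).1 h
  -- a bound for the weights
  obtain ⟨D, hD, hwD⟩ : ∃ D : ℕ, 1 ≤ D ∧ ∀ V ∈ ZA ρ, ∀ i, wt ρ p V i ≤ D := by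
    have h1 := ZA_fin hs hfs hiso
    refine ⟨(∑ V ∈ h1.toFinset, ∑ i, wt ρ p V i) + 1, by omega, fun V hV i => ?_⟩
    have h2 : wt ρ p V i ≤ ∑ i, wt ρ p V i :=
      Finset.single_le_sum (f := fun i => wt ρ p V i) (fun _ _ => Nat.zero_le _)
        (Finset.mem_univ i)
    have h3 : ∑ i, wt ρ p V i ≤ ∑ V ∈ h1.toFinset, ∑ i, wt ρ p V i :=
      Finset.single_le_sum (f := fun V => ∑ i, wt ρ p V i) (fun _ _ => Nat.zero_le _)
        (h1.mem_toFinset.2 hV)
    omega
  have hy : ∀ i, ∃ y : F, κ y = e i (s i) := fun i => (hκ _).1 fun g => by rw [hσ, hfs]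
  choose y hy using hy
  have hes : ∀ i, e i (s i) ≠ 0 := fun i h0 =>
    s_ne (hs i) ((map_eq_zero_iff (e i) (e i).toRingHom.injective).1 h0)
  have hy0 : ∀ i, y i ≠ 0 := by
    intro i h0
    have h1 := hy i
    rw [h0, map_zero] at h1
    exact hes i h1.symm
  let h : (ι → Bool) → F := fun c => ∏ i, if c i then y i else 1
  have hh0 : ∀ c, h c ≠ 0 := by
    intro c
    refine Finset.prod_ne_zero_iff.2 fun i _ => ?_
    split_ifs
    · exact hy0 i
    · exact one_ne_zero
  have hquot : ∀ a b, κ (h b / h a) = uu e s a b := by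
    intro a b
    change κ ((∏ i, if b i then y i else 1) / ∏ i, if a i then y i else 1) = _
    rw [← Finset.prod_div_distrib, map_prod]
    unfold uu
    refine Finset.prod_congr rfl fun i _ => ?_
    rw [map_div₀]
    have hsi := s_ne (hs i)
    cases ha : a i <;> cases hb : b i <;> simp [hy, ch, hsi]
  obtain ⟨R, hR⟩ : ∃ R : (ι → Bool) → Subalgebra k (LP F), R = fun c =>
      res κ (RF (FF e (fun i => AA k (s i) (c i)) (ZZ ρ s c) (wt ρ p)) D) := ⟨_, rfl⟩
  have hloc : ∀ c, ∀ V ∈ ZZ ρ s c, LocV (fun i => AA k (s i) (c i)) V := fun c V hV =>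
    locV hs c hV.1.1 hV.2
  have hFc : ∀ c, Filt (BB e (fun i => AA k (s i) (c i)))
      (FF e (fun i => AA k (s i) (c i)) (ZZ ρ s c) (wt ρ p)) := fun c => filt_FF (hloc c)
  have hmemR : ∀ (c : ι → Bool) (x : F), hm 0 x ∈ R c ↔
      κ x ∈ BB e (fun i => AA k (s i) (c i)) := by
    intro c x
    rw [hR, mem_res, Ph_hm]
    exact RF_mem0 (hFc c)
  have hCh : ∀ c, Ch (R c) := by
    intro c
    rw [hR]
    exact ch_chart p κ hs hld hfs σ hσ hκ hiso hcard hD hwD c
  have hinj : Function.Injective (algebraMap k F) := (algebraMap k F).injective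
  obtain ⟨r, T, hT, C, H, hAt, -⟩ := Pool.Agent.N864.GT.atlas_dom k F hinj False ⊥ ⊤ (ι → Bool) R h
    hCh hh0
    (fun a => Subfield.mem_top _) (fun _ _ x _ => Subfield.mem_top x)
    (fun a b => by
      rw [hmemR, hquot]
      exact uu_mem a b)
    (fun a b f hf => by
      rw [hR] at hf
      have hf' : Ph κ f ∈ RF (FF e (fun i => AA k (s i) (b i)) (ZZ ρ s b) (wt ρ p)) D :=
        mem_res.1 hf
      obtain ⟨n, hn⟩ := glue_RF hs p D a b hf'
      refine ⟨n, ?_⟩
      rw [hR, mem_res, map_mul, map_pow, Ph_hm, hquot]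
      exact hn)
    (fun V hV => by
      obtain ⟨W, hW⟩ := ext_val (κ : F →+* L) V
      let c : ι → Bool := fun i => decide (y i ∉ V)
      refine ⟨c, fun x hx => ?_⟩
      rw [hmemR] at hx
      rw [← hW]
      refine BB_val c W (fun z => ?_) (fun i => ?_) hx
      · have h1 := (hW (algebraMap k F z)).2 (hV z)
        have h2 : (κ : F →+* L) (algebraMap k F z) = algebraMap k L z := κ.commutes z
        rwa [h2] at h1
      · by_cases hyV : y i ∈ V
        · have h1 : c i = false := by simp [c, hyV]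
          rw [h1]
          change e i (s i) ∈ W
          rw [← hy]
          exact (hW _).2 hyV
        · have h1 : c i = true := by simp [c, hyV]
          rw [h1]
          change e i (s i)⁻¹ ∈ W
          rw [map_inv₀, ← hy, ← map_inv₀]
          exact (hW _).2 ((V.mem_or_inv_mem _).resolve_left hyV))
    (fun a x _ => by
      obtain ⟨b, hb, b', hb', hb0, hx⟩ := BB_frac hs hgen a (κ x)
      have hst : ∀ g, ∀ z ∈ BB e (fun i => AA k (s i) (a i)),
          σ g z ∈ BB e (fun i => AA k (s i) (a i)) := fun g z hz =>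
        BB_st (σ g) (fun i => ρ i g) (hσ g)
          (fun i z hz => AA_st (ρ i g) (hfs i g) (a i) hz) hz
      have hsplit : ∏ g : G, σ g b' = b' * ∏ g ∈ Finset.univ.erase 1, σ g b' := by
        rw [← Finset.mul_prod_erase Finset.univ _ (Finset.mem_univ (1 : G)), map_one]
        rfl
      have hmem : ∏ g ∈ Finset.univ.erase (1 : G), σ g b' ∈
          BB e (fun i => AA k (s i) (a i)) :=
        Subalgebra.prod_mem _ fun g _ => hst g b' hb'
      have hne : ∏ g : G, σ g b' ≠ 0 :=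
        Finset.prod_ne_zero_iff.2 fun g _ h0 => hb0 ((map_eq_zero _).1 h0)
      have hinv : ∀ g, σ g (∏ g : G, σ g b') = ∏ g : G, σ g b' := by
        intro g
        rw [map_prod]
        refine Fintype.prod_equiv (Equiv.mulLeft g) _ _ fun g' => ?_
        rw [Equiv.coe_mulLeft, map_mul, AlgEquiv.mul_apply]
      obtain ⟨z, hz⟩ := (hκ _).1 hinv
      have hz0 : z ≠ 0 := by
        rintro rfl
        rw [map_zero] at hz
        exact hne hz.symm
      refine ⟨x * z, z, ?_, ?_, hz0, ?_⟩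
      · rw [hmemR, map_mul, hz, hx, hsplit]
        have e1 : b / b' * (b' * ∏ g ∈ Finset.univ.erase (1 : G), σ g b') =
            b * ∏ g ∈ Finset.univ.erase (1 : G), σ g b' := by
          field_simp
        rw [e1]
        exact Subalgebra.mul_mem _ hb hmem
      · rw [hmemR, hz, hsplit]
        exact Subalgebra.mul_mem _ hb' hmem
      · rw [mul_div_cancel_right₀ _ hz0])
    (fun h => absurd h id) (fun h => absurd h id)
  obtain ⟨I, hI, w, J, hmod, -⟩ := Pool.Agent.N864.GT.model_dom k F hinj False ⊥ Submodule.fg_bot ⊤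
    (fun h => absurd h id) r T C H hAt
  have htop : (⊤ : Subfield F) = (algebraMap F F).fieldRange := by
    ext x
    constructor
    · exact fun _ => ⟨x, rfl⟩
    · exact fun _ => Subfield.mem_top _
  rw [htop] at hmod
  obtain ⟨M', h1, h2, h3, h4, -⟩ := Pool.Agent.Y246.G.t_HASM k F F hinj False ⊥ I w J hmod
  exact ⟨M', h1, h2, h3, h4⟩

/-- The regular proper models over the integers. -/
theorem curve_model [Nonempty ι] [Finite G] (p : ℕ) [Fact p.Prime] [CharP k p]
    (htr : ∀ i, Algebra.trdeg k (E i) = 1)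
    (hld : ∀ (S : Finset ι) (i : ι), i ∉ S → (⨆ j ∈ S, (e j).range).LinearDisjoint (e i).range)
    (hgen : ⨆ i, (e i).fieldRange = ⊤)
    (σ : G →* (L ≃ₐ[k] L)) (hσ : ∀ g i x, σ g (e i x) = e i (ρ i g x))
    (hiso : ∀ V : ∀ i, ValuationSubring (E i), (∀ i, Pt k (V i)) → ∀ g ∈ inr ρ V, g ≠ 1 →
      ∀ i, ρ i g ≠ 1)
    (hcard : ∀ V : ∀ i, ValuationSubring (E i), (∀ i, Pt k (V i)) →
      ¬ p ^ 2 ∣ Nat.card (inr ρ V))
    (F : Subfield L) (hF : ∀ x, x ∈ F ↔ ∀ g, σ g x = x) {Y : Type} [Field Y] (i : Y ≃+* F) :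
    ∃ (X' : Scheme.{0}) (_ : IsIntegral X') (g : X' ⟶ Spec (CommRingCat.of ℤ)),
      IsProper g ∧
      (∀ x : X',
        (((Module.finrank (IsLocalRing.ResidueField (X'.presheaf.stalk x))
            (IsLocalRing.CotangentSpace (X'.presheaf.stalk x)) : ℕ∞)) : WithBot ℕ∞)
          = ringKrullDim (X'.presheaf.stalk x)) ∧
      Nonempty (X'.functionField ≃+* Y) := by
  let r : k →+* F := (algebraMap k L).codRestrict F fun o => (hF _).2 fun g => (σ g).commutes o
  let _ : Algebra k F := r.toAlgebra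
  have hst : IsScalarTower k F L := IsScalarTower.of_algebraMap_eq fun o => rfl
  have hM : HasModule k F := by
    refine curve_hasModule p htr hld hgen σ hσ ?_ hiso hcard
    intro x
    constructor
    · intro hx
      exact ⟨⟨x, (hF x).2 hx⟩, rfl⟩
    · rintro ⟨f, rfl⟩
      exact (hF _).1 f.2
  have hfin : Module.Finite ℤ k := inferInstance
  obtain ⟨X', hX', g, hg, hreg', ⟨i'⟩⟩ := model_of_hasModule (algebraMap k F).injective hM
  exact ⟨X', hX', g, hg, hreg', ⟨i'.trans i.symm⟩⟩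

end prod

end Run7.h802.Cv
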