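import Pool.Agent.Run7.h802.Cv1
import Pool.Agent.H639R3.Places

/-!
# Points of a Dedekind chart of a curve
-/

set_option autoImplicit false
set_option linter.unusedVariables false
set_option linter.unusedSectionVars false

namespace Run7.h802.Cv

open IsDedekindDomain Pool.Agent.H639R3 WithZero

section ded

variable {E A : Type} [Field E] [CommRing A] [IsDedekindDomain A] [Algebra A E]
  [IsFractionRing A E]

/-- The valuation ring is the one of a maximal ideal. -/
theorem eq_val (V : ValuationSubring E) (h : ∀ a : A, algebraMap A E a ∈ V) (hV : V ≠ ⊤) :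
    ∃ v : HeightOneSpectrum A, v.asIdeal = cent V h ∧ V = (v.valuation E).valuationSubring := by
  let v : HeightOneSpectrum A := ⟨cent V h, cent_isPrime V h, cent_ne_bot V h hV⟩
  refine ⟨v, rfl, ?_⟩
  have h' : ∀ a : A, algebraMap A E a ∈ (v.valuation E).valuationSubring := fun a =>
    v.valuation_le_one a
  have hcent : cent (v.valuation E).valuationSubring h' = v.asIdeal := by
    ext a
    rw [mem_cent, ← v.valuation_lt_one_iff_mem (K := E) a]
    exact (Valuation.isEquiv_iff_val_lt_one.mp
      (Valuation.isEquiv_valuation_valuationSubring (v.valuation E))).symm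
  refine eq_of_cent_eq V _ h h' hV ?_ (by rw [hcent])
  intro htop
  obtain ⟨a, ha, ha0⟩ := Submodule.exists_mem_ne_zero_of_ne_bot v.ne_bot
  have h1 : (algebraMap A E a)⁻¹ ∈ (v.valuation E).valuationSubring := by rw [htop]; trivial
  have h2 : v.valuation E (algebraMap A E a)⁻¹ ≤ 1 := h1
  have h3 : v.valuation E (algebraMap A E a) < 1 := (v.valuation_lt_one_iff_mem a).mpr ha
  rw [map_inv₀] at h2
  have h4 : v.valuation E (algebraMap A E a) ≠ 0 := by
    rw [Ne, map_eq_zero]
    intro h5
    exact ha0 (IsFractionRing.injective A E (by rw [h5, map_zero]))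
  have h5 := (inv_le_one₀ (zero_lt_iff.mpr h4)).mp h2
  exact absurd h3 (not_lt.mpr h5)

/-- Uniformizers exist, and the powers of the maximal ideal have zero intersection. -/
theorem exists_uf (V : ValuationSubring E) (h : ∀ a : A, algebraMap A E a ∈ V) (hV : V ≠ ⊤) :
    ∃ t : A, IsUf V (algebraMap A E t) ∧
      (∀ x, (∀ a : ℕ, V.valuation x ≤ V.valuation (algebraMap A E t) ^ a) → x = 0) ∧
      t ∈ cent V h ∧ t ∉ cent V h ^ 2 := by
  obtain ⟨v, hv, rfl⟩ := eq_val V h hV
  obtain ⟨t, ht⟩ := v.intValuation_exists_uniformizer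
  have hiso := Valuation.isEquiv_valuation_valuationSubring (v.valuation E)
  have hle : ∀ x y : E, (v.valuation E).valuationSubring.valuation x ≤
      (v.valuation E).valuationSubring.valuation y ↔ v.valuation E x ≤ v.valuation E y :=
    fun x y => (hiso x y).symm
  have hlt : ∀ x y : E, (v.valuation E).valuationSubring.valuation x <
      (v.valuation E).valuationSubring.valuation y ↔ v.valuation E x < v.valuation E y :=
    fun x y => by rw [← not_le, ← not_le, hle]
  have hlt1 : ∀ x : E, (v.valuation E).valuationSubring.valuation x < 1 ↔ v.valuation E x < 1 := by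
    intro x
    have := hlt x 1
    rwa [map_one, map_one] at this
  have htE : v.valuation E (algebraMap A E t) = exp (-1 : ℤ) := by
    rw [v.valuation_of_algebraMap, ht]
  have ht0 : algebraMap A E t ≠ 0 := by
    intro h0
    rw [h0, map_zero] at htE
    exact exp_ne_zero htE.symm
  have hpow : ∀ a : ℕ, v.valuation E (algebraMap A E t) ^ a = exp (-(a : ℤ)) := by
    intro a
    rw [htE, ← exp_nsmul]
    congr 1
    simp
  refine ⟨t, ⟨ht0, ?_, ?_⟩, ?_, ?_, ?_⟩
  · rw [hlt1, htE, ← exp_zero, exp_lt_exp]
    norm_num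
  · intro x hx
    rw [hlt1] at hx
    rw [hle, htE]
    rcases eq_or_ne (v.valuation E x) 0 with h0 | h0
    · rw [h0]; exact zero_le'
    · rw [← exp_log h0] at hx ⊢
      rw [← exp_zero, exp_lt_exp] at hx
      rw [exp_le_exp]
      omega
  · intro x hx
    by_contra hne
    have h0 : v.valuation E x ≠ 0 := (map_ne_zero _).2 hne
    have h1 := hx ((-log (v.valuation E x)).toNat + 1)
    rw [← map_pow, hle, map_pow, hpow, ← exp_log h0, exp_le_exp] at h1
    push_cast at h1
    simp only [log_exp] at h1
    have := Int.self_le_toNat (-log (v.valuation E x))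
    omega
  · rw [← hv, ← v.intValuation_lt_one_iff_mem, ht, ← exp_zero, exp_lt_exp]
    norm_num
  · rw [← hv, ← v.intValuation_le_pow_iff_mem, ht, exp_le_exp]
    norm_num

/-- The residue field of a point is finite. -/
theorem exists_frob (k : Type) [Field k] [Finite k] [Algebra k A] [Algebra.FiniteType k A]
    (p : ℕ) [Fact p.Prime] [CharP k p]
    (V : ValuationSubring E) (h : ∀ a : A, algebraMap A E a ∈ V) (hV : V ≠ ⊤) :
    ∃ r : ℕ, 0 < r ∧ ∀ x ∈ V, V.valuation (x ^ p ^ r - x) < 1 := by
  let _ : Algebra k (IsLocalRing.ResidueField V) :=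
    (((IsLocalRing.residue V).comp ((algebraMap A E).codRestrict V.toSubring h)).comp
      (algebraMap k A)).toAlgebra
  let φ : A →ₐ[k] IsLocalRing.ResidueField V :=
    { (IsLocalRing.residue V).comp ((algebraMap A E).codRestrict V.toSubring h) with
      commutes' := fun r => rfl }
  have hφ : Function.Surjective φ := residue_surjective V h hV
  have hft : Algebra.FiniteType k (IsLocalRing.ResidueField V) :=
    Algebra.FiniteType.of_surjective φ hφ
  have hfin : Module.Finite k (IsLocalRing.ResidueField V) :=
    finite_of_finite_type_of_isJacobsonRing k (IsLocalRing.ResidueField V)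
  have hf : Finite (IsLocalRing.ResidueField V) := Module.finite_of_finite k
  have : Fintype (IsLocalRing.ResidueField V) := Fintype.ofFinite _
  have hchar : CharP (IsLocalRing.ResidueField V) p :=
    charP_of_injective_algebraMap (algebraMap k (IsLocalRing.ResidueField V)).injective p
  obtain ⟨n, -, hn⟩ := FiniteField.card (IsLocalRing.ResidueField V) p
  refine ⟨n, n.2, ?_⟩
  intro x hx
  have h1 : IsLocalRing.residue V (⟨x, hx⟩ ^ p ^ (n : ℕ) - ⟨x, hx⟩) = 0 := by
    rw [map_sub, map_pow, ← hn, FiniteField.pow_card, sub_self]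
  rw [IsLocalRing.residue_eq_zero_iff, V.valuation_lt_one_iff] at h1
  exact h1

/-- Denominators. -/
theorem exists_den (V : ValuationSubring E) (h : ∀ a : A, algebraMap A E a ∈ V) (hV : V ≠ ⊤)
    {z : E} (hz : z ∈ V) : ∃ a b : A, V.valuation (algebraMap A E b) = 1 ∧
      z * algebraMap A E b = algebraMap A E a := by
  obtain ⟨a, b, hb, hab⟩ := (mem_iff_of_cent V h hV z).1 hz
  exact ⟨a, b, val_eq_one V h b hb, hab⟩

/-- Finiteness of the set of points at which an element vanishes. -/
theorem finite_zeros (f : A) (hf : f ≠ 0) :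
    {V : ValuationSubring E | V ≠ ⊤ ∧ (∀ a : A, algebraMap A E a ∈ V) ∧
      V.valuation (algebraMap A E f) < 1}.Finite := by
  classical
  have hI : Ideal.span {f} ≠ (0 : Ideal A) := by
    rw [Ne, Ideal.zero_eq_bot, Ideal.span_singleton_eq_bot]; exact hf
  have hfac := Ideal.finite_factors hI
  refine (hfac.image fun v : HeightOneSpectrum A => (v.valuation E).valuationSubring).subset ?_
  rintro V ⟨hV, h, hfV⟩
  obtain ⟨v, hv, hVv⟩ := eq_val V h hV
  refine ⟨v, ?_, hVv.symm⟩
  rw [Set.mem_ofPred_eq, Ideal.dvd_span_singleton, hv, mem_cent]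
  exact hfV

end ded

end Run7.h802.Cv
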