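import Pool.Agent.Run7.h802.Cv2
import Pool.Agent.H920R2.Cw5

/-!
# Curves with the action of a finite group
-/

set_option autoImplicit false
set_option linter.unusedVariables false
set_option linter.unusedSectionVars false

namespace Run7.h802.Cv

open Pool.Agent.H920R2 Pool.Agent.H639R3 IntermediateField

section fix

variable {k E : Type} [Field k] [Field E] [Algebra k E] {G : Type} [Group G] [Finite G]

/-- The field of invariants. -/
def fixG (ρ : G →* (E ≃ₐ[k] E)) : IntermediateField k E where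
  carrier := {x | ∀ g, ρ g x = x}
  mul_mem' {a b} ha hb g := by rw [map_mul, ha g, hb g]
  one_mem' g := map_one _
  add_mem' {a b} ha hb g := by rw [map_add, ha g, hb g]
  zero_mem' g := map_zero _
  algebraMap_mem' c g := (ρ g).commutes c
  inv_mem' a ha g := by rw [map_inv₀, ha g]

lemma mem_fixG (ρ : G →* (E ≃ₐ[k] E)) (x : E) : x ∈ fixG ρ ↔ ∀ g, ρ g x = x := Iff.rfl

lemma isSeparable_fixG (ρ : G →* (E ≃ₐ[k] E)) : Algebra.IsSeparable (fixG ρ) E := by
  have hfin : Finite ρ.range := Finite.of_surjective _ ρ.rangeRestrict_surjective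
  have heq : (fixG ρ).toSubfield = FixedPoints.subfield ρ.range E := by
    ext x
    constructor
    · rintro hx ⟨_, g, rfl⟩
      exact hx g
    · intro hx g
      exact hx ⟨ρ g, g, rfl⟩
  have h3 : Algebra.IsSeparable (fixG ρ).toSubfield E := by
    rw [heq]
    infer_instance
  exact h3

/-- An invariant separating element. -/
theorem exists_coord [PerfectField k] [Algebra.EssFiniteType k E]
    (htr : Algebra.trdeg k E = 1) (ρ : G →* (E ≃ₐ[k] E)) : ∃ x, SepEl k x ∧ ∀ g, ρ g x = x := by
  have hsep := isSeparable_fixG ρ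
  have halg : Algebra.IsAlgebraic (fixG ρ) E := Algebra.IsSeparable.isAlgebraic _ _
  have hess := essFiniteType_sub (fixG ρ)
  obtain ⟨s, hs, hs2⟩ := exists_isTranscendenceBasis_and_isSeparable_of_perfectField k (fixG ρ)
  have hs3 := hs.algebraMap_comp (A := E)
  have hcard := hs3.cardinalMk_eq_trdeg
  rw [htr] at hcard
  have hc1 : Fintype.card s = 1 := by
    rw [Cardinal.mk_fintype] at hcard
    exact_mod_cast hcard
  rw [Fintype.card_coe, Finset.card_eq_one] at hc1
  obtain ⟨x, rfl⟩ := hc1
  refine ⟨x, ⟨?_, ?_⟩, x.2⟩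
  · have h1 := hs3.1.transcendental ⟨x, Finset.mem_singleton_self x⟩
    exact h1
  · let F : IntermediateField k (fixG ρ) := adjoin k (({x} : Finset (fixG ρ)) : Set (fixG ρ))
    have h1 : Algebra.IsSeparable F (fixG ρ) := hs2
    have h2 : Algebra.IsSeparable F E := Algebra.IsSeparable.trans F (fixG ρ) E
    have hle : ∀ c : F, algebraMap F E c ∈ k⟮(x : E)⟯ := by
      rintro ⟨c, hc⟩
      change (c : E) ∈ k⟮(x : E)⟯
      have h3 : F ≤ (k⟮(x : E)⟯).comap (fixG ρ).val := by
        rw [adjoin_le_iff]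
        intro y hy
        rw [Finset.coe_singleton, Set.mem_singleton_iff] at hy
        rw [hy]
        exact mem_adjoin_simple_self k (x : E)
      exact h3 hc
    let _ : Algebra F k⟮(x : E)⟯ :=
      ((algebraMap F E).codRestrict (k⟮(x : E)⟯).toSubfield hle).toAlgebra
    have _ : IsScalarTower F k⟮(x : E)⟯ E := IsScalarTower.of_algebraMap_eq fun _ => rfl
    exact Algebra.isSeparable_tower_top_of_isSeparable F k⟮(x : E)⟯ E

end fix

/-- The coordinate of a chart. -/
def ch {E : Type} [Field E] (s : E) (c : Bool) : E := if c then s⁻¹ else s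

section charts

variable {k E : Type} [Field k] [Field E] [Algebra k E] [Algebra.EssFiniteType k E] {s : E}
  (hs : SepEl k s)

include hs in
lemma ch_sep (c : Bool) : SepEl k (ch s c) := by
  cases c
  · exact hs
  · exact hs.inv

include hs in
lemma s_ne : s ≠ 0 := fun h => hs.1 (by rw [h]; exact isAlgebraic_zero)

lemma ch_fix (g : E ≃ₐ[k] E) (hg : g s = s) (c : Bool) : g (ch s c) = ch s c := by
  cases c
  · exact hg
  · change g s⁻¹ = s⁻¹
    rw [map_inv₀, hg]

/-- The coordinate ring of a chart. -/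
noncomputable def AA (k : Type) {E : Type} [Field k] [Field E] [Algebra k E] (s : E) (c : Bool) :
    Subalgebra k E := CC k (ch s c)

include hs in
lemma AA_ded (c : Bool) : IsDedekindDomain (AA k s c) := by
  have := (ch_sep hs c).finite
  have := (ch_sep hs c).2
  exact (CC_dedekind k (ch s c)).1

include hs in
lemma AA_frac (c : Bool) : IsFractionRing (AA k s c) E := by
  have := (ch_sep hs c).finite
  have := (ch_sep hs c).2
  exact (CC_dedekind k (ch s c)).2.2

include hs in
lemma AA_ft (c : Bool) : Algebra.FiniteType k (AA k s c) := by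
  have := (ch_sep hs c).finite
  have := (ch_sep hs c).2
  exact CC_finiteType k (ch s c)

include hs in
lemma AA_nf (c : Bool) : ¬ IsField (AA k s c) := by
  have := (ch_sep hs c).finite
  have := (ch_sep hs c).2
  exact CC_notField k (ch s c) (ch_sep hs c).1

lemma AA_st (g : E ≃ₐ[k] E) (hg : g s = s) (c : Bool) {z : E} (hz : z ∈ AA k s c) :
    g z ∈ AA k s c := CC_sigma k (ch s c) g (ch_fix g hg c) z hz

lemma AA_val (V : ValuationSubring E) (hV : ∀ c : k, algebraMap k E c ∈ V) (c : Bool)
    (hc : ch s c ∈ V) {z : E} (hz : z ∈ AA k s c) : z ∈ V := CC_le_val k (ch s c) V hV hc z hz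

lemma ch_mem (c : Bool) : ch s c ∈ AA k s c := u_mem_CC k (ch s c)

include hs in
lemma AA_den (c : Bool) {z : E} (hz : z ∈ AA k s (!c)) : ∃ n : ℕ, ch s c ^ n * z ∈ AA k s c := by
  have h1 : (ch s (!c))⁻¹ = ch s c := by
    cases c
    · change s⁻¹⁻¹ = s
      rw [inv_inv]
    · rfl
  have h2 : ch s (!c) ≠ 0 := by
    cases c
    · exact inv_ne_zero (s_ne hs)
    · exact s_ne hs
  obtain ⟨n, hn⟩ := CC_denom k (ch s (!c)) h2 z hz
  rw [h1] at hn
  exact ⟨n, hn⟩

lemma mem_or (V : ValuationSubring E) (s : E) : ∃ c, ch s c ∈ V := by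
  rcases V.mem_or_inv_mem s with h | h
  · exact ⟨false, h⟩
  · exact ⟨true, h⟩

/-- A point of the curve. -/
structure Pt (k : Type) {E : Type} [Field k] [Field E] [Algebra k E] (V : ValuationSubring E) :
    Prop where
  const : ∀ c : k, algebraMap k E c ∈ V
  ne : V ≠ ⊤

/-- The local properties of the points of a curve. -/
structure PtL (p : ℕ) {E : Type} [Field E] (V : ValuationSubring E) (t : E) : Prop where
  uf : IsUf V t
  arch : ∀ x, (∀ a : ℕ, V.valuation x ≤ V.valuation t ^ a) → x = 0
  frob : ∃ r : ℕ, 0 < r ∧ ∀ x ∈ V, V.valuation (x ^ p ^ r - x) < 1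

include hs in
theorem exists_t [Finite k] (p : ℕ) [Fact p.Prime] [CharP k p] (V : ValuationSubring E)
    (hV : Pt k V) : ∃ t, PtL p V t := by
  obtain ⟨c, hc⟩ := mem_or V s
  have := AA_ded hs c
  have := AA_frac hs c
  have := AA_ft hs c
  have h : ∀ a : AA k s c, algebraMap (AA k s c) E a ∈ V := fun a =>
    AA_val V hV.const c hc a.2
  obtain ⟨t, h1, h2, -, -⟩ := exists_uf V h hV.ne
  exact ⟨algebraMap (AA k s c) E t, h1, h2, exists_frob k p V h hV.ne⟩

include hs in
theorem finite_inert (g : E ≃ₐ[k] E) (hgs : g s = s) (hne : ∃ x, g x ≠ x) :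
    {V : ValuationSubring E | Pt k V ∧ ∀ x ∈ V, V.valuation (g x - x) < 1}.Finite := by
  have key : ∀ c, {V : ValuationSubring E | (Pt k V ∧ ∀ x ∈ V, V.valuation (g x - x) < 1) ∧
      ch s c ∈ V}.Finite := by
    intro c
    have := AA_ded hs c
    have := AA_frac hs c
    obtain ⟨f, hf⟩ : ∃ f : AA k s c, g f ≠ f := by
      by_contra hcon
      push Not at hcon
      obtain ⟨x, hx⟩ := hne
      obtain ⟨a, b, hb, rfl⟩ := IsFractionRing.div_surjective (A := AA k s c) x
      apply hx
      rw [map_div₀]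
      have h1 : ∀ a : AA k s c, g (algebraMap (AA k s c) E a) = algebraMap (AA k s c) E a :=
        fun a => hcon a
      rw [h1, h1]
    let f' : AA k s c := ⟨g f - f, (AA k s c).sub_mem (AA_st g hgs c f.2) f.2⟩
    have hf' : f' ≠ 0 := fun h => hf (sub_eq_zero.1 (congrArg Subtype.val h))
    refine (finite_zeros (E := E) f' hf').subset ?_
    rintro V ⟨⟨hV, hgV⟩, hc⟩
    have h : ∀ a : AA k s c, algebraMap (AA k s c) E a ∈ V := fun a =>
      AA_val V hV.const c hc a.2
    exact ⟨hV.ne, h, hgV f (h f)⟩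
  refine ((key false).union (key true)).subset ?_
  intro V hV
  rcases V.mem_or_inv_mem s with h | h
  · exact Or.inl ⟨hV, h⟩
  · exact Or.inr ⟨hV, h⟩

end charts

end Run7.h802.Cv
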