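import Pool.Agent.Run7.h802.Cv3
import Pool.Agent.Y223.G.AllE

/-!
# Étale coordinates at the points of a curve, and regular parameters of a product
-/

set_option autoImplicit false
set_option linter.unusedVariables false
set_option linter.unusedSectionVars false

namespace Run7.h802.Cv

open IsLocalRing KaehlerDifferential Algebra Pool.Agent.Y223.G Pool.Agent.W418.LU2
open Pool.Agent.Y215.G (exists_der ind_of_equiv der_sq)

section etale

variable {k A : Type} [Field k] [Finite k] [CommRing A] [IsDomain A] [Algebra k A]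
  [Algebra.FiniteType k A]

/-- An element of a prime ideal of a domain, not zero, is transcendental over the field. -/
lemma transc {𝔭 : Ideal A} (hp : 𝔭 ≠ ⊤) {t : A} (ht : t ∈ 𝔭) (ht0 : t ≠ 0) :
    Transcendental k t := by
  intro halg
  have hu : IsUnit t := by
    obtain ⟨f, hf0, hf⟩ := halg
    -- divide by the powers of `X`
    obtain ⟨g, hg0, hg⟩ : ∃ g : Polynomial k, g.coeff 0 ≠ 0 ∧ Polynomial.aeval t g = 0 := by
      obtain ⟨n, g, hn, h1⟩ : ∃ (n : ℕ) (g : Polynomial k), g.coeff 0 ≠ 0 ∧
          f = Polynomial.X ^ n * g := by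
        obtain ⟨g, hg, hg'⟩ := Polynomial.exists_eq_pow_rootMultiplicity_mul_and_not_dvd f hf0 0
        rw [map_zero, sub_zero] at hg hg'
        refine ⟨_, g, ?_, hg⟩
        rw [Polynomial.X_dvd_iff] at hg'
        exact hg'
      refine ⟨g, hn, ?_⟩
      rw [h1, map_mul, map_pow, Polynomial.aeval_X] at hf
      rcases mul_eq_zero.1 hf with h | h
      · exact absurd (eq_zero_of_pow_eq_zero h) ht0
      · exact h
    have h2 : Polynomial.aeval t g = t * Polynomial.aeval t g.divX +
        algebraMap k A (g.coeff 0) := by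
      conv_lhs => rw [← Polynomial.divX_mul_X_add g]
      rw [map_add, map_mul, Polynomial.aeval_X, Polynomial.aeval_C, mul_comm]
    have h3 : IsUnit (algebraMap k A (g.coeff 0)) := (isUnit_iff_ne_zero.2 hg0).map _
    rw [hg] at h2
    have h4 : t * (-Polynomial.aeval t g.divX) = algebraMap k A (g.coeff 0) := by
      linear_combination h2
    exact isUnit_of_mul_isUnit_left (h4 ▸ h3)
  exact hp (Ideal.eq_top_of_isUnit_mem _ ht hu)

/-- The differentials of the local ring over `k[t]` are zero. -/
lemma unram (p : ℕ) [Fact p.Prime] [CharP k p] (𝔭 : Ideal A) [h𝔭 : 𝔭.IsMaximal] {t : A}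
    (ht : t ∈ 𝔭) (hgen : ∀ b ∈ 𝔭, ∃ f, f ∉ 𝔭 ∧ ∃ a, f * b = t * a) {R : Type} [CommRing R]
    [Algebra k R] [Algebra R A] [IsScalarTower k R A] [Algebra.FiniteType k R] {x : R}
    (hx : algebraMap R A x = t) : FormallyUnramified R (Localization.AtPrime 𝔭) := by
  set B := Localization.AtPrime 𝔭 with hB
  have hft : Algebra.FiniteType R A := Algebra.FiniteType.of_restrictScalars_finiteType k R A
  have hess : EssFiniteType A B := inferInstance
  have hess2 : EssFiniteType R B := EssFiniteType.comp R A B
  have hfin : Module.Finite B Ω[B⁄R] := inferInstance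
  -- the residue field is finite
  have hfq : Finite (A ⧸ 𝔭) := by
    let _ : Field (A ⧸ 𝔭) := Ideal.Quotient.field 𝔭
    have h1 : Module.Finite k (A ⧸ 𝔭) := finite_of_finite_type_of_isJacobsonRing k (A ⧸ 𝔭)
    exact Module.finite_of_finite k
  have hfr : Finite (ResidueField B) :=
    Finite.of_equiv _ (IsLocalization.AtPrime.equivQuotMaximalIdeal 𝔭 B).toEquiv
  have _ : Fintype (ResidueField B) := Fintype.ofFinite _
  have hcB : CharP B p := by
    have : Nontrivial B := inferInstance
    exact charP_of_injective_algebraMap (algebraMap k B).injective p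
  have hcr : CharP (ResidueField B) p :=
    charP_of_injective_algebraMap ((residue B).comp (algebraMap k B)).injective p
  obtain ⟨n, -, hn⟩ := FiniteField.card (ResidueField B) p
  -- the maximal ideal
  have hmax : ∀ z ∈ maximalIdeal B, ∃ y, z = algebraMap A B t * y := by
    intro z hz
    obtain ⟨b, s, rfl⟩ := IsLocalization.exists_mk'_eq 𝔭.primeCompl z
    have hb : b ∈ 𝔭 := by
      rw [← IsLocalization.AtPrime.to_map_mem_maximal_iff B 𝔭]
      have h1 : algebraMap A B b = IsLocalization.mk' B b s * algebraMap A B s := by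
        rw [IsLocalization.mk'_spec]
      rw [h1]
      exact Ideal.mul_mem_right _ _ hz
    obtain ⟨f, hf, a, hfa⟩ := hgen b hb
    refine ⟨IsLocalization.mk' B a (⟨f, hf⟩ * s), ?_⟩
    rw [← IsLocalization.mk'_one (M := 𝔭.primeCompl) B t, ← IsLocalization.mk'_mul, one_mul,
      IsLocalization.mk'_eq_iff_eq]
    congr 1
    change (f * (s : A)) * b = (s : A) * (t * a)
    rw [← hfa]
    ring
  have hD : ∀ z : B, D R B z ∈ (maximalIdeal B) • (⊤ : Submodule B Ω[B⁄R]) := by
    intro z
    have h1 : z ^ p ^ (n : ℕ) - z ∈ maximalIdeal B := by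
      rw [← residue_eq_zero_iff, map_sub, map_pow, ← hn, FiniteField.pow_card, sub_self]
    obtain ⟨y, hy⟩ := hmax _ h1
    have h2 : D R B (z ^ p ^ (n : ℕ)) = 0 := by
      rw [Derivation.leibniz_pow, ← smul_assoc]
      have h3 : (p ^ (n : ℕ)) • z ^ (p ^ (n : ℕ) - 1) = (0 : B) := by
        rw [nsmul_eq_mul, Nat.cast_pow, CharP.cast_eq_zero, zero_pow n.ne_zero, zero_mul]
      rw [h3, zero_smul]
    have h4 : D R B (algebraMap A B t * y) = algebraMap A B t • D R B y := by
      rw [Derivation.leibniz, ← hx, ← IsScalarTower.algebraMap_apply R A B,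
        Derivation.map_algebraMap, smul_zero, add_zero]
    have h5 : D R B z = -(algebraMap A B t • D R B y) := by
      rw [← h4, ← hy, map_sub, h2, zero_sub, neg_neg]
    rw [h5]
    refine Submodule.neg_mem _ (Submodule.smul_mem_smul ?_ Submodule.mem_top)
    exact (IsLocalization.AtPrime.to_map_mem_maximal_iff B 𝔭 t).2 ht
  have htop : (⊤ : Submodule B Ω[B⁄R]) ≤ (maximalIdeal B) • (⊤ : Submodule B Ω[B⁄R]) := by
    rw [← span_range_derivation R B, Submodule.span_le]
    rintro _ ⟨z, rfl⟩
    rw [span_range_derivation]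
    exact hD z
  have hbot := Submodule.eq_bot_of_le_smul_of_le_jacobson_bot (maximalIdeal B) ⊤
    (Module.Finite.fg_top) htop (IsLocalRing.maximalIdeal_le_jacobson ⊥)
  have hsub : Subsingleton Ω[B⁄R] := by
    rw [← Submodule.subsingleton_iff B]
    exact subsingleton_of_bot_eq_top hbot.symm
  exact ⟨hsub⟩

end etale

section etAt

variable {k L : Type} [Field k] [Finite k] [Field L] [Algebra k L]

/-- A uniformizer of a curve is an étale coordinate. -/
theorem etAt_unif (p : ℕ) [Fact p.Prime] [CharP k p] (A : Subalgebra k L)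
    (hft : Algebra.FiniteType k A) (𝔭 : Ideal A) [h𝔭 : 𝔭.IsMaximal] {t : A} (ht : t ∈ 𝔭)
    (ht0 : t ≠ 0) (hgen : ∀ b ∈ 𝔭, ∃ f, f ∉ 𝔭 ∧ ∃ a, f * b = t * a) :
    EtAt A 𝔭 (fun _ : Unit => t) := by
  let φ : MvPolynomial Unit k →ₐ[k] A := MvPolynomial.aeval fun _ : Unit => t
  let _ : Algebra (MvPolynomial Unit k) A := φ.toRingHom.toAlgebra
  have htow : IsScalarTower k (MvPolynomial Unit k) A :=
    IsScalarTower.of_algebraMap_eq' (φ.comp_algebraMap.symm)
  have hpir : IsPrincipalIdealRing (MvPolynomial Unit k) :=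
    IsPrincipalIdealRing.of_surjective
      ((MvPolynomial.uniqueAlgEquiv k Unit).symm : Polynomial k ≃+* MvPolynomial Unit k).toRingHom
      (MvPolynomial.uniqueAlgEquiv k Unit).symm.surjective
  have hinj : Function.Injective (algebraMap (MvPolynomial Unit k) A) := by
    have h1 := transc (k := k) h𝔭.ne_top ht ht0
    exact (algebraicIndependent_unique_type_iff (x := fun _ : Unit => t)).2 h1
  have htf : Module.IsTorsionFree (MvPolynomial Unit k) A := by
    rw [Module.isTorsionFree_iff_smul_eq_zero]
    intro r a hra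
    rw [Algebra.smul_def, mul_eq_zero] at hra
    rcases hra with h | h
    · left
      exact hinj (by rw [h, map_zero])
    · exact Or.inr h
  have hflat : Module.Flat (MvPolynomial Unit k) A := inferInstance
  have hft' : Algebra.FiniteType (MvPolynomial Unit k) A :=
    Algebra.FiniteType.of_restrictScalars_finiteType k (MvPolynomial Unit k) A
  have hfp : Algebra.FinitePresentation (MvPolynomial Unit k) A :=
    Algebra.FinitePresentation.of_finiteType.1 hft'
  have hun : IsUnramifiedAt (MvPolynomial Unit k) 𝔭 :=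
    unram (k := k) (R := MvPolynomial Unit k) p 𝔭 ht hgen (x := MvPolynomial.X ())
      (MvPolynomial.aeval_X _ _)
  have het : IsEtaleAt (MvPolynomial Unit k) 𝔭 := IsEtaleAt.of_isUnramifiedAt_of_flat 𝔭
  obtain ⟨g, hg, hE⟩ := exists_etale_of_isEtaleAt (R := MvPolynomial Unit k) 𝔭
  refine ⟨g, hg, ?_⟩
  have h2 : (algebraMap (MvPolynomial Unit k) (Localization.Away g)).Etale :=
    RingHom.etale_algebraMap.2 hE
  rw [IsScalarTower.algebraMap_eq (MvPolynomial Unit k) A (Localization.Away g)] at h2
  exact h2

end etAt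

section ind

theorem ind_core' {k T : Type} [Field k] [CommRing T] [Algebra k T]
    {ι : Type} [Fintype ι] (v : ι → T)
    (hE : (MvPolynomial.aeval v : MvPolynomial ι k →ₐ[k] T).toRingHom.Etale) (Q : Ideal T)
    [Q.IsPrime] (hv : ∀ i, v i ∈ Q) :
    Ind (fun i : ι => algebraMap T (Localization.AtPrime Q) (v i)) := by
  classical
  let φ : MvPolynomial ι k →ₐ[k] T := MvPolynomial.aeval v
  let _ : Algebra (MvPolynomial ι k) T := φ.toRingHom.toAlgebra
  have htow : IsScalarTower k (MvPolynomial ι k) T :=
    IsScalarTower.of_algebraMap_eq' (φ.comp_algebraMap.symm)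
  have hE' : Algebra.Etale (MvPolynomial ι k) T := hE
  set B := Localization.AtPrime Q with hB
  have htow2 : IsScalarTower k (MvPolynomial ι k) B := by
    refine IsScalarTower.of_algebraMap_eq fun o => ?_
    rw [IsScalarTower.algebraMap_apply k T B, IsScalarTower.algebraMap_apply (MvPolynomial ι k) T B,
      ← IsScalarTower.algebraMap_apply k (MvPolynomial ι k) T]
  have hfe : FormallyEtale (MvPolynomial ι k) B := by
    have h1 : FormallyEtale T B := FormallyEtale.of_isLocalization Q.primeCompl
    exact FormallyEtale.comp (MvPolynomial ι k) T B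
  choose D hD using fun i : ι => exists_der (O := k) (B := B) i
  have hX : ∀ j, algebraMap (MvPolynomial ι k) B (MvPolynomial.X j) = algebraMap T B (v j) := by
    intro j
    rw [IsScalarTower.algebraMap_apply (MvPolynomial ι k) T B]
    congr 1
    exact MvPolynomial.aeval_X v j
  simp only [hX] at hD
  have hmem : ∀ t, t ∈ Q → algebraMap T B t ∈ maximalIdeal B := by
    intro t ht
    exact (IsLocalization.AtPrime.to_map_mem_maximal_iff B Q t).2 ht
  refine ⟨fun i => hmem _ (hv i), ?_⟩
  intro c hc i
  have h1 := der_sq (D i) _ hc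
  rw [map_sum] at h1
  have h2 : ∀ j, D i (c j * algebraMap T B (v j)) =
      (if j = i then c j else 0) + algebraMap T B (v j) * D i (c j) := by
    intro j
    rw [Derivation.leibniz, hD]
    by_cases h3 : j = i
    · rw [if_pos h3, if_pos h3, smul_eq_mul, mul_one, smul_eq_mul]
    · rw [if_neg h3, if_neg h3, smul_zero, smul_eq_mul]
  rw [Finset.sum_congr rfl fun j _ => h2 j, Finset.sum_add_distrib,
    Finset.sum_ite_eq' Finset.univ i, if_pos (Finset.mem_univ i)] at h1
  have h6 : ∑ j, algebraMap T B (v j) * D i (c j) ∈ maximalIdeal B :=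
    Ideal.sum_mem _ fun j _ => (maximalIdeal B).mul_mem_right _ (hmem _ (hv j))
  have h7 : c i = (c i + ∑ j, algebraMap T B (v j) * D i (c j)) -
      ∑ j, algebraMap T B (v j) * D i (c j) := by ring
  rw [h7]
  exact (maximalIdeal B).sub_mem h1 h6

/-- Étale coordinates which vanish at a point are regular parameters. -/
theorem ind_of_etAt {k L : Type} [Field k] [Field L] [Algebra k L] (C : Subalgebra k L)
    (Q : Ideal C) [Q.IsPrime] {ι : Type} [Fintype ι] (v : ι → C) (hE : EtAt C Q v)
    (hv : ∀ i, v i ∈ Q) : Ind (fun i : ι => algebraMap C (Localization.AtPrime Q) (v i)) := by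
  obtain ⟨g, hg, hE⟩ := hE
  set T := Localization.Away g with hT
  have hdisj : Disjoint (Submonoid.powers g : Set C) (Q : Set C) := by
    rwa [Ideal.disjoint_powers_iff_notMem_of_isPrime]
  have hpp : (Q.map (algebraMap C T)).IsPrime :=
    IsLocalization.isPrime_of_isPrime_disjoint (.powers g) _ _ ‹_› hdisj
  have hcomap : (Q.map (algebraMap C T)).comap (algebraMap C T) = Q :=
    IsLocalization.under_map_of_isPrime_disjoint (.powers g) T ‹_› hdisj
  have hcomp : (MvPolynomial.aeval (fun j : ι => algebraMap C T (v j)) :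
      MvPolynomial ι k →ₐ[k] T).toRingHom = (algebraMap C T).comp
      (MvPolynomial.aeval v : MvPolynomial ι k →ₐ[k] C).toRingHom := by
    apply MvPolynomial.ringHom_ext
    · intro o
      change MvPolynomial.aeval _ (MvPolynomial.C o) =
        algebraMap C T (MvPolynomial.aeval _ (MvPolynomial.C o))
      rw [MvPolynomial.aeval_C, MvPolynomial.aeval_C, ← IsScalarTower.algebraMap_apply k C T]
    · intro j
      change MvPolynomial.aeval _ (MvPolynomial.X j) =
        algebraMap C T (MvPolynomial.aeval _ (MvPolynomial.X j))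
      rw [MvPolynomial.aeval_X, MvPolynomial.aeval_X]
  rw [← hcomp] at hE
  have key := ind_core' (fun j : ι => algebraMap C T (v j)) hE
    (Q.map (algebraMap C T)) (fun k => Ideal.mem_map_of_mem _ (hv k))
  have hloc := IsLocalization.isLocalization_isLocalization_atPrime_isLocalization (.powers g)
    (Localization.AtPrime (Q.map (algebraMap C T))) (Q.map (algebraMap C T))
  simp only [hcomap] at hloc
  let e : Localization.AtPrime Q ≃ₐ[C] Localization.AtPrime (Q.map (algebraMap C T)) :=
    IsLocalization.algEquiv Q.primeCompl _ _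
  apply ind_of_equiv e.toRingEquiv
  have hfun : (fun i : ι => e.toRingEquiv (algebraMap C (Localization.AtPrime Q) (v i))) =
      (fun i : ι => algebraMap T (Localization.AtPrime (Q.map (algebraMap C T)))
        (algebraMap C T (v i))) := by
    funext i
    change e (algebraMap C (Localization.AtPrime Q) (v i)) = _
    rw [e.commutes, IsScalarTower.algebraMap_apply C T]
  rw [hfun]
  exact key

end ind

end Run7.h802.Cv
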