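import Pool.Agent.Run7.h802.Cv1

/-!
# The weighted filtration of the local ring of a product of curves
-/

set_option autoImplicit false
set_option linter.unusedVariables false
set_option linter.unusedSectionVars false

namespace Run7.h802.Cv

section one

variable {E : Type} [Field E]

/-- The powers of the maximal ideal. -/
def Pw (V : ValuationSubring E) (a : ℕ) (y : E) : Prop :=
  ∃ t, IsUf V t ∧ V.valuation y ≤ V.valuation t ^ a

lemma pw_iff {V : ValuationSubring E} {t : E} (ht : IsUf V t) {a : ℕ} {y : E} :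
    Pw V a y ↔ V.valuation y ≤ V.valuation t ^ a := by
  constructor
  · rintro ⟨t', ht', h⟩
    rwa [ht.val_eq ht']
  · exact fun h => ⟨t, ht, h⟩

lemma Pw.mul {V : ValuationSubring E} {a b : ℕ} {x y : E} (hx : Pw V a x) (hy : Pw V b y) :
    Pw V (a + b) (x * y) := by
  obtain ⟨t, ht, h⟩ := hx
  rw [pw_iff ht] at hy ⊢
  rw [map_mul, pow_add]
  exact mul_le_mul' h hy

lemma Pw.mono {V : ValuationSubring E} {a b : ℕ} (hab : a ≤ b) {x : E} (hx : Pw V b x) :
    Pw V a x := by
  obtain ⟨t, ht, h⟩ := hx
  exact ⟨t, ht, h.trans (ht.pow_anti hab)⟩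

lemma pw_zero {V : ValuationSubring E} {t : E} (ht : IsUf V t) {y : E} : Pw V 0 y ↔ y ∈ V := by
  rw [pw_iff ht, pow_zero, V.valuation_le_one_iff]

lemma pw_one {V : ValuationSubring E} {t : E} (ht : IsUf V t) {y : E} :
    Pw V 1 y ↔ V.valuation y < 1 := by
  rw [pw_iff ht, pow_one]
  exact ⟨fun h => h.trans_lt ht.2.1, fun h => ht.2.2 _ h⟩

lemma pw_uf {V : ValuationSubring E} {t : E} (ht : IsUf V t) (a : ℕ) : Pw V a (t ^ a) :=
  ⟨t, ht, by rw [map_pow]⟩

lemma val_le_iff {V : ValuationSubring E} {x y : E} :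
    V.valuation x ≤ V.valuation y ↔ (y = 0 → x = 0) ∧ x / y ∈ V := by
  rcases eq_or_ne y 0 with rfl | hy
  · simp
  · have h0 : 0 < V.valuation y := zero_lt_iff.2 ((map_ne_zero _).2 hy)
    rw [← V.valuation_le_one_iff, map_div₀, div_le_one₀ h0]
    constructor
    · exact fun h => ⟨fun h' => absurd h' hy, h⟩
    · exact fun h => h.2

/-- Transport by an automorphism. -/
lemma val_le_map {V V' : ValuationSubring E} (φ : E ≃+* E) (h : ∀ x, x ∈ V ↔ φ x ∈ V') (x y : E) :
    V'.valuation (φ x) ≤ V'.valuation (φ y) ↔ V.valuation x ≤ V.valuation y := by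
  rw [val_le_iff, val_le_iff, map_eq_zero_iff φ φ.injective, map_eq_zero_iff φ φ.injective,
    ← map_div₀, ← h]

lemma val_lt_one_map {V V' : ValuationSubring E} (φ : E ≃+* E) (h : ∀ x, x ∈ V ↔ φ x ∈ V')
    (x : E) : V'.valuation (φ x) < 1 ↔ V.valuation x < 1 := by
  have h1 := val_le_map φ h 1 x
  rw [map_one, map_one, map_one] at h1
  rw [← not_le, ← not_le, h1]

lemma isUf_map {V V' : ValuationSubring E} (φ : E ≃+* E) (h : ∀ x, x ∈ V ↔ φ x ∈ V') {t : E}
    (ht : IsUf V t) : IsUf V' (φ t) := by
  refine ⟨(map_ne_zero_iff φ φ.injective).2 ht.1, (val_lt_one_map φ h t).2 ht.2.1, ?_⟩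
  intro x hx
  obtain ⟨x, rfl⟩ := φ.surjective x
  rw [val_lt_one_map φ h] at hx
  rw [val_le_map φ h]
  exact ht.2.2 x hx

lemma Pw.map {V V' : ValuationSubring E} (φ : E ≃+* E) (h : ∀ x, x ∈ V ↔ φ x ∈ V') {a : ℕ}
    {y : E} (hy : Pw V a y) : Pw V' a (φ y) := by
  obtain ⟨t, ht, hyt⟩ := hy
  refine ⟨φ t, isUf_map φ h ht, ?_⟩
  rw [← map_pow, ← map_pow, val_le_map φ h, map_pow]
  exact hyt

end one

section many

variable {k L : Type} [Field k] [Field L] [Algebra k L] {ι : Type} [Fintype ι] {E : ι → Type}
  [∀ i, Field (E i)] [∀ i, Algebra k (E i)] (e : ∀ i, E i →ₐ[k] L)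

/-- The weighted filtration of the local ring of the product. -/
def JJ (V : ∀ i, ValuationSubring (E i)) (w : ι → ℕ) (d : ℤ) : Submodule k L :=
  Submodule.span k {x | ∃ (a : ι → ℕ) (y : ∀ i, E i), (∀ i, Pw (V i) (a i) (y i)) ∧
    d ≤ ((∑ i, w i * a i : ℕ) : ℤ) ∧ x = ∏ i, e i (y i)}

variable {e} {V : ∀ i, ValuationSubring (E i)} {w : ι → ℕ}

lemma JJ_anti {d d' : ℤ} (h : d ≤ d') : JJ e V w d' ≤ JJ e V w d := by
  apply Submodule.span_mono
  rintro x ⟨a, y, h1, h2, h3⟩
  exact ⟨a, y, h1, h.trans h2, h3⟩

lemma JJ_mul {d d' : ℤ} {x y : L} (hx : x ∈ JJ e V w d) (hy : y ∈ JJ e V w d') :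
    x * y ∈ JJ e V w (d + d') := by
  induction hx using Submodule.span_induction with
  | mem x hx =>
    obtain ⟨a, u, h1, h2, rfl⟩ := hx
    induction hy using Submodule.span_induction with
    | mem y hy =>
      obtain ⟨b, v, h3, h4, rfl⟩ := hy
      apply Submodule.subset_span
      refine ⟨fun i => a i + b i, fun i => u i * v i, fun i => (h1 i).mul (h3 i), ?_, ?_⟩
      · have h5 : ∑ i, w i * (a i + b i) = ∑ i, w i * a i + ∑ i, w i * b i := by
          rw [← Finset.sum_add_distrib]
          exact Finset.sum_congr rfl fun i _ => mul_add _ _ _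
        rw [h5, Nat.cast_add]
        exact add_le_add h2 h4
      · rw [← Finset.prod_mul_distrib]
        exact Finset.prod_congr rfl fun i _ => (map_mul _ _ _).symm
    | zero => rw [mul_zero]; exact Submodule.zero_mem _
    | add x y _ _ hx hy => rw [mul_add]; exact Submodule.add_mem _ hx hy
    | smul r x _ hx => rw [mul_smul_comm]; exact Submodule.smul_mem _ r hx
  | zero => rw [zero_mul]; exact Submodule.zero_mem _
  | add x y _ _ hx hy => rw [add_mul]; exact Submodule.add_mem _ hx hy
  | smul r x _ hx => rw [smul_mul_assoc]; exact Submodule.smul_mem _ r hx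

lemma JJ_single [DecidableEq ι] (hV : ∀ i, ∃ t, IsUf (V i) t) (i : ι) {a : ℕ} {y : E i}
    (hy : Pw (V i) a y) {d : ℤ} (hd : d ≤ ((w i * a : ℕ) : ℤ)) : e i y ∈ JJ e V w d := by
  apply Submodule.subset_span
  refine ⟨fun j => if j = i then a else 0, fun j => if h : j = i then h ▸ y else 1, ?_, ?_, ?_⟩
  · intro j
    by_cases h : j = i
    · subst h
      simpa using hy
    · simp only [h, if_false, dif_neg, not_false_iff]
      obtain ⟨t, ht⟩ := hV j
      rw [pw_zero ht]
      exact (V j).one_mem
  · simpa using hd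
  · rw [Finset.prod_eq_single i]
    · simp
    · intro j _ hj
      simp [hj]
    · intro h; exact absurd (Finset.mem_univ i) h

lemma JJ_one (hV : ∀ i, ∃ t, IsUf (V i) t) {d : ℤ} (hd : d ≤ 0) : (1 : L) ∈ JJ e V w d := by
  apply Submodule.subset_span
  refine ⟨fun _ => 0, fun _ => 1, fun i => ?_, by simpa using hd, by simp⟩
  obtain ⟨t, ht⟩ := hV i
  rw [pw_zero ht]
  exact (V i).one_mem

lemma JJ_pow {d : ℤ} {x : L} (hV : ∀ i, ∃ t, IsUf (V i) t) (hx : x ∈ JJ e V w d) (n : ℕ) :
    x ^ n ∈ JJ e V w (n * d) := by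
  induction n with
  | zero => simpa using JJ_one (e := e) (w := w) hV le_rfl
  | succ n ih =>
    rw [pow_succ]
    have h1 := JJ_mul ih hx
    have h2 : (n : ℤ) * d + d = ((n + 1 : ℕ) : ℤ) * d := by push_cast; ring
    rwa [h2] at h1

/-- Transport by automorphisms. -/
lemma JJ_map {V' : ∀ i, ValuationSubring (E i)} (σ : L ≃ₐ[k] L) (ρ : ∀ i, E i ≃ₐ[k] E i)
    (hσ : ∀ i x, σ (e i x) = e i (ρ i x)) (h : ∀ i x, x ∈ V i ↔ ρ i x ∈ V' i) {d : ℤ} {x : L}
    (hx : x ∈ JJ e V w d) : σ x ∈ JJ e V' w d := by
  induction hx using Submodule.span_induction with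
  | mem x hx =>
    obtain ⟨a, u, h1, h2, rfl⟩ := hx
    apply Submodule.subset_span
    refine ⟨a, fun i => ρ i (u i), fun i => (h1 i).map (ρ i : E i ≃+* E i) (h i), h2, ?_⟩
    rw [map_prod]
    exact Finset.prod_congr rfl fun i _ => hσ i _
  | zero => rw [map_zero]; exact Submodule.zero_mem _
  | add x y _ _ hx hy => rw [map_add]; exact Submodule.add_mem _ hx hy
  | smul r x _ hx => rw [map_smul]; exact Submodule.smul_mem _ r hx

/-- The shift of the filtration by `τ - 1`. -/
lemma JJ_shift [DecidableEq ι] (τ : L ≃ₐ[k] L) (ρ : ∀ i, E i ≃ₐ[k] E i)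
    (hτ : ∀ i x, τ (e i x) = e i (ρ i x)) (m : ι → ℕ) {M : ℕ} (hm : ∀ i, w i * m i = M)
    (hsh : ∀ i a x, Pw (V i) a x → Pw (V i) (a + m i) (ρ i x - x))
    (hst : ∀ i a x, Pw (V i) a x → Pw (V i) a (ρ i x)) {d : ℤ} {x : L}
    (hx : x ∈ JJ e V w d) : τ x - x ∈ JJ e V w (d + M) := by
  induction hx using Submodule.span_induction with
  | mem x hx =>
    obtain ⟨a, u, h1, h2, rfl⟩ := hx
    have key : ∀ S : Finset ι, (∏ i, e i (if i ∈ S then ρ i (u i) else u i)) - ∏ i, e i (u i) ∈
        JJ e V w (d + M) := by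
      intro S
      induction S using Finset.induction_on with
      | empty => simp
      | insert j S hj ih =>
        have h3 : (∏ i, e i (if i ∈ insert j S then ρ i (u i) else u i)) -
            (∏ i, e i (if i ∈ S then ρ i (u i) else u i)) =
            ∏ i, e i (if i = j then ρ i (u i) - u i else if i ∈ S then ρ i (u i) else u i) := by
          rw [← Finset.mul_prod_erase Finset.univ _ (Finset.mem_univ j),
            ← Finset.mul_prod_erase Finset.univ
              (fun i => e i (if i ∈ S then ρ i (u i) else u i)) (Finset.mem_univ j),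
            ← Finset.mul_prod_erase Finset.univ
              (fun i => e i (if i = j then ρ i (u i) - u i else
                if i ∈ S then ρ i (u i) else u i)) (Finset.mem_univ j)]
          have h4 : ∏ i ∈ Finset.univ.erase j,
              e i (if i ∈ insert j S then ρ i (u i) else u i) =
              ∏ i ∈ Finset.univ.erase j, e i (if i ∈ S then ρ i (u i) else u i) := by
            refine Finset.prod_congr rfl fun i hi => ?_
            have hij : i ≠ j := Finset.ne_of_mem_erase hi
            congr 1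
            simp [Finset.mem_insert, hij]
          have h5 : ∏ i ∈ Finset.univ.erase j, e i (if i = j then ρ i (u i) - u i else
              if i ∈ S then ρ i (u i) else u i) =
              ∏ i ∈ Finset.univ.erase j, e i (if i ∈ S then ρ i (u i) else u i) := by
            refine Finset.prod_congr rfl fun i hi => ?_
            have hij : i ≠ j := Finset.ne_of_mem_erase hi
            rw [if_neg hij]
          rw [h4, h5, if_pos (Finset.mem_insert_self j S), if_neg hj, if_pos rfl, map_sub]
          ring
        have h6 : (∏ i, e i (if i ∈ insert j S then ρ i (u i) else u i)) - ∏ i, e i (u i) =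
            ((∏ i, e i (if i ∈ insert j S then ρ i (u i) else u i)) -
              (∏ i, e i (if i ∈ S then ρ i (u i) else u i))) +
            ((∏ i, e i (if i ∈ S then ρ i (u i) else u i)) - ∏ i, e i (u i)) := by ring
        rw [h6]
        refine Submodule.add_mem _ ?_ ih
        rw [h3]
        apply Submodule.subset_span
        refine ⟨fun i => if i = j then a i + m i else a i, _, ?_, ?_, rfl⟩
        · intro i
          by_cases hij : i = j
          · simp only [if_pos hij]
            exact hsh i _ _ (h1 i)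
          · simp only [if_neg hij]
            by_cases hiS : i ∈ S
            · rw [if_pos hiS]
              exact hst i _ _ (h1 i)
            · rw [if_neg hiS]
              exact h1 i
        · have h7 : ∑ i, w i * (if i = j then a i + m i else a i) =
              ∑ i, w i * a i + M := by
            rw [← Finset.add_sum_erase Finset.univ _ (Finset.mem_univ j),
              ← Finset.add_sum_erase Finset.univ (fun i => w i * a i) (Finset.mem_univ j),
              if_pos rfl]
            have h8 : ∑ i ∈ Finset.univ.erase j, w i * (if i = j then a i + m i else a i) =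
                ∑ i ∈ Finset.univ.erase j, w i * a i := by
              refine Finset.sum_congr rfl fun i hi => ?_
              rw [if_neg (Finset.ne_of_mem_erase hi)]
            rw [h8, mul_add, hm j]
            ring
          rw [h7, Nat.cast_add]
          exact add_le_add_left h2 _
    have h9 := key Finset.univ
    simp only [Finset.mem_univ, if_true] at h9
    rw [map_prod]
    rw [Finset.prod_congr rfl fun i _ => hτ i (u i)]
    exact h9
  | zero => rw [map_zero, sub_zero]; exact Submodule.zero_mem _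
  | add x y _ _ hx hy =>
    have h1 : τ (x + y) - (x + y) = (τ x - x) + (τ y - y) := by rw [map_add]; ring
    rw [h1]
    exact Submodule.add_mem _ hx hy
  | smul r x _ hx =>
    have h1 : τ (r • x) - r • x = r • (τ x - x) := by rw [map_smul, smul_sub]
    rw [h1]
    exact Submodule.smul_mem _ r hx

end many

end Run7.h802.Cv
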