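import Pool.Agent.Y223.G.AllE

/-!
# The graded algebra of a filtration
-/

set_option autoImplicit false
set_option linter.unusedVariables false
set_option linter.unusedSectionVars false

namespace Run7.h802.Cv

open Pool.Agent.Y223.G

section gr

variable {k L : Type} [Field k] [Field L] [Algebra k L]

/-- A multiplicative filtration of an algebra. -/
structure Filt (B : Subalgebra k L) (F : ℤ → Submodule k L) : Prop where
  le : ∀ d x, x ∈ F d → x ∈ B
  low : ∀ d x, d ≤ 0 → x ∈ B → x ∈ F d
  mul : ∀ d d' x y, x ∈ F d → y ∈ F d' → x * y ∈ F (d + d')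

/-- The graded algebra generated by the elements of degree at most `D`. -/
noncomputable def RF (F : ℤ → Submodule k L) (D : ℕ) : Subalgebra k (LP L) :=
  Algebra.adjoin k ({hm (-1) 1} ∪
    {f | ∃ (d : ℕ) (b : L), d ≤ D ∧ b ∈ F d ∧ f = hm (d : ℤ) b})

variable {B : Subalgebra k L} {F : ℤ → Submodule k L} {D : ℕ}

lemma RF_ss : hm (-1) 1 ∈ RF F D := Algebra.subset_adjoin (Or.inl rfl)

lemma RF_neg (n : ℕ) : hm (-(n : ℤ)) 1 ∈ RF F D := by
  have h := (RF F D).pow_mem (RF_ss (F := F) (D := D)) n
  rw [hm_pow, one_pow, mul_neg_one] at h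
  exact h

lemma RF_hm {d : ℕ} {b : L} (hd : d ≤ D) (hb : b ∈ F d) : hm (d : ℤ) b ∈ RF F D :=
  Algebra.subset_adjoin (Or.inr ⟨d, b, hd, hb, rfl⟩)

lemma RF_zero (hF : Filt B F) {b : L} (hb : b ∈ B) : hm 0 b ∈ RF F D :=
  RF_hm (d := 0) (Nat.zero_le _) (hF.low _ _ le_rfl hb)

lemma RF_nonpos (hF : Filt B F) {b : L} (hb : b ∈ B) {d : ℤ} (hd : d ≤ 0) :
    hm d b ∈ RF F D := by
  have h := (RF F D).mul_mem (RF_neg (F := F) (D := D) (-d).toNat) (RF_zero hF hb)
  rw [hm_mul, one_mul, add_zero, Int.toNat_of_nonneg (by omega), neg_neg] at h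
  exact h

lemma RF_gr : Gr (RF F D) := by
  apply gr_adjoin
  rintro s (hs | ⟨d, b, -, -, rfl⟩)
  · exact ⟨_, _, hs⟩
  · exact ⟨_, _, rfl⟩

lemma RF_coeff (hF : Filt B F) {f : LP L} (hf : f ∈ RF F D) (d : ℤ) : f.coeff d ∈ F d := by
  set M := Submodule.span k {g : LP L | ∃ (d : ℤ) (x : L), x ∈ F d ∧ g = hm d x} with hM
  have hmul : ∀ x ∈ M, ∀ y ∈ M, x * y ∈ M := by
    intro x hx y hy
    induction hx using Submodule.span_induction with
    | mem g hg =>
      obtain ⟨e, a, ha, rfl⟩ := hg
      induction hy using Submodule.span_induction with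
      | mem g' hg' =>
        obtain ⟨e', a', ha', rfl⟩ := hg'
        exact Submodule.subset_span ⟨e + e', a * a', hF.mul _ _ _ _ ha ha', hm_mul _ _ _ _⟩
      | zero => rw [mul_zero]; exact M.zero_mem
      | add x y _ _ hx hy => rw [mul_add]; exact M.add_mem hx hy
      | smul r x _ hx => rw [mul_smul_comm]; exact M.smul_mem r hx
    | zero => rw [zero_mul]; exact M.zero_mem
    | add x y _ _ hx hy => rw [add_mul]; exact M.add_mem hx hy
    | smul r x _ hx => rw [smul_mul_assoc]; exact M.smul_mem r hx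
  have hfM : f ∈ M := by
    clear d
    induction hf using Algebra.adjoin_induction with
    | mem x hx =>
      rcases hx with hx | ⟨d, b, -, hb, rfl⟩
      · rw [Set.mem_singleton_iff] at hx
        subst hx
        exact Submodule.subset_span ⟨-1, 1, hF.low _ _ (by norm_num) B.one_mem, rfl⟩
      · exact Submodule.subset_span ⟨d, b, hb, rfl⟩
    | algebraMap r =>
      exact Submodule.subset_span ⟨0, _, hF.low _ _ le_rfl (B.algebraMap_mem r),
        algebraMap_LP r⟩
    | add x y _ _ hx hy => exact M.add_mem hx hy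
    | mul x y _ _ hx hy => exact hmul x hx y hy
  clear hf
  induction hfM using Submodule.span_induction with
  | mem g hg =>
    obtain ⟨e, a, ha, rfl⟩ := hg
    rw [coeff_hm]
    split_ifs with h1
    · rw [← h1]; exact ha
    · exact Submodule.zero_mem _
  | zero =>
    rw [AddMonoidAlgebra.coeff_zero, Finsupp.zero_apply]
    exact Submodule.zero_mem _
  | add x y _ _ hx hy =>
    rw [AddMonoidAlgebra.coeff_add, Finsupp.add_apply]
    exact Submodule.add_mem _ (hx) (hy)
  | smul r x _ hx =>
    rw [AddMonoidAlgebra.coeff_smul, Finsupp.smul_apply]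
    exact Submodule.smul_mem _ r hx

lemma RF_mem (hF : Filt B F) {d : ℤ} {x : L} (h : hm d x ∈ RF F D) : x ∈ F d := by
  have h1 := RF_coeff hF h d
  rwa [coeff_hm_same] at h1

lemma RF_mem0 (hF : Filt B F) {y : L} : hm 0 y ∈ RF F D ↔ y ∈ B :=
  ⟨fun h => hF.le _ _ (RF_mem hF h), fun h => RF_zero hF h⟩

lemma RF_cf (hF : Filt B F) (d : ℤ) (x : L) (h : hm d x ∈ RF F D) : hm 0 x ∈ RF F D :=
  RF_zero hF (hF.le _ _ (RF_mem hF h))

/-- The graded algebra is of finite type. -/
theorem RF_ft (hF : Filt B F) (hB : Algebra.FiniteType k B) : Algebra.FiniteType k (RF F D) := by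
  classical
  have hN : IsNoetherianRing B := Algebra.FiniteType.isNoetherianRing k B
  let I : ℕ → Ideal B := fun d =>
    { carrier := {b | (b : L) ∈ F d}
      add_mem' := fun ha hb => (F d).add_mem ha hb
      zero_mem' := (F d).zero_mem
      smul_mem' := fun c x hx => by
        have h := hF.mul 0 d _ _ (hF.low 0 _ le_rfl c.2) hx
        rw [zero_add] at h
        exact h }
  have hI : ∀ d, (I d).FG := fun d => IsNoetherian.noetherian _
  choose S hS using fun d => hI d
  obtain ⟨g, hg⟩ := (Subalgebra.fg_iff_finiteType B).2 hB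
  let T : Finset (LP L) := {hm (-1) 1} ∪ g.image (fun x => hm 0 x) ∪
    (Finset.range (D + 1)).biUnion fun d => (S d).image fun s : B => hm (d : ℤ) (s : L)
  rw [← Subalgebra.fg_iff_finiteType]
  refine ⟨T, ?_⟩
  set C := Algebra.adjoin k (T : Set (LP L)) with hC
  have hB0 : ∀ b ∈ B, hm 0 b ∈ C := by
    intro b hb
    rw [← hg] at hb
    induction hb using Algebra.adjoin_induction with
    | mem x hx =>
      apply Algebra.subset_adjoin
      rw [Finset.mem_coe, Finset.mem_union, Finset.mem_union]
      exact Or.inl (Or.inr (Finset.mem_image_of_mem _ hx))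
    | algebraMap r => rw [← algebraMap_LP]; exact C.algebraMap_mem r
    | add x y _ _ hx hy => rw [hm_add]; exact C.add_mem hx hy
    | mul x y _ _ hx hy =>
      have : hm 0 (x * y) = hm 0 x * hm 0 y := by rw [hm_mul, add_zero]
      rw [this]
      exact C.mul_mem hx hy
  apply le_antisymm
  · rw [hC, Algebra.adjoin_le_iff]
    intro f hf
    rw [Finset.mem_coe, Finset.mem_union, Finset.mem_union] at hf
    rcases hf with (hf | hf) | hf
    · rw [Finset.mem_singleton] at hf
      rw [hf]
      exact RF_ss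
    · obtain ⟨x, hx, rfl⟩ := Finset.mem_image.1 hf
      apply RF_zero hF
      rw [← hg]
      exact Algebra.subset_adjoin hx
    · obtain ⟨d, hd, hf⟩ := Finset.mem_biUnion.1 hf
      obtain ⟨s, hs, rfl⟩ := Finset.mem_image.1 hf
      refine RF_hm (by rw [Finset.mem_range] at hd; omega) ?_
      have h1 : s ∈ I d := by
        rw [← hS]
        exact Submodule.subset_span hs
      exact h1
  · unfold RF
    rw [Algebra.adjoin_le_iff]
    rintro f (hf | ⟨d, b, hd, hb, rfl⟩)
    · rw [Set.mem_singleton_iff] at hf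
      rw [hf]
      apply Algebra.subset_adjoin
      rw [Finset.mem_coe, Finset.mem_union, Finset.mem_union]
      exact Or.inl (Or.inl (Finset.mem_singleton_self _))
    · have h1 : (⟨b, hF.le _ _ hb⟩ : B) ∈ I d := hb
      rw [← hS] at h1
      have key : ∀ x : B, x ∈ Submodule.span B (S d : Set B) → hm (d : ℤ) (x : L) ∈ C := by
        intro x hx
        induction hx using Submodule.span_induction with
        | mem x hx =>
          apply Algebra.subset_adjoin
          rw [Finset.mem_coe, Finset.mem_union, Finset.mem_biUnion]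
          exact Or.inr ⟨d, Finset.mem_range.2 (by omega), Finset.mem_image_of_mem _ hx⟩
        | zero =>
          change hm (d : ℤ) (0 : L) ∈ C
          rw [hm_zero]; exact C.zero_mem
        | add x y _ _ hx hy =>
          change hm (d : ℤ) ((x : L) + y) ∈ C
          rw [hm_add]; exact C.add_mem hx hy
        | smul r x _ hx =>
          have h2 : hm (d : ℤ) ((r • x : B) : L) = hm 0 (r : L) * hm (d : ℤ) (x : L) := by
            rw [hm_mul, zero_add]
            rfl
          rw [h2]
          exact C.mul_mem (hB0 r r.2) hx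
      exact key _ h1

/-- Criterion for stability under an automorphism. -/
lemma RF_tl {F' : ℤ → Submodule k L} (τ : L ≃ₐ[k] L) (h : ∀ d x, x ∈ F d → τ x ∈ F' d)
    {f : LP L} (hf : f ∈ RF F D) : tl τ f ∈ RF F' D := by
  have htl : ∀ (d : ℤ) (a : L), tl τ (hm d a) = hm d (τ a) := fun d a => tl_hm d a
  induction hf using Algebra.adjoin_induction with
  | mem x hx =>
    rcases hx with hx | ⟨d, b, hd, hb, rfl⟩
    · rw [Set.mem_singleton_iff] at hx
      rw [hx, htl, map_one]
      exact RF_ss
    · rw [htl]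
      exact RF_hm hd (h _ _ hb)
  | algebraMap r => rw [AlgEquiv.commutes]; exact Subalgebra.algebraMap_mem _ r
  | add x y _ _ hx hy => rw [map_add]; exact Subalgebra.add_mem _ hx hy
  | mul x y _ _ hx hy => rw [map_mul]; exact Subalgebra.mul_mem _ hx hy

end gr

end Run7.h802.Cv
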