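import Pool.Agent.Run7.h802.Cv5
import Pool.Agent.Run7.h802.Cv6

/-!
# The weighted blowup of a product of curves at finitely many points
-/

set_option autoImplicit false
set_option linter.unusedVariables false
set_option linter.unusedSectionVars false

namespace Run7.h802.Cv

open Pool.Agent.Y223.G Pool.Agent.W418.LU2 IsLocalRing

variable {k L : Type} [Field k] [Field L] [Algebra k L] {ι : Type} [Fintype ι] [DecidableEq ι]
  {E : ι → Type} [∀ i, Field (E i)] [∀ i, Algebra k (E i)] (e : ∀ i, E i →ₐ[k] L)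
  (A : ∀ i, Subalgebra k (E i))

/-- The coordinate ring of the product of the charts. -/
noncomputable def BB : Subalgebra k L := ⨆ i, (A i).map (e i)

/-- The local properties of the chart at the point `V`. -/
structure LocV (V : ∀ i, ValuationSubring (E i)) : Prop where
  le : ∀ i, ∀ a ∈ A i, a ∈ V i
  den : ∀ i, ∀ z ∈ V i, ∃ a ∈ A i, ∃ b ∈ A i, (V i).valuation b = 1 ∧ z * b = a
  uf : ∀ i, ∃ t ∈ A i, IsUf (V i) t
  inv : ∀ i, ∀ a ∈ A i, (V i).valuation a = 1 → ∃ b ∈ A i, (V i).valuation (a * b - 1) < 1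

/-- The elements which are products of units at the point `V`. -/
def UV (V : ∀ i, ValuationSubring (E i)) (s : L) : Prop :=
  ∃ u : ∀ i, E i, (∀ i, u i ∈ A i ∧ (V i).valuation (u i) = 1) ∧ s = ∏ i, e i (u i)

variable {e A}

lemma mem_BB (i : ι) {a : E i} (ha : a ∈ A i) : e i a ∈ BB e A :=
  le_iSup (fun i => (A i).map (e i)) i ⟨a, ha, rfl⟩

lemma UV.mem {V : ∀ i, ValuationSubring (E i)} {s : L} (h : UV e A V s) : s ∈ BB e A := by
  obtain ⟨u, hu, rfl⟩ := h
  exact Subalgebra.prod_mem _ fun i _ => mem_BB i (hu i).1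

lemma UV.one {V : ∀ i, ValuationSubring (E i)} : UV e A V 1 :=
  ⟨fun _ => 1, fun i => ⟨(A i).one_mem, map_one _⟩, by simp⟩

lemma UV.mul {V : ∀ i, ValuationSubring (E i)} {s s' : L} (h : UV e A V s) (h' : UV e A V s') :
    UV e A V (s * s') := by
  obtain ⟨u, hu, rfl⟩ := h
  obtain ⟨u', hu', rfl⟩ := h'
  refine ⟨fun i => u i * u' i, fun i => ⟨(A i).mul_mem (hu i).1 (hu' i).1, ?_⟩, ?_⟩
  · rw [map_mul, (hu i).2, (hu' i).2, one_mul]
  · rw [← Finset.prod_mul_distrib]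
    exact Finset.prod_congr rfl fun i _ => (map_mul _ _ _).symm

lemma UV.pow {V : ∀ i, ValuationSubring (E i)} {s : L} (h : UV e A V s) (n : ℕ) :
    UV e A V (s ^ n) := by
  induction n with
  | zero => rw [pow_zero]; exact UV.one
  | succ n ih => rw [pow_succ]; exact ih.mul h

lemma UV.ne {V : ∀ i, ValuationSubring (E i)} {s : L} (h : UV e A V s) : s ≠ 0 := by
  obtain ⟨u, hu, rfl⟩ := h
  rw [Finset.prod_ne_zero_iff]
  intro i _ h0
  rw [map_eq_zero_iff (e i) (e i).toRingHom.injective] at h0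
  have := (hu i).2
  rw [h0, map_zero] at this
  exact zero_ne_one this

lemma UV.single {V : ∀ i, ValuationSubring (E i)} (i : ι) {a : E i} (ha : a ∈ A i)
    (h1 : (V i).valuation a = 1) : UV e A V (e i a) := by
  refine ⟨fun j => if h : j = i then h ▸ a else 1, fun j => ?_, ?_⟩
  · by_cases h : j = i
    · subst h
      simpa using ⟨ha, h1⟩
    · simp only [h, dif_neg, not_false_iff]
      exact ⟨(A j).one_mem, map_one _⟩
  · rw [Finset.prod_eq_single i]
    · simp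
    · intro j _ hj
      simp [hj]
    · intro h; exact absurd (Finset.mem_univ i) h

lemma LocV.uf' {V : ∀ i, ValuationSubring (E i)} (h : LocV A V) (i : ι) : ∃ t, IsUf (V i) t := by
  obtain ⟨t, -, ht⟩ := h.uf i
  exact ⟨t, ht⟩

/-- The ring is contained in the local ring at the point. -/
lemma BB_le_JJ {V : ∀ i, ValuationSubring (E i)} (h : LocV A V) (w : ι → ℕ) {x : L}
    (hx : x ∈ BB e A) {d : ℤ} (hd : d ≤ 0) : x ∈ JJ e V w d := by
  let O : Subalgebra k L :=
    { carrier := {x | x ∈ JJ e V w 0}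
      mul_mem' := fun {a b} ha hb => by
        have := JJ_mul (e := e) (V := V) (w := w) (d := 0) (d' := 0) ha hb
        rwa [add_zero] at this
      one_mem' := JJ_one h.uf' le_rfl
      add_mem' := fun ha hb => Submodule.add_mem (JJ e V w 0) ha hb
      zero_mem' := Submodule.zero_mem (JJ e V w 0)
      algebraMap_mem' := fun r => by
        rw [Algebra.algebraMap_eq_smul_one]
        exact Submodule.smul_mem _ r (JJ_one h.uf' le_rfl) }
  have hle : BB e A ≤ O := by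
    refine iSup_le fun i => ?_
    rintro _ ⟨a, ha, rfl⟩
    obtain ⟨t, ht⟩ := h.uf' i
    refine JJ_single h.uf' i (a := 0) ((pw_zero ht).2 (h.le i a ha)) ?_
    simp
  exact JJ_anti hd (hle hx)

/-- The combinations of the monomials of weight at least `d`. -/
def KK (e : ∀ i, E i →ₐ[k] L) (A : ∀ i, Subalgebra k (E i)) (t : ∀ i, E i) (w : ι → ℕ) (d : ℤ) :
    Submodule k L :=
  Submodule.span k {x | ∃ (a : ι → ℕ) (b : L), b ∈ BB e A ∧
    d ≤ ((∑ i, w i * a i : ℕ) : ℤ) ∧ x = b * ∏ i, e i (t i) ^ a i}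

lemma KK_mul {t : ∀ i, E i} {w : ι → ℕ} {d : ℤ} {x c : L} (hc : c ∈ BB e A)
    (hx : x ∈ KK e A t w d) : c * x ∈ KK e A t w d := by
  induction hx using Submodule.span_induction with
  | mem x hx =>
    obtain ⟨a, b, hb, h1, rfl⟩ := hx
    exact Submodule.subset_span ⟨a, c * b, (BB e A).mul_mem hc hb, h1, by ring⟩
  | zero => rw [mul_zero]; exact Submodule.zero_mem _
  | add x y _ _ hx hy => rw [mul_add]; exact Submodule.add_mem _ hx hy
  | smul r x _ hx => rw [mul_smul_comm]; exact Submodule.smul_mem _ r hx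

/-- Clearing denominators. -/
theorem exists_KK {V : ∀ i, ValuationSubring (E i)} (h : LocV A V) {t : ∀ i, E i}
    (ht : ∀ i, t i ∈ A i ∧ IsUf (V i) (t i)) {w : ι → ℕ} {d : ℤ} {x : L}
    (hx : x ∈ JJ e V w d) : ∃ s, UV e A V s ∧ s * x ∈ KK e A t w d := by
  induction hx using Submodule.span_induction with
  | mem x hx =>
    obtain ⟨a, y, hy, h1, rfl⟩ := hx
    have h2 : ∀ i, ∃ z ∈ V i, y i = t i ^ a i * z := fun i =>
      (ht i).2.exists_mul ((pw_iff (ht i).2).1 (hy i))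
    choose z hz hyz using h2
    choose c hc b hb hb1 hzb using fun i => h.den i (z i) (hz i)
    refine ⟨∏ i, e i (b i), ⟨b, fun i => ⟨hb i, hb1 i⟩, rfl⟩, ?_⟩
    apply Submodule.subset_span
    refine ⟨a, ∏ i, e i (c i), Subalgebra.prod_mem _ fun i _ => mem_BB i (hc i), h1, ?_⟩
    rw [← Finset.prod_mul_distrib, ← Finset.prod_mul_distrib]
    refine Finset.prod_congr rfl fun i _ => ?_
    rw [hyz i, ← hzb i, map_mul, map_mul, map_pow]
    ring
  | zero => exact ⟨1, UV.one, by rw [mul_zero]; exact Submodule.zero_mem _⟩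
  | add x y _ _ hx hy =>
    obtain ⟨s, hs, hsx⟩ := hx
    obtain ⟨s', hs', hsy⟩ := hy
    refine ⟨s * s', hs.mul hs', ?_⟩
    have h1 : s * s' * (x + y) = s' * (s * x) + s * (s' * y) := by ring
    rw [h1]
    exact Submodule.add_mem _ (KK_mul hs'.mem hsx) (KK_mul hs.mem hsy)
  | smul r x _ hx =>
    obtain ⟨s, hs, hsx⟩ := hx
    refine ⟨s, hs, ?_⟩
    rw [mul_smul_comm]
    exact Submodule.smul_mem _ r hsx

/-- The filtration with the centres `Z`. -/
noncomputable def FF (e : ∀ i, E i →ₐ[k] L) (A : ∀ i, Subalgebra k (E i))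
    (Z : Set (∀ i, ValuationSubring (E i))) (wt : (∀ i, ValuationSubring (E i)) → ι → ℕ) (d : ℤ) :
    Submodule k L :=
  (BB e A).toSubmodule ⊓ ⨅ V ∈ Z, JJ e V (wt V) d

variable {Z : Set (∀ i, ValuationSubring (E i))}
  {wt : (∀ i, ValuationSubring (E i)) → ι → ℕ}

lemma mem_FF {d : ℤ} {x : L} : x ∈ FF e A Z wt d ↔ x ∈ BB e A ∧ ∀ V ∈ Z, x ∈ JJ e V (wt V) d := by
  unfold FF
  rw [Submodule.mem_inf, Subalgebra.mem_toSubmodule, Submodule.mem_iInf]
  simp only [Submodule.mem_iInf]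

lemma filt_FF (hZ : ∀ V ∈ Z, LocV A V) : Filt (BB e A) (FF e A Z wt) where
  le d x hx := (mem_FF.1 hx).1
  low d x hd hx := mem_FF.2 ⟨hx, fun V hV => BB_le_JJ (hZ V hV) _ hx hd⟩
  mul d d' x y hx hy := by
    rw [mem_FF] at hx hy ⊢
    exact ⟨(BB e A).mul_mem hx.1 hy.1, fun V hV => JJ_mul (hx.2 V hV) (hy.2 V hV)⟩

/-- An element which is a unit at one of the points and which is in a high power of the ideal at
the others. -/
theorem exists_sep (hZf : Z.Finite) (hZ : ∀ V ∈ Z, LocV A V) (hwt : ∀ V ∈ Z, ∀ i, 1 ≤ wt V i)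
    (hsep : ∀ V ∈ Z, ∀ V' ∈ Z, V ≠ V' → ∃ j, ∃ a ∈ A j, (V j).valuation a = 1 ∧
      (V' j).valuation a < 1) {V : ∀ i, ValuationSubring (E i)} (hV : V ∈ Z) (N : ℕ) :
    ∃ c, UV e A V c ∧ ∀ V' ∈ Z, V' ≠ V → c ∈ JJ e V' (wt V') N := by
  classical
  have h1 : ∀ V' : ∀ i, ValuationSubring (E i), ∃ s, UV e A V s ∧
      (V' ∈ Z → V' ≠ V → s ∈ JJ e V' (wt V') N) := by
    intro V'
    by_cases h : V' ∈ Z ∧ V' ≠ V
    · obtain ⟨j, a, ha, ha1, ha2⟩ := hsep V hV V' h.1 h.2.symm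
      refine ⟨(e j a) ^ N, (UV.single j ha ha1).pow N, fun _ _ => ?_⟩
      obtain ⟨t, ht⟩ := (hZ V' h.1).uf' j
      have h2 : e j a ∈ JJ e V' (wt V') 1 := by
        refine JJ_single (hZ V' h.1).uf' j ((pw_one ht).2 ha2) ?_
        have := hwt V' h.1 j
        rw [mul_one]
        exact_mod_cast this
      have h3 := JJ_pow (hZ V' h.1).uf' h2 N
      rwa [mul_one] at h3
    · exact ⟨1, UV.one, fun h1 h2 => absurd ⟨h1, h2⟩ h⟩
  choose s hs1 hs2 using h1
  refine ⟨∏ V' ∈ hZf.toFinset, s V', ?_, ?_⟩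
  · have h2 : ∀ S : Finset (∀ i, ValuationSubring (E i)), UV e A V (∏ V' ∈ S, s V') := by
      intro S
      induction S using Finset.induction_on with
      | empty => rw [Finset.prod_empty]; exact UV.one
      | insert W S hW ih => rw [Finset.prod_insert hW]; exact (hs1 W).mul ih
    exact h2 _
  · intro V' hV' hne
    rw [← Finset.mul_prod_erase _ _ (hZf.mem_toFinset.2 hV')]
    have h3 := JJ_mul (hs2 V' hV' hne) (BB_le_JJ (hZ V' hV') (wt V')
      (Subalgebra.prod_mem (BB e A) (t := hZf.toFinset.erase V') (f := s)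
        fun W _ => (hs1 W).mem) le_rfl)
    rwa [add_zero] at h3

/-- The prime ideal lies over the point `V`. -/
def Over (q : Ideal (BB e A)) (V : ∀ i, ValuationSubring (E i)) : Prop :=
  ∀ i (a : E i) (ha : a ∈ A i), (V i).valuation a < 1 → (⟨e i a, mem_BB i ha⟩ : BB e A) ∈ q

lemma Over.not_mem {q : Ideal (BB e A)} (hq : q.IsPrime) {V : ∀ i, ValuationSubring (E i)}
    (hV : LocV A V) (h : Over q V) {s : L} (hs : UV e A V s) :
    (⟨s, hs.mem⟩ : BB e A) ∉ q := by
  obtain ⟨u, hu, rfl⟩ := hs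
  intro hmem
  have h1 : (⟨∏ i, e i (u i), UV.mem ⟨u, hu, rfl⟩⟩ : BB e A) =
      ∏ i, ⟨e i (u i), mem_BB i (hu i).1⟩ := by
    apply Subtype.ext
    exact (map_prod (BB e A).val (fun i => (⟨e i (u i), mem_BB i (hu i).1⟩ : BB e A))
      Finset.univ).symm
  rw [h1] at hmem
  obtain ⟨i, -, hi⟩ := (hq.prod_mem_iff).1 hmem
  obtain ⟨b, hb, hb1⟩ := hV.inv i (u i) (hu i).1 (hu i).2
  have h2 := h i (u i * b - 1) ((A i).sub_mem ((A i).mul_mem (hu i).1 hb) (A i).one_mem) hb1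
  have h3 : (⟨e i (u i), mem_BB i (hu i).1⟩ : BB e A) * ⟨e i b, mem_BB i hb⟩ -
      ⟨e i (u i * b - 1), mem_BB i ((A i).sub_mem ((A i).mul_mem (hu i).1 hb)
        (A i).one_mem)⟩ = 1 := by
    apply Subtype.ext
    change e i (u i) * e i b - e i (u i * b - 1) = 1
    rw [map_sub, map_mul, map_one]
    ring
  apply hq.ne_top
  rw [Ideal.eq_top_iff_one, ← h3]
  exact Ideal.sub_mem _ (Ideal.mul_mem_right _ _ hi) h2

/-- Local generation of the graded algebra. -/
theorem gen_loc {D : ℕ} (hF : Filt (BB e A) (FF e A Z wt)) {V : ∀ i, ValuationSubring (E i)}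
    {t : ∀ i, E i} {c : L} (hc : c ∈ BB e A)
    (hct : ∀ i, hm (wt V i : ℤ) (c * e i (t i)) ∈ RF (FF e A Z wt) D) {d : ℤ} {x : L}
    (hx : x ∈ KK e A t (wt V) d) :
    ∃ N : ℕ, hm d (c ^ N * x) ∈ RF (FF e A Z wt) D := by
  induction hx using Submodule.span_induction with
  | mem x hx =>
    obtain ⟨a, b, hb, h1, rfl⟩ := hx
    refine ⟨∑ i, a i, ?_⟩
    have h2 : ∏ i, hm (wt V i : ℤ) (c * e i (t i)) ^ a i =
        hm ((∑ i, wt V i * a i : ℕ) : ℤ) (c ^ (∑ i, a i) * ∏ i, e i (t i) ^ a i) := by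
      simp_rw [hm_pow]
      rw [hm_prod]
      congr 1
      · push_cast
        exact Finset.sum_congr rfl fun i _ => mul_comm _ _
      · rw [← Finset.prod_pow_eq_pow_sum, ← Finset.prod_mul_distrib]
        exact Finset.prod_congr rfl fun i _ => mul_pow _ _ _
    have h3 : hm d (c ^ (∑ i, a i) * (b * ∏ i, e i (t i) ^ a i)) =
        hm (d - ((∑ i, wt V i * a i : ℕ) : ℤ)) b * ∏ i, hm (wt V i : ℤ) (c * e i (t i)) ^ a i := by
      rw [h2, hm_mul]
      congr 1
      · ring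
      · ring
    rw [h3]
    exact Subalgebra.mul_mem _ (RF_nonpos hF hb (by omega))
      (Subalgebra.prod_mem _ fun i _ => Subalgebra.pow_mem _ (hct i) _)
  | zero => exact ⟨0, by rw [mul_zero, hm_zero]; exact Subalgebra.zero_mem _⟩
  | add x y _ _ hx hy =>
    obtain ⟨N, hN⟩ := hx
    obtain ⟨N', hN'⟩ := hy
    refine ⟨N + N', ?_⟩
    have h1 : hm d (c ^ (N + N') * (x + y)) =
        hm 0 (c ^ N') * hm d (c ^ N * x) + hm 0 (c ^ N) * hm d (c ^ N' * y) := by
      rw [hm_mul, hm_mul, zero_add, ← hm_add]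
      congr 1
      ring
    rw [h1]
    exact Subalgebra.add_mem _
      (Subalgebra.mul_mem _ (RF_zero hF (Subalgebra.pow_mem _ hc _)) hN)
      (Subalgebra.mul_mem _ (RF_zero hF (Subalgebra.pow_mem _ hc _)) hN')
  | smul r x _ hx =>
    obtain ⟨N, hN⟩ := hx
    refine ⟨N, ?_⟩
    rw [mul_smul_comm, ← smul_hm]
    exact Subalgebra.smul_mem _ hN r

end Run7.h802.Cv
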