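import Pool.Agent.Run7.h802.Cv7

/-!
# The weighted blowup of a product of curves: regularity
-/

set_option autoImplicit false
set_option linter.unusedVariables false
set_option linter.unusedSectionVars false

namespace Run7.h802.Cv

open Pool.Agent.Y223.G Pool.Agent.W418.LU2 IsLocalRing

variable {k L : Type} [Field k] [Field L] [Algebra k L] {ι : Type} [Fintype ι] [DecidableEq ι]
  {E : ι → Type} [∀ i, Field (E i)] [∀ i, Algebra k (E i)]

/-- The data of the weighted blowup of a chart. -/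
structure CD (e : ∀ i, E i →ₐ[k] L) (A : ∀ i, Subalgebra k (E i))
    (Z : Set (∀ i, ValuationSubring (E i))) (wt : (∀ i, ValuationSubring (E i)) → ι → ℕ)
    (D : ℕ) : Prop where
  fin : Z.Finite
  loc : ∀ V ∈ Z, LocV A V
  wt1 : ∀ V ∈ Z, ∀ i, 1 ≤ wt V i
  wtD : ∀ V ∈ Z, ∀ i, wt V i ≤ D
  D1 : 1 ≤ D
  sep : ∀ V ∈ Z, ∀ V' ∈ Z, V ≠ V' → ∃ j, ∃ a ∈ A j, (V j).valuation a = 1 ∧
    (V' j).valuation a < 1
  ft : Algebra.FiniteType k (BB e A)
  rg : IsRegularRing (BB e A)
  ind : ∀ V ∈ Z, ∀ (q : Ideal (BB e A)) [q.IsPrime], Over q V → ∀ (t : ∀ i, E i)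
    (ht : ∀ i, t i ∈ A i ∧ IsUf (V i) (t i)),
    Ind (fun i => algebraMap (BB e A) (Localization.AtPrime q) ⟨e i (t i), mem_BB i (ht i).1⟩)

variable {e : ∀ i, E i →ₐ[k] L} {A : ∀ i, Subalgebra k (E i)}
  {Z : Set (∀ i, ValuationSubring (E i))} {wt : (∀ i, ValuationSubring (E i)) → ι → ℕ} {D : ℕ}

lemma CD.filt (h : CD e A Z wt D) : Filt (BB e A) (FF e A Z wt) := filt_FF h.loc

/-- The local generators. -/
theorem CD.gens (h : CD e A Z wt D) {V : ∀ i, ValuationSubring (E i)} (hV : V ∈ Z)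
    {c : L} (hc : UV e A V c) (hcN : ∀ V' ∈ Z, V' ≠ V → c ∈ JJ e V' (wt V') D)
    {t : ∀ i, E i} (ht : ∀ i, t i ∈ A i ∧ IsUf (V i) (t i)) (i : ι) :
    hm (wt V i : ℤ) (c * e i (t i)) ∈ RF (FF e A Z wt) D := by
  refine RF_hm (h.wtD V hV i) (mem_FF.2 ⟨(BB e A).mul_mem hc.mem (mem_BB i (ht i).1), ?_⟩)
  intro V' hV'
  by_cases hVV : V' = V
  · subst hVV
    have h1 := BB_le_JJ (e := e) (h.loc V' hV') (wt V') hc.mem le_rfl
    have h2 : e i (t i) ∈ JJ e V' (wt V') (wt V' i) := by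
      refine JJ_single (h.loc V' hV').uf' i (a := 1) ((pw_one (ht i).2).2 (ht i).2.2.1) ?_
      rw [mul_one]
    have h3 := JJ_mul h1 h2
    rwa [zero_add] at h3
  · have h1 := hcN V' hV' hVV
    have h2 := BB_le_JJ (e := e) (h.loc V' hV') (wt V') (mem_BB i (ht i).1) le_rfl
    have h3 := JJ_mul h1 h2
    rw [add_zero] at h3
    exact JJ_anti (by exact_mod_cast h.wtD V hV i) h3

/-- The primes which contain the positive part lie over one of the points. -/
theorem CD.over (h : CD e A Z wt D) (Q : Ideal (BB e A)) [hQ : Q.IsPrime]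
    (hpos : ∀ y : BB e A, hm 1 (y : L) ∈ RF (FF e A Z wt) D → y ∈ Q) :
    ∃ V ∈ Z, Over Q V := by
  classical
  by_contra hcon
  push Not at hcon
  have h1 : ∀ V : ∀ i, ValuationSubring (E i), ∃ x : BB e A, x ∉ Q ∧
      (V ∈ Z → (x : L) ∈ JJ e V (wt V) 1) := by
    intro V
    by_cases hV : V ∈ Z
    · have h2 := hcon V hV
      unfold Over at h2
      push Not at h2
      obtain ⟨i, a, ha, ha1, ha2⟩ := h2
      refine ⟨_, ha2, fun _ => ?_⟩
      obtain ⟨t, ht⟩ := (h.loc V hV).uf' i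
      refine JJ_single (h.loc V hV).uf' i ((pw_one ht).2 ha1) ?_
      have := h.wt1 V hV i
      rw [mul_one]
      exact_mod_cast this
    · exact ⟨1, fun h2 => hQ.ne_top ((Ideal.eq_top_iff_one _).2 h2), fun h2 => absurd h2 hV⟩
  choose x hx1 hx2 using h1
  have h3 : (∏ V ∈ h.fin.toFinset, x V) ∉ Q := by
    rw [hQ.prod_mem_iff]
    push Not
    exact fun V _ => hx1 V
  apply h3
  apply hpos
  refine RF_hm (d := 1) h.D1 (mem_FF.2 ⟨Subtype.mem _, ?_⟩)
  intro V hV
  rw [← Finset.mul_prod_erase _ _ (h.fin.mem_toFinset.2 hV)]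
  have h4 := JJ_mul (hx2 V hV) (BB_le_JJ (h.loc V hV) (wt V)
    (∏ V ∈ h.fin.toFinset.erase V, x V : BB e A).2 le_rfl)
  rwa [add_zero] at h4

lemma KK_le {t : ∀ i, E i} (ht : ∀ i, t i ∈ A i) {w : ι → ℕ} {d : ℤ} {x : L}
    (hx : x ∈ KK e A t w d) : x ∈ BB e A := by
  induction hx using Submodule.span_induction with
  | mem x hx =>
    obtain ⟨a, b, hb, -, rfl⟩ := hx
    exact (BB e A).mul_mem hb (Subalgebra.prod_mem _ fun i _ =>
      Subalgebra.pow_mem _ (mem_BB i (ht i)) _)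
  | zero => exact (BB e A).zero_mem
  | add x y _ _ hx hy => exact (BB e A).add_mem hx hy
  | smul r x _ hx => exact (BB e A).smul_mem hx r

/-- The graded algebra is regular. -/
theorem CD.reg (h : CD e A Z wt D) : IsRegularRing (RF (FF e A Z wt) D) := by
  classical
  have hF := h.filt
  have hft : Algebra.FiniteType k (RF (FF e A Z wt) D) := RF_ft hF h.ft
  have hN : IsNoetherianRing (RF (FF e A Z wt) D) := Algebra.FiniteType.isNoetherianRing k _
  refine Pool.Agent.Y563.GW.t_WCH Pool.Agent.Y901.G.t_WREG k L (RF (FF e A Z wt) D) hN RF_gr RF_ss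
    (RF_cf hF) (BB e A) (BB e A).val.toRingHom Subtype.val_injective ?_ h.rg ?_
  · intro y
    rw [RF_mem0 hF]
    exact ⟨fun hy => ⟨⟨y, hy⟩, rfl⟩, fun ⟨c, hc⟩ => hc ▸ c.2⟩
  intro Q hQ hpos
  obtain ⟨V, hV, hover⟩ := h.over Q fun y hy => hpos 1 y one_pos hy
  choose t htA ht using (h.loc V hV).uf
  obtain ⟨c, hc, hcN⟩ := exists_sep (e := e) h.fin h.loc h.wt1 h.sep hV D
  have hcQ : (⟨c, hc.mem⟩ : BB e A) ∉ Q := hover.not_mem hQ (h.loc V hV) hc
  set Bq := Localization.AtPrime Q with hBq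
  have hcu : IsUnit (algebraMap (BB e A) Bq ⟨c, hc.mem⟩) :=
    IsLocalization.map_units Bq (⟨⟨c, hc.mem⟩, hcQ⟩ : Q.primeCompl)
  let x : ι → BB e A := fun i => ⟨c * e i (t i), (BB e A).mul_mem hc.mem (mem_BB i (htA i))⟩
  let t' : ι → BB e A := fun i => ⟨e i (t i), mem_BB i (htA i)⟩
  have hxt : ∀ i, algebraMap (BB e A) Bq (x i) =
      algebraMap (BB e A) Bq ⟨c, hc.mem⟩ * algebraMap (BB e A) Bq (t' i) := by
    intro i
    rw [← map_mul]
    rfl
  have hind := h.ind V hV Q hover t (fun i => ⟨htA i, ht i⟩)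
  refine ⟨ι, inferInstance, x, wt V, ?_, ?_, ?_⟩
  · intro i
    exact ⟨h.wt1 V hV i, h.gens hV hc hcN (fun i => ⟨htA i, ht i⟩) i⟩
  · -- independence
    refine ⟨fun i => ?_, fun b hb i => ?_⟩
    · change algebraMap (BB e A) Bq (x i) ∈ _
      rw [hxt]
      exact Ideal.mul_mem_left _ _ (hind.1 i)
    · have h1 : ∑ i, (b i * algebraMap (BB e A) Bq ⟨c, hc.mem⟩) * algebraMap (BB e A) Bq (t' i) ∈
          maximalIdeal Bq ^ 2 := by
        have h2 : ∑ i, (b i * algebraMap (BB e A) Bq ⟨c, hc.mem⟩) *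
            algebraMap (BB e A) Bq (t' i) = ∑ i, b i * algebraMap (BB e A) Bq (x i) :=
          Finset.sum_congr rfl fun i _ => by rw [hxt]; ring
        rw [h2]
        exact hb
      have h2 := hind.2 _ h1 i
      exact (Ideal.mul_unit_mem_iff_mem _ hcu).1 h2
  · intro n y hy
    have h1 := (mem_FF.1 (RF_mem hF hy)).2 V hV
    obtain ⟨s, hs, hsy⟩ := exists_KK (h.loc V hV) (fun i => ⟨htA i, ht i⟩) h1
    have hsQ : (⟨s, hs.mem⟩ : BB e A) ∉ Q := hover.not_mem hQ (h.loc V hV) hs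
    have hsu : IsUnit (algebraMap (BB e A) Bq ⟨s, hs.mem⟩) :=
      IsLocalization.map_units Bq (⟨⟨s, hs.mem⟩, hsQ⟩ : Q.primeCompl)
    have key : ∀ z, z ∈ KK e A t (wt V) n → ∀ hz : z ∈ BB e A,
        algebraMap (BB e A) Bq ⟨z, hz⟩ ∈
          FI (fun i => algebraMap (BB e A) Bq (x i)) (wt V) n := by
      intro z hz
      induction hz using Submodule.span_induction with
      | mem z hz =>
        obtain ⟨a, b, hb, h2, rfl⟩ := hz
        intro hz
        have h3 : (⟨b * ∏ i, e i (t i) ^ a i, hz⟩ : BB e A) = ⟨b, hb⟩ * ∏ i, t' i ^ a i := by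
          apply Subtype.ext
          have h4 := map_prod (BB e A).val (fun i => t' i ^ a i) Finset.univ
          change b * ∏ i, e i (t i) ^ a i = b * (BB e A).val (∏ i, t' i ^ a i)
          rw [h4]
          congr 1
        rw [h3, map_mul]
        apply Ideal.mul_mem_left
        obtain ⟨u, hu⟩ := hcu
        have h5 : algebraMap (BB e A) Bq (∏ i, t' i ^ a i) =
            (↑(u⁻¹) : Bq) ^ (∑ i, a i) * ∏ i, algebraMap (BB e A) Bq (x i) ^ a i := by
          rw [map_prod, ← Finset.prod_pow_eq_pow_sum, ← Finset.prod_mul_distrib]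
          refine Finset.prod_congr rfl fun i _ => ?_
          rw [map_pow, ← mul_pow, hxt, ← hu, ← mul_assoc, Units.inv_mul, one_mul]
        rw [h5]
        apply Ideal.mul_mem_left
        exact Ideal.subset_span ⟨a, by exact_mod_cast h2, rfl⟩
      | zero => intro hz; rw [show (⟨0, hz⟩ : BB e A) = 0 from rfl, map_zero]; exact Ideal.zero_mem _
      | add z z' hz1 hz1' ih ih' =>
        intro hz
        have hz2 := KK_le htA hz1
        have hz3 := KK_le htA hz1'
        have h3 : (⟨z + z', hz⟩ : BB e A) = ⟨z, hz2⟩ + ⟨z', hz3⟩ := rfl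
        rw [h3, map_add]
        exact Ideal.add_mem _ (ih hz2) (ih' hz3)
      | smul r z hz1 ih =>
        intro hz
        have hz2 := KK_le htA hz1
        have h3 : (⟨r • z, hz⟩ : BB e A) = algebraMap k (BB e A) r * ⟨z, hz2⟩ := by
          apply Subtype.ext
          change r • z = algebraMap k L r * z
          rw [Algebra.smul_def]
        rw [h3, map_mul]
        exact Ideal.mul_mem_left _ _ (ih hz2)
    have h6 := key _ hsy ((BB e A).mul_mem hs.mem y.2)
    have h7 : (⟨s * y, (BB e A).mul_mem hs.mem y.2⟩ : BB e A) = ⟨s, hs.mem⟩ * y := rfl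
    have h8 : algebraMap (BB e A) Bq ⟨s, hs.mem⟩ * algebraMap (BB e A) Bq y ∈
        FI (fun i => algebraMap (BB e A) Bq (x i)) (wt V) n := by
      rw [← map_mul]
      exact h6
    exact (Ideal.unit_mul_mem_iff_mem _ hsu).1 h8

/-- The graded algebra of the weighted blowup. -/
theorem CD.isCh [Nonempty ι] (h : CD e A Z wt D) : Ch (RF (FF e A Z wt) D) := by
  classical
  have hF := h.filt
  have hreg := h.reg
  refine ⟨RF_ft hF h.ft, RF_gr, RF_ss, RF_cf hF, ?_, ?_⟩
  · -- an element of positive degree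
    have h1 : ∀ V : ∀ i, ValuationSubring (E i), ∃ x : L, x ∈ BB e A ∧ x ≠ 0 ∧
        (V ∈ Z → x ∈ JJ e V (wt V) 1) := by
      intro V
      obtain ⟨i⟩ := (inferInstance : Nonempty ι)
      by_cases hV : V ∈ Z
      · obtain ⟨t, htA, ht⟩ := (h.loc V hV).uf i
        refine ⟨e i t, mem_BB i htA, fun h0 => ht.1 ?_, fun _ => ?_⟩
        · exact (map_eq_zero_iff (e i) (e i).toRingHom.injective).1 h0
        · refine JJ_single (h.loc V hV).uf' i ((pw_one ht).2 ht.2.1) ?_
          have := h.wt1 V hV i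
          rw [mul_one]
          exact_mod_cast this
      · exact ⟨1, (BB e A).one_mem, one_ne_zero, fun h2 => absurd h2 hV⟩
    choose x hx1 hx0 hx2 using h1
    refine ⟨1, ∏ V ∈ h.fin.toFinset, x V, one_pos, Finset.prod_ne_zero_iff.2 fun V _ => hx0 V, ?_⟩
    refine RF_hm (d := 1) h.D1 (mem_FF.2 ⟨Subalgebra.prod_mem _ fun V _ => hx1 V, ?_⟩)
    intro V hV
    rw [← Finset.mul_prod_erase _ _ (h.fin.mem_toFinset.2 hV)]
    have h4 := JJ_mul (hx2 V hV) (BB_le_JJ (h.loc V hV) (wt V)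
      (Subalgebra.prod_mem (BB e A) (t := h.fin.toFinset.erase V) (f := x) fun V _ => hx1 V) le_rfl)
    rwa [add_zero] at h4
  · intro d η he hd hη
    let _ := locAlg (RF (FF e A Z wt) D) he
    have h1 := isLocalization_loc (RF (FF e A Z wt) D) he (isUnit_hm hη)
    exact regular_of_isLocalization (.powers (⟨hm d η, he⟩ : RF (FF e A Z wt) D))

end Run7.h802.Cv
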