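import Pool.Agent.Run7.h802.Cv4
import Pool.Agent.Run7.h802.Cv8

/-!
# The charts of a product of curves
-/

set_option autoImplicit false
set_option linter.unusedVariables false
set_option linter.unusedSectionVars false

namespace Run7.h802.Cv

open Pool.Agent.Y223.G Pool.Agent.W418.LU2 IsLocalRing Pool.Agent.H639R3 Pool.Agent.H920R2

section loc

variable {k E : Type} [Field k] [Finite k] [Field E] [Algebra k E] [Algebra.EssFiniteType k E]
  {s : E} (hs : SepEl k s)

include hs

lemma AA_max (V : ValuationSubring E) (hV : Pt k V) (c : Bool) (hc : ch s c ∈ V) :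
    ∃ h : ∀ a : AA k s c, algebraMap (AA k s c) E a ∈ V, (cent V h).IsMaximal := by
  have := AA_ded hs c
  have := AA_frac hs c
  have h : ∀ a : AA k s c, algebraMap (AA k s c) E a ∈ V := fun a =>
    AA_val V hV.const c hc a.2
  refine ⟨h, ?_⟩
  have h1 := cent_isPrime V h
  have h2 := cent_ne_bot V h hV.ne
  exact h1.isMaximal h2

lemma AA_inv (V : ValuationSubring E) (hV : Pt k V) (c : Bool) (hc : ch s c ∈ V) {a : E}
    (ha : a ∈ AA k s c) (ha1 : V.valuation a = 1) :
    ∃ b ∈ AA k s c, V.valuation (a * b - 1) < 1 := by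
  obtain ⟨h, hm⟩ := AA_max hs V hV c hc
  have h1 : (⟨a, ha⟩ : AA k s c) ∉ cent V h := by
    rw [mem_cent]
    change ¬ V.valuation a < 1
    rw [ha1]
    exact lt_irrefl _
  obtain ⟨b, i, hi, hb⟩ := hm.exists_inv h1
  refine ⟨b, b.2, ?_⟩
  rw [mem_cent] at hi
  have h2 : a * b - 1 = -(algebraMap (AA k s c) E i) := by
    have h3 := congrArg (algebraMap (AA k s c) E) hb
    rw [map_add, map_mul, map_one] at h3
    have h4 : algebraMap (AA k s c) E ⟨a, ha⟩ = a := rfl
    have h5 : algebraMap (AA k s c) E b = b := rfl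
    rw [h4, h5] at h3
    linear_combination h3
  rw [h2, Valuation.map_neg]
  exact hi

lemma AA_sep (V V' : ValuationSubring E) (hV : Pt k V) (hV' : Pt k V') (c : Bool)
    (hc : ch s c ∈ V) (hc' : ch s c ∈ V') (hne : V ≠ V') :
    ∃ a ∈ AA k s c, V.valuation a = 1 ∧ V'.valuation a < 1 := by
  have := AA_ded hs c
  have := AA_frac hs c
  obtain ⟨h, hm⟩ := AA_max hs V hV c hc
  obtain ⟨h', hm'⟩ := AA_max hs V' hV' c hc'
  have h1 : ¬ cent V' h' ≤ cent V h := by
    intro hle
    have h2 := hm'.eq_of_le hm.ne_top hle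
    exact hne (eq_of_cent_eq V V' h h' hV.ne hV'.ne h2.symm)
  obtain ⟨a, ha', ha⟩ := SetLike.not_le_iff_exists.1 h1
  exact ⟨a, a.2, val_eq_one V h a ha, (mem_cent V' h' a).1 ha'⟩

end loc

section prod

variable {k L : Type} [Field k] [Finite k] [Field L] [Algebra k L] {ι : Type} [Fintype ι]
  [DecidableEq ι] {E : ι → Type} [∀ i, Field (E i)] [∀ i, Algebra k (E i)]
  [∀ i, Algebra.EssFiniteType k (E i)] {e : ∀ i, E i →ₐ[k] L} {s : ∀ i, E i}

lemma ld_map (hld : ∀ (S : Finset ι) (i : ι), i ∉ S →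
    (⨆ j ∈ S, (e j).range).LinearDisjoint (e i).range) (A : ∀ i, Subalgebra k (E i))
    (S : Finset ι) (i : ι) (hi : i ∉ S) :
    (⨆ j ∈ S, (A j).map (e j)).LinearDisjoint ((A i).map (e i)) := by
  refine all_LDG k k L (algebraMap k L).injective (fun o => ⟨o, rfl⟩)
    (fun x => ⟨x, 1, one_ne_zero, by rw [map_one, mul_one]⟩) _ _ _ _ ?_ ?_ (hld S i hi)
  · intro a ha
    have h1 : (⨆ j ∈ S, (A j).map (e j)) ≤ ⨆ j ∈ S, (e j).range := by
      refine iSup₂_mono fun j _ => ?_
      rintro _ ⟨x, -, rfl⟩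
      exact ⟨x, rfl⟩
    exact h1 ha
  · rintro _ ⟨x, -, rfl⟩
    exact ⟨x, rfl⟩

lemma locV (hs : ∀ i, SepEl k (s i)) (c : ι → Bool) {V : ∀ i, ValuationSubring (E i)}
    (hV : ∀ i, Pt k (V i)) (hc : ∀ i, ch (s i) (c i) ∈ V i) :
    LocV (fun i => AA k (s i) (c i)) V where
  le i a ha := AA_val (V i) (hV i).const (c i) (hc i) ha
  den i z hz := by
    have := AA_ded (hs i) (c i)
    have := AA_frac (hs i) (c i)
    obtain ⟨h, -⟩ := AA_max (hs i) (V i) (hV i) (c i) (hc i)
    obtain ⟨a, b, hb, hab⟩ := exists_den (V i) h (hV i).ne hz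
    exact ⟨a, a.2, b, b.2, hb, hab⟩
  uf i := by
    have := AA_ded (hs i) (c i)
    have := AA_frac (hs i) (c i)
    obtain ⟨h, -⟩ := AA_max (hs i) (V i) (hV i) (c i) (hc i)
    obtain ⟨t, ht, -⟩ := exists_uf (V i) h (hV i).ne
    exact ⟨t, t.2, ht⟩
  inv i a ha ha1 := AA_inv (hs i) (V i) (hV i) (c i) (hc i) ha ha1

lemma bb_reg (hs : ∀ i, SepEl k (s i)) (hld : ∀ (S : Finset ι) (i : ι), i ∉ S →
    (⨆ j ∈ S, (e j).range).LinearDisjoint (e i).range) (c : ι → Bool) :
    IsRegularRing (BB e (fun i => AA k (s i) (c i))) := by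
  refine all_SMRG k L (algebraMap k L).injective ι (fun i => (AA k (s i) (c i)).map (e i)) ?_
    (ld_map hld _) ?_
  · intro i
    have h1 := AA_ft (hs i) (c i)
    exact Algebra.FiniteType.equiv h1
      ((AA k (s i) (c i)).equivMapOfInjective (e i) (e i).toRingHom.injective)
  · intro i q _
    have h1 := AA_ft (hs i) (c i)
    have h2 := AA_ded (hs i) (c i)
    have h3 : Algebra.Smooth k (AA k (s i) (c i)) := smooth_dedekind (AA_nf (hs i) (c i))
    have h4 : Algebra.Smooth k ((AA k (s i) (c i)).map (e i)) :=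
      Algebra.Smooth.of_equiv
        ((AA k (s i) (c i)).equivMapOfInjective (e i) (e i).toRingHom.injective)
    have h5 : Algebra.FormallySmooth ((AA k (s i) (c i)).map (e i)) (Localization.AtPrime q) :=
      Algebra.FormallySmooth.of_isLocalization q.primeCompl
    exact Algebra.FormallySmooth.comp k ((AA k (s i) (c i)).map (e i)) (Localization.AtPrime q)

lemma bb_ft (hs : ∀ i, SepEl k (s i)) (c : ι → Bool) :
    Algebra.FiniteType k (BB e (fun i => AA k (s i) (c i))) := by
  refine Pool.Agent.Y901.G.ft_iSup (fun i => (AA k (s i) (c i)).map (e i)) ?_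
  intro i
  have h1 := AA_ft (hs i) (c i)
  exact Algebra.FiniteType.equiv h1
    ((AA k (s i) (c i)).equivMapOfInjective (e i) (e i).toRingHom.injective)

/-- The chart of a product of curves with its weighted centres. -/
theorem cd_curve (p : ℕ) [Fact p.Prime] [CharP k p] (hs : ∀ i, SepEl k (s i))
    (hld : ∀ (S : Finset ι) (i : ι), i ∉ S → (⨆ j ∈ S, (e j).range).LinearDisjoint (e i).range)
    (c : ι → Bool) (Z : Set (∀ i, ValuationSubring (E i))) (hZf : Z.Finite)
    (hZ : ∀ V ∈ Z, ∀ i, Pt k (V i) ∧ ch (s i) (c i) ∈ V i)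
    (wt : (∀ i, ValuationSubring (E i)) → ι → ℕ) (D : ℕ) (hwt : ∀ V ∈ Z, ∀ i, 1 ≤ wt V i)
    (hwD : ∀ V ∈ Z, ∀ i, wt V i ≤ D) (hD : 1 ≤ D) :
    CD e (fun i => AA k (s i) (c i)) Z wt D where
  fin := hZf
  loc V hV := locV hs c (fun i => (hZ V hV i).1) (fun i => (hZ V hV i).2)
  wt1 := hwt
  wtD := hwD
  D1 := hD
  sep V hV V' hV' hne := by
    obtain ⟨j, hj⟩ := Function.ne_iff.1 hne
    exact ⟨j, AA_sep (hs j) (V j) (V' j) (hZ V hV j).1 (hZ V' hV' j).1 (c j) (hZ V hV j).2
      (hZ V' hV' j).2 hj⟩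
  ft := bb_ft hs c
  rg := bb_reg hs hld c
  ind V hV q hq hover t ht := by
    classical
    suffices hE : EtAt (BB e (fun i => AA k (s i) (c i))) q
        (fun x : (i : ι) × Unit => ⟨e x.1 (t x.1), mem_BB x.1 (ht x.1).1⟩) by
      have h1 := ind_of_etAt (BB e (fun i => AA k (s i) (c i))) q _ hE
        (fun x => hover x.1 (t x.1) (ht x.1).1 (ht x.1).2.2.1)
      refine ⟨fun i => h1.1 ⟨i, ()⟩, fun b hb i => ?_⟩
      refine h1.2 (fun x => b x.1) ?_ ⟨i, ()⟩
      rw [Fintype.sum_sigma]
      have h2 : ∀ i : ι, ∑ y : Unit, (fun x : (i : ι) × Unit => b x.1) ⟨i, y⟩ *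
          algebraMap (BB e (fun i => AA k (s i) (c i))) (Localization.AtPrime q)
            ⟨e i (t i), mem_BB i (ht i).1⟩ = b i *
          algebraMap (BB e (fun i => AA k (s i) (c i))) (Localization.AtPrime q)
            ⟨e i (t i), mem_BB i (ht i).1⟩ := by
        intro i
        rw [Fintype.sum_unique]
      rw [Finset.sum_congr rfl fun i _ => h2 i]
      exact hb
    have hq' : (show Ideal (⨆ i, (AA k (s i) (c i)).map (e i) : Subalgebra k L) from q).IsPrime :=
      hq
    refine all_ETF k L (algebraMap k L).injective ι (fun i => (AA k (s i) (c i)).map (e i))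
      (ld_map hld _) (show Ideal (⨆ i, (AA k (s i) (c i)).map (e i) : Subalgebra k L) from q)
      (fun _ => Unit) (fun i _ => ⟨e i (t i), ⟨t i, (ht i).1, rfl⟩⟩) ?_
    · intro i
      have := AA_ded (hs i) (c i)
      have := AA_frac (hs i) (c i)
      obtain ⟨h, hm⟩ := AA_max (hs i) (V i) (hZ V hV i).1 (c i) (hZ V hV i).2
      let φ := (AA k (s i) (c i)).equivMapOfInjective (e i) (e i).toRingHom.injective
      set 𝔭 : Ideal ((AA k (s i) (c i)).map (e i)) :=
        (show Ideal (⨆ i, (AA k (s i) (c i)).map (e i) : Subalgebra k L) from q).comap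
        (Subalgebra.inclusion (le_iSup (fun i => (AA k (s i) (c i)).map (e i)) i) :
          (AA k (s i) (c i)).map (e i) →+* _) with h𝔭
      have h𝔭p : 𝔭.IsPrime := Ideal.comap_isPrime _ _
      have h𝔭p' : (𝔭.comap (φ : AA k (s i) (c i) →+* (AA k (s i) (c i)).map (e i))).IsPrime :=
        Ideal.comap_isPrime _ _
      have hcent : cent (V i) h = 𝔭.comap (φ : AA k (s i) (c i) →+* _) := by
        apply hm.eq_of_le h𝔭p'.ne_top
        intro a ha
        exact hover i a a.2 ((mem_cent (V i) h a).1 ha)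
      have h𝔭m : 𝔭.IsMaximal := by
        have h1 : (𝔭.comap (φ : AA k (s i) (c i) →+* (AA k (s i) (c i)).map (e i))).IsMaximal := by
          rw [← hcent]; exact hm
        have h2 := Ideal.map_isMaximal_of_equiv
          (φ : AA k (s i) (c i) ≃+* (AA k (s i) (c i)).map (e i))
          (p := 𝔭.comap (φ : AA k (s i) (c i) →+* (AA k (s i) (c i)).map (e i)))
        have h3 : Ideal.map (φ : AA k (s i) (c i) ≃+* (AA k (s i) (c i)).map (e i))
            (𝔭.comap (φ : AA k (s i) (c i) →+* (AA k (s i) (c i)).map (e i))) = 𝔭 :=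
          Ideal.map_comap_of_surjective
            (φ : AA k (s i) (c i) →+* (AA k (s i) (c i)).map (e i)) φ.surjective 𝔭
        rw [h3] at h2
        exact h2
      have hft : Algebra.FiniteType k ((AA k (s i) (c i)).map (e i)) :=
        Algebra.FiniteType.equiv (AA_ft (hs i) (c i)) φ
      refine etAt_unif p ((AA k (s i) (c i)).map (e i)) hft 𝔭 ?_ ?_ ?_
      · exact hover i (t i) (ht i).1 (ht i).2.2.1
      · intro h0
        have h1 : e i (t i) = 0 := congrArg Subtype.val h0
        exact (ht i).2.1 ((map_eq_zero_iff (e i) (e i).toRingHom.injective).1 h1)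
      · rintro ⟨_, b, hb, rfl⟩ hbm
        have h1 : (⟨b, hb⟩ : AA k (s i) (c i)) ∈ cent (V i) h := by
          rw [hcent]
          exact hbm
        rw [mem_cent] at h1
        have h2 : (V i).valuation b ≤ (V i).valuation (t i) ^ 1 := by
          rw [pow_one]
          exact (ht i).2.2.2 b h1
        obtain ⟨z, hz, hzb⟩ := (ht i).2.exists_mul h2
        rw [pow_one] at hzb
        obtain ⟨a, f, hf, haf⟩ := exists_den (V i) h (hZ V hV i).1.ne hz
        refine ⟨φ f, ?_, φ a, ?_⟩
        · intro hfm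
          have h3 : f ∈ cent (V i) h := by
            rw [hcent]
            exact hfm
          rw [mem_cent, hf] at h3
          exact lt_irrefl _ h3
        · apply Subtype.ext
          change e i f * e i b = e i (t i) * e i a
          rw [← map_mul, ← map_mul]
          congr 1
          have h4 : z * (f : E i) = a := haf
          rw [hzb, ← h4]
          ring

end prod

end Run7.h802.Cv
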