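import Pool.Agent.Run7.h802.Cv10

/-!
# Ramification of an automorphism of a discrete valuation ring with perfect residue field
-/

set_option autoImplicit false
set_option linter.unusedVariables false
set_option linter.unusedSectionVars false

namespace Run7.h802.Rz

open Run7.h802.Cv

variable {E : Type} [Field E]

/-- Approximation by powers. -/
theorem exists_root (p : ℕ) [Fact p.Prime] [CharP E p] {V : ValuationSubring E}
    (hq : ∀ x ∈ V, ∃ y ∈ V, V.valuation (y ^ p - x) < 1) :
    ∀ M : ℕ, ∀ x ∈ V, ∃ y ∈ V, V.valuation (y ^ p ^ M - x) < 1 := by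
  have hp : p.Prime := Fact.out
  have hexp : ExpChar E p := ExpChar.prime hp
  intro M
  induction M with
  | zero => exact fun x hx => ⟨x, hx, by simp⟩
  | succ M ih =>
    intro x hx
    obtain ⟨y, hy, h1⟩ := ih x hx
    obtain ⟨z, hz, h2⟩ := hq y hy
    refine ⟨z, hz, ?_⟩
    have h3 : z ^ p ^ (M + 1) - x = (z ^ p - y) ^ p ^ M + (y ^ p ^ M - x) := by
      rw [sub_pow_expChar_pow, pow_succ', pow_mul]
      ring
    rw [h3]
    refine V.valuation.map_add_lt ?_ h1
    rw [map_pow]
    exact pow_lt_one₀ zero_le h2 (pow_ne_zero _ hp.ne_zero)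

/-- The bound for the values of `g - 1`. -/
theorem ram_le (p : ℕ) [Fact p.Prime] [CharP E p] {V : ValuationSubring E} {t : E}
    (ht : IsUf V t) (g : E ≃+* E)
    (hq : ∀ x ∈ V, ∃ y ∈ V, V.valuation (y ^ p - x) < 1)
    (hg : ∀ x ∈ V, V.valuation (g x - x) < 1) {b : ℕ}
    (hb : V.valuation (g t - t) ≤ V.valuation t ^ b) :
    ∀ x ∈ V, V.valuation (g x - x) ≤ V.valuation t ^ b := by
  have hp : p.Prime := Fact.out
  have hexp : ExpChar E p := ExpChar.prime hp
  have hQ := exists_root p hq
  have key : ∀ a : ℕ, a ≤ b → ∀ x ∈ V, V.valuation (g x - x) ≤ V.valuation t ^ a := by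
    intro a
    induction a with
    | zero => intro _ x hx; rw [pow_zero]; exact (hg x hx).le
    | succ a ih =>
      intro hab x hx
      have ih' := ih (by omega)
      obtain ⟨x₁, hx₁, hyx⟩ := hQ (a + 1) x hx
      set y := x₁ ^ p ^ (a + 1) with hy
      have h1 : V.valuation (x - y) ≤ V.valuation t ^ 1 := by
        rw [pow_one, Valuation.map_sub_swap]
        exact ht.2.2 _ hyx
      obtain ⟨z, hz, hxz⟩ := ht.exists_mul h1
      rw [pow_one] at hxz
      have h2 : g x - x = (g y - y) + ((g t - t) * g z + t * (g z - z)) := by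
        have : x = y + t * z := by rw [← hxz]; ring
        rw [this, map_add, map_mul]
        ring
      have h3 : V.valuation (g y - y) ≤ V.valuation t ^ (a + 1) := by
        have e1 : g y - y = (g x₁ - x₁) ^ p ^ (a + 1) := by
          rw [hy, map_pow, sub_pow_expChar_pow]
        rw [e1, map_pow]
        have h4 : V.valuation (g x₁ - x₁) ≤ V.valuation t := ht.2.2 _ (hg x₁ hx₁)
        have h5 : a + 1 ≤ p ^ (a + 1) := (Nat.lt_pow_self hp.one_lt).le
        exact (pow_le_pow_left' h4 _).trans (ht.pow_anti h5)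
      have hgz : g z ∈ V := by
        have h7 : g z = (g z - z) + z := by ring
        rw [h7]
        exact V.add_mem _ _ ((V.valuation_le_one_iff _).1 (hg z hz).le) hz
      have h8 : V.valuation ((g t - t) * g z) ≤ V.valuation t ^ (a + 1) := by
        rw [map_mul]
        calc V.valuation (g t - t) * V.valuation (g z) ≤ V.valuation t ^ b * 1 := by
              gcongr
              exact (V.valuation_le_one_iff _).2 hgz
          _ ≤ V.valuation t ^ (a + 1) := by rw [mul_one]; exact ht.pow_anti hab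
      have h9 : V.valuation (t * (g z - z)) ≤ V.valuation t ^ (a + 1) := by
        rw [map_mul, pow_succ']
        gcongr
        exact ih' z hz
      rw [h2]
      exact V.valuation.map_add_le h3 (V.valuation.map_add_le h8 h9)
  exact key b le_rfl

/-- An element of the inertia group which acts trivially on the cotangent space is trivial, if its
order is a unit of the residue field. -/
theorem tame_trivial (p : ℕ) [Fact p.Prime] [CharP E p] {V : ValuationSubring E} {t : E}
    (ht : IsUf V t) (harch : ∀ x, (∀ a : ℕ, V.valuation x ≤ V.valuation t ^ a) → x = 0)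
    (g : E ≃+* E)
    (hq : ∀ x ∈ V, ∃ y ∈ V, V.valuation (y ^ p - x) < 1)
    (hg : ∀ x ∈ V, V.valuation (g x - x) < 1)
    (hw : V.valuation (g t - t) ≤ V.valuation t ^ 2) {l : ℕ} (hl : l ≠ 0)
    (hlp : V.valuation (l : E) = 1) (hgl : ∀ x, g^[l] x = x) : ∀ x ∈ V, g x = x := by
  have htV : t ∈ V := (V.valuation_le_one_iff _).1 ht.2.1.le
  by_cases h0 : ∀ a : ℕ, V.valuation (g t - t) ≤ V.valuation t ^ a
  · intro x hx
    have h1 := harch (g x - x) fun a => ram_le p ht g hq hg (h0 a) x hx
    exact sub_eq_zero.1 h1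
  exfalso
  push Not at h0
  -- the value of `g t - t`
  classical
  obtain ⟨a, ha1, hmin⟩ : ∃ a, V.valuation t ^ a < V.valuation (g t - t) ∧
      ∀ b < a, ¬ V.valuation t ^ b < V.valuation (g t - t) :=
    ⟨Nat.find h0, Nat.find_spec h0, fun b hb => Nat.find_min h0 hb⟩
  have ha2 : 3 ≤ a := by
    by_contra hcon
    have : a ≤ 2 := by omega
    have h2 := ht.pow_anti this
    exact absurd ha1 (not_lt.2 (hw.trans h2))
  obtain ⟨m, rfl⟩ : ∃ m, a = m + 2 := ⟨a - 2, by omega⟩
  have hm1 : 1 ≤ m := by omega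
  have ha3 : V.valuation (g t - t) ≤ V.valuation t ^ (m + 1) :=
    not_lt.1 (hmin (m + 1) (by omega))
  have hmV := ram_le p ht g hq hg ha3
  set y := g t - t with hy
  have hgy : ∀ j : ℕ, V.valuation (g^[j] t - t - j * y) ≤ V.valuation t ^ (m + 1 + m) := by
    intro j
    induction j with
    | zero => simp
    | succ j ih =>
      have h4 : g^[j + 1] t - t - ((j + 1 : ℕ) : E) * y =
          g (g^[j] t - t - j * y) + j * (g y - y) := by
        rw [Function.iterate_succ_apply', map_sub, map_sub, map_mul, map_natCast]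
        push_cast
        rw [hy]
        ring
      rw [h4]
      apply V.valuation.map_add_le
      · have h5 : g (g^[j] t - t - j * y) = (g (g^[j] t - t - j * y) - (g^[j] t - t - j * y)) +
            (g^[j] t - t - j * y) := by ring
        rw [h5]
        refine V.valuation.map_add_le ((shift ht g hmV ih).trans (ht.pow_anti (by omega))) ih
      · rw [map_mul]
        calc V.valuation (j : E) * V.valuation (g y - y) ≤ 1 * V.valuation t ^ (m + 1 + m) := by
              gcongr
              · exact (V.valuation_le_one_iff _).2 (natCast_mem V j)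
              · exact shift ht g hmV ha3
          _ = V.valuation t ^ (m + 1 + m) := one_mul _
  have h6 := hgy l
  rw [hgl t, sub_self, zero_sub, Valuation.map_neg, map_mul, hlp, one_mul] at h6
  have h7 : V.valuation t ^ (m + 1 + m) ≤ V.valuation t ^ (m + 2) := ht.pow_anti (by omega)
  exact absurd ha1 (not_lt.2 (h6.trans h7))

/-- The exact value of `g t - t`. -/
theorem exists_ram (p : ℕ) [Fact p.Prime] [CharP E p] {V : ValuationSubring E} {t : E}
    (ht : IsUf V t) (harch : ∀ x, (∀ a : ℕ, V.valuation x ≤ V.valuation t ^ a) → x = 0)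
    (g : E ≃+* E)
    (hq : ∀ x ∈ V, ∃ y ∈ V, V.valuation (y ^ p - x) < 1)
    (hg : ∀ x ∈ V, V.valuation (g x - x) < 1) (hne : ∃ x ∈ V, g x ≠ x) :
    ∃ m : ℕ, V.valuation (g t - t) = V.valuation t ^ (m + 1) ∧
      ∀ x ∈ V, V.valuation (g x - x) ≤ V.valuation t ^ (m + 1) := by
  classical
  have htV : t ∈ V := (V.valuation_le_one_iff _).1 ht.2.1.le
  have h0 : ∃ a : ℕ, V.valuation t ^ a < V.valuation (g t - t) := by
    by_contra hcon
    push Not at hcon
    obtain ⟨x, hx, hxg⟩ := hne
    exact hxg (sub_eq_zero.1 (harch (g x - x) fun a => ram_le p ht g hq hg (hcon a) x hx))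
  obtain ⟨a, ha1, hmin⟩ : ∃ a, V.valuation t ^ a < V.valuation (g t - t) ∧
      ∀ b < a, ¬ V.valuation t ^ b < V.valuation (g t - t) :=
    ⟨Nat.find h0, Nat.find_spec h0, fun b hb => Nat.find_min h0 hb⟩
  have ha2 : 2 ≤ a := by
    by_contra hcon
    have h1 : a ≤ 1 := by omega
    have h2 := ht.pow_anti h1
    rw [pow_one] at h2
    exact absurd ha1 (not_lt.2 ((ht.2.2 _ (hg t htV)).trans h2))
  obtain ⟨m, rfl⟩ : ∃ m, a = m + 2 := ⟨a - 2, by omega⟩
  have h3 : V.valuation (g t - t) ≤ V.valuation t ^ (m + 1) :=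
    not_lt.1 (hmin (m + 1) (by omega))
  refine ⟨m, le_antisymm h3 ?_, ram_le p ht g hq hg h3⟩
  obtain ⟨z, hz, hzt⟩ := ht.exists_mul h3
  have h4 : V.valuation z = 1 := by
    refine le_antisymm ((V.valuation_le_one_iff _).2 hz) ?_
    by_contra hcon
    have h5 := ht.2.2 z (not_le.1 hcon)
    rw [hzt, map_mul, map_pow] at ha1
    have h6 : V.valuation t ^ (m + 1) * V.valuation z ≤ V.valuation t ^ (m + 2) := by
      rw [pow_succ _ (m + 1)]
      gcongr
    exact absurd ha1 (not_lt.2 h6)
  rw [hzt, map_mul, map_pow, h4, mul_one]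


end Run7.h802.Rz
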