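import Pool.Agent.Run7.h802.Rz8

/-!
# Norms of translations
-/

set_option autoImplicit false
set_option linter.unusedVariables false
set_option linter.unusedSectionVars false

namespace Run7.h802.Rz

open Run7.h802.Cv Polynomial

section addp

variable {k : Type} [Field k]

/-- The additive polynomial of a finite additive group. -/
noncomputable def AP (T : Finset k) : k[X] := ∏ c ∈ T, (X + C c)

lemma AP_eval (T : Finset k) (y : k) : (AP T).eval y = ∏ c ∈ T, (y + c) := by
  unfold AP
  rw [eval_prod]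
  exact Finset.prod_congr rfl fun c _ => by rw [eval_add, eval_X, eval_C]

lemma AP_monic (T : Finset k) : (AP T).Monic := monic_prod_of_monic _ _ fun c _ => monic_X_add_C c

lemma AP_deg (T : Finset k) : (AP T).natDegree = T.card := by
  unfold AP
  rw [natDegree_prod_of_monic _ _ fun c _ => monic_X_add_C c, Finset.sum_congr rfl
    fun c _ => natDegree_X_add_C c, Finset.sum_const, smul_eq_mul, mul_one]

variable {T : Finset k} (h0 : (0 : k) ∈ T) (hadd : ∀ a ∈ T, ∀ b ∈ T, a + b ∈ T)
  (hneg : ∀ a ∈ T, -a ∈ T)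

include h0 hadd hneg

lemma AP_root {a : k} (ha : a ∈ T) : (AP T).eval a = 0 := by
  rw [AP_eval]
  exact Finset.prod_eq_zero (hneg a ha) (by rw [add_neg_cancel])

lemma AP_ne {a : k} (ha : a ∉ T) : (AP T).eval a ≠ 0 := by
  rw [AP_eval, Finset.prod_ne_zero_iff]
  intro c hc h
  apply ha
  rw [add_eq_zero_iff_eq_neg] at h
  rw [h]
  exact hneg c hc

lemma AP_shift {a : k} (ha : a ∈ T) (y : k) : (AP T).eval (a + y) = (AP T).eval y := by
  rw [AP_eval, AP_eval]
  refine Finset.prod_bij' (fun c _ => a + c) (fun c _ => -a + c) ?_ ?_ ?_ ?_ ?_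
  · exact fun c hc => hadd a ha c hc
  · exact fun c hc => hadd _ (hneg a ha) c hc
  · intro c _; ring
  · intro c _; ring
  · intro c _; ring

/-- The polynomial is additive. -/
theorem AP_comp (y : k) : (AP T).comp (X + C y) = AP T + C ((AP T).eval y) := by
  have hn : 1 ≤ T.card := Finset.card_pos.2 ⟨0, h0⟩
  have hm := AP_monic T
  have hm2 : ((AP T).comp (X + C y)).Monic := hm.comp_X_add_C y
  have hd2 : ((AP T).comp (X + C y)).natDegree = T.card := by
    rw [natDegree_comp, natDegree_X_add_C, mul_one, AP_deg]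
  suffices h : (AP T).comp (X + C y) - AP T - C ((AP T).eval y) = 0 by
    linear_combination h
  refine Polynomial.eq_zero_of_natDegree_lt_card_of_eval_eq_zero' _ T ?_ ?_
  · intro a ha
    rw [eval_sub, eval_sub, eval_comp, eval_add, eval_X, eval_C, eval_C,
      AP_shift h0 hadd hneg ha, AP_root h0 hadd hneg ha]
    ring
  · have h1 : ((AP T).comp (X + C y) - AP T).degree < T.card := by
      have h2 : ((AP T).comp (X + C y)).degree = (T.card : WithBot ℕ) := by
        rw [degree_eq_natDegree hm2.ne_zero, hd2]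
      have h3 : (AP T).degree = (T.card : WithBot ℕ) := by
        rw [degree_eq_natDegree hm.ne_zero, AP_deg]
      have h4 := degree_sub_lt (h2.trans h3.symm) hm2.ne_zero
        (by rw [hm.leadingCoeff, hm2.leadingCoeff])
      rwa [h2] at h4
    have h5 : ((AP T).comp (X + C y) - AP T - C ((AP T).eval y)).degree < T.card := by
      refine (degree_sub_le _ _).trans_lt (max_lt h1 ?_)
      refine degree_C_le.trans_lt ?_
      exact_mod_cast hn
    by_cases h6 : (AP T).comp (X + C y) - AP T - C ((AP T).eval y) = 0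
    · rw [h6, natDegree_zero]
      omega
    · exact (natDegree_lt_iff_degree_lt h6).2 h5

end addp

section norm

variable {k E : Type} [Field k] [Field E] [Algebra k E] {V : ValuationSubring E} {t : E}

/-- The value of a translate of `z`. -/
lemma val_trans (ht : IsUf V t) (hk : ∀ c : k, algebraMap k E c ∈ V) {m : ℕ} (hm : 1 ≤ m) {z : E}
    (hz : V.valuation z⁻¹ = V.valuation t ^ m) (c : k) :
    z + algebraMap k E c ≠ 0 ∧ V.valuation (z + algebraMap k E c)⁻¹ = V.valuation t ^ m := by
  have hz0 : z ≠ 0 := by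
    rintro rfl
    rw [inv_zero, map_zero] at hz
    exact (ht.pow_pos m).ne hz
  have hcw : V.valuation (algebraMap k E c * z⁻¹) < 1 := by
    rw [← pw_one ht]
    exact (((pw_zero ht).2 (hk c)).mul ((pw_iff ht).2 hz.le)).mono (by omega)
  have h1cw : V.valuation (1 + algebraMap k E c * z⁻¹) = 1 := by
    have h1 := V.valuation.map_add_eq_of_lt_right (x := algebraMap k E c * z⁻¹) (y := 1)
      (by rwa [map_one])
    rwa [add_comm, map_one] at h1
  have h1cw0 : 1 + algebraMap k E c * z⁻¹ ≠ 0 := by
    intro h0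
    rw [h0, map_zero] at h1cw
    exact zero_ne_one h1cw
  have h2 : z + algebraMap k E c = z * (1 + algebraMap k E c * z⁻¹) := by field_simp
  refine ⟨by rw [h2]; exact mul_ne_zero hz0 h1cw0, ?_⟩
  rw [h2, mul_inv, map_mul, hz, map_inv₀, h1cw, inv_one, mul_one]

/-- The norm of `z`. -/
noncomputable def nz (T : Finset k) (z : E) : E := ∏ c ∈ T, (z + algebraMap k E c)

lemma nz_eq (T : Finset k) (z : E) : nz T z = aeval z (AP T) := by
  unfold nz AP
  rw [map_prod]
  exact Finset.prod_congr rfl fun c _ => by rw [map_add, aeval_X, aeval_C]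

lemma nz_val (ht : IsUf V t) (hk : ∀ c : k, algebraMap k E c ∈ V) {m : ℕ} (hm : 1 ≤ m) {z : E}
    (hz : V.valuation z⁻¹ = V.valuation t ^ m) (T : Finset k) :
    nz T z ≠ 0 ∧ V.valuation (nz T z)⁻¹ = V.valuation t ^ (m * T.card) := by
  unfold nz
  refine ⟨Finset.prod_ne_zero_iff.2 fun c _ => (val_trans ht hk hm hz c).1, ?_⟩
  rw [← Finset.prod_inv_distrib, map_prod, Finset.prod_congr rfl
    fun c _ => (val_trans ht hk hm hz c).2, Finset.prod_const, ← pow_mul]

lemma nz_trans {T : Finset k} (h0 : (0 : k) ∈ T) (hadd : ∀ a ∈ T, ∀ b ∈ T, a + b ∈ T)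
    (hneg : ∀ a ∈ T, -a ∈ T) (g : E ≃ₐ[k] E) {z : E} {c : k} (hgz : g z = z + algebraMap k E c) :
    g (nz T z) = nz T z + algebraMap k E ((AP T).eval c) := by
  have h1 : g (nz T z) = aeval z ((AP T).comp (X + C c)) := by
    unfold nz
    rw [map_prod, aeval_comp, map_add, aeval_X, aeval_C]
    unfold AP
    rw [map_prod]
    refine Finset.prod_congr rfl fun d _ => ?_
    rw [map_add, AlgEquiv.commutes, hgz, map_add, aeval_X, aeval_C]
  rw [h1, AP_comp h0 hadd hneg, map_add, aeval_C, nz_eq]

end norm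

end Run7.h802.Rz
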