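import Pool.Agent.Run7.h802.Rz6
import Pool.Agent.Run7.h802.Rz9
import Pool.Agent.Run7.h802.Cv13

/-!
# Fixed ideals at the prime ideals over a point
-/

set_option autoImplicit false
set_option linter.unusedVariables false
set_option linter.unusedSectionVars false

namespace Run7.h802.Rz

open Run7.h802.Cv
open Pool.Agent.Y223.G Pool.Agent.W418.LU2 IsLocalRing

variable {k L : Type} [Field k] [Field L] [Algebra k L] {ι : Type} [Fintype ι] [DecidableEq ι]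
  {E : ι → Type} [∀ i, Field (E i)] [∀ i, Algebra k (E i)]
  {e : ∀ i, E i →ₐ[k] L} {A : ∀ i, Subalgebra k (E i)}
  {Z : Set (∀ i, ValuationSubring (E i))} {wt : (∀ i, ValuationSubring (E i)) → ι → ℕ} {D : ℕ}

section pt

variable (h : CD e A Z wt D) {Q : Ideal (RF (FF e A Z wt) D)} (hQ : Q.IsPrime)
  {V : ∀ i, ValuationSubring (E i)} (hV : V ∈ Z) (hover : Over (Q.comap (j0 h)) V)
  {c : L} (hc : UV e A V c) (hcN : ∀ V' ∈ Z, V' ≠ V → c ∈ JJ e V' (wt V') D)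
  {t : ∀ i, E i} (ht : ∀ i, t i ∈ A i ∧ IsUf (V i) (t i))

include hQ hV hover hc hcN ht

/-- The exceptional divisor. -/
lemma s_mem {i : ι} (hX : ¬ MQ Q (hm (wt V i : ℤ) (c * e i (t i)))) : MQ Q (hm (-1) (1 : L)) := by
  have hF := h.filt
  have h1 : MQ Q (hm (-(wt V i : ℤ)) 1 * hm (wt V i : ℤ) (c * e i (t i))) := by
    rw [hm_mul, neg_add_cancel, one_mul]
    have h2 : hm (0 : ℤ) (c * e i (t i)) = hm 0 c * hm 0 (e i (t i)) := by
      rw [hm_mul, add_zero]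
    rw [h2]
    refine MQ.mul_left (RF_zero hF hc.mem) ?_
    have h3 := hover i (t i) (ht i).1 (ht i).2.2.1
    rwa [mem_comap_j0] at h3
  rcases MQ.prime hQ (RF_neg _) (h.gens hV hc hcN ht i) h1 with h2 | h2
  · by_contra hcon
    refine not_MQ_pow hQ RF_ss hcon (wt V i) ?_
    rw [hm_pow, one_pow, mul_neg_one]
    exact h2
  · exact absurd h2 hX

/-- One homogeneous component. -/
lemma comp_of (τ : L ≃ₐ[k] L) {Λ : ℕ} {d : ℤ} {x : L}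
    (h2 : τ x - x ∈ JJ e V (wt V) (d + Λ)) :
    ∃ s ∈ RF (FF e A Z wt) D, ¬ MQ Q s ∧ ∃ u ∈ RF (FF e A Z wt) D,
      s * (tl τ (hm d x) - hm d x) = hm (-(Λ : ℤ)) 1 * u := by
  have hF := h.filt
  have hXR := h.gens hV hc hcN ht
  obtain ⟨s, hs, hsx⟩ := exists_KK (h.loc V hV) ht h2
  obtain ⟨N, hN⟩ := gen_loc hF hc.mem hXR hsx
  have hcs : UV e A V (c ^ N * s) := (hc.pow N).mul hs
  refine ⟨hm 0 (c ^ N * s), RF_zero hF hcs.mem, hcs.not_MQ h hQ hV hover,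
    hm (d + Λ) (c ^ N * (s * (τ x - x))), hN, ?_⟩
  rw [tl_hm', ← hm_sub, hm_mul, hm_mul]
  congr 1
  · ring
  · ring

/-- Sums of homogeneous components. -/
lemma comps_of (τ : L ≃ₐ[k] L) {Λ : ℕ} {f : LP L}
    (h2 : ∀ d : ℤ, τ (f.coeff d) - f.coeff d ∈ JJ e V (wt V) (d + Λ)) :
    ∃ s ∈ RF (FF e A Z wt) D, ¬ MQ Q s ∧ ∃ u ∈ RF (FF e A Z wt) D,
      s * (tl τ f - f) = hm (-(Λ : ℤ)) 1 * u := by
  have hsum : ∀ S : Finset ℤ, ∃ s ∈ RF (FF e A Z wt) D, ¬ MQ Q s ∧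
      ∃ u ∈ RF (FF e A Z wt) D, s * (tl τ (∑ d ∈ S, hm d (f.coeff d)) -
        ∑ d ∈ S, hm d (f.coeff d)) = hm (-(Λ : ℤ)) 1 * u := by
    intro S
    induction S using Finset.induction_on with
    | empty =>
      refine ⟨1, Subalgebra.one_mem _, not_MQ_one hQ, 0, Subalgebra.zero_mem _, ?_⟩
      rw [Finset.sum_empty, map_zero, sub_zero, mul_zero, mul_zero]
    | insert d S hd ih =>
      obtain ⟨s, hs, hsQ, u, hu, h1⟩ := ih
      obtain ⟨s', hs', hsQ', u', hu', h3⟩ := comp_of h hQ hV hover hc hcN ht τ (h2 d)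
      refine ⟨s * s', Subalgebra.mul_mem _ hs hs', not_MQ_mul hQ hs hs' hsQ hsQ',
        s * u' + s' * u, Subalgebra.add_mem _ (Subalgebra.mul_mem _ hs hu')
          (Subalgebra.mul_mem _ hs' hu), ?_⟩
      rw [Finset.sum_insert hd, map_add]
      linear_combination s * h3 + s' * h1
  have h3 := hsum f.coeff.support
  rwa [← eq_sum_hm f] at h3

/-- An automorphism which raises the degrees is in the inertia group. -/
lemma inert_of (τ : L ≃ₐ[k] L) {i : ι} (hX : ¬ MQ Q (hm (wt V i : ℤ) (c * e i (t i)))) {Λ : ℕ}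
    (hΛ : 1 ≤ Λ) (h2 : ∀ (d : ℤ) (x : L), x ∈ JJ e V (wt V) d → τ x - x ∈ JJ e V (wt V) (d + Λ))
    (hst : ∀ f ∈ RF (FF e A Z wt) D, tl τ f ∈ RF (FF e A Z wt) D) {f : LP L}
    (hf : f ∈ RF (FF e A Z wt) D) : MQ Q (tl τ f - f) := by
  have hF := h.filt
  obtain ⟨s, hs, hsQ, u, hu, h1⟩ := comps_of h hQ hV hover hc hcN ht τ (Λ := Λ) (f := f)
    fun d => h2 d _ ((mem_FF.1 (RF_coeff hF hf d)).2 V hV)
  have h3 : MQ Q (s * (tl τ f - f)) := by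
    rw [h1, mul_comm]
    refine MQ.mul_left hu ?_
    obtain ⟨n, rfl⟩ : ∃ n, Λ = n + 1 := ⟨Λ - 1, by omega⟩
    have h4 : hm (-((n + 1 : ℕ) : ℤ)) (1 : L) = hm (-(n : ℤ)) 1 * hm (-1) 1 := by
      rw [hm_mul, one_mul]
      congr 1
      push_cast
      ring
    rw [h4]
    exact MQ.mul_left (RF_neg _) (s_mem h hQ hV hover hc hcN ht hX)
  exact (MQ.prime hQ hs (Subalgebra.sub_mem _ (hst f hf) hf) h3).resolve_left hsQ

/-- The ideal of the fixed points on the invariants is principal. -/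
lemma prin_of (τ : L ≃ₐ[k] L) (K : Set (L ≃ₐ[k] L)) {Λ : ℕ}
    (h2 : ∀ (d : ℤ) (x : L), x ∈ JJ e V (wt V) d → (∀ κ ∈ K, κ x = x) →
      τ x - x ∈ JJ e V (wt V) (d + Λ))
    {b s2 ξ : LP L} (hs2 : s2 ∈ RF (FF e A Z wt) D) (hξ : ξ ∈ RF (FF e A Z wt) D)
    (hξQ : ¬ MQ Q ξ) (hb : s2 * (tl τ b - b) = hm (-(Λ : ℤ)) 1 * ξ) {f : LP L}
    (hf : f ∈ RF (FF e A Z wt) D) (hfK : ∀ κ ∈ K, tl κ f = f) :
    ∃ (s : LP L) (hs : s ∈ RF (FF e A Z wt) D), (⟨s, hs⟩ : RF (FF e A Z wt) D) ∉ Q ∧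
      ∃ u ∈ RF (FF e A Z wt) D, s * (tl τ f - f) = u * (tl τ b - b) := by
  have hF := h.filt
  obtain ⟨s, hs, hsQ, u, hu, h1⟩ := comps_of h hQ hV hover hc hcN ht τ (Λ := Λ) (f := f)
    fun d => h2 d _ ((mem_FF.1 (RF_coeff hF hf d)).2 V hV) fun κ hκ => by
      have h3 := congrArg (fun g : LP L => g.coeff d) (hfK κ hκ)
      rwa [Pool.Agent.Y929.G.tl_coeff] at h3
  refine ⟨s * ξ, Subalgebra.mul_mem _ hs hξ, fun hmem =>
    not_MQ_mul hQ hs hξ hsQ hξQ ⟨_, hmem⟩, u * s2, Subalgebra.mul_mem _ hu hs2, ?_⟩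
  calc s * ξ * (tl τ f - f) = (s * (tl τ f - f)) * ξ := by ring
    _ = hm (-(Λ : ℤ)) 1 * u * ξ := by rw [h1]
    _ = u * (hm (-(Λ : ℤ)) 1 * ξ) := by ring
    _ = u * s2 * (tl τ b - b) := by rw [← hb]; ring

end pt

end Run7.h802.Rz
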