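import Pool.Agent.Run7.h802.Rz11

/-!
# The inertia groups of the prime ideals over a point
-/

set_option autoImplicit false
set_option linter.unusedVariables false
set_option linter.unusedSectionVars false

namespace Run7.h802.Rz

open Run7.h802.Cv
open Pool.Agent.Y223.G Pool.Agent.W418.LU2 IsLocalRing

lemma tl_one' {k L : Type} [Field k] [Field L] [Algebra k L] (f : LP L) :
    tl (1 : L ≃ₐ[k] L) f = f := by
  apply AddMonoidAlgebra.coeff_injective
  ext d
  rw [Pool.Agent.Y929.G.tl_coeff]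
  rfl

variable {k L : Type} [Field k] [Field L] [Algebra k L] {ι : Type} [Fintype ι] [DecidableEq ι]
  {E : ι → Type} [∀ i, Field (E i)] [∀ i, Algebra k (E i)]
  {e : ∀ i, E i →ₐ[k] L} {A : ∀ i, Subalgebra k (E i)}
  {Z : Set (∀ i, ValuationSubring (E i))} {wt : (∀ i, ValuationSubring (E i)) → ι → ℕ} {D : ℕ}

section pt

variable (h : CD e A Z wt D) {Q : Ideal (RF (FF e A Z wt) D)} (hQ : Q.IsPrime)
  {V : ∀ i, ValuationSubring (E i)} (hV : V ∈ Z) (hover : Over (Q.comap (j0 h)) V)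
  {c : L} (hc : UV e A V c) (hcN : ∀ V' ∈ Z, V' ≠ V → c ∈ JJ e V' (wt V') D)
  {t : ∀ i, E i} (ht : ∀ i, t i ∈ A i ∧ IsUf (V i) (t i))
  {G : Type} [Group G] [Finite G] {ρ : ∀ i, G →* (E i ≃ₐ[k] E i)}
  (σ : G →* (L ≃ₐ[k] L)) (hσ : ∀ g i x, σ g (e i x) = e i (ρ i g x))
  (hst : ∀ g i, ∀ a ∈ A i, ρ i g a ∈ A i)
  (hRst : ∀ g, ∀ f ∈ RF (FF e A Z wt) D, tl (σ g) f ∈ RF (FF e A Z wt) D)

include hQ hV hover hc hcN ht hσ hst hRst

/-- The wild inertia group of order `p`. -/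
theorem inC_zero (p : ℕ) [hp : Fact p.Prime] {j : ι}
    (hX : ¬ MQ Q (hm (wt V j : ℤ) (c * e j (t j)))) {τ : G} (hτ : τ ∈ inr ρ V)
    (hτp : τ ^ p = 1) (hτ1 : τ ≠ 1) (hcτ : σ τ c = c) (m : ι → ℕ) {M : ℕ}
    (hwm : ∀ i, wt V i * m i = M) (hM : 1 ≤ M)
    (hm2 : ∀ i, ∀ x ∈ V i, (V i).valuation (ρ i τ x - x) ≤ (V i).valuation (t i) ^ (m i + 1))
    (hm1 : (V j).valuation (ρ j τ (t j) - t j) = (V j).valuation (t j) ^ (m j + 1))
    (hin : ∀ g, (∀ f ∈ RF (FF e A Z wt) D, MQ Q (tl (σ g) f - f)) → g ∈ Subgroup.zpowers τ) :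
    InC p σ (RF (FF e A Z wt) D) Q := by
  have hF := h.filt
  have hXR := h.gens hV hc hcN ht
  have hshift : ∀ (d : ℤ) (x : L), x ∈ JJ e V (wt V) d → σ τ x - x ∈ JJ e V (wt V) (d + M) := by
    intro d x hx
    refine JJ_shift (σ τ) (fun i => ρ i τ) (hσ τ) m hwm ?_ ?_ hx
    · intro i b y hy
      rw [pw_iff (ht i).2] at hy ⊢
      exact shift (ht i).2 (ρ i τ : E i ≃+* E i) (hm2 i) hy
    · intro i b y hy
      have h3 : ρ i τ y = (ρ i τ y - y) + y := by ring
      rw [h3]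
      rw [pw_iff (ht i).2] at hy ⊢
      refine (V i).valuation.map_add_le ?_ hy
      exact (shift (ht i).2 (ρ i τ : E i ≃+* E i) (hm2 i) hy).trans
        ((ht i).2.pow_anti (by omega))
  obtain ⟨z, hz, hzt⟩ := (ht j).2.exists_mul hm1.le
  have hz1 : (V j).valuation z = 1 := by
    rw [hzt, map_mul, map_pow] at hm1
    exact mul_left_cancel₀ (pow_ne_zero _ (ht j).2.ne0) (hm1.trans (mul_one _).symm)
  obtain ⟨a, ha, f₀, hf₀, hf1, hzf⟩ := (h.loc V hV).den j z hz
  have ha1 : (V j).valuation a = 1 := by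
    rw [← hzf, map_mul, hz1, hf1, one_mul]
  obtain ⟨X, hXdef⟩ : ∃ X, X = hm (wt V j : ℤ) (c * e j (t j)) := ⟨_, rfl⟩
  have hX' : ¬ MQ Q X := by rw [hXdef]; exact hX
  have hXR' : X ∈ RF (FF e A Z wt) D := by rw [hXdef]; exact hXR j
  obtain ⟨s2, hs2⟩ : ∃ s, s = hm 0 (e j f₀ * c ^ m j) := ⟨_, rfl⟩
  have hs2R : s2 ∈ RF (FF e A Z wt) D := by
    rw [hs2]
    exact RF_zero hF ((BB e A).mul_mem (mem_BB j hf₀) ((BB e A).pow_mem hc.mem _))
  obtain ⟨ξ, hξ⟩ : ∃ ξ, ξ = X ^ (m j + 1) * hm 0 (e j a) := ⟨_, rfl⟩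
  have hξR : ξ ∈ RF (FF e A Z wt) D := by
    rw [hξ]
    exact Subalgebra.mul_mem _ (Subalgebra.pow_mem _ hXR' _) (RF_zero hF (mem_BB j ha))
  have hξQ : ¬ MQ Q ξ := by
    rw [hξ]
    exact not_MQ_mul hQ (Subalgebra.pow_mem _ hXR' _) (RF_zero hF (mem_BB j ha))
      (not_MQ_pow hQ hXR' hX' _) ((UV.single j ha ha1).not_MQ h hQ hV hover)
  have e1 : s2 * (tl (σ τ) X - X) = hm (-(M : ℤ)) 1 * ξ := by
    rw [hs2, hξ, hXdef, tl_hm', ← hm_sub, hm_pow, hm_mul, hm_mul, hm_mul, zero_add, add_zero]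
    have h4 : -(M : ℤ) + ((m j + 1 : ℕ) : ℤ) * (wt V j : ℤ) = (wt V j : ℤ) := by
      rw [← hwm j]
      push_cast
      ring
    rw [h4]
    congr 1
    have h5 : e j f₀ * (e j (ρ j τ (t j)) - e j (t j)) = e j (t j) ^ (m j + 1) * e j a := by
      rw [← map_sub, ← map_mul, ← map_pow, ← map_mul, hzt, ← hzf]
      congr 1
      ring
    rw [map_mul, hcτ, hσ, one_mul]
    linear_combination (c ^ (m j + 1)) * h5
  refine ⟨fun _ => τ, 1, fun _ _ => rfl, fun _ => hτp, ⟨1, ?_⟩, ?_, ?_, ?_⟩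
  · have h1 : sq (fun _ => τ) 1 = Subgroup.zpowers τ := by
      change ⊥ ⊔ Subgroup.zpowers τ = _
      rw [bot_sup_eq]
    rw [h1, Nat.card_zpowers, orderOf_eq_prime hτp hτ1, pow_one]
  · intro g hg
    have h1 : sq (fun _ => τ) 1 = Subgroup.zpowers τ := by
      change ⊥ ⊔ Subgroup.zpowers τ = _
      rw [bot_sup_eq]
    rw [h1]
    exact hin g hg
  · intro i _ f hf
    exact inert_of h hQ hV hover hc hcN ht (σ τ) hX hM hshift (hRst τ) hf
  · intro i hi
    have hi0 : i = 0 := by omega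
    subst hi0
    refine ⟨X, hXR', ?_, ?_, ?_⟩
    · intro g hg
      have hg' : g = 1 := Subgroup.mem_bot.1 hg
      rw [hg', map_one]
      exact tl_one' X
    · intro h1
      change tl (σ τ) X = X at h1
      rw [h1, sub_self, mul_zero] at e1
      have h2 : hm (-(M : ℤ)) (1 : L) ≠ 0 := by
        intro h3
        rw [← hm_zero (-(M : ℤ))] at h3
        exact one_ne_zero (hm_inj h3)
      rcases mul_eq_zero.1 e1.symm with h3 | h3
      · exact h2 h3
      · rw [h3] at hξQ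
        exact hξQ MQ.zero
    · intro f hf _
      exact prin_of h hQ hV hover hc hcN ht (σ τ) ∅ (fun d x hx _ => hshift d x hx) hs2R hξR hξQ
        e1 hf (fun κ hκ => absurd hκ (Set.notMem_empty κ))

/-- The wild inertia group of a group of translations. -/
theorem inC_tr (p : ℕ) [hp : Fact p.Prime] [CharP k p] {j : ι}
    (hX : ¬ MQ Q (hm (wt V j : ℤ) (c * e j (t j)))) (P : Subgroup G) (hPV : P ≤ inr ρ V)
    (hin : ∀ g, (∀ f ∈ RF (FF e A Z wt) D, MQ Q (tl (σ g) f - f)) → g ∈ P)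
    (hk : ∀ i, ∀ x : k, algebraMap k (E i) x ∈ V i)
    (hq : ∀ i, ∀ x ∈ V i, ∃ y ∈ V i, (V i).valuation (y ^ p - x) < 1)
    {z : ∀ i, E i} {m : ι → ℕ} (hpm : ∀ i, ¬ p ∣ m i)
    (hz : ∀ i, (V i).valuation (z i)⁻¹ = (V i).valuation (t i) ^ m i) (χ : G → k)
    (hχ : ∀ g ∈ P, ∀ i, ρ i g (z i) = z i + algebraMap k (E i) (χ g))
    (hχ0 : ∀ g ∈ P, χ g = 0 → g = 1) {M : ℕ} (hwm : ∀ i, wt V i * m i = M)
    (hMD : M * Nat.card P ≤ D) : InC p σ (RF (FF e A Z wt) D) Q := by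
  classical
  have hF := h.filt
  have hm1 : ∀ i, 1 ≤ m i := by
    intro i
    rcases Nat.eq_zero_or_pos (m i) with h1 | h1
    · exact absurd (h1 ▸ dvd_zero p) (hpm i)
    · exact h1
  have hM1 : 1 ≤ M := by
    rw [← hwm j]
    exact Nat.mul_pos (h.wt1 V hV j) (hm1 j)
  have hz0 : ∀ i, z i ≠ 0 := by
    intro i h0
    have h1 := hz i
    rw [h0, inv_zero, map_zero] at h1
    exact ((ht i).2.pow_pos _).ne h1
  -- the character
  have hinj : Function.Injective (algebraMap k (E j)) := (algebraMap k (E j)).injective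
  have hχm : ∀ g ∈ P, ∀ g' ∈ P, χ (g * g') = χ g + χ g' := by
    intro g hg g' hg'
    apply hinj
    have h1 := hχ (g * g') (P.mul_mem hg hg') j
    rw [map_mul, AlgEquiv.mul_apply, hχ g' hg' j, map_add, AlgEquiv.commutes, hχ g hg j] at h1
    rw [map_add]
    linear_combination -h1
  have hχ1 : χ 1 = 0 := by
    have h1 := hχm 1 P.one_mem 1 P.one_mem
    rw [mul_one] at h1
    linear_combination -h1
  have hχi : ∀ g ∈ P, χ g⁻¹ = -χ g := by
    intro g hg
    have h1 := hχm g hg g⁻¹ (P.inv_mem hg)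
    rw [mul_inv_cancel, hχ1] at h1
    linear_combination -h1
  have hχinj : ∀ g ∈ P, ∀ g' ∈ P, χ g = χ g' → g = g' := by
    intro g hg g' hg' h1
    have h2 := hχm g hg g'⁻¹ (P.inv_mem hg')
    rw [hχi g' hg', h1, add_neg_cancel] at h2
    exact mul_inv_eq_one.1 (hχ0 _ (P.mul_mem hg (P.inv_mem hg')) h2)
  have hcomm : ∀ g ∈ P, ∀ g' ∈ P, g * g' = g' * g := by
    intro g hg g' hg'
    refine hχinj _ (P.mul_mem hg hg') _ (P.mul_mem hg' hg) ?_
    rw [hχm g hg g' hg', hχm g' hg' g hg, add_comm]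
  have hχn : ∀ g ∈ P, ∀ n : ℕ, χ (g ^ n) = n * χ g := by
    intro g hg n
    induction n with
    | zero => rw [pow_zero, hχ1, Nat.cast_zero, zero_mul]
    | succ n ih =>
      rw [pow_succ, hχm _ (P.pow_mem hg n) _ hg, ih]
      push_cast
      ring
  have hPp : ∀ g ∈ P, g ^ p = 1 := by
    intro g hg
    refine hχ0 _ (P.pow_mem hg p) ?_
    rw [hχn g hg, CharP.cast_eq_zero, zero_mul]
  have hPcard : ∃ a, Nat.card P = p ^ a := by
    have h1 : IsPGroup p P := by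
      intro g
      refine ⟨1, Subtype.ext ?_⟩
      rw [pow_one]
      exact hPp g g.2
    exact IsPGroup.iff_card.1 h1
  let _ : Fintype P := Fintype.ofFinite _
  obtain ⟨N, hN⟩ : ∃ N, N = Nat.card P := ⟨_, rfl⟩
  -- Taylor expansions
  have htay : ∀ i a y, Pw (V i) a y →
      Tay (V i) N (m i) (fun s : P => (ρ i (s : G) : E i ≃+* E i)) (fun s : P => χ s) a y := by
    intro i a y hy
    have hchar : CharP (E i) p := charP_of_injective_algebraMap (algebraMap k (E i)).injective p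
    have hg : ∀ s : P, In1 (V i) (ρ i (s : G) : E i ≃+* E i) := fun s x hx =>
      mem_inr.1 (hPV s.2) i x hx
    refine taylor1 (ht i).2 (hk i) hg p (hq i) (hpm i) (hz i) (fun s => hχ s s.2 i)
      (fun s => ?_) hy
    refine wild_cot p (ht i).2 (hg s) fun x => ?_
    have h1 := iter_eq (r := rr ρ i) (s : G) p x
    rw [hPp s s.2, map_one, RingAut.one_apply] at h1
    exact h1
  have htL : ∀ (d : ℤ) (x : L), x ∈ JJ e V (wt V) d →
      TayL e V (wt V) M N (fun s : P => σ (s : G)) (fun s : P => χ s) d x := fun d x hx =>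
    taylorL (h.loc V hV).uf' (fun (s : P) i => ρ i (s : G)) (fun s i x => hσ s i x) m hwm htay hx
  have hχI : ∀ T : Finset P, Set.InjOn (fun s : P => χ s) T := fun T s _ s' _ hss =>
    Subtype.ext (hχinj s s.2 s' s'.2 hss)
  obtain ⟨s, r, hsP, hsn, hsr⟩ := exists_chain P
  have hsq : ∀ i, sq s i ≤ P := by
    intro i
    induction i with
    | zero => exact bot_le
    | succ i ih =>
      refine sup_le ih ?_
      rw [Subgroup.zpowers_le]
      exact hsP i
  refine ⟨s, r, fun i i' => hcomm _ (hsP i) _ (hsP i'), fun i => hPp _ (hsP i), ?_, ?_, ?_, ?_⟩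
  · rw [hsr]
    exact hPcard
  · intro g hg
    rw [hsr]
    exact hin g hg
  · intro i _ f hf
    refine inert_of h hQ hV hover hc hcN ht (σ (s i)) hX hM1 (fun d x hx => ?_) (hRst (s i)) hf
    have h1 := inv_shift (htL d x hx) {1} (by simp) (by
      rw [Finset.card_singleton, hN]
      exact Nat.card_pos) (hχI _) (by
        intro g hg
        rw [Finset.mem_singleton] at hg
        subst hg
        change σ ((1 : P) : G) x = x
        rw [Subgroup.coe_one, map_one, AlgEquiv.one_apply]) ⟨s i, hsP i⟩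
    rwa [Finset.card_singleton, Nat.cast_one, mul_one] at h1
  · intro i hi
    obtain ⟨T, hT⟩ : ∃ T : Finset P, T = Finset.univ.filter fun g : P => (g : G) ∈ sq s i :=
      ⟨_, rfl⟩
    have hmT : ∀ g : P, g ∈ T ↔ (g : G) ∈ sq s i := by
      intro g
      rw [hT, Finset.mem_filter]
      exact ⟨fun h1 => h1.2, fun h1 => ⟨Finset.mem_univ g, h1⟩⟩
    have hT1 : 1 ≤ T.card := Finset.card_pos.2 ⟨1, (hmT 1).2 (sq s i).one_mem⟩
    have hTN : T.card ≤ N := by
      rw [hN, Nat.card_eq_fintype_card, ← Finset.card_univ]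
      exact Finset.card_le_card (Finset.subset_univ T)
    obtain ⟨T', hT'⟩ : ∃ T' : Finset k, T' = T.image fun g : P => χ g := ⟨_, rfl⟩
    have hT'c : T'.card = T.card := by
      rw [hT']
      exact Finset.card_image_of_injOn (hχI T)
    have hmT' : ∀ g ∈ P, χ g ∈ T' ↔ g ∈ sq s i := by
      intro g hg
      rw [hT', Finset.mem_image]
      constructor
      · rintro ⟨g', hg', h1⟩
        have h2 := hχinj g' g'.2 g hg h1
        rw [← h2]
        exact (hmT g').1 hg'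
      · intro h1
        exact ⟨⟨g, hg⟩, (hmT ⟨g, hg⟩).2 h1, rfl⟩
    have h0 : (0 : k) ∈ T' := by
      rw [← hχ1]
      exact (hmT' 1 P.one_mem).2 (sq s i).one_mem
    have hadd : ∀ a ∈ T', ∀ b ∈ T', a + b ∈ T' := by
      intro a ha b hb
      rw [hT', Finset.mem_image] at ha hb
      obtain ⟨g, hg, rfl⟩ := ha
      obtain ⟨g', hg', rfl⟩ := hb
      rw [← hχm g g.2 g' g'.2, hmT' _ (P.mul_mem g.2 g'.2)]
      exact (sq s i).mul_mem ((hmT g).1 hg) ((hmT g').1 hg')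
    have hneg : ∀ a ∈ T', -a ∈ T' := by
      intro a ha
      rw [hT', Finset.mem_image] at ha
      obtain ⟨g, hg, rfl⟩ := ha
      rw [← hχi g g.2, hmT' _ (P.inv_mem g.2)]
      exact (sq s i).inv_mem ((hmT g).1 hg)
    obtain ⟨hY1, hY2⟩ := nz_val (ht j).2 (hk j) (hm1 j) (hz j) T'
    obtain ⟨Y, hYd⟩ : ∃ Y, Y = (nz T' (z j))⁻¹ := ⟨_, rfl⟩
    rw [← hYd] at hY2
    have hYn : Y⁻¹ = nz T' (z j) := by rw [hYd, inv_inv]
    have hY0 : Y ≠ 0 := by rw [hYd]; exact inv_ne_zero hY1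
    have hμ : wt V j * (m j * T'.card) = M * T.card := by
      rw [← mul_assoc, hwm, hT'c]
    have hΛ : M * T.card ≤ D := by
      refine (Nat.mul_le_mul_left M hTN).trans ?_
      rw [hN]
      exact hMD
    have hYlt : (V j).valuation Y < 1 := by
      rw [hY2]
      refine pow_lt_one₀ zero_le (ht j).2.2.1 ?_
      have := hm1 j
      rw [hT'c]
      exact (Nat.mul_pos this hT1).ne'
    have hYV : Y ∈ V j := ((V j).valuation_le_one_iff _).1 hYlt.le
    have hact : ∀ g ∈ P, ρ j g Y⁻¹ = Y⁻¹ + algebraMap k (E j) ((AP T').eval (χ g)) := by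
      intro g hg
      rw [hYn]
      exact nz_trans h0 hadd hneg (ρ j g) (hχ g hg j)
    have hfixY : ∀ g ∈ sq s i, ρ j g Y = Y := by
      intro g hg
      have h1 := hact g (hsq i hg)
      rw [AP_root h0 hadd hneg ((hmT' g (hsq i hg)).2 hg), map_zero, add_zero, map_inv₀] at h1
      exact inv_injective h1
    obtain ⟨a', ha', f, hf, hf1, hYf⟩ := (h.loc V hV).den j Y hYV
    have hu : UV e A V (c * e j f) := hc.mul (UV.single j hf hf1)
    obtain ⟨c', y, hc', hcP, hyB, hcy⟩ := exists_norm σ hσ hst (h.loc V hV).le P hPV hu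
    have hcY : c' * e j Y = c * (y * e j a') := by
      rw [hcy, ← hYf, map_mul]
      ring
    have hyaB : y * e j a' ∈ BB e A := (BB e A).mul_mem hyB (mem_BB j ha')
    obtain ⟨hbR, hbQ⟩ := b_elem h hQ hV hover hc hcN ht hX hY2 hμ hΛ hc'
      (by rw [hcY]; exact (BB e A).mul_mem hc.mem hyaB) (fun V' hV' hne => by
        rw [hcY]
        have h3 := JJ_mul (hcN V' hV' hne) (BB_le_JJ (e := e) (h.loc V' hV') (wt V') hyaB le_rfl)
        rw [add_zero] at h3
        exact JJ_anti (by exact_mod_cast hΛ) h3)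
    have hκ : (AP T').eval (χ (s i)) ≠ 0 := by
      refine AP_ne h0 hadd hneg fun h1 => hsn i hi ?_
      exact (hmT' (s i) (hsP i)).1 h1
    obtain ⟨s2, hs2, ξ, hξ, hξQ, he⟩ := b_move h hQ hV hover hc hcN ht hk hYlt hc' hbR hbQ
      (σ (s i)) (ρ j (s i)) (fun x => hσ (s i) j x) (hcP _ (hsP i)) hκ (hact _ (hsP i)) hY0
    refine ⟨hm ((M * T.card : ℕ) : ℤ) (c' * e j Y), hbR, ?_, ?_, ?_⟩
    · intro g hg
      rw [tl_hm', map_mul, hcP g (hsq i hg), hσ, hfixY g hg]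
    · intro h1
      rw [h1, sub_self, mul_zero] at he
      have h2 : hm (-((M * T.card : ℕ) : ℤ)) (1 : L) ≠ 0 := by
        intro h3
        rw [← hm_zero (-((M * T.card : ℕ) : ℤ))] at h3
        exact one_ne_zero (hm_inj h3)
      rcases mul_eq_zero.1 he.symm with h3 | h3
      · exact h2 h3
      · rw [h3] at hξQ
        exact hξQ MQ.zero
    · intro f' hf' hfix
      refine prin_of h hQ hV hover hc hcN ht (σ (s i)) {κ | ∃ g ∈ sq s i, κ = σ g}
        (fun d x hx hKx => ?_) hs2 hξ hξQ he hf' ?_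
      · have h1 := inv_shift (htL d x hx) T hT1 hTN (hχI _) (fun g hg =>
          hKx _ ⟨g, (hmT g).1 hg, rfl⟩) ⟨s i, hsP i⟩
        push_cast
        exact h1
      · rintro κ ⟨g, hg, rfl⟩
        exact hfix g hg

end pt

end Run7.h802.Rz
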