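import Pool.Agent.Run7.h802.Rz1

/-!
# Taylor expansions of the action of a group of translations on a discrete valuation ring
-/

set_option autoImplicit false
set_option linter.unusedVariables false
set_option linter.unusedSectionVars false

namespace Run7.h802.Cv

section basic

variable {E : Type} [Field E] {V : ValuationSubring E}

lemma Pw.zero' {t : E} (ht : IsUf V t) (a : ℕ) : Pw V a (0 : E) :=
  ⟨t, ht, by rw [map_zero]; exact zero_le⟩

lemma Pw.sub' {a : ℕ} {x y : E} (hx : Pw V a x) (hy : Pw V a y) : Pw V a (x - y) := by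
  rw [sub_eq_add_neg]
  exact hx.add hy.neg

lemma Pw.pow' {t : E} (ht : IsUf V t) {a : ℕ} {x : E} (hx : Pw V a x) (n : ℕ) :
    Pw V (n * a) (x ^ n) := by
  rw [pw_iff ht] at hx ⊢
  rw [map_pow, mul_comm, pow_mul]
  exact pow_le_pow_left' hx n

lemma Pw.sum' {t : E} (ht : IsUf V t) {α : Type} (s : Finset α) {a : ℕ} {f : α → E}
    (h : ∀ i ∈ s, Pw V a (f i)) : Pw V a (∑ i ∈ s, f i) := by
  classical
  induction s using Finset.induction_on with
  | empty => rw [Finset.sum_empty]; exact Pw.zero' ht a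
  | insert i s hi ih =>
    rw [Finset.sum_insert hi]
    exact (h i (Finset.mem_insert_self i s)).add
      (ih fun j hj => h j (Finset.mem_insert_of_mem hj))

/-- Division by an element of given value. -/
lemma Pw.div' {t : E} (ht : IsUf V t) {a b : ℕ} {x y : E} (hx : Pw V (a + b) x)
    (hy : V.valuation y = V.valuation t ^ b) : Pw V a (x / y) := by
  rw [pw_iff ht] at hx ⊢
  rw [map_div₀, hy, div_le_iff₀ (ht.pow_pos b), ← pow_add]
  exact hx

end basic

end Run7.h802.Cv

namespace Run7.h802.Rz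

open Run7.h802.Cv Polynomial

section tay

variable {k E S : Type} [Field k] [Field E] [Algebra k E] (V : ValuationSubring E) (N m : ℕ)
  (g : S → (E ≃+* E)) (χ : S → k)

/-- The element `y` of value at least `a` has a Taylor expansion. -/
def Tay (a : ℕ) (y : E) : Prop :=
  ∃ F : E[X], F.coeff 0 = y ∧ (∀ l, Pw V (a + m * l) (F.coeff l)) ∧
    ∀ s, Pw V (a + m * N) (g s y - F.eval (algebraMap k E (χ s)))

variable {V N m g χ}

lemma eval_pw {t : E} (ht : IsUf V t) {F : E[X]} {a : ℕ}
    (hF : ∀ l, Pw V (a + m * l) (F.coeff l)) {x : E} (hx : x ∈ V) : Pw V a (F.eval x) := by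
  rw [eval_eq_sum_range]
  refine Pw.sum' ht _ fun l _ => ?_
  have h1 : Pw V 0 (x ^ l) := (pw_zero ht).2 (V.toSubring.pow_mem hx l)
  have h2 := (hF l).mul h1
  exact h2.mono (by omega)

lemma Tay.mono {a b : ℕ} (hab : a ≤ b) {y : E} (h : Tay V N m g χ b y) :
    Tay V N m g χ a y := by
  obtain ⟨F, h0, h1, h2⟩ := h
  exact ⟨F, h0, fun l => (h1 l).mono (by omega), fun s => (h2 s).mono (by omega)⟩

lemma Tay.add {a : ℕ} {x y : E} (hx : Tay V N m g χ a x) (hy : Tay V N m g χ a y) :
    Tay V N m g χ a (x + y) := by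
  obtain ⟨F, h0, h1, h2⟩ := hx
  obtain ⟨F', h0', h1', h2'⟩ := hy
  refine ⟨F + F', by rw [coeff_add, h0, h0'], fun l => by rw [coeff_add]; exact (h1 l).add (h1' l),
    fun s => ?_⟩
  have h3 : g s (x + y) - (F + F').eval (algebraMap k E (χ s)) =
      (g s x - F.eval (algebraMap k E (χ s))) + (g s y - F'.eval (algebraMap k E (χ s))) := by
    rw [map_add, eval_add]
    ring
  rw [h3]
  exact (h2 s).add (h2' s)

variable {t : E} (ht : IsUf V t) (hk : ∀ c : k, algebraMap k E c ∈ V)

include ht hk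

lemma Tay.mul {a b : ℕ} {x y : E} (hx : Tay V N m g χ a x) (hy : Tay V N m g χ b y) :
    Tay V N m g χ (a + b) (x * y) := by
  obtain ⟨F, h0, h1, h2⟩ := hx
  obtain ⟨F', h0', h1', h2'⟩ := hy
  refine ⟨F * F', by rw [mul_coeff_zero, h0, h0'], fun l => ?_, fun s => ?_⟩
  · rw [coeff_mul]
    refine Pw.sum' ht _ fun ij hij => ?_
    have h3 := Finset.HasAntidiagonal.mem_antidiagonal.1 hij
    have h4 := (h1 ij.1).mul (h1' ij.2)
    have h5 : a + m * ij.1 + (b + m * ij.2) = a + b + m * l := by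
      rw [← h3]; ring
    rwa [h5] at h4
  · have h3 : g s (x * y) - (F * F').eval (algebraMap k E (χ s)) =
        ((g s x - F.eval (algebraMap k E (χ s))) + F.eval (algebraMap k E (χ s))) *
          (g s y - F'.eval (algebraMap k E (χ s))) +
        (g s x - F.eval (algebraMap k E (χ s))) * F'.eval (algebraMap k E (χ s)) := by
      rw [map_mul, eval_mul]
      ring
    rw [h3]
    have h4 := eval_pw ht h1 (hk (χ s))
    have h5 := eval_pw ht h1' (hk (χ s))
    have h6 := (((h2 s).mono (a := a) (by omega)).add h4).mul (h2' s)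
    have h7 := (h2 s).mul h5
    exact (h6.mono (by omega)).add (h7.mono (by omega))

lemma Tay.pow {a : ℕ} {x : E} (h1 : Tay V N m g χ 0 1) (hx : Tay V N m g χ a x) (n : ℕ) :
    Tay V N m g χ (n * a) (x ^ n) := by
  induction n with
  | zero => rw [pow_zero, zero_mul]; exact h1
  | succ n ih =>
    rw [pow_succ, Nat.succ_mul]
    exact ih.mul ht hk hx

omit hk in
/-- Elements which are almost fixed. -/
lemma Tay.of_fix {a : ℕ} {y : E} (hy : Pw V a y) (h : ∀ s, Pw V (a + m * N) (g s y - y)) :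
    Tay V N m g χ a y := by
  refine ⟨C y, coeff_C_zero, fun l => ?_, fun s => ?_⟩
  · rw [coeff_C]
    split_ifs with hl
    · subst hl
      simpa using hy
    · exact Pw.zero' ht _
  · rw [eval_C]
    exact h s

variable (hg : ∀ s, In1 V (g s))

include hg

omit hk in
lemma Tay.of_high {a : ℕ} {y : E} (hy : Pw V (a + m * N) y) : Tay V N m g χ a y :=
  Tay.of_fix ht (hy.mono (by omega)) fun s => ((hg s).pw hy).sub' hy

/-- The inverse of the coordinate. -/
lemma Tay.w {z : E} (hz0 : z ≠ 0) (hm : 1 ≤ m) (hz : V.valuation z⁻¹ = V.valuation t ^ m)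
    (hgz : ∀ s, g s z = z + algebraMap k E (χ s)) : Tay V N m g χ m z⁻¹ := by
  have hwm : Pw V m z⁻¹ := (pw_iff ht).2 hz.le
  have hwV : z⁻¹ ∈ V := (pw_zero ht).1 (hwm.mono (by omega))
  refine ⟨∑ l ∈ Finset.range (N + 1), C ((-1) ^ l * z⁻¹ ^ (l + 1)) * X ^ l, ?_, fun l => ?_,
    fun s => ?_⟩
  · rw [finsetSum_coeff, Finset.sum_eq_single 0]
    · simp
    · intro l _ hl
      rw [coeff_C_mul, coeff_X_pow, if_neg (Ne.symm hl), mul_zero]
    · intro h
      exact absurd (Finset.mem_range.2 (Nat.succ_pos N)) h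
  · rw [finsetSum_coeff]
    refine Pw.sum' ht _ fun l' _ => ?_
    rw [coeff_C_mul, coeff_X_pow]
    split_ifs with hl
    · subst hl
      rw [mul_one]
      have h1 : Pw V 0 ((-1 : E) ^ l) := (pw_zero ht).2
        (V.toSubring.pow_mem (V.toSubring.neg_mem V.toSubring.one_mem) l)
      have h2 := h1.mul (hwm.pow' ht (l + 1))
      refine h2.mono ?_
      rw [zero_add, mul_comm m l, Nat.succ_mul]
      omega
    · rw [mul_zero]
      exact Pw.zero' ht _
  · set c : E := algebraMap k E (χ s) with hc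
    have hcV : c ∈ V := hk (χ s)
    have hcw : V.valuation (c * z⁻¹) < 1 := by
      rw [← pw_one ht]
      have h1 : Pw V 0 c := (pw_zero ht).2 hcV
      exact (h1.mul hwm).mono (by omega)
    have h1cw : V.valuation (1 + c * z⁻¹) = 1 := by
      have h1 := V.valuation.map_add_eq_of_lt_right (x := c * z⁻¹) (y := 1) (by rwa [map_one])
      rwa [add_comm, map_one] at h1
    have h1cw0 : 1 + c * z⁻¹ ≠ 0 := by
      intro h0
      rw [h0, map_zero] at h1cw
      exact zero_ne_one h1cw
    have hgw : g s z⁻¹ = z⁻¹ / (1 + c * z⁻¹) := by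
      rw [map_inv₀, hgz s]
      have h2 : z + c = z * (1 + c * z⁻¹) := by field_simp
      rw [← hc, h2, mul_inv, div_eq_mul_inv]
    have heval : (∑ l ∈ Finset.range (N + 1), C ((-1) ^ l * z⁻¹ ^ (l + 1)) * X ^ l :
        E[X]).eval c = z⁻¹ * ∑ l ∈ Finset.range (N + 1), (-(c * z⁻¹)) ^ l := by
      rw [eval_finsetSum, Finset.mul_sum]
      refine Finset.sum_congr rfl fun l _ => ?_
      rw [eval_mul, eval_C, eval_pow, eval_X, neg_pow (c * z⁻¹), mul_pow]
      ring
    have hgeom : (∑ l ∈ Finset.range (N + 1), (-(c * z⁻¹)) ^ l) * (1 + c * z⁻¹) =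
        1 - (-(c * z⁻¹)) ^ (N + 1) := by
      have h3 := geom_sum_mul_neg (-(c * z⁻¹)) (N + 1)
      rw [sub_neg_eq_add] at h3
      exact h3
    have hfin : g s z⁻¹ - (∑ l ∈ Finset.range (N + 1), C ((-1) ^ l * z⁻¹ ^ (l + 1)) * X ^ l :
        E[X]).eval c = z⁻¹ * (-(c * z⁻¹)) ^ (N + 1) / (1 + c * z⁻¹) := by
      rw [hgw, heval, eq_div_iff h1cw0, sub_mul, div_mul_cancel₀ _ h1cw0, mul_assoc, hgeom]
      ring
    rw [hfin]
    have h5 : Pw V m (-(c * z⁻¹)) := by
      have h1 : Pw V 0 c := (pw_zero ht).2 hcV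
      have h2 := h1.mul hwm
      rw [zero_add] at h2
      exact h2.neg
    have h6 := hwm.mul (h5.pow' ht (N + 1))
    have h7 : Pw V (m + (N + 1) * m + 0) (z⁻¹ * (-(c * z⁻¹)) ^ (N + 1)) := by
      rw [add_zero]; exact h6
    have h8 := h7.div' (b := 0) ht (y := 1 + c * z⁻¹) (by rw [h1cw, pow_zero])
    refine h8.mono ?_
    rw [mul_comm m N, Nat.succ_mul]
    omega

/-- Division by a large power. -/
lemma Tay.div {a b : ℕ} {x θ : E} (hx : Tay V N m g χ (a + b) x)
    (hθ : V.valuation θ = V.valuation t ^ b)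
    (hgθ : ∀ s, Pw V (b + m * N) (g s θ - θ)) : Tay V N m g χ a (x / θ) := by
  have hθ0 : θ ≠ 0 := by
    intro h0
    rw [h0, map_zero] at hθ
    exact (ht.pow_pos b).ne hθ
  obtain ⟨F, h0, h1, h2⟩ := hx
  refine ⟨C θ⁻¹ * F, by rw [coeff_C_mul, h0]; field_simp, fun l => ?_, fun s => ?_⟩
  · rw [coeff_C_mul, mul_comm θ⁻¹, ← div_eq_mul_inv]
    refine Pw.div' ht (b := b) ?_ hθ
    have h3 : a + m * l + b = a + b + m * l := by omega
    rw [h3]
    exact h1 l
  · rw [eval_mul, eval_C]
    set c : E := algebraMap k E (χ s) with hc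
    have hgθv : V.valuation (g s θ) = V.valuation t ^ b := by
      have hθV : Pw V b θ := (pw_iff ht).2 hθ.le
      refine le_antisymm ((pw_iff ht).1 ((hg s).pw hθV)) ?_
      -- the inverse
      obtain ⟨u, hu, hu1⟩ : ∃ u, θ = t ^ b * u ∧ V.valuation u = 1 := by
        refine ⟨θ / t ^ b, by have := ht.1; field_simp, ?_⟩
        rw [map_div₀, hθ, map_pow, div_self (ht.pow_pos b).ne']
      have huV : u ∈ V := (V.valuation_le_one_iff _).1 hu1.le
      have hgu : V.valuation (g s u) = 1 := by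
        have h3 := hg s u huV
        have h4 : g s u = (g s u - u) + u := by ring
        rw [h4]
        have h5 := V.valuation.map_add_eq_of_lt_right (x := g s u - u) (y := u) (by rwa [hu1])
        rw [h5, hu1]
      rw [hu, map_mul, map_mul, map_pow, map_pow, hgu, mul_one, (hg s).uf ht |>.val_eq ht]
    have hgθ0 : g s θ ≠ 0 := (map_ne_zero_iff (g s) (g s).injective).2 hθ0
    have h3 : g s (x / θ) - θ⁻¹ * F.eval c =
        ((g s x - F.eval c) * θ - F.eval c * (g s θ - θ)) / θ / g s θ := by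
      rw [map_div₀]
      field_simp
      ring
    rw [h3]
    have hθb : Pw V b θ := (pw_iff ht).2 hθ.le
    have h4 : Pw V (a + m * N + b + b) ((g s x - F.eval c) * θ - F.eval c * (g s θ - θ)) := by
      have h5 := (h2 s).mul hθb
      have h6 := (eval_pw ht h1 (hk (χ s))).mul (hgθ s)
      exact (h5.mono (by omega)).sub' (h6.mono (by omega))
    exact (h4.div' ht hθ).div' ht hgθv

/-- Powers of elements of the valuation ring. -/
lemma Tay.frob (p : ℕ) [Fact p.Prime] [CharP E p] {M : ℕ} (hM : m * N ≤ p ^ M) {x : E}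
    (hx : x ∈ V) : Tay V N m g χ 0 (x ^ p ^ M) := by
  have hexp : ExpChar E p := ExpChar.prime Fact.out
  refine Tay.of_fix ht ((pw_zero ht).2 (V.toSubring.pow_mem hx _)) fun s => ?_
  have h1 : g s (x ^ p ^ M) - x ^ p ^ M = (g s x - x) ^ p ^ M := by
    rw [map_pow, sub_pow_expChar_pow]
  rw [h1]
  have h2 : Pw V 1 (g s x - x) := (pw_one ht).2 (hg s x hx)
  exact (h2.pow' ht (p ^ M)).mono (by omega)

/-- All elements have Taylor expansions. -/
theorem taylor1 (p : ℕ) [Fact p.Prime] [CharP E p]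
    (hq : ∀ x ∈ V, ∃ y ∈ V, V.valuation (y ^ p - x) < 1) (hpm : ¬ p ∣ m)
    {z : E} (hz : V.valuation z⁻¹ = V.valuation t ^ m)
    (hgz : ∀ s, g s z = z + algebraMap k E (χ s)) (hgt : ∀ s, Pw V 2 (g s t - t)) {a : ℕ} {y : E}
    (hy : Pw V a y) : Tay V N m g χ a y := by
  have hp : p.Prime := Fact.out
  have hexp : ExpChar E p := ExpChar.prime hp
  have hm : 1 ≤ m := by
    rcases Nat.eq_zero_or_pos m with h | h
    · exact absurd (h ▸ dvd_zero p) hpm
    · exact h
  have hz0 : z ≠ 0 := by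
    rintro rfl
    rw [inv_zero, map_zero] at hz
    exact (ht.pow_pos m).ne hz
  obtain ⟨M, hMd⟩ : ∃ M, M = m * N + 1 := ⟨_, rfl⟩
  have hM : m * N ≤ p ^ M := by
    have := (Nat.lt_pow_self hp.one_lt (n := M)).le
    omega
  have hM1 : 1 < p ^ M := Nat.one_lt_pow (by omega) hp.one_lt
  have hcop : Nat.Coprime m (p ^ M) :=
    Nat.Coprime.pow_right _ ((Nat.Prime.coprime_iff_not_dvd hp).2 hpm).symm
  obtain ⟨α, hα⟩ := Nat.exists_mul_mod_eq_one_of_coprime hcop hM1
  obtain ⟨β, hβ⟩ : ∃ β, α * m = 1 + β * p ^ M := by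
    refine ⟨m * α / p ^ M, ?_⟩
    have h1 := Nat.div_add_mod (m * α) (p ^ M)
    rw [hα.2, mul_comm (p ^ M)] at h1
    rw [mul_comm α m]
    omega
  have h1T : Tay V N m g χ 0 (1 : E) := by
    have h := Tay.frob (χ := χ) ht hk hg p hM (x := (1 : E)) V.one_mem
    rwa [one_pow] at h
  have hw := Tay.w (N := N) ht hk hg hz0 hm hz hgz
  -- a uniformizer
  obtain ⟨t', ht'd⟩ : ∃ t', t' = z⁻¹ ^ α / (t ^ β) ^ p ^ M := ⟨_, rfl⟩
  have hθv : V.valuation ((t ^ β) ^ p ^ M) = V.valuation t ^ (β * p ^ M) := by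
    rw [map_pow, map_pow, ← pow_mul]
  have ht'T : Tay V N m g χ 1 t' := by
    rw [ht'd]
    refine Tay.div ht hk hg (b := β * p ^ M) ?_ hθv fun s => ?_
    · have h := Tay.pow ht hk h1T hw α
      rwa [hβ] at h
    · have h1 : g s ((t ^ β) ^ p ^ M) - (t ^ β) ^ p ^ M = (g s (t ^ β) - t ^ β) ^ p ^ M := by
        rw [map_pow, sub_pow_expChar_pow]
      have h2 : ∀ n : ℕ, Pw V (n + 1) (g s (t ^ n) - t ^ n) := by
        intro n
        induction n with
        | zero => rw [pow_zero, map_one, sub_self]; exact Pw.zero' ht _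
        | succ n ih =>
          have h3 : g s (t ^ (n + 1)) - t ^ (n + 1) =
              (g s (t ^ n) - t ^ n) * g s t + t ^ n * (g s t - t) := by
            rw [pow_succ, map_mul]
            ring
          rw [h3]
          have h4 := ih.mul ((hg s).pw (pw_uf ht 1))
          rw [pow_one] at h4
          have h5 := (pw_uf ht n).mul (hgt s)
          exact h4.add h5
      rw [h1]
      refine ((h2 β).pow' ht (p ^ M)).mono ?_
      rw [mul_comm β, mul_add, mul_one]
      omega
  have ht'v : V.valuation t' = V.valuation t := by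
    rw [ht'd, map_div₀, hθv, map_pow, hz, ← pow_mul, mul_comm m α, hβ, pow_add, pow_one,
      mul_div_cancel_right₀ _ (ht.pow_pos _).ne']
  have ht' : IsUf V t' := by
    refine ⟨?_, ?_, fun x hx => ?_⟩
    · rintro rfl
      rw [map_zero] at ht'v
      exact ht.ne0 ht'v.symm
    · rw [ht'v]; exact ht.2.1
    · rw [ht'v]; exact ht.2.2 x hx
  have key : ∀ n b : ℕ, ∀ y : E, a ≤ b → a + m * N ≤ b + n → Pw V b y → Tay V N m g χ a y := by
    intro n
    induction n with
    | zero =>
      intro b y hab hb hy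
      exact Tay.of_high ht hg (hy.mono (by omega))
    | succ n ih =>
      intro b y hab hb hy
      obtain ⟨u, hu, hyu⟩ := ht'.exists_mul ((pw_iff ht').1 hy)
      obtain ⟨x, hx, hxu⟩ := exists_root p hq M u hu
      have h1 : y = t' ^ b * x ^ p ^ M + t' ^ b * (u - x ^ p ^ M) := by rw [hyu]; ring
      rw [h1]
      refine Tay.add ?_ (ih (b + 1) _ (by omega) (by omega) ?_)
      · have h2 := (Tay.pow ht hk h1T ht'T b).mul ht hk (Tay.frob ht hk hg p hM hx)
        rw [mul_one, add_zero] at h2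
        exact h2.mono hab
      · refine (pw_uf ht' b).mul ((pw_one ht').2 ?_)
        rw [Valuation.map_sub_swap]
        exact hxu
  exact key (m * N) a y le_rfl le_rfl hy

end tay

section ram

variable {k E : Type} [Field k] [Field E] [Algebra k E] {V : ValuationSubring E} {t : E}

/-- The ramification number of a translation. -/
theorem ram_eq (p : ℕ) [Fact p.Prime] [CharP E p] (ht : IsUf V t)
    (harch : ∀ x, (∀ a : ℕ, V.valuation x ≤ V.valuation t ^ a) → x = 0)
    (hq : ∀ x ∈ V, ∃ y ∈ V, V.valuation (y ^ p - x) < 1)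
    (hk : ∀ c : k, algebraMap k E c ∈ V) {m : ℕ} (hpm : ¬ p ∣ m) {z : E}
    (hz : V.valuation z⁻¹ = V.valuation t ^ m) (g : E ≃+* E) (hg : In1 V g)
    (hgp : ∀ x, g^[p] x = x) (hne : ∃ x, g x ≠ x) {c : k} (hgz : g z = z + algebraMap k E c) :
    c ≠ 0 ∧ V.valuation (g t - t) = V.valuation t ^ (m + 1) ∧
      ∀ x ∈ V, V.valuation (g x - x) ≤ V.valuation t ^ (m + 1) := by
  have hp : p.Prime := Fact.out
  have hz0 : z ≠ 0 := by
    rintro rfl
    rw [inv_zero, map_zero] at hz
    exact (ht.pow_pos m).ne hz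
  have hm : 1 ≤ m := by
    rcases Nat.eq_zero_or_pos m with h | h
    · exact absurd (h ▸ dvd_zero p) hpm
    · exact h
  obtain ⟨m', h1, h2⟩ := exists_ram p ht harch g hq hg (by
    obtain ⟨x, hx⟩ := hne
    rcases V.mem_or_inv_mem x with h | h
    · exact ⟨x, h, hx⟩
    · refine ⟨x⁻¹, h, fun h3 => hx ?_⟩
      rw [map_inv₀] at h3
      exact inv_injective h3)
  have htV : t ∈ V := (V.valuation_le_one_iff _).1 ht.2.1.le
  have hm'1 : 1 ≤ m' := by
    have h3 := (pw_iff ht).1 (wild_cot p ht hg hgp)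
    rw [h1] at h3
    by_contra hcon
    have h4 : m' = 0 := by omega
    subst h4
    exact absurd h3 (not_le.2 (ht.pow_strict (by omega)))
  have hpmV : V.valuation (m : E) = 1 := by
    have hcop : Nat.Coprime m p := ((Nat.Prime.coprime_iff_not_dvd hp).2 hpm).symm
    have h1 : ((m : ℤ) : E) * (Nat.gcdA m p : E) = 1 := by
      have h2 := Nat.gcd_eq_gcd_ab m p
      rw [hcop.gcd_eq_one] at h2
      have h3 := congrArg (fun z : ℤ => (z : E)) h2
      push_cast at h3
      rw [CharP.cast_eq_zero E p, zero_mul, add_zero] at h3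
      rw [Int.cast_natCast, ← h3]
    have h4 : V.valuation (m : E) ≤ 1 := (V.valuation_le_one_iff _).2 (natCast_mem V m)
    have h5 : V.valuation (Nat.gcdA m p : E) ≤ 1 := (V.valuation_le_one_iff _).2 (intCast_mem V _)
    have h6 := congrArg V.valuation h1
    rw [map_mul, map_one, Int.cast_natCast] at h6
    refine le_antisymm h4 ?_
    rw [← h6]
    calc V.valuation (m : E) * V.valuation (Nat.gcdA m p : E) ≤ V.valuation (m : E) * 1 := by
          gcongr
      _ = V.valuation (m : E) := mul_one _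
  -- the value of `g w - w`
  obtain ⟨ε, hε, hgt⟩ := ht.exists_mul h1.le
  have hε1 : V.valuation ε = 1 := by
    rw [hgt, map_mul, map_pow] at h1
    exact mul_left_cancel₀ (pow_ne_zero _ ht.ne0) (h1.trans (mul_one _).symm)
  have key : ∀ n : ℕ, Pw V (n + m' + 1) (g (t ^ n) - t ^ n - n * (t ^ (n + m') * ε)) := by
    intro n
    induction n with
    | zero =>
      rw [pow_zero, map_one, sub_self, Nat.cast_zero, zero_mul, sub_zero]
      exact Pw.zero' ht _
    | succ n ih =>
      have h3 : g (t ^ (n + 1)) - t ^ (n + 1) - ((n + 1 : ℕ) : E) * (t ^ (n + 1 + m') * ε) =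
          (g (t ^ n) - t ^ n - n * (t ^ (n + m') * ε)) * t +
          (g (t ^ n) - t ^ n) * (g t - t) + t ^ n * (g t - t - t ^ (m' + 1) * ε) := by
        rw [pow_succ t n, map_mul]
        push_cast
        ring
      rw [h3, hgt, sub_self, mul_zero, add_zero]
      have ht1 : Pw V 1 t := (pw_one ht).2 ht.2.1
      have h4 : Pw V n (g (t ^ n) - t ^ n) := (hg.pw (pw_uf ht n)).sub' (pw_uf ht n)
      have h5 : Pw V (m' + 1) (t ^ (m' + 1) * ε) := by
        have h6 := (pw_uf ht (m' + 1)).mul ((pw_zero ht).2 hε)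
        rwa [add_zero] at h6
      have h6 : Pw V (n + m') (g (t ^ n) - t ^ n) := by
        have h7 : g (t ^ n) - t ^ n = (g (t ^ n) - t ^ n - n * (t ^ (n + m') * ε)) +
            n * (t ^ (n + m') * ε) := by ring
        rw [h7]
        refine (ih.mono (by omega)).add ?_
        have h8 := ((pw_zero ht).2 (natCast_mem V n)).mul
          ((pw_uf ht (n + m')).mul ((pw_zero ht).2 hε))
        exact h8.mono (by omega)
      exact ((ih.mul ht1).mono (by omega)).add ((h6.mul h5).mono (by omega))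
  obtain ⟨u, huV, hwu⟩ := ht.exists_mul hz.le
  have hu1 : V.valuation u = 1 := by
    rw [hwu, map_mul, map_pow] at hz
    exact mul_left_cancel₀ (pow_ne_zero _ ht.ne0) (hz.trans (mul_one _).symm)
  have hgw : V.valuation (g z⁻¹ - z⁻¹) = V.valuation t ^ (m + m') := by
    have h3 : g z⁻¹ - z⁻¹ = (m * (t ^ (m + m') * ε)) * u +
        ((g (t ^ m) - t ^ m - m * (t ^ (m + m') * ε)) * u + g (t ^ m) * (g u - u)) := by
      rw [hwu, map_mul]
      ring
    have h4 : V.valuation ((m * (t ^ (m + m') * ε)) * u) = V.valuation t ^ (m + m') := by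
      rw [map_mul, map_mul, map_mul, hpmV, hε1, hu1, map_pow]
      simp
    have h5 : Pw V (m + m' + 1) ((g (t ^ m) - t ^ m - m * (t ^ (m + m') * ε)) * u +
        g (t ^ m) * (g u - u)) := by
      have h6 := (key m).mul ((pw_zero ht).2 huV)
      have h7 := (hg.pw (pw_uf ht m)).mul ((pw_iff ht).2 (h2 u huV))
      exact (h6.mono (by omega)).add (h7.mono (by omega))
    rw [h3, V.valuation.map_add_eq_of_lt_left, h4]
    rw [h4]
    exact lt_of_le_of_lt ((pw_iff ht).1 h5) (ht.pow_strict (by omega))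
  have hcV := hk c
  set c' : E := algebraMap k E c with hc'
  have hcw : V.valuation (c' * z⁻¹) < 1 := by
    rw [← pw_one ht]
    exact (((pw_zero ht).2 hcV).mul ((pw_iff ht).2 hz.le)).mono (by omega)
  have h1cw : V.valuation (1 + c' * z⁻¹) = 1 := by
    have h1 := V.valuation.map_add_eq_of_lt_right (x := c' * z⁻¹) (y := 1) (by rwa [map_one])
    rwa [add_comm, map_one] at h1
  have h1cw0 : 1 + c' * z⁻¹ ≠ 0 := by
    intro h0
    rw [h0, map_zero] at h1cw
    exact zero_ne_one h1cw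
  have hgw2 : g z⁻¹ - z⁻¹ = -(c' * (z⁻¹ ^ 2 / (1 + c' * z⁻¹))) := by
    have h3 : z + c' = z * (1 + c' * z⁻¹) := by field_simp
    have h4 : z + c' ≠ 0 := by rw [h3]; exact mul_ne_zero hz0 h1cw0
    have h5 : 1 + c' * z⁻¹ = (z + c') / z := by field_simp
    rw [map_inv₀, hgz, h5]
    field_simp
    ring
  have hc0 : c ≠ 0 := by
    rintro rfl
    rw [map_zero] at hc'
    rw [hgw2, hc', zero_mul, neg_zero, map_zero] at hgw
    exact (ht.pow_pos _).ne hgw
  have hc1 : V.valuation c' = 1 := by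
    refine le_antisymm ((V.valuation_le_one_iff _).2 hcV) ?_
    have h3 := hk c⁻¹
    rw [map_inv₀] at h3
    have h4 : V.valuation c'⁻¹ ≤ 1 := (V.valuation_le_one_iff _).2 h3
    rw [map_inv₀] at h4
    have h5 : V.valuation c' ≠ 0 := by
      rw [Ne, map_eq_zero, hc', map_eq_zero]
      exact hc0
    exact (inv_le_one₀ (zero_lt_iff.2 h5)).1 h4
  have h3 : V.valuation t ^ (m + m') = V.valuation t ^ (m * 2) := by
    rw [← hgw, hgw2, Valuation.map_neg, map_mul, map_div₀, h1cw, hc1, one_mul, div_one, map_pow,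
      hz, ← pow_mul]
  have hmm : m' = m := by
    rcases lt_trichotomy (m + m') (m * 2) with h4 | h4 | h4
    · exact absurd h3 (ht.pow_strict h4).ne'
    · omega
    · exact absurd h3 (ht.pow_strict h4).ne
  rw [hmm] at h1 h2
  exact ⟨hc0, h1, h2⟩

end ram

end Run7.h802.Rz
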