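import Pool.Agent.Run7.h802.Rz3
import Pool.Agent.Run7.h802.Rz7
import Pool.Agent.Run7.h802.Cv14

/-!
# The local structure at the points of a product of affine curves
-/

set_option autoImplicit false
set_option linter.unusedVariables false
set_option linter.unusedSectionVars false

namespace Run7.h802.Rz

open Run7.h802.Cv
open Pool.Agent.Y223.G Pool.Agent.W418.LU2 IsLocalRing Pool.Agent.H639R3 Pool.Agent.H920R2
  IsDedekindDomain

/-- The local properties of the points of a curve over a perfect field. -/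
structure PtR (p : ℕ) {E : Type} [Field E] (V : ValuationSubring E) (t : E) : Prop where
  uf : IsUf V t
  arch : ∀ x, (∀ a : ℕ, V.valuation x ≤ V.valuation t ^ a) → x = 0
  root : ∀ x ∈ V, ∃ y ∈ V, V.valuation (y ^ p - x) < 1

lemma PtR.congr {p : ℕ} {E : Type} [Field E] {V : ValuationSubring E} {t t' : E}
    (h : PtR p V t) (ht' : IsUf V t') : PtR p V t' where
  uf := ht'
  arch x hx := h.arch x fun a => by rw [h.uf.val_eq ht']; exact hx a
  root := h.root

section one

variable {k E : Type} [Field k] [PerfectField k] [Field E] [Algebra k E]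
  {A : Subalgebra k E} (hs : Cur k A)

include hs

theorem exists_t (p : ℕ) [Fact p.Prime] [CharP k p] (V : ValuationSubring E)
    (hV : PtA A V) : ∃ t, PtR p V t := by
  have := hs.ded
  have := hs.frac
  have := hs.ft
  obtain ⟨h, hmax⟩ := AA_max hs V hV
  obtain ⟨t, h1, h2, -, -⟩ := exists_uf V h hV.ne
  refine ⟨algebraMap A E t, h1, h2, fun x hx => ?_⟩
  obtain ⟨a, ha⟩ := residue_surjective V h hV.ne (IsLocalRing.residue V ⟨x, hx⟩)
  have ha' : V.valuation (algebraMap A E a - x) < 1 := by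
    have h3 : IsLocalRing.residue V (⟨algebraMap A E a, h a⟩ - ⟨x, hx⟩) = 0 := by
      rw [map_sub, sub_eq_zero]
      exact ha
    rw [IsLocalRing.residue_eq_zero_iff, V.valuation_lt_one_iff] at h3
    exact h3
  obtain ⟨r, hr⟩ := root_quot (k := k) p (cent V h) (Ideal.Quotient.mk _ a)
  obtain ⟨y, rfl⟩ := Ideal.Quotient.mk_surjective r
  rw [← map_pow, Ideal.Quotient.eq, mem_cent] at hr
  refine ⟨algebraMap A E y, h y, ?_⟩
  have h3 : algebraMap A E y ^ p - x = algebraMap A E (y ^ p - a) + (algebraMap A E a - x) := by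
    rw [map_sub, map_pow]
    ring
  rw [h3]
  exact V.valuation.map_add_lt hr ha'

theorem finite_inert (g : E ≃ₐ[k] E) (hst : ∀ a ∈ A, g a ∈ A) (hne : ∃ x, g x ≠ x) :
    {V : ValuationSubring E | PtA A V ∧ ∀ x ∈ V, V.valuation (g x - x) < 1}.Finite := by
  have := hs.ded
  have := hs.frac
  obtain ⟨f, hf⟩ : ∃ f : A, g f ≠ f := by
    by_contra hcon
    push Not at hcon
    obtain ⟨x, hx⟩ := hne
    obtain ⟨a, b, hb, rfl⟩ := IsFractionRing.div_surjective (A := A) x
    apply hx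
    rw [map_div₀]
    have h1 : ∀ a : A, g (algebraMap A E a) = algebraMap A E a :=
      fun a => hcon a
    rw [h1, h1]
  let f' : A := ⟨g f - f, A.sub_mem (hst f f.2) f.2⟩
  have hf' : f' ≠ 0 := fun h => hf (sub_eq_zero.1 (congrArg Subtype.val h))
  refine (finite_zeros (E := E) f' hf').subset ?_
  rintro V ⟨hV, hgV⟩
  have h : ∀ a : A, algebraMap A E a ∈ V := fun a => hV.le a a.2
  exact ⟨hV.ne, h, hgV f (h f)⟩

end one

section kin

variable {E : Type} [Field E] {G : Type} [Group G] {r : G →* (E ≃+* E)}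

/-- The kernel is a `p`-group. -/
theorem kin_card (p : ℕ) [Fact p.Prime] [CharP E p] {V : ValuationSubring E} {t : E}
    (hL : PtR p V t) [Finite G]
    (H : Subgroup G) (hH : H ≤ kin r V hL.uf) (hfix : ∀ g ∈ H, g ≠ 1 → r g ≠ 1) :
    ∃ a : ℕ, Nat.card H = p ^ a := by
  have hp : p.Prime := Fact.out
  refine ⟨_, Nat.eq_prime_pow_of_unique_prime_dvd Nat.card_pos.ne' fun {l} hl hdvd => ?_⟩
  by_contra hne
  have hlf : Fact l.Prime := ⟨hl⟩
  obtain ⟨g, hg⟩ := exists_prime_orderOf_dvd_card' l hdvd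
  have hgG : (g : G) ∈ kin r V hL.uf := hH g.2
  have hgl : (g : G) ^ l = 1 := by
    have h1 := pow_orderOf_eq_one g
    rw [hg] at h1
    exact congrArg Subtype.val h1
  have hg1 : (g : G) ≠ 1 := by
    intro h1
    have h2 : g = 1 := Subtype.ext h1
    rw [h2, orderOf_one] at hg
    exact hl.one_lt.ne hg
  have hlp : V.valuation (l : E) = 1 := by
    have hcop : Nat.Coprime l p := (Nat.coprime_primes hl hp).2 hne
    have h1 : ((l : ℤ) : E) * (Nat.gcdA l p : E) = 1 := by
      have h2 := Nat.gcd_eq_gcd_ab l p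
      rw [hcop.gcd_eq_one] at h2
      have h3 := congrArg (fun z : ℤ => (z : E)) h2
      push_cast at h3
      rw [CharP.cast_eq_zero E p, zero_mul, add_zero] at h3
      rw [Int.cast_natCast, ← h3]
    have h4 : V.valuation (l : E) ≤ 1 := (V.valuation_le_one_iff _).2 (natCast_mem V l)
    have h5 : V.valuation (Nat.gcdA l p : E) ≤ 1 := (V.valuation_le_one_iff _).2 (intCast_mem V _)
    have h6 := congrArg V.valuation h1
    rw [map_mul, map_one, Int.cast_natCast] at h6
    refine le_antisymm h4 ?_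
    rw [← h6]
    calc V.valuation (l : E) * V.valuation (Nat.gcdA l p : E) ≤ V.valuation (l : E) * 1 := by
          gcongr
      _ = V.valuation (l : E) := mul_one _
  have h7 := Rz.tame_trivial p hL.uf hL.arch (r g) hL.root hgG.1 ((pw_iff hL.uf).1 hgG.2)
    hl.ne_zero hlp (fun x => by rw [iter_eq, hgl, map_one, RingAut.one_apply])
  apply hfix g g.2 hg1
  ext x
  rw [RingAut.one_apply]
  rcases V.mem_or_inv_mem x with h8 | h8
  · exact h7 x h8
  · have h9 := h7 _ h8
    rw [map_inv₀] at h9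
    exact inv_injective h9

end kin

section prod

variable {k : Type} [Field k] {ι : Type} [Fintype ι] [DecidableEq ι]
  {E : ι → Type} [∀ i, Field (E i)] [∀ i, Algebra k (E i)] {G : Type} [Group G]
  {ρ : ∀ i, G →* (E i ≃ₐ[k] E i)}

/-- The wild inertia groups are `p`-groups. -/
theorem kin_pow (p : ℕ) [Fact p.Prime] [CharP k p] [Finite G]
    {V : ∀ i, ValuationSubring (E i)}
    (hiso : ∀ g ∈ inr ρ V, g ≠ 1 → ∀ i, ρ i g ≠ 1)
    {t : ∀ i, E i} (hL : ∀ i, PtR p (V i) (t i)) (i : ι) :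
    ∃ a, Nat.card (inr ρ V ⊓ kin (rr ρ i) (V i) (hL i).uf : Subgroup G) = p ^ a := by
  have hchar : CharP (E i) p := charP_of_injective_algebraMap (algebraMap k (E i)).injective p
  exact kin_card p (hL i)
    (inr ρ V ⊓ kin (rr ρ i) (V i) (hL i).uf) inf_le_right (by
      intro g hg hg1 h1
      apply hiso g hg.1 hg1 i
      ext x
      exact congrArg (fun f : E i ≃+* E i => f x) h1)

/-- Groups without elements of order `p`. -/
theorem kin_bot (p : ℕ) [Fact p.Prime] [CharP k p] [Finite G]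
    {V : ∀ i, ValuationSubring (E i)}
    (hiso : ∀ g ∈ inr ρ V, g ≠ 1 → ∀ i, ρ i g ≠ 1)
    {t : ∀ i, E i} (hL : ∀ i, PtR p (V i) (t i)) (hno : ∀ g ∈ inr ρ V, g ^ p = 1 → g = 1) (i : ι) :
    inr ρ V ⊓ kin (rr ρ i) (V i) (hL i).uf = ⊥ := by
  have hp : p.Prime := Fact.out
  obtain ⟨a, ha⟩ := kin_pow p hiso hL i
  rcases Nat.eq_zero_or_pos a with h0 | h0
  · rw [h0, pow_zero] at ha
    exact Subgroup.card_eq_one.1 ha
  · exfalso
    obtain ⟨g, hg⟩ := exists_prime_orderOf_dvd_card' (G := (inr ρ V ⊓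
      kin (rr ρ i) (V i) (hL i).uf : Subgroup G)) p (by rw [ha]; exact dvd_pow_self p h0.ne')
    have h5 : (g : G) ^ p = 1 := by
      have h6 := pow_orderOf_eq_one g
      rw [hg] at h6
      exact congrArg Subtype.val h6
    have h7 := hno g g.2.1 h5
    have h8 : g = 1 := Subtype.ext h7
    rw [h8, orderOf_one] at hg
    exact absurd hp.one_lt (by omega)

/-- The structure of the inertia groups. -/
theorem wild_dich (p : ℕ) [Fact p.Prime] [CharP k p] [Finite G]
    {V : ∀ i, ValuationSubring (E i)}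
    (hiso : ∀ g ∈ inr ρ V, g ≠ 1 → ∀ i, ρ i g ≠ 1) (hcard : ¬ p ^ 2 ∣ Nat.card (inr ρ V))
    {t : ∀ i, E i} (hL : ∀ i, PtR p (V i) (t i)) {τ : G} (hτ : τ ∈ inr ρ V) (hτp : τ ^ p = 1)
    (hτ1 : τ ≠ 1) (i : ι) :
    inr ρ V ⊓ kin (rr ρ i) (V i) (hL i).uf ≤ Subgroup.zpowers τ := by
  have hp : p.Prime := Fact.out
  obtain ⟨a, ha⟩ := kin_pow p hiso hL i
  have hchar : CharP (E i) p := charP_of_injective_algebraMap (algebraMap k (E i)).injective p
  have hord : orderOf τ = p := orderOf_eq_prime hτp hτ1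
  have h1 : Subgroup.zpowers τ ≤ inr ρ V ⊓ kin (rr ρ i) (V i) (hL i).uf := by
    rw [Subgroup.zpowers_le]
    refine ⟨hτ, wild_kin p (hL i).uf ?_ hτp⟩
    exact fun x hx => mem_inr.1 hτ i x hx
  have h2 : Nat.card (Subgroup.zpowers τ) = p := by rw [Nat.card_zpowers, hord]
  have h3 : Nat.card (inr ρ V ⊓ kin (rr ρ i) (V i) (hL i).uf : Subgroup G) ∣
      Nat.card (inr ρ V) := Subgroup.card_dvd_of_le inf_le_left
  have h4 : a < 2 := by
    by_contra hcon
    rw [ha] at h3
    exact hcard ((pow_dvd_pow p (not_lt.1 hcon)).trans h3)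
  have h5 : Nat.card (inr ρ V ⊓ kin (rr ρ i) (V i) (hL i).uf : Subgroup G) ≤ p := by
    rw [ha]
    calc p ^ a ≤ p ^ 1 := Nat.pow_le_pow_right hp.pos (by omega)
      _ = p := pow_one p
  refine (Subgroup.eq_of_le_of_card_ge h1 ?_).ge
  rw [h2]
  exact h5

/-- The ramification numbers. -/
theorem mm_of (p : ℕ) [Fact p.Prime] {V : ∀ i, ValuationSubring (E i)} {t : ∀ i, E i}
    (ht : ∀ i, IsUf (V i) (t i)) {τ : G} (hτ : τ ∈ inr ρ V) (hτp : τ ^ p = 1) (i : ι) {m : ℕ}
    (h1 : (V i).valuation (ρ i τ (t i) - t i) = (V i).valuation (t i) ^ (m + 1))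
    (h2 : ∀ h ∈ inr ρ V, h ^ p = 1 → ∀ x ∈ V i,
      (V i).valuation (ρ i h x - x) ≤ (V i).valuation (t i) ^ (m + 1)) : mm ρ p V i = m := by
  have htV : t i ∈ V i := ((V i).valuation_le_one_iff _).1 (ht i).2.1.le
  have hmem : m ∈ mS ρ p V i := by
    refine ⟨τ, hτ, hτp, t i, htV, ?_⟩
    rw [pw_iff (ht i), h1, not_le]
    exact (ht i).pow_strict (by omega)
  apply le_antisymm
  · exact Nat.sInf_le hmem
  · apply le_csInf ⟨m, hmem⟩
    rintro m' ⟨h, hh, hhp, x, hx, hP⟩
    by_contra hcon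
    apply hP
    rw [pw_iff (ht i)]
    exact (h2 h hh hhp x hx).trans ((ht i).pow_anti (by omega))

/-- The ramification numbers, the case of a group of order `p`. -/
theorem mm_spec (p : ℕ) [Fact p.Prime] [CharP k p] [Finite G]
    {V : ∀ i, ValuationSubring (E i)} {t : ∀ i, E i} (hL : ∀ i, PtR p (V i) (t i))
    {τ : G} (hτ : τ ∈ inr ρ V) (hτp : τ ^ p = 1) (hτρ : ∀ i, ρ i τ ≠ 1)
    (hK : ∀ i, inr ρ V ⊓ kin (rr ρ i) (V i) (hL i).uf ≤ Subgroup.zpowers τ) (i : ι) :
    1 ≤ mm ρ p V i ∧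
      (V i).valuation (ρ i τ (t i) - t i) = (V i).valuation (t i) ^ (mm ρ p V i + 1) ∧
      ∀ x ∈ V i, (V i).valuation (ρ i τ x - x) ≤ (V i).valuation (t i) ^ (mm ρ p V i + 1) := by
  classical
  have hp : p.Prime := Fact.out
  have hchar : CharP (E i) p := charP_of_injective_algebraMap (algebraMap k (E i)).injective p
  have hne : ∃ x ∈ V i, (rr ρ i τ) x ≠ x := by
    by_contra hcon
    push Not at hcon
    apply hτρ i
    ext x
    rw [AlgEquiv.one_apply]
    rcases (V i).mem_or_inv_mem x with h8 | h8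
    · exact hcon x h8
    · have h9 := hcon _ h8
      rw [map_inv₀] at h9
      exact inv_injective h9
  have hin : In1 (V i) (rr ρ i τ) := fun x hx => mem_inr.1 hτ i x hx
  obtain ⟨m, hm1, hm2⟩ := Rz.exists_ram p (hL i).uf (hL i).arch (rr ρ i τ) (hL i).root hin hne
  have hkin := wild_kin p (hL i).uf (r := rr ρ i) hin hτp
  have hmpos : 1 ≤ m := by
    have h1 := (pw_iff (hL i).uf).1 hkin.2
    rw [hm1] at h1
    by_contra hcon
    have h2 : m = 0 := by omega
    subst h2
    exact absurd h1 (not_le.2 ((hL i).uf.pow_strict (by omega)))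
  have hmm : mm ρ p V i = m := by
    refine mm_of p (fun i => (hL i).uf) hτ hτp i hm1 ?_
    intro h hh hhp x hx
    have hin' : In1 (V i) (rr ρ i h) := fun x hx => mem_inr.1 hh i x hx
    have h1 : h ∈ Subgroup.zpowers τ := hK i ⟨hh, wild_kin p (hL i).uf hin' hhp⟩
    rw [← mem_powers_iff_mem_zpowers] at h1
    obtain ⟨n, rfl⟩ := h1
    have key : ∀ n : ℕ, ∀ x ∈ V i, Pw (V i) (m + 1) (ρ i (τ ^ n) x - x) := by
      intro n
      induction n with
      | zero =>
        intro x hx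
        rw [pow_zero, map_one, AlgEquiv.one_apply, sub_self]
        exact ⟨t i, (hL i).uf, by rw [map_zero]; exact zero_le⟩
      | succ n ih =>
        intro x hx
        have h2 : ρ i (τ ^ (n + 1)) x - x =
            (ρ i (τ ^ n) (ρ i τ x) - ρ i τ x) + (ρ i τ x - x) := by
          rw [pow_succ, map_mul, AlgEquiv.mul_apply]
          ring
        rw [h2]
        exact (ih _ (hin.mem hx)).add ((pw_iff (hL i).uf).2 (hm2 x hx))
    exact (pw_iff (hL i).uf).1 (key n x hx)
  rw [hmm]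
  exact ⟨hmpos, hm1, hm2⟩

end prod

end Run7.h802.Rz
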