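import Pool.Agent.Run7.h802.Rz12
import Pool.Agent.Run7.h802.Rz13

/-!
# The points of a product of affine curves with nontrivial inertia
-/

set_option autoImplicit false
set_option linter.unusedVariables false
set_option linter.unusedSectionVars false

namespace Run7.h802.Rz

open Run7.h802.Cv
open Pool.Agent.Y223.G Pool.Agent.W418.LU2 IsLocalRing Pool.Agent.H639R3 Pool.Agent.H920R2
  IsDedekindDomain

section prod

variable {k L : Type} [Field k] [PerfectField k] [Field L] [Algebra k L] {ι : Type} [Fintype ι]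
  [DecidableEq ι] {E : ι → Type} [∀ i, Field (E i)] [∀ i, Algebra k (E i)]
  {e : ∀ i, E i →ₐ[k] L} {A : ∀ i, Subalgebra k (E i)}

/-- The embedding of a factor. -/
noncomputable def phi (e : ∀ i, E i →ₐ[k] L) (A : ∀ i, Subalgebra k (E i)) (i : ι) :
    A i →ₐ[k] BB e A where
  toFun a := ⟨e i a, mem_BB i a.2⟩
  map_one' := Subtype.ext (map_one (e i))
  map_mul' x y := Subtype.ext (map_mul (e i) (x : E i) (y : E i))
  map_zero' := Subtype.ext (map_zero (e i))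
  map_add' x y := Subtype.ext (map_add (e i) (x : E i) (y : E i))
  commutes' x := Subtype.ext ((e i).commutes x)

/-- The contraction of a maximal ideal is maximal. -/
lemma comap_max {B B' : Type} [CommRing B] [CommRing B'] [Algebra k B] [Algebra k B']
    [Algebra.FiniteType k B'] (φ : B →ₐ[k] B') (𝔪 : Ideal B') (hm : 𝔪.IsMaximal) :
    (𝔪.comap (φ : B →+* B')).IsMaximal := by
  let _ : Field (B' ⧸ 𝔪) := Ideal.Quotient.field 𝔪
  have h1 : Module.Finite k (B' ⧸ 𝔪) := finite_of_finite_type_of_isJacobsonRing k _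
  have hp : (𝔪.comap (φ : B →+* B')).IsPrime := Ideal.comap_isPrime _ _
  have hdom : IsDomain (B ⧸ 𝔪.comap (φ : B →+* B')) := Ideal.Quotient.isDomain _
  let ψ : (B ⧸ 𝔪.comap (φ : B →+* B')) →ₐ[k] (B' ⧸ 𝔪) :=
    Ideal.quotientMapₐ 𝔪 φ (le_refl _)
  have hψ : Function.Injective ψ := Ideal.quotientMap_injective (I := 𝔪) (f := (φ : B →+* B'))
  have hint : Algebra.IsIntegral k (B ⧸ 𝔪.comap (φ : B →+* B')) := by
    refine ⟨fun x => ?_⟩
    rw [← isIntegral_algHom_iff ψ hψ]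
    exact Algebra.IsIntegral.isIntegral _
  have hfield : IsField (B ⧸ 𝔪.comap (φ : B →+* B')) :=
    isField_of_isIntegral_of_isField' (Field.toIsField k)
  exact Ideal.Quotient.maximal_of_isField _ hfield

/-- The point of a maximal ideal. -/
theorem pt_of_max (hs : ∀ i, Cur k (A i)) (𝔪 : Ideal (BB e A)) (hm : 𝔪.IsMaximal) :
    ∃ V : ∀ i, ValuationSubring (E i), (∀ i, PtA (A i) (V i)) ∧
      ∀ i (a : E i) (ha : a ∈ A i),
        ((⟨e i a, mem_BB i ha⟩ : BB e A) ∈ 𝔪 ↔ (V i).valuation a < 1) := by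
  have hft := bb_ft (e := e) hs
  have key : ∀ i, ∃ V : ValuationSubring (E i), PtA (A i) V ∧
      ∀ (a : E i) (ha : a ∈ A i),
        ((⟨e i a, mem_BB i ha⟩ : BB e A) ∈ 𝔪 ↔ V.valuation a < 1) := by
    intro i
    have := (hs i).ded
    have := (hs i).frac
    have hnf := (hs i).nf
    have hmax := comap_max (phi e A i) 𝔪 hm
    have h𝔫p := hmax.isPrime
    have hne := Ring.ne_bot_of_isMaximal_of_not_isField hmax hnf
    obtain ⟨V, h, hV, hcent⟩ := exists_of_height_one (F := E i)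
      (⟨_, h𝔫p, hne⟩ : HeightOneSpectrum (A i))
    refine ⟨V, ⟨fun a ha => h ⟨a, ha⟩, hV⟩, ?_⟩
    · intro a ha
      have h1 := mem_cent V h ⟨a, ha⟩
      rw [hcent] at h1
      exact h1
  choose V hV1 hV2 using key
  exact ⟨V, hV1, hV2⟩

variable {G : Type} [Group G] {ρ : ∀ i, G →* (E i ≃ₐ[k] E i)}

/-- A prime ideal with nontrivial inertia lies over a point. -/
theorem over_of_fix (hs : ∀ i, Cur k (A i)) (hst : ∀ g i, ∀ a ∈ A i, ρ i g a ∈ A i)
    (hiso : ∀ V : ∀ i, ValuationSubring (E i), (∀ i, PtA (A i) (V i)) → ∀ g ∈ inr ρ V, g ≠ 1 →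
      ∀ i, ρ i g ≠ 1) {q : Ideal (BB e A)}
    (hq : q.IsPrime) {g : G} (hg : g ≠ 1) (τ : L ≃ₐ[k] L) (hτ : ∀ i x, τ (e i x) = e i (ρ i g x))
    (hfx : ∀ x ∈ BB e A, ∃ h : τ x - x ∈ BB e A, (⟨τ x - x, h⟩ : BB e A) ∈ q) :
    ∃ V : ∀ i, ValuationSubring (E i), (∀ i, PtA (A i) (V i)) ∧ g ∈ inr ρ V ∧ Over q V := by
  obtain ⟨𝔪, hm, hle⟩ := q.exists_le_maximal hq.ne_top
  obtain ⟨V, hPt, hiff⟩ := pt_of_max hs 𝔪 hm
  have hover : Over 𝔪 V := fun i a ha h => (hiff i a ha).2 h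
  have hloc := locV hs hPt
  have hgV : g ∈ inr ρ V := by
    rw [mem_inr]
    exact inr_of_fix hm.isPrime hloc hover τ (fun i => ρ i g) hτ (hst g) fun x hx => by
        obtain ⟨h1, h2⟩ := hfx x hx
        exact ⟨h1, hle h2⟩
  refine ⟨V, hPt, hgV, ?_⟩
  intro i a ha hva
  have := (hs i).ded
  have := (hs i).frac
  obtain ⟨h, hmax⟩ := AA_max (hs i) (V i) (hPt i)
  set 𝔫 : Ideal (A i) := q.comap (phi e A i : A i →+* BB e A) with h𝔫
  have h𝔫p : 𝔫.IsPrime := Ideal.comap_isPrime _ _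
  obtain ⟨f, hf⟩ : ∃ f : A i, ρ i g f ≠ f := by
    by_contra hcon
    push Not at hcon
    apply hiso V hPt g hgV hg i
    ext x
    rw [AlgEquiv.one_apply]
    obtain ⟨a, b, hb, rfl⟩ := IsFractionRing.div_surjective (A := A i) x
    rw [map_div₀]
    have h1 : ∀ a : A i, ρ i g (algebraMap (A i) (E i) a) = algebraMap (A i) (E i) a :=
      fun a => hcon a
    rw [h1, h1]
  have h0 : ρ i g f - f ∈ A i := (A i).sub_mem (hst g i f f.2) f.2
  have h1 : (⟨ρ i g f - f, h0⟩ : A i) ∈ 𝔫 := by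
    obtain ⟨h2, h3⟩ := hfx (e i f) (mem_BB i f.2)
    have h4 : phi e A i ⟨ρ i g f - f, h0⟩ = ⟨τ (e i f) - e i f, h2⟩ := by
      apply Subtype.ext
      change e i (ρ i g f - f) = τ (e i f) - e i f
      rw [hτ, map_sub]
    rw [h𝔫, Ideal.mem_comap]
    change phi e A i ⟨ρ i g f - f, h0⟩ ∈ q
    rw [h4]
    exact h3
  have hne : 𝔫 ≠ ⊥ := by
    intro h2
    rw [h2, Ideal.mem_bot] at h1
    exact hf (sub_eq_zero.1 (congrArg Subtype.val h1))
  have hmax' : 𝔫.IsMaximal := h𝔫p.isMaximal hne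
  have heq : 𝔫 = cent (V i) h := by
    apply hmax'.eq_of_le hmax.ne_top
    intro y hy
    rw [mem_cent]
    exact (hiff i y y.2).1 (hle hy)
  have h5 : (⟨a, ha⟩ : A i) ∈ 𝔫 := by
    rw [heq, mem_cent]
    exact hva
  exact h5

variable (ρ A)

/-- The points with nontrivial inertia. -/
def ZR : Set (∀ i, ValuationSubring (E i)) :=
  {V | (∀ i, PtA (A i) (V i)) ∧ ∃ g ∈ inr ρ V, g ≠ 1}

variable {ρ A}

theorem ZR_fin [Finite G] (hs : ∀ i, Cur k (A i)) (hst : ∀ g i, ∀ a ∈ A i, ρ i g a ∈ A i)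
    (hiso : ∀ V : ∀ i, ValuationSubring (E i), (∀ i, PtA (A i) (V i)) → ∀ g ∈ inr ρ V, g ≠ 1 →
      ∀ i, ρ i g ≠ 1) : (ZR A ρ).Finite := by
  classical
  have h1 : ZR A ρ ⊆ ⋃ g : {g : G // g ≠ 1}, {V | (∀ i, PtA (A i) (V i)) ∧ (g : G) ∈ inr ρ V} := by
    rintro V ⟨hV, g, hg, hg1⟩
    exact Set.mem_iUnion.2 ⟨⟨g, hg1⟩, hV, hg⟩
  refine (Set.finite_iUnion fun g => ?_).subset h1
  by_cases hne : ∃ V : ∀ i, ValuationSubring (E i), (∀ i, PtA (A i) (V i)) ∧ (g : G) ∈ inr ρ V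
  · obtain ⟨V₀, hV₀, hgV₀⟩ := hne
    have h2 := hiso V₀ hV₀ g hgV₀ g.2
    have h3 : ∀ i, {V : ValuationSubring (E i) | PtA (A i) V ∧
        ∀ x ∈ V, V.valuation (ρ i g x - x) < 1}.Finite := by
      intro i
      refine finite_inert (hs i) (ρ i g) (hst g i) ?_
      by_contra hcon
      push Not at hcon
      apply h2 i
      ext x
      exact hcon x
    refine (Set.Finite.pi' h3).subset ?_
    rintro V ⟨hV, hgV⟩ i
    exact ⟨hV i, mem_inr.1 hgV i⟩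
  · refine (Set.finite_empty).subset ?_
    intro V hV
    exact absurd ⟨V, hV⟩ hne

lemma ZR_act (hst : ∀ g i, ∀ a ∈ A i, ρ i g a ∈ A i) {V : ∀ i, ValuationSubring (E i)}
    (hV : V ∈ ZR A ρ) (g : G) : act ρ g V ∈ ZR A ρ := by
  obtain ⟨h1, h, hh, hh1⟩ := hV
  refine ⟨fun i => ⟨fun a ha => ?_, fun htop => (h1 i).ne ?_⟩, g * h * g⁻¹, inr_act hh g, ?_⟩
  · rw [mem_act]
    exact (h1 i).le _ (hst _ i a ha)
  · rw [eq_top_iff]
    intro x _
    rw [act_mem (ρ := ρ) (g := g), htop]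
    trivial
  · intro h2
    apply hh1
    have h3 : g * h = g := by
      rw [mul_inv_eq_one] at h2
      exact h2
    exact mul_eq_left.1 h3

/-- The filtration is stable. -/
lemma FF_st (p : ℕ) (σ : G →* (L ≃ₐ[k] L)) (hσ : ∀ g i x, σ g (e i x) = e i (ρ i g x))
    (hst : ∀ g i, ∀ a ∈ A i, ρ i g a ∈ A i) (g : G) {d : ℤ} {x : L}
    (hx : x ∈ FF e A (ZR A ρ) (wt ρ p) d) :
    σ g x ∈ FF e A (ZR A ρ) (wt ρ p) d := by
  rw [mem_FF] at hx ⊢
  refine ⟨BB_st (σ g) (fun i => ρ i g) (hσ g) (hst g) hx.1, fun V hV => ?_⟩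
  have h1 := hx.2 (act ρ g⁻¹ V) (ZR_act hst hV g⁻¹)
  have h2 : wt ρ p (act ρ g⁻¹ V) = wt ρ p V := funext fun i => wt_act p V i g⁻¹
  rw [h2] at h1
  refine JJ_map (V := act ρ g⁻¹ V) (σ g) (fun i => ρ i g) (hσ g) ?_ h1
  intro i x
  rw [mem_act, inv_inv]

end prod

end Run7.h802.Rz
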