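import Pool.Agent.Run7.h802.Rz14

/-!
# The quotients of products of affine curves
-/

set_option autoImplicit false
set_option linter.unusedVariables false
set_option linter.unusedSectionVars false

namespace Run7.h802.Rz

open Run7.h802.Cv
open Pool.Agent.Y223.G Pool.Agent.W418.LU2 IsLocalRing Pool.Agent.H639R3 IsDedekindDomain

section prod

variable {k L : Type} [Field k] [PerfectField k] [Field L] [Algebra k L] {ι : Type} [Fintype ι]
  [DecidableEq ι] {E : ι → Type} [∀ i, Field (E i)] [∀ i, Algebra k (E i)]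
  {e : ∀ i, E i →ₐ[k] L} {A : ∀ i, Subalgebra k (E i)}
  {G : Type} [Group G] (ρ : ∀ i, G →* (E i ≃ₐ[k] E i))

/-- The elements of order a power of `p` of the inertia group at `V` act by translations of
functions `z i` with poles of order prime to `p`. -/
def TrC (p : ℕ) (V : ∀ i, ValuationSubring (E i)) : Prop :=
  ∃ (z : ∀ i, E i) (m : ι → ℕ), (∀ i, ¬ p ∣ m i) ∧
    (∀ i, ∃ t, IsUf (V i) t ∧ (V i).valuation (z i)⁻¹ = (V i).valuation t ^ m i) ∧
    ∀ g ∈ inr ρ V, (∃ a : ℕ, g ^ p ^ a = 1) →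
      ∃ c : k, ∀ i, ρ i g (z i) = z i + algebraMap k (E i) c

variable {ρ}

/-- The translations. -/
theorem tr_char [Finite G] (p : ℕ) [hp : Fact p.Prime] [CharP k p]
    {V : ∀ i, ValuationSubring (E i)} {t : ∀ i, E i} (hL : ∀ i, PtR p (V i) (t i))
    (hk : ∀ i, ∀ x : k, algebraMap k (E i) x ∈ V i)
    (hiso : ∀ g ∈ inr ρ V, g ≠ 1 → ∀ i, ρ i g ≠ 1) {z : ∀ i, E i} {m : ι → ℕ}
    (hpm : ∀ i, ¬ p ∣ m i) (hz : ∀ i, (V i).valuation (z i)⁻¹ = (V i).valuation (t i) ^ m i)
    {g : G} (hg : g ∈ inr ρ V) (hgp : g ^ p = 1) (hg1 : g ≠ 1) {c : k} (i : ι)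
    (hc : ρ i g (z i) = z i + algebraMap k (E i) c) :
    c ≠ 0 ∧ (V i).valuation (ρ i g (t i) - t i) = (V i).valuation (t i) ^ (m i + 1) ∧
      ∀ x ∈ V i, (V i).valuation (ρ i g x - x) ≤ (V i).valuation (t i) ^ (m i + 1) := by
  have hchar : CharP (E i) p := charP_of_injective_algebraMap (algebraMap k (E i)).injective p
  refine ram_eq p (hL i).uf (hL i).arch (hL i).root (hk i) (hpm i) (hz i)
    (ρ i g : E i ≃+* E i) (fun x hx => mem_inr.1 hg i x hx) (fun x => ?_) ?_ hc
  · have h1 := iter_eq (r := rr ρ i) g p x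
    rw [hgp, map_one, RingAut.one_apply] at h1
    exact h1
  · by_contra hcon
    push Not at hcon
    apply hiso g hg hg1 i
    ext x
    exact hcon x

/-- The quotient of a product of affine curves. -/
theorem ch_aff [Nonempty ι] [Finite G] (p : ℕ) [Fact p.Prime] [CharP k p]
    {F : Type} [Field F] [Algebra k F] (κ : F →ₐ[k] L) (hs : ∀ i, Cur k (A i))
    (hld : ∀ (S : Finset ι) (i : ι), i ∉ S →
      (⨆ j ∈ S, (A j).map (e j)).LinearDisjoint ((A i).map (e i)))
    (hst : ∀ g i, ∀ a ∈ A i, ρ i g a ∈ A i)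
    (σ : G →* (L ≃ₐ[k] L)) (hσ : ∀ g i x, σ g (e i x) = e i (ρ i g x))
    (hfix : ∀ x, (∀ g, σ g x = x) ↔ ∃ y, κ y = x)
    (hiso : ∀ V : ∀ i, ValuationSubring (E i), (∀ i, PtA (A i) (V i)) → ∀ g ∈ inr ρ V, g ≠ 1 →
      ∀ i, ρ i g ≠ 1)
    (hcond : ∀ V : ∀ i, ValuationSubring (E i), (∀ i, PtA (A i) (V i)) →
      (¬ p ^ 2 ∣ Nat.card (inr ρ V)) ∨ TrC ρ p V) {D : ℕ} (hD : 1 ≤ D)
    (hwD : ∀ V ∈ ZR A ρ, ∀ i, wt ρ p V i ≤ D)
    (hwD' : ∀ V ∈ ZR A ρ, ∀ i, wt ρ p V i * mm ρ p V i * Nat.card G ≤ D) :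
    Ch (res κ (RF (FF e A (ZR A ρ) (wt ρ p)) D)) := by
  classical
  have hp : p.Prime := Fact.out
  have hCD : CD e A (ZR A ρ) (wt ρ p) D :=
    cd_curve p hs hld (ZR A ρ) (ZR_fin hs hst hiso) (fun V hV i => hV.1 i) (wt ρ p) D
      (fun V _ i => wt_pos p V i) hwD hD
  have hF := hCD.filt
  have hRst : ∀ g, ∀ f ∈ RF (FF e A (ZR A ρ) (wt ρ p)) D,
      tl (σ g) f ∈ RF (FF e A (ZR A ρ) (wt ρ p)) D :=
    fun g f hf => RF_tl (σ g) (fun d x hx => FF_st p σ hσ hst g hx) hf
  have hfx : ∀ {q : Ideal (BB e A)} {g : G},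
      (∀ x ∈ BB e A, ∀ h : σ g x - x ∈ BB e A, (⟨σ g x - x, h⟩ : BB e A) ∈ q) →
      ∀ x ∈ BB e A, ∃ h : σ g x - x ∈ BB e A, (⟨σ g x - x, h⟩ : BB e A) ∈ q := by
    intro q g hx x hxB
    have h1 : σ g x - x ∈ BB e A :=
      (BB e _).sub_mem (BB_st (σ g) (fun i => ρ i g) (hσ g) (hst g) hxB) hxB
    exact ⟨h1, hx x hxB h1⟩
  refine stepP p hfix _ hCD.isCh hRst ?_
  intro Q hQ ⟨d, η, hη, hd, hηQ⟩
  have hη' : ¬ MQ Q (hm (d : ℤ) η) := fun ⟨h1, h2⟩ => hηQ h2
  have hq : (Q.comap (j0 hCD)).IsPrime := Ideal.comap_isPrime _ _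
  have hinq : ∀ g, (∀ f ∈ RF (FF e A (ZR A ρ) (wt ρ p)) D, MQ Q (tl (σ g) f - f)) →
      ∀ x ∈ BB e A, ∃ h : σ g x - x ∈ BB e A,
        (⟨σ g x - x, h⟩ : BB e A) ∈ Q.comap (j0 hCD) := by
    intro g hg
    refine hfx fun x hx h => ?_
    rw [mem_comap_j0]
    have h1 := hg (hm 0 x) (RF_zero hF hx)
    rw [tl_hm', ← hm_sub] at h1
    exact h1
  by_cases hov : ∃ V ∈ ZR A ρ, Over (Q.comap (j0 hCD)) V
  · obtain ⟨V, hV, hover⟩ := hov
    have hPt : ∀ i, PtA (A i) (V i) := hV.1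
    have hloc := hCD.loc V hV
    have hk : ∀ i, ∀ x : k, algebraMap k (E i) x ∈ V i := fun i x =>
      (hPt i).le _ ((A i).algebraMap_mem x)
    choose t htA ht using hloc.uf
    have htt : ∀ i, t i ∈ A i ∧ IsUf (V i) (t i) := fun i => ⟨htA i, ht i⟩
    have hL : ∀ i, PtR p (V i) (t i) := by
      intro i
      obtain ⟨t', ht'⟩ := exists_t (hs i) p (V i) (hPt i)
      exact ht'.congr (ht i)
    obtain ⟨c₀, hc₀, hc₀N⟩ := Cv.exists_sep (e := e) hCD.fin hCD.loc hCD.wt1 hCD.sep hV D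
    have hinr : ∀ g, (∀ f ∈ RF (FF e A (ZR A ρ) (wt ρ p)) D, MQ Q (tl (σ g) f - f)) →
        g ∈ inr ρ V := by
      intro g hg
      rw [mem_inr]
      exact inr_of_fix hq hloc hover (σ g) (fun i => ρ i g) (hσ g) (hst g) (hinq g hg)
    have hkin : ∀ g, (∀ f ∈ RF (FF e A (ZR A ρ) (wt ρ p)) D, MQ Q (tl (σ g) f - f)) →
        ∀ c' : L, UV e A V c' →
        (∀ V' ∈ ZR A ρ, V' ≠ V → c' ∈ JJ e V' (wt ρ p V') D) → ∀ i,
        ¬ MQ Q (hm (wt ρ p V i : ℤ) (c' * e i (t i))) →
        g ∈ inr ρ V ⊓ kin (rr ρ i) (V i) (hL i).uf := by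
      intro g hg c' hc' hc'N i hX
      have hgV := hinr g hg
      refine ⟨hgV, fun x hx => mem_inr.1 hgV i x hx, ?_⟩
      by_contra hcon
      refine tame_move hCD hQ hV hover hc' hc'N htt (σ g) (fun i => ρ i g) (hσ g) (hst g)
        (mem_inr.1 hgV) i hX hcon ?_
      exact hg _ (hCD.gens hV hc' hc'N htt i)
    by_cases hno : ∀ g ∈ inr ρ V, g ^ p = 1 → g = 1
    · left
      intro g hg
      obtain ⟨i, hi⟩ := hCD.offv hQ hV hover hc₀ hc₀N htt hd hη hη'
      have h1 := hkin g hg c₀ hc₀ hc₀N i hi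
      rw [kin_bot p (hiso V hPt) hL hno i] at h1
      exact Subgroup.mem_bot.1 h1
    · right
      push Not at hno
      obtain ⟨τ, hτ, hτp, hτ1⟩ := hno
      have hτρ := hiso V hPt τ hτ hτ1
      rcases hcond V hPt with hcard | ⟨z, m, hpm, hz, htr⟩
      · have hK := fun i => wild_dich p (hiso V hPt) hcard hL hτ hτp hτ1 i
        obtain ⟨c', y, hc', hcP, hyB, hcy⟩ := exists_norm σ hσ hst hloc.le (Subgroup.zpowers τ)
          (by rw [Subgroup.zpowers_le]; exact hτ) hc₀
        have hc'τ : σ τ c' = c' := hcP τ (Subgroup.mem_zpowers τ)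
        have hc'N : ∀ V' ∈ ZR A ρ, V' ≠ V → c' ∈ JJ e V' (wt ρ p V') D := by
          intro V' hV' hne
          rw [hcy]
          have h3 := JJ_mul (hc₀N V' hV' hne)
            (BB_le_JJ (e := e) (hCD.loc V' hV') (wt ρ p V') hyB le_rfl)
          rwa [add_zero] at h3
        obtain ⟨i, hi⟩ := hCD.offv hQ hV hover hc' hc'N htt hd hη hη'
        have hmm := mm_spec p hL hτ hτp hτρ hK
        have hwm : ∀ j, wt ρ p V j * mm ρ p V j = ∏ j, mm ρ p V j := by
          intro j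
          unfold Cv.wt
          rw [← Finset.prod_erase_mul Finset.univ _ (Finset.mem_univ j)]
          congr 1
          exact Finset.prod_congr rfl fun j' _ => max_eq_left (hmm j').1
        exact inC_zero hCD hQ hV hover hc' hc'N htt σ hσ hst hRst p hi hτ hτp hτ1 hc'τ
          (mm ρ p V) hwm (Finset.one_le_prod' fun j _ => (hmm j).1) (fun i => (hmm i).2.2)
          (hmm i).2.1 fun g hg => hK i (hkin g hg c' hc' hc'N i hi)
      · -- translations
        have hz' : ∀ i, (V i).valuation (z i)⁻¹ = (V i).valuation (t i) ^ m i := by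
          intro i
          obtain ⟨t', ht', h1⟩ := hz i
          rw [h1, ht'.val_eq (ht i)]
        have htr1 : ∀ g ∈ inr ρ V, g ^ p = 1 → ∃ c : k, ∀ i,
            ρ i g (z i) = z i + algebraMap k (E i) c := fun g hg hgp =>
          htr g hg ⟨1, by rw [pow_one]; exact hgp⟩
        have hm1 : ∀ i, 1 ≤ m i := by
          intro i
          rcases Nat.eq_zero_or_pos (m i) with h1 | h1
          · exact absurd (h1 ▸ dvd_zero p) (hpm i)
          · exact h1
        have hmm : ∀ i, mm ρ p V i = m i := by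
          intro i
          obtain ⟨c, hc⟩ := htr1 τ hτ hτp
          refine mm_of p ht hτ hτp i
            (tr_char p hL hk (hiso V hPt) hpm hz' hτ hτp hτ1 i (hc i)).2.1 ?_
          intro g hg hgp x hx
          by_cases hg1 : g = 1
          · rw [hg1, map_one, AlgEquiv.one_apply, sub_self, map_zero]
            exact zero_le
          · obtain ⟨c, hc⟩ := htr1 g hg hgp
            exact (tr_char p hL hk (hiso V hPt) hpm hz' hg hgp hg1 i (hc i)).2.2 x hx
        obtain ⟨j, hj⟩ := hCD.offv hQ hV hover hc₀ hc₀N htt hd hη hη'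
        obtain ⟨P, hPd⟩ : ∃ P, P = inr ρ V ⊓ kin (rr ρ j) (V j) (hL j).uf := ⟨_, rfl⟩
        obtain ⟨a, ha⟩ := kin_pow p (hiso V hPt) hL j
        rw [← hPd] at ha
        have hPV : P ≤ inr ρ V := by rw [hPd]; exact inf_le_left
        have hPpow : ∀ g ∈ P, g ^ p ^ a = 1 := by
          intro g hg
          have h1 := pow_card_eq_one' (x := (⟨g, hg⟩ : P))
          rw [ha] at h1
          exact congrArg Subtype.val h1
        have htrP : ∀ g : G, ∃ c : k, g ∈ P → ∀ i,
            ρ i g (z i) = z i + algebraMap k (E i) c := by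
          intro g
          by_cases hg : g ∈ P
          · obtain ⟨c, hc⟩ := htr g (hPV hg) ⟨a, hPpow g hg⟩
            exact ⟨c, fun _ => hc⟩
          · exact ⟨0, fun h => absurd h hg⟩
        choose χ hχ using htrP
        have hχ0 : ∀ g ∈ P, χ g = 0 → g = 1 := by
          intro g hg h0
          by_contra hg1
          have hord : orderOf g ∣ p ^ a := orderOf_dvd_of_pow_eq_one (hPpow g hg)
          obtain ⟨b, -, hb⟩ := (Nat.dvd_prime_pow hp).1 hord
          have hb0 : b ≠ 0 := by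
            rintro rfl
            rw [pow_zero, orderOf_eq_one_iff] at hb
            exact hg1 hb
          obtain ⟨b', rfl⟩ := Nat.exists_eq_succ_of_ne_zero hb0
          have hh1 : g ^ p ^ b' ≠ 1 := by
            intro h1
            have h2 := orderOf_dvd_of_pow_eq_one h1
            rw [hb] at h2
            exact absurd (Nat.le_of_dvd (pow_pos hp.pos _) h2)
              (not_le.2 (Nat.pow_lt_pow_right hp.one_lt (by omega)))
          have hhp : (g ^ p ^ b') ^ p = 1 := by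
            rw [← pow_mul, ← pow_succ, ← Nat.succ_eq_add_one, ← hb, pow_orderOf_eq_one]
          have hfixz : ∀ n : ℕ, ρ j (g ^ n) (z j) = z j := by
            intro n
            induction n with
            | zero => rw [pow_zero, map_one, AlgEquiv.one_apply]
            | succ n ih =>
              rw [pow_succ, map_mul, AlgEquiv.mul_apply, hχ g hg j, h0, map_zero, add_zero, ih]
          refine (tr_char p hL hk (hiso V hPt) hpm hz' ((inr ρ V).pow_mem (hPV hg) _) hhp hh1 j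
            (c := 0) ?_).1 rfl
          rw [hfixz, map_zero, add_zero]
        have hwm : ∀ i, wt ρ p V i * m i = ∏ i, m i := by
          intro i
          unfold Cv.wt
          rw [← Finset.prod_erase_mul Finset.univ _ (Finset.mem_univ i)]
          congr 1
          refine Finset.prod_congr rfl fun j' _ => ?_
          rw [hmm]
          exact max_eq_left (hm1 j')
        refine inC_tr hCD hQ hV hover hc₀ hc₀N htt σ hσ hst hRst p hj P hPV
          (fun g hg => ?_) hk (fun i => (hL i).root) hpm hz' χ hχ hχ0 hwm ?_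
        · rw [hPd]
          exact hkin g hg c₀ hc₀ hc₀N j hj
        · rw [← hwm j, ← hmm j]
          exact (Nat.mul_le_mul_left _ (Subgroup.card_le_card_group P)).trans (hwD' V hV j)
  · left
    intro g hg
    by_contra hg1
    obtain ⟨V, hPt, hgV, hover⟩ := over_of_fix hs hst hiso hq hg1 (σ g) (hσ g)
      (hinq g hg)
    exact hov ⟨V, ⟨hPt, g, hgV, hg1⟩, hover⟩

end prod

end Run7.h802.Rz
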