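import Pool.Agent.Run7.h802.Rz15
import Pool.Agent.N864.GT.Res
import Pool.Agent.H920R2.Cu10

/-!
# Resolution of the quotients of products of affine curves
-/

set_option autoImplicit false
set_option linter.unusedVariables false
set_option linter.unusedSectionVars false

namespace Run7.h802.Rz

open Run7.h802.Cv
open Pool.Agent.Y223.G Pool.Agent.W418.LU2 IsLocalRing Pool.Agent.H639R3 IsDedekindDomain
  AlgebraicGeometry CategoryTheory TensorProduct
open Pool.Agent.Y232.G6 (Ph Ph_hm mem_res)

section disj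

variable {k M : Type} [Field k] [Field M] [Algebra k M] {J : Type} [Fintype J] [DecidableEq J]
  {A : J → Type} [∀ i, CommRing (A i)] [∀ i, Algebra k (A i)]

/-- The product of homomorphisms as a multilinear map. -/
noncomputable def mulF (f : ∀ i, A i →ₐ[k] M) : MultilinearMap k A M :=
  (MultilinearMap.mkPiAlgebra k J M).compLinearMap fun i => (f i).toLinearMap

lemma mulF_apply (f : ∀ i, A i →ₐ[k] M) (x : ∀ i, A i) : mulF f x = ∏ i, f i (x i) := by
  unfold mulF
  change MultilinearMap.mkPiAlgebra k J M (fun i => f i (x i)) = _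
  rw [MultilinearMap.mkPiAlgebra_apply]

/-- The algebra generated by the images is spanned by the products of basis elements. -/
theorem sup_le_span {J' : Type} [Fintype J'] [DecidableEq J'] {A' : J' → Type}
    [∀ i, CommRing (A' i)] [∀ i, Algebra k (A' i)] (f : ∀ i, A' i →ₐ[k] M)
    (κ : J' → Type) (b : ∀ i, Module.Basis (κ i) k (A' i)) :
    Subalgebra.toSubmodule (⨆ i, (f i).range) ≤
      Submodule.span k (Set.range fun s : ∀ i, κ i => ∏ i, f i (b i (s i))) := by
  let p : (⨂[k] i, A' i) →ₐ[k] M := PiTensorProduct.liftAlgHom (mulF f)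
    (by rw [mulF_apply]; exact Finset.prod_eq_one fun i _ => map_one _)
    (fun x y => by
      rw [mulF_apply, mulF_apply, mulF_apply, ← Finset.prod_mul_distrib]
      exact Finset.prod_congr rfl fun i _ => map_mul _ _ _)
  have hp : ∀ x : ∀ i, A' i, p (PiTensorProduct.tprod k x) = ∏ i, f i (x i) := by
    intro x
    have : p (PiTensorProduct.tprod k x) =
      PiTensorProduct.lift (mulF f) (PiTensorProduct.tprod k x) := rfl
    rw [this, PiTensorProduct.lift.tprod, mulF_apply]
  have h1 : (⨆ i, (f i).range) ≤ p.range := by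
    refine iSup_le fun i => ?_
    rintro _ ⟨x, rfl⟩
    refine ⟨PiTensorProduct.tprod k (Pi.mulSingle i x), ?_⟩
    have : p (PiTensorProduct.tprod k (Pi.mulSingle i x)) = f i x := by
      rw [hp, Finset.prod_eq_single i]
      · rw [Pi.mulSingle_eq_same]
      · intro j _ hj
        rw [Pi.mulSingle_eq_of_ne hj, map_one]
      · intro h
        exact absurd (Finset.mem_univ i) h
    exact this
  intro x hx
  obtain ⟨t, ht⟩ := h1 hx
  have h2 : t ∈ (⊤ : Submodule k (⨂[k] i, A' i)) := Submodule.mem_top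
  rw [← (Basis.piTensorProduct b).span_eq] at h2
  have h3 := Submodule.mem_map_of_mem (f := p.toLinearMap) h2
  rw [Submodule.map_span, ← Set.range_comp] at h3
  have h4 : (p.toLinearMap ∘ (Basis.piTensorProduct b)) =
      fun s : ∀ i, κ i => ∏ i, f i (b i (s i)) := by
    funext s
    rw [Function.comp_apply, Basis.piTensorProduct_apply]
    exact hp _
  rw [h4] at h3
  have h5 : p.toLinearMap t = x := ht
  rwa [h5] at h3

/-- Linear disjointness of a factor and the algebra generated by the others. -/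
theorem disjA (f : ∀ i, A i →ₐ[k] M) (hfi : ∀ i, Function.Injective (f i))
    (h : Function.Injective (PiTensorProduct.lift (mulF f))) (S : Finset J) (j : J) (hj : j ∉ S) :
    (⨆ i ∈ S, (f i).range).LinearDisjoint (f j).range := by
  classical
  let κ : J → Type := fun i => Module.Basis.ofVectorSpaceIndex k (A i)
  let b : ∀ i, Module.Basis (κ i) k (A i) := fun i => Module.Basis.ofVectorSpace k (A i)
  have hF : LinearIndependent k (fun s : ∀ i, κ i => ∏ i, f i (b i (s i))) := by
    have h1 := (Basis.piTensorProduct b).linearIndependent.map' (PiTensorProduct.lift (mulF f))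
      (LinearMap.ker_eq_bot.2 h)
    have h2 : ((PiTensorProduct.lift (mulF f)) ∘ (Basis.piTensorProduct b)) =
        fun s : ∀ i, κ i => ∏ i, f i (b i (s i)) := by
      funext s
      rw [Function.comp_apply, Basis.piTensorProduct_apply, PiTensorProduct.lift.tprod, mulF_apply]
    rwa [h2] at h1
  let m : (∀ i : {i // i ≠ j}, κ i) → M := fun s => ∏ i : {i // i ≠ j}, f i (b i (s i))
  have hG : LinearIndependent k (fun st : (∀ i : {i // i ≠ j}, κ i) × κ j =>
      m st.1 * f j (b j st.2)) := by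
    have h1 := hF.comp (fun st : (∀ i : {i // i ≠ j}, κ i) × κ j =>
      (Equiv.piSplitAt j κ).symm (st.2, st.1)) (by
        intro x y hxy
        have := (Equiv.piSplitAt j κ).symm.injective hxy
        rw [Prod.mk.injEq] at this
        exact Prod.ext this.2 this.1)
    have h2 : ((fun s : ∀ i, κ i => ∏ i, f i (b i (s i))) ∘
        (fun st : (∀ i : {i // i ≠ j}, κ i) × κ j => (Equiv.piSplitAt j κ).symm (st.2, st.1))) =
        fun st : (∀ i : {i // i ≠ j}, κ i) × κ j => m st.1 * f j (b j st.2) := by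
      funext st
      rw [Function.comp_apply, Fintype.prod_eq_mul_prod_subtype_ne _ j, mul_comm]
      congr 1
      · refine Finset.prod_congr rfl fun i _ => ?_
        have : (Equiv.piSplitAt j κ).symm (st.2, st.1) i = st.1 i := by
          rw [Equiv.piSplitAt_symm_apply, dif_neg i.2]
        rw [this]
      · have : (Equiv.piSplitAt j κ).symm (st.2, st.1) j = st.2 := by
          rw [Equiv.piSplitAt_symm_apply, dif_pos rfl]
        rw [this]
    rwa [h2] at h1
  have hnt : Nontrivial (A j) := by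
    by_contra hcon
    rw [not_nontrivial_iff_subsingleton] at hcon
    have h1 : f j 0 = f j 1 := congrArg (f j) (Subsingleton.elim _ _)
    rw [map_zero, map_one] at h1
    exact zero_ne_one h1
  have hne : Nonempty (κ j) := (b j).index_nonempty
  obtain ⟨t0⟩ := hne
  have hm : LinearIndependent k m := by
    have h1 : LinearIndependent k (fun s : (∀ i : {i // i ≠ j}, κ i) => m s * f j (b j t0)) :=
      hG.comp (fun s => (s, t0)) fun x y hxy => (Prod.mk.inj hxy).1
    exact LinearIndependent.of_comp (LinearMap.mulRight k (f j (b j t0))) h1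
  have key : (Submodule.span k (Set.range m)).LinearDisjoint
      (Subalgebra.toSubmodule (f j).range) := by
    let bj : Module.Basis (κ j) k (Subalgebra.toSubmodule (f j).range) :=
      (b j).map (AlgEquiv.ofInjective (f j) (hfi j)).toLinearEquiv
    refine Submodule.LinearDisjoint.of_basis_mul _ _ (Module.Basis.span hm) bj ?_
    have h1 : (fun st : (∀ i : {i // i ≠ j}, κ i) × κ j =>
        ((Module.Basis.span hm st.1 : Submodule.span k (Set.range m)) : M) * (bj st.2 : M)) =
        fun st : (∀ i : {i // i ≠ j}, κ i) × κ j => m st.1 * f j (b j st.2) := by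
      funext st
      rw [Module.Basis.span_apply]
      rfl
    have h2 := hG
    rw [← h1] at h2
    exact h2
  have hle : Subalgebra.toSubmodule (⨆ i ∈ S, (f i).range) ≤ Submodule.span k (Set.range m) := by
    refine le_trans ?_ (sup_le_span (fun i : {i // i ≠ j} => f i)
      (fun i : {i // i ≠ j} => κ i) (fun i : {i // i ≠ j} => b i))
    have h1 : (⨆ i ∈ S, (f i).range) ≤ ⨆ i : {i // i ≠ j}, (f i).range := by
      refine iSup₂_le fun i hi => ?_
      have hij : i ≠ j := fun h => hj (h ▸ hi)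
      exact le_iSup (fun i : {i // i ≠ j} => (f i).range) ⟨i, hij⟩
    exact h1
  exact key.of_le_left_of_flat hle

end disj

section prod

variable {k L : Type} [Field k] [PerfectField k] [Field L] [Algebra k L] {ι : Type} [Fintype ι]
  [DecidableEq ι] {E : ι → Type} [∀ i, Field (E i)] [∀ i, Algebra k (E i)]
  {e : ∀ i, E i →ₐ[k] L} {A : ∀ i, Subalgebra k (E i)}
  {G : Type} [Group G] {ρ : ∀ i, G →* (E i ≃ₐ[k] E i)}

/-- The quotient of a product of affine curves has a resolution. -/
theorem res_emb [Nonempty ι] [Finite G] (p : ℕ) [Fact p.Prime] [CharP k p]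
    (hs : ∀ i, Cur k (A i))
    (hld : ∀ (S : Finset ι) (i : ι), i ∉ S →
      (⨆ j ∈ S, (A j).map (e j)).LinearDisjoint ((A i).map (e i)))
    (hst : ∀ g i, ∀ a ∈ A i, ρ i g a ∈ A i)
    (σ : G →* (L ≃ₐ[k] L)) (hσ : ∀ g i x, σ g (e i x) = e i (ρ i g x))
    (hiso : ∀ V : ∀ i, ValuationSubring (E i), (∀ i, PtA (A i) (V i)) → ∀ g ∈ inr ρ V, g ≠ 1 →
      ∀ i, ρ i g ≠ 1)
    (hcond : ∀ V : ∀ i, ValuationSubring (E i), (∀ i, PtA (A i) (V i)) →
      (¬ p ^ 2 ∣ Nat.card (inr ρ V)) ∨ TrC ρ p V)
    {C : Type} [CommRing C] [IsDomain C] [Algebra k C] (γ : C →ₐ[k] L)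
    (hγ : Function.Injective γ)
    (hγB : ∀ x, x ∈ BB e A ∧ (∀ g, σ g x = x) ↔ ∃ y, γ y = x) :
    Pool.Agent.H920R2.HasResolution (X := Spec (CommRingCat.of C))
      (Spec.map (CommRingCat.ofHom (algebraMap k C))) := by
  classical
  have h1 : (ZR A ρ).Finite := ZR_fin hs hst hiso
  obtain ⟨D, hD, hwD, hwD'⟩ : ∃ D : ℕ, 1 ≤ D ∧ (∀ V ∈ ZR A ρ, ∀ i, Cv.wt ρ p V i ≤ D) ∧
      ∀ V ∈ ZR A ρ, ∀ i, Cv.wt ρ p V i * mm ρ p V i * Nat.card G ≤ D := by
    let u : (∀ i, ValuationSubring (E i)) → ι → ℕ := fun V i =>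
      Cv.wt ρ p V i + Cv.wt ρ p V i * mm ρ p V i * Nat.card G
    have h4 : ∀ V ∈ ZR A ρ, ∀ i, u V i ≤ ∑ V ∈ h1.toFinset, ∑ i, u V i := by
      intro V hV i
      have h2 : u V i ≤ ∑ i, u V i :=
        Finset.single_le_sum (f := fun i => u V i) (fun _ _ => Nat.zero_le _)
          (Finset.mem_univ i)
      have h3 : ∑ i, u V i ≤ ∑ V ∈ h1.toFinset, ∑ i, u V i :=
        Finset.single_le_sum (f := fun V => ∑ i, u V i) (fun _ _ => Nat.zero_le _)
          (h1.mem_toFinset.2 hV)
      exact h2.trans h3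
    refine ⟨(∑ V ∈ h1.toFinset, ∑ i, u V i) + 1, by omega, fun V hV i => ?_, fun V hV i => ?_⟩
    · have h2 := h4 V hV i
      have h3 : Cv.wt ρ p V i ≤ u V i := Nat.le_add_right _ _
      omega
    · have h2 := h4 V hV i
      have h3 : Cv.wt ρ p V i * mm ρ p V i * Nat.card G ≤ u V i := Nat.le_add_left _ _
      omega
  let F : IntermediateField k L := fixG σ
  let κ : F →ₐ[k] L := F.val
  have hκ : ∀ x, (∀ g, σ g x = x) ↔ ∃ y, κ y = x := by
    intro x
    constructor
    · intro hx
      exact ⟨⟨x, hx⟩, rfl⟩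
    · rintro ⟨y, rfl⟩
      exact y.2
  have hCh := ch_aff p κ hs hld hst σ hσ hκ hiso hcond hD hwD hwD'
  have hloc : ∀ V ∈ ZR A ρ, LocV A V := fun V hV => locV hs hV.1
  have hF := filt_FF (e := e) (wt := Cv.wt ρ p) hloc
  let g : C →ₐ[k] F := γ.codRestrict F.toSubalgebra fun c => ((hγB (γ c)).2 ⟨c, rfl⟩).2
  have hg : Function.Injective g := fun a b hab => hγ (congrArg Subtype.val hab)
  refine Pool.Agent.N864.GT.resolution_of_ch g hg _ hCh ?_ ?_
  · intro a
    rw [mem_res, Ph_hm]
    exact RF_zero hF ((hγB (γ a)).2 ⟨a, rfl⟩).1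
  · intro f hf d
    have h2 := RF_coeff hF (mem_res.1 hf) d
    have h3 : (Ph κ f).coeff d = κ (f.coeff d) := AddMonoidAlgebra.coeff_mapAlgHom _ _ _
    rw [h3] at h2
    obtain ⟨a, ha⟩ := (hγB _).1 ⟨hF.le _ _ h2, (hκ _).2 ⟨_, rfl⟩⟩
    exact ⟨a, Subtype.ext ha.symm⟩

end prod

end Run7.h802.Rz
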