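import Pool.Agent.Run7.h802.Rz16

/-!
# Quotients of tensor products of Dedekind domains
-/

set_option autoImplicit false
set_option linter.unusedVariables false
set_option linter.unusedSectionVars false

namespace Run7.h802.Rz

open Run7.h802.Cv
open Pool.Agent.Y223.G Pool.Agent.W418.LU2 IsLocalRing Pool.Agent.H639R3 IsDedekindDomain
  AlgebraicGeometry CategoryTheory TensorProduct
open Pool.Agent.H920R2 (IsVariety HasResolution isVariety_spec single_injective IsCoprod
  isCoprod_pi)

lemma dedekind_equiv {A B : Type} [CommRing A] [CommRing B] (e : A ≃+* B) [IsDedekindDomain A] :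
    IsDedekindDomain B := by
  have _ : IsDomain B := e.symm.toMulEquiv.isDomain A
  let _ : Algebra A B := e.toRingHom.toAlgebra
  have h1 : IsLocalization (⊥ : Submonoid A) B := by
    have h2 : IsLocalization (⊥ : Submonoid A) A :=
      IsLocalization.self (fun x hx => by
        rw [Submonoid.mem_bot.1 hx]
        exact isUnit_one)
    exact IsLocalization.isLocalization_of_algEquiv (⊥ : Submonoid A)
      (AlgEquiv.ofRingEquiv (f := e) (fun r => rfl))
  exact IsLocalization.isDedekindDomain A (M := ⊥) (bot_le) B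

section cur

variable (k A : Type) [Field k] [CommRing A] [IsDedekindDomain A] [Algebra k A]

/-- The image of the coordinate ring in the function field. -/
noncomputable def AS : Subalgebra k (FractionRing A) :=
  (IsScalarTower.toAlgHom k A (FractionRing A)).range

variable {A}

lemma mem_AS (a : A) : algebraMap A (FractionRing A) a ∈ AS k A := ⟨a, rfl⟩

lemma cur_AS [Algebra.FiniteType k A] (hA : ¬ IsField A) : Cur k (AS k A) := by
  have hinj : Function.Injective (IsScalarTower.toAlgHom k A (FractionRing A)) :=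
    IsFractionRing.injective A (FractionRing A)
  let φ : A ≃ₐ[k] AS k A := AlgEquiv.ofInjective _ hinj
  refine ⟨dedekind_equiv φ.toRingEquiv, ?_, Algebra.FiniteType.equiv inferInstance φ, ?_⟩
  · refine IsFractionRing.of_field _ _ fun z => ?_
    obtain ⟨a, b, hb, rfl⟩ := IsFractionRing.div_surjective (A := A) z
    exact ⟨⟨_, mem_AS k a⟩, ⟨_, mem_AS k b⟩, rfl⟩
  · exact fun h => hA (φ.toMulEquiv.isField h)

end cur

section val

variable {A : Type} [CommRing A] [IsDedekindDomain A]

/-- The values of functions in terms of a uniformizer. -/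
lemma val_exp (v : HeightOneSpectrum A) {z : FractionRing A} {m : ℕ}
    (hz : v.valuation (FractionRing A) z = WithZero.exp (m : ℤ)) :
    ∃ t, IsUf (v.valuation (FractionRing A)).valuationSubring t ∧
      (v.valuation (FractionRing A)).valuationSubring.valuation z⁻¹ =
        (v.valuation (FractionRing A)).valuationSubring.valuation t ^ m := by
  have hiso := Valuation.isEquiv_valuation_valuationSubring (v.valuation (FractionRing A))
  have hle : ∀ x y : FractionRing A,
      (v.valuation (FractionRing A)).valuationSubring.valuation x ≤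
      (v.valuation (FractionRing A)).valuationSubring.valuation y ↔
        v.valuation (FractionRing A) x ≤ v.valuation (FractionRing A) y :=
    fun x y => (hiso x y).symm
  have hlt1 : ∀ x : FractionRing A,
      (v.valuation (FractionRing A)).valuationSubring.valuation x < 1 ↔
        v.valuation (FractionRing A) x < 1 := by
    intro x
    have h1 := hle 1 x
    rw [map_one, map_one] at h1
    rw [← not_le, ← not_le, h1]
  obtain ⟨t, ht⟩ := v.intValuation_exists_uniformizer
  have htE : v.valuation (FractionRing A) (algebraMap A (FractionRing A) t) =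
      WithZero.exp (-1 : ℤ) := by
    rw [v.valuation_of_algebraMap, ht]
  refine ⟨algebraMap A (FractionRing A) t, ⟨?_, ?_, ?_⟩, ?_⟩
  · intro h0
    rw [h0, map_zero] at htE
    exact WithZero.exp_ne_zero htE.symm
  · rw [hlt1, htE, ← WithZero.exp_zero, WithZero.exp_lt_exp]
    norm_num
  · intro x hx
    rw [hlt1] at hx
    rw [hle, htE]
    rcases eq_or_ne (v.valuation (FractionRing A) x) 0 with h0 | h0
    · rw [h0]; exact zero_le
    · rw [← WithZero.exp_log h0] at hx ⊢
      rw [← WithZero.exp_zero, WithZero.exp_lt_exp] at hx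
      rw [WithZero.exp_le_exp]
      omega
  · have h1 : v.valuation (FractionRing A) z⁻¹ =
        v.valuation (FractionRing A) (algebraMap A (FractionRing A) t ^ m) := by
      rw [map_inv₀, hz, map_pow, htE, ← WithZero.exp_neg, ← WithZero.exp_nsmul]
      congr 1
      simp
    rw [← map_pow]
    exact le_antisymm ((hle _ _).2 h1.le) ((hle _ _).2 h1.ge)

end val

section tens

variable {k : Type} [Field k] {ι : Type} [Fintype ι] [DecidableEq ι]
  {A : ι → Type} [∀ i, CommRing (A i)] [∀ i, Algebra k (A i)]

lemma prod_single (x : ∀ j, A j) :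
    ∏ j, PiTensorProduct.singleAlgHom (R := k) (A := A) j (x j) = PiTensorProduct.tprod k x := by
  simp only [PiTensorProduct.singleAlgHom_apply]
  rw [← PiTensorProduct.tprod_prod]
  congr 1
  exact Finset.univ_prod_mulSingle x

end tens

section main

variable {k : Type} [Field k] [PerfectField k] {ι : Type} [Fintype ι] [DecidableEq ι]
  {A : ι → Type} [∀ i, CommRing (A i)] [∀ i, IsDedekindDomain (A i)] [∀ i, Algebra k (A i)]
  [∀ i, Algebra.FiniteType k (A i)]

/-- A coproduct is the tensor product. -/
lemma exists_theta {B : Type} [CommRing B] [Algebra k B] {j : ∀ i, A i →ₐ[k] B}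
    (hj : IsCoprod k j) : ∃ θ : (⨂[k] i, A i) ≃ₐ[k] B,
      ∀ x : ∀ i, A i, θ (PiTensorProduct.tprod k x) = ∏ i, j i (x i) := by
  have hj' := isCoprod_pi (k := k) (A := A)
  obtain ⟨g, hg⟩ := hj.lift (⨂[k] i, A i) fun i => PiTensorProduct.singleAlgHom i
  obtain ⟨g', hg'⟩ := hj'.lift B j
  refine ⟨AlgEquiv.ofAlgHom g' g ?_ ?_, fun x => ?_⟩
  · apply hj.ext
    intro i a
    rw [AlgHom.comp_apply, hg, hg']
    rfl
  · apply hj'.ext
    intro i a
    rw [AlgHom.comp_apply, hg', hg]
    rfl
  · change g' (PiTensorProduct.tprod k x) = _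
    rw [← prod_single, map_prod]
    exact Finset.prod_congr rfl fun i _ => hg' i _

/-- The quotient of a product of affine curves by a finite group. -/
theorem main_coprod [Nonempty ι] (p : ℕ) [Fact p.Prime] [CharP k p]
    (hA : ∀ i, ¬ IsField (A i)) {B : Type} [CommRing B] [IsDomain B] [Algebra k B]
    (j : ∀ i, A i →ₐ[k] B) (hj : IsCoprod k j) {G : Type} [Group G] [Finite G]
    (ρ : ∀ i, G →* (A i ≃ₐ[k] A i)) (s : G →* (B ≃ₐ[k] B))
    (hs : ∀ g i a, s g (j i a) = j i (ρ i g a))
    (hiso : ∀ v : ∀ i, HeightOneSpectrum (A i), ∀ g : G,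
      (∀ i (a : A i), ρ i g a - a ∈ (v i).asIdeal) → g ≠ 1 → ∀ i, ρ i g ≠ 1)
    (hcond : ∀ v : ∀ i, HeightOneSpectrum (A i), ∀ I : Subgroup G,
      (∀ g, g ∈ I ↔ ∀ i (a : A i), ρ i g a - a ∈ (v i).asIdeal) →
      (¬ p ^ 2 ∣ Nat.card I) ∨ ∃ (x y : ∀ i, A i) (m : ι → ℕ), (∀ i, ¬ p ∣ m i) ∧
        (∀ i, y i ≠ 0 ∧ (v i).intValuation (x i) =
          WithZero.exp (m i : ℤ) * (v i).intValuation (y i)) ∧
        ∀ g ∈ I, (∃ a : ℕ, g ^ p ^ a = 1) → ∃ c : k, ∀ i,
          ρ i g (x i) * y i = ρ i g (y i) * (x i + algebraMap k (A i) c * y i))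
    (C : Subalgebra k B) (hC : ∀ x, x ∈ C ↔ ∀ g, s g x = x) :
    IsVariety (X := Spec (CommRingCat.of C))
      (Spec.map (CommRingCat.ofHom (algebraMap k C))) ∧
    HasResolution (X := Spec (CommRingCat.of C))
      (Spec.map (CommRingCat.ofHom (algebraMap k C))) := by
  classical
  obtain ⟨θ, hθ⟩ := exists_theta hj
  let L := FractionRing B
  let π : B →ₐ[k] L := IsScalarTower.toAlgHom k _ L
  have hπ : Function.Injective π := IsFractionRing.injective _ L
  let f : ∀ i, A i →ₐ[k] L := fun i => π.comp (j i)
  have hji : ∀ i, Function.Injective (j i) := by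
    intro i
    have h1 : ∀ a, j i a = θ (PiTensorProduct.singleAlgHom i a) := by
      intro a
      change j i a = θ (PiTensorProduct.tprod k (MonoidHom.mulSingle _ i a))
      rw [hθ, Finset.prod_eq_single i]
      · rw [MonoidHom.mulSingle_apply, Pi.mulSingle_eq_same]
      · intro l _ hl
        rw [MonoidHom.mulSingle_apply, Pi.mulSingle_eq_of_ne hl, map_one]
      · intro h
        exact absurd (Finset.mem_univ i) h
    intro a b hab
    rw [h1, h1] at hab
    exact single_injective i (θ.injective hab)
  have hf : ∀ i, Function.Injective (f i) := fun i => hπ.comp (hji i)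
  let e : ∀ i, FractionRing (A i) →ₐ[k] L := fun i => IsFractionRing.liftAlgHom (hf i)
  have he : ∀ i (a : A i), e i (algebraMap (A i) (FractionRing (A i)) a) = f i a := fun i a =>
    IsFractionRing.lift_algebraMap (hf i) a
  let A' : ∀ i, Subalgebra k (FractionRing (A i)) := fun i => AS k (A i)
  let r : ∀ i, G →* (FractionRing (A i) ≃ₐ[k] FractionRing (A i)) := fun i =>
    (IsFractionRing.fieldEquivOfAlgEquivHom k (FractionRing (A i))).comp (ρ i)
  have hr : ∀ i g (a : A i), r i g (algebraMap (A i) (FractionRing (A i)) a) =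
      algebraMap (A i) (FractionRing (A i)) (ρ i g a) := fun i g a =>
    IsFractionRing.fieldEquivOfAlgEquiv_algebraMap k (FractionRing (A i)) (FractionRing (A i))
      (ρ i g) a
  let σ : G →* (L ≃ₐ[k] L) := (IsFractionRing.fieldEquivOfAlgEquivHom k L).comp s
  have hσπ : ∀ g x, σ g (π x) = π (s g x) := fun g x =>
    IsFractionRing.fieldEquivOfAlgEquiv_algebraMap k L L (s g) x
  have hmap : ∀ i, (A' i).map (e i) = (f i).range := by
    intro i
    ext x
    constructor
    · rintro ⟨_, ⟨a, rfl⟩, rfl⟩
      exact ⟨a, (he i a).symm⟩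
    · rintro ⟨a, rfl⟩
      exact ⟨_, ⟨a, rfl⟩, he i a⟩
  have hlift : PiTensorProduct.lift (mulF f) = (π.comp (θ : (⨂[k] i, A i) →ₐ[k] B)).toLinearMap := by
    refine PiTensorProduct.ext (MultilinearMap.ext fun x => ?_)
    change PiTensorProduct.lift (mulF f) (PiTensorProduct.tprod k x) =
      π (θ (PiTensorProduct.tprod k x))
    rw [PiTensorProduct.lift.tprod, mulF_apply, hθ, map_prod]
    rfl
  have hldA : ∀ (S : Finset ι) (i : ι), i ∉ S →
      (⨆ j ∈ S, (A' j).map (e j)).LinearDisjoint ((A' i).map (e i)) := by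
    intro S i hi
    simp only [hmap]
    exact disjA f hf (by rw [hlift]; exact hπ.comp θ.injective) S i hi
  have hBB : ∀ x, x ∈ BB e A' ↔ ∃ y, π y = x := by
    intro x
    constructor
    · intro hx
      have h1 : BB e A' ≤ π.range := by
        refine iSup_le fun i => ?_
        rw [hmap]
        rintro _ ⟨a, rfl⟩
        exact ⟨_, rfl⟩
      exact h1 hx
    · rintro ⟨y, rfl⟩
      obtain ⟨y, rfl⟩ := θ.surjective y
      induction y using PiTensorProduct.induction_on with
      | smul_tprod c y =>
        rw [map_smul, map_smul]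
        refine Subalgebra.smul_mem _ ?_ c
        rw [hθ, map_prod]
        refine Subalgebra.prod_mem _ fun i _ => ?_
        have h1 := mem_BB (e := e) (A := A') i (mem_AS k (y i))
        rw [he] at h1
        exact h1
      | add x y hx hy => rw [map_add, map_add]; exact Subalgebra.add_mem _ hx hy
  have hcur : ∀ i, Cur k (A' i) := fun i => cur_AS k (hA i)
  -- the points
  have hpt : ∀ V : ∀ i, ValuationSubring (FractionRing (A i)), (∀ i, PtA (A' i) (V i)) →
      ∃ v : ∀ i, HeightOneSpectrum (A i),
        (∀ i, V i = ((v i).valuation (FractionRing (A i))).valuationSubring) ∧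
        ∀ i (a : A i), (V i).valuation (algebraMap (A i) (FractionRing (A i)) a) < 1 ↔
          a ∈ (v i).asIdeal := by
    intro V hV
    have h1 : ∀ i, ∃ v : HeightOneSpectrum (A i),
        V i = (v.valuation (FractionRing (A i))).valuationSubring ∧
        ∀ (a : A i), (V i).valuation (algebraMap (A i) (FractionRing (A i)) a) < 1 ↔
          a ∈ v.asIdeal := by
      intro i
      have h2 : ∀ a : A i, algebraMap (A i) (FractionRing (A i)) a ∈ V i := fun a =>
        (hV i).le _ (mem_AS k a)
      obtain ⟨v, hv, hVv⟩ := eq_val (V i) h2 (hV i).ne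
      refine ⟨v, hVv, fun a => ?_⟩
      rw [hv, mem_cent]
    choose v hv1 hv2 using h1
    exact ⟨v, hv1, hv2⟩
  have hin : ∀ (V : ∀ i, ValuationSubring (FractionRing (A i)))
      (v : ∀ i, HeightOneSpectrum (A i)), (∀ i, PtA (A' i) (V i)) →
      (∀ i (a : A i), (V i).valuation (algebraMap (A i) (FractionRing (A i)) a) < 1 ↔
          a ∈ (v i).asIdeal) → ∀ g ∈ inr r V, ∀ i (a : A i), ρ i g a - a ∈ (v i).asIdeal := by
    intro V v hV hv g hg i a
    rw [← hv, map_sub, ← hr]
    exact mem_inr.1 hg i _ ((hV i).le _ (mem_AS k a))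
  have hft : Algebra.FiniteType k B := by
    have h1 := bb_ft (e := e) hcur
    have h2 : BB e A' = π.range := by
      ext x
      rw [hBB]
      exact Iff.rfl
    rw [h2] at h1
    exact Algebra.FiniteType.equiv h1 (AlgEquiv.ofInjective π hπ).symm
  let sR : G →* (B ≃+* B) :=
    { toFun := fun g => (s g : B ≃+* B)
      map_one' := by ext x; change s 1 x = x; rw [map_one]; rfl
      map_mul' := fun g h => by ext x; change s (g * h) x = s g (s h x); rw [map_mul]; rfl }
  have hCft : Algebra.FiniteType k C := by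
    refine Pool.Agent.Y929.G.ft_inv C.val Subtype.val_injective ?_ hft
    refine Pool.Agent.Y279.G.int_invG sR _ fun b hb => ?_
    exact ⟨⟨b, (hC b).2 hb⟩, rfl⟩
  refine ⟨isVariety_spec, ?_⟩
  refine res_emb (A := A') (e := e) (ρ := r) p hcur hldA ?_ σ ?_ ?_ ?_ (π.comp C.val)
    (hπ.comp Subtype.val_injective) ?_
  · rintro g i _ ⟨a, rfl⟩
    exact ⟨ρ i g a, (hr i g a).symm⟩
  · intro g i x
    obtain ⟨a, b, hb, rfl⟩ := IsFractionRing.div_surjective (A := A i) x
    have h1 : ∀ a, σ g (f i a) = f i (ρ i g a) := by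
      intro a
      change σ g (π (j i a)) = π (j i (ρ i g a))
      rw [hσπ, hs]
    rw [map_div₀, map_div₀, map_div₀, map_div₀, hr, hr, he, he, he, he, h1, h1]
  · intro V hV g hg hg1 i h1
    obtain ⟨v, hv1, hv2⟩ := hpt V hV
    apply hiso v g (hin V v hV hv2 g hg) hg1 i
    ext a
    have h2 := hr i g a
    rw [h1] at h2
    exact (IsFractionRing.injective (A i) (FractionRing (A i)) h2).symm
  · intro V hV
    obtain ⟨v, hv1, hv2⟩ := hpt V hV
    let I : Subgroup G :=
      { carrier := {g | ∀ i (a : A i), ρ i g a - a ∈ (v i).asIdeal}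
        mul_mem' := fun {g h} hg hh i a => by
          have h1 : ρ i (g * h) a - a = (ρ i g (ρ i h a) - ρ i h a) + (ρ i h a - a) := by
            rw [map_mul, AlgEquiv.mul_apply]
            ring
          rw [h1]
          exact Ideal.add_mem _ (hg i _) (hh i a)
        one_mem' := fun i a => by
          rw [map_one, AlgEquiv.one_apply, sub_self]
          exact Ideal.zero_mem _
        inv_mem' := fun {g} hg i a => by
          have h1 := hg i (ρ i g⁻¹ a)
          have h2 : ρ i g (ρ i g⁻¹ a) = a := by
            rw [← AlgEquiv.mul_apply, ← map_mul, mul_inv_cancel, map_one, AlgEquiv.one_apply]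
          rw [h2] at h1
          rw [← neg_sub]
          exact Ideal.neg_mem_iff _ |>.2 h1 }
    have hle : inr r V ≤ I := fun g hg => hin V v hV hv2 g hg
    rcases hcond v I (fun g => Iff.rfl) with h1 | ⟨x, y, m, hpm, hxy, hzg⟩
    · left
      exact fun h2 => h1 (h2.trans (Subgroup.card_dvd_of_le hle))
    · right
      have hy0 : ∀ i, algebraMap (A i) (FractionRing (A i)) (y i) ≠ 0 := fun i h0 =>
        (hxy i).1 (IsFractionRing.injective (A i) (FractionRing (A i)) (by rw [h0, map_zero]))
      refine ⟨fun i => algebraMap (A i) (FractionRing (A i)) (x i) /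
        algebraMap (A i) (FractionRing (A i)) (y i), m, hpm, fun i => ?_, fun g hg hgp => ?_⟩
      · rw [hv1 i]
        refine val_exp (v i) ?_
        have h1 : (v i).intValuation (y i) ≠ 0 := (v i).intValuation_ne_zero _ (hxy i).1
        rw [map_div₀, (v i).valuation_of_algebraMap, (v i).valuation_of_algebraMap, (hxy i).2,
          mul_div_cancel_right₀ _ h1]
      · obtain ⟨c, hc⟩ := hzg g (hle hg) hgp
        refine ⟨c, fun i => ?_⟩
        have hy1 : algebraMap (A i) (FractionRing (A i)) (ρ i g (y i)) ≠ 0 := by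
          rw [← hr]
          exact (map_ne_zero (r i g)).2 (hy0 i)
        rw [map_div₀, hr, hr, div_eq_iff hy1, IsScalarTower.algebraMap_apply k (A i)
          (FractionRing (A i))]
        have h2 := congrArg (algebraMap (A i) (FractionRing (A i))) (hc i)
        rw [map_mul, map_mul, map_add, map_mul] at h2
        have h3 := hy0 i
        field_simp
        linear_combination h2
  · intro x
    rw [hBB]
    constructor
    · rintro ⟨⟨y, rfl⟩, hy⟩
      refine ⟨⟨y, (hC y).2 fun g => hπ ?_⟩, rfl⟩
      rw [← hσπ]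
      exact hy g
    · rintro ⟨y, rfl⟩
      refine ⟨⟨y, rfl⟩, fun g => ?_⟩
      change σ g (π _) = π _
      rw [hσπ]
      congr 1
      exact (hC y).1 y.2 g

end main

end Run7.h802.Rz
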