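import Pool.Agent.Run7.h802.Rz17
import Pool.Agent.Run7.h802.Cv17
import Pool.Agent.N864.GT.Mod7

/-!
# Quotients of products of projective curves: the atlas
-/

set_option autoImplicit false
set_option linter.unusedVariables false
set_option linter.unusedSectionVars false

namespace Run7.h802.Rz

open Run7.h802.Cv
open Pool.Agent.Y223.G Pool.Agent.W418.LU2 IsLocalRing Pool.Agent.H639R3 IsDedekindDomain
  Pool.Agent.H918R2.Quad AlgebraicGeometry CategoryTheory
open Pool.Agent.H920R2 (SepEl)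
open Pool.Agent.Y232.G6 (Ph Ph_hm mem_res)

section one

variable {k E : Type} [Field k] [Field E] [Algebra k E] [Algebra.EssFiniteType k E] {s : E}

lemma cur_AA (hs : SepEl k s) (c : Bool) : Cur k (AA k s c) where
  ded := AA_ded hs c
  frac := AA_frac hs c
  ft := AA_ft hs c
  nf := AA_nf hs c

lemma ptA_iff (c : Bool) {V : ValuationSubring E} :
    PtA (AA k s c) V ↔ Pt k V ∧ ch s c ∈ V := by
  constructor
  · intro h
    exact ⟨⟨fun x => h.le _ ((AA k s c).algebraMap_mem x), h.ne⟩, h.le _ (ch_mem c)⟩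
  · rintro ⟨h, hc⟩
    exact ⟨fun a ha => AA_val V h.const c hc ha, h.ne⟩

end one

section prod

variable {k L : Type} [Field k] [PerfectField k] [Field L] [Algebra k L] {ι : Type} [Fintype ι]
  [DecidableEq ι] {E : ι → Type} [∀ i, Field (E i)] [∀ i, Algebra k (E i)]
  [∀ i, Algebra.EssFiniteType k (E i)] {e : ∀ i, E i →ₐ[k] L} {s : ∀ i, E i}
  {G : Type} [Group G] {ρ : ∀ i, G →* (E i ≃ₐ[k] E i)}

lemma ld_mapA (hld : ∀ (S : Finset ι) (i : ι), i ∉ S →
    (⨆ j ∈ S, (e j).range).LinearDisjoint (e i).range) (A : ∀ i, Subalgebra k (E i))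
    (S : Finset ι) (i : ι) (hi : i ∉ S) :
    (⨆ j ∈ S, (A j).map (e j)).LinearDisjoint ((A i).map (e i)) := by
  refine all_LDG k k L (algebraMap k L).injective (fun o => ⟨o, rfl⟩)
    (fun x => ⟨x, 1, one_ne_zero, by rw [map_one, mul_one]⟩) _ _ _ _ ?_ ?_ (hld S i hi)
  · intro a ha
    have h1 : (⨆ j ∈ S, (A j).map (e j)) ≤ ⨆ j ∈ S, (e j).range := by
      refine iSup₂_mono fun j _ => ?_
      rintro _ ⟨x, -, rfl⟩
      exact ⟨x, rfl⟩
    exact h1 ha
  · rintro _ ⟨x, -, rfl⟩
    exact ⟨x, rfl⟩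

/-- The function of the transition. -/
noncomputable def uu (e : ∀ i, E i →ₐ[k] L) (s : ∀ i, E i) (a b : ι → Bool) : L :=
  ∏ i, e i (if a i = b i then 1 else ch (s i) (a i))

lemma uf_mem (a b : ι → Bool) (i : ι) :
    (if a i = b i then 1 else ch (s i) (a i)) ∈ AA k (s i) (a i) := by
  split_ifs
  · exact (AA k (s i) (a i)).one_mem
  · exact ch_mem (a i)

lemma uu_mem (a b : ι → Bool) : uu e s a b ∈ BB e (fun i => AA k (s i) (a i)) :=
  Subalgebra.prod_mem _ fun i _ => mem_BB (A := fun i => AA k (s i) (a i)) i (uf_mem a b i)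

/-- Gluing of the coordinate rings. -/
lemma glue_BB (hs : ∀ i, SepEl k (s i)) (a b : ι → Bool) {x : L}
    (hx : x ∈ BB e (fun i => AA k (s i) (b i))) :
    ∃ n : ℕ, uu e s a b ^ n * x ∈ BB e (fun i => AA k (s i) (a i)) := by
  let T : Subalgebra k L :=
    { carrier := {x | ∃ n : ℕ, uu e s a b ^ n * x ∈ BB e (fun i => AA k (s i) (a i))}
      mul_mem' := by
        rintro x y ⟨n, hn⟩ ⟨m, hm⟩
        refine ⟨n + m, ?_⟩
        have h1 : uu e s a b ^ (n + m) * (x * y) = (uu e s a b ^ n * x) * (uu e s a b ^ m * y) := by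
          ring
        rw [h1]
        exact (BB e _).mul_mem hn hm
      add_mem' := by
        rintro x y ⟨n, hn⟩ ⟨m, hm⟩
        refine ⟨n + m, ?_⟩
        have h1 : uu e s a b ^ (n + m) * (x + y) = uu e s a b ^ m * (uu e s a b ^ n * x) +
            uu e s a b ^ n * (uu e s a b ^ m * y) := by ring
        rw [h1]
        exact (BB e _).add_mem ((BB e _).mul_mem ((BB e _).pow_mem (uu_mem a b) _) hn)
          ((BB e _).mul_mem ((BB e _).pow_mem (uu_mem a b) _) hm)
      algebraMap_mem' := fun c => ⟨0, by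
        rw [pow_zero, one_mul]
        exact (BB e _).algebraMap_mem c⟩ }
  have hle : BB e (fun i => AA k (s i) (b i)) ≤ T := by
    refine iSup_le fun i => ?_
    rintro _ ⟨z, hz, rfl⟩
    by_cases hab : a i = b i
    · refine ⟨0, ?_⟩
      rw [pow_zero, one_mul]
      refine mem_BB (A := fun i => AA k (s i) (a i)) i ?_
      rw [hab]
      exact hz
    · have hb : b i = !(a i) := by
        cases h1 : a i <;> cases h2 : b i
        · exact absurd (h1.trans h2.symm) hab
        · rfl
        · rfl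
        · exact absurd (h1.trans h2.symm) hab
      have hz' : z ∈ AA k (s i) (!(a i)) := by
        rw [← hb]
        exact hz
      obtain ⟨n, hn⟩ := AA_den (hs i) (a i) hz'
      refine ⟨n, ?_⟩
      have h1 : uu e s a b ^ n * e i z = (∏ j ∈ Finset.univ.erase i,
          e j (if a j = b j then 1 else ch (s j) (a j))) ^ n * e i (ch (s i) (a i) ^ n * z) := by
        unfold uu
        rw [← Finset.prod_erase_mul Finset.univ _ (Finset.mem_univ i), if_neg hab, map_mul,
          map_pow]
        ring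
      change uu e s a b ^ n * e i z ∈ _
      rw [h1]
      refine (BB e _).mul_mem ((BB e _).pow_mem (Subalgebra.prod_mem _ fun j _ =>
        mem_BB (A := fun i => AA k (s i) (a i)) j (uf_mem a b j)) _) ?_
      exact mem_BB (A := fun i => AA k (s i) (a i)) i hn
  exact hle hx

/-- Gluing of the graded algebras. -/
theorem glue_RF (hs : ∀ i, SepEl k (s i)) (p D : ℕ) (a b : ι → Bool) {f : LP L}
    (hf : f ∈ RF (FF e (fun i => AA k (s i) (b i)) (ZR (fun i => AA k (s i) (b i)) ρ) (wt ρ p)) D) :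
    ∃ n : ℕ, hm 0 (uu e s a b) ^ n * f ∈
      RF (FF e (fun i => AA k (s i) (a i)) (ZR (fun i => AA k (s i) (a i)) ρ) (wt ρ p)) D := by
  have hloc : ∀ V ∈ ZR (fun i => AA k (s i) (a i)) ρ, LocV (fun i => AA k (s i) (a i)) V :=
    fun V hV => locV (fun i => cur_AA (hs i) (a i)) hV.1
  have hloc' : ∀ V ∈ ZR (fun i => AA k (s i) (b i)) ρ, LocV (fun i => AA k (s i) (b i)) V :=
    fun V hV => locV (fun i => cur_AA (hs i) (b i)) hV.1
  have hFa := filt_FF (e := e) (wt := wt ρ p) hloc
  have hFb := filt_FF (e := e) (wt := wt ρ p) hloc'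
  have hu : hm 0 (uu e s a b) ∈
      RF (FF e (fun i => AA k (s i) (a i)) (ZR (fun i => AA k (s i) (a i)) ρ) (wt ρ p)) D :=
    RF_zero hFa (uu_mem a b)
  have hle : RF (FF e (fun i => AA k (s i) (b i)) (ZR (fun i => AA k (s i) (b i)) ρ) (wt ρ p)) D ≤
      loc (RF (FF e (fun i => AA k (s i) (a i)) (ZR (fun i => AA k (s i) (a i)) ρ) (wt ρ p)) D) _
        hu := by
    unfold RF
    rw [Algebra.adjoin_le_iff]
    rintro f (hf | ⟨d, x, hd, hx, rfl⟩)
    · rw [Set.mem_singleton_iff] at hf
      rw [hf]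
      exact le_loc _ _ hu RF_ss
    · rw [mem_FF] at hx
      obtain ⟨n, hn⟩ := glue_BB hs a b hx.1
      refine ⟨d + n, ?_⟩
      rw [hm_pow, hm_mul, mul_zero, zero_add]
      refine RF_hm hd (mem_FF.2 ⟨?_, fun V hV => ?_⟩)
      · rw [pow_add, mul_assoc]
        exact (BB e _).mul_mem ((BB e _).pow_mem (uu_mem a b) _) hn
      · have hPtV : ∀ i, Pt k (V i) := fun i => ((ptA_iff (s := s i) (a i)).1 (hV.1 i)).1
        by_cases hVb : ∀ i, ch (s i) (b i) ∈ V i
        · have h1 := hx.2 V ⟨fun i => (ptA_iff (s := s i) (b i)).2 ⟨hPtV i, hVb i⟩, hV.2⟩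
          have h2 := JJ_mul (BB_le_JJ (e := e) (hloc V hV) (wt ρ p V)
            ((BB e _).pow_mem (uu_mem a b) (d + n)) le_rfl) h1
          rwa [zero_add] at h2
        · push Not at hVb
          obtain ⟨i, hi⟩ := hVb
          have hai := ((ptA_iff (s := s i) (a i)).1 (hV.1 i)).2
          have hab : a i ≠ b i := by
            intro h1
            rw [← h1] at hi
            exact hi hai
          have hinv : ch (s i) (a i) = (ch (s i) (b i))⁻¹ := by
            cases h1 : a i <;> cases h2 : b i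
            · exact absurd (h1.trans h2.symm) hab
            · change s i = (s i)⁻¹⁻¹
              rw [inv_inv]
            · rfl
            · exact absurd (h1.trans h2.symm) hab
          have hlt : (V i).valuation (ch (s i) (a i)) < 1 := by
            rw [hinv, map_inv₀]
            have h3 : 1 < (V i).valuation (ch (s i) (b i)) := by
              rw [← not_le, (V i).valuation_le_one_iff]
              exact hi
            exact inv_lt_one_of_one_lt₀ h3
          have h4 : e i (ch (s i) (a i)) ∈ JJ e V (wt ρ p V) 1 := by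
            obtain ⟨t, ht⟩ := (hloc V hV).uf' i
            refine JJ_single (hloc V hV).uf' i ((pw_one ht).2 hlt) ?_
            have h5 := wt_pos (ρ := ρ) p V i
            rw [mul_one]
            exact_mod_cast h5
          have h5 : uu e s a b ∈ JJ e V (wt ρ p V) 1 := by
            have h6 : uu e s a b = (∏ j ∈ Finset.univ.erase i,
                e j (if a j = b j then 1 else ch (s j) (a j))) * e i (ch (s i) (a i)) := by
              unfold uu
              rw [← Finset.prod_erase_mul Finset.univ _ (Finset.mem_univ i), if_neg hab]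
            rw [h6]
            have h7 := JJ_mul (BB_le_JJ (e := e) (hloc V hV) (wt ρ p V)
              (Subalgebra.prod_mem (BB e (fun i => AA k (s i) (a i))) (t := Finset.univ.erase i)
                (f := fun j => e j (if a j = b j then 1 else ch (s j) (a j))) fun j _ =>
                mem_BB (A := fun i => AA k (s i) (a i)) j (uf_mem a b j)) le_rfl) h4
            rwa [zero_add] at h7
          have h8 := JJ_pow (hloc V hV).uf' h5 d
          rw [mul_one] at h8
          have h9 := JJ_mul h8 (BB_le_JJ (e := e) (hloc V hV) (wt ρ p V) hn le_rfl)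
          rw [add_zero] at h9
          rw [pow_add, mul_assoc]
          exact h9
  exact hle hf

/-- The coordinate ring is contained in the valuation rings which contain the coordinates. -/
lemma BB_val (c : ι → Bool) (W : ValuationSubring L) (hW : ∀ x : k, algebraMap k L x ∈ W)
    (hc : ∀ i, e i (ch (s i) (c i)) ∈ W) {x : L} (hx : x ∈ BB e (fun i => AA k (s i) (c i))) :
    x ∈ W := by
  let T : Subalgebra k L := { W.toSubring.toSubsemiring with algebraMap_mem' := hW }
  have hle : BB e (fun i => AA k (s i) (c i)) ≤ T := by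
    refine iSup_le fun i => ?_
    rintro _ ⟨z, hz, rfl⟩
    have h1 : z ∈ W.comap (e i : E i →+* L) := by
      refine AA_val (W.comap (e i : E i →+* L)) (fun x => ?_) (c i) (hc i) hz
      change e i (algebraMap k (E i) x) ∈ W
      rw [AlgHom.commutes]
      exact hW x
    exact h1
  exact hle hx

/-- The field of fractions of the coordinate ring. -/
lemma BB_frac (hs : ∀ i, SepEl k (s i)) (hgen : ⨆ i, (e i).fieldRange = ⊤) (c : ι → Bool)
    (x : L) : ∃ b ∈ BB e (fun i => AA k (s i) (c i)), ∃ b' ∈ BB e (fun i => AA k (s i) (c i)),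
      b' ≠ 0 ∧ x = b / b' := by
  have h1 : x ∈ IntermediateField.adjoin k
      (BB e (fun i => AA k (s i) (c i)) : Set L) := by
    have h2 : (⊤ : IntermediateField k L) ≤ IntermediateField.adjoin k
        (BB e (fun i => AA k (s i) (c i)) : Set L) := by
      rw [← hgen]
      refine iSup_le fun i => ?_
      rintro _ ⟨z, rfl⟩
      have := AA_ded (hs i) (c i)
      have := AA_frac (hs i) (c i)
      obtain ⟨a, b, hb, rfl⟩ := IsFractionRing.div_surjective (A := AA k (s i) (c i)) z
      change e i (algebraMap _ (E i) a / algebraMap _ (E i) b) ∈ _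
      rw [map_div₀]
      exact IntermediateField.div_mem _
        (IntermediateField.subset_adjoin k _ (mem_BB (A := fun i => AA k (s i) (c i)) i a.2))
        (IntermediateField.subset_adjoin k _ (mem_BB (A := fun i => AA k (s i) (c i)) i b.2))
    exact h2 trivial
  rw [IntermediateField.mem_adjoin_iff_div] at h1
  obtain ⟨r, hr, r', hr', hx⟩ := h1
  rw [Algebra.adjoin_eq] at hr hr'
  rcases eq_or_ne r' 0 with h0 | h0
  · refine ⟨0, Subalgebra.zero_mem _, 1, Subalgebra.one_mem _, one_ne_zero, ?_⟩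
    rw [hx, h0, div_zero, zero_div]
  · exact ⟨r, hr, r', hr', h0, hx⟩

/-- The quotient of a product of projective curves has a regular projective modification. -/
theorem glob_atlas [Nonempty ι] [Finite G] (p : ℕ) [Fact p.Prime] [CharP k p]
    {F : Type} [Field F] [Algebra k F] (κ : F →ₐ[k] L)
    (hs : ∀ i, SepEl k (s i)) (hfs : ∀ i g, ρ i g (s i) = s i)
    (hld : ∀ (S : Finset ι) (i : ι), i ∉ S → (⨆ j ∈ S, (e j).range).LinearDisjoint (e i).range)
    (hgen : ⨆ i, (e i).fieldRange = ⊤)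
    (σ : G →* (L ≃ₐ[k] L)) (hσ : ∀ g i x, σ g (e i x) = e i (ρ i g x))
    (hκ : ∀ x, (∀ g, σ g x = x) ↔ ∃ y, κ y = x)
    (hiso : ∀ V : ∀ i, ValuationSubring (E i), (∀ i, Pt k (V i)) → ∀ g ∈ inr ρ V, g ≠ 1 →
      ∀ i, ρ i g ≠ 1)
    (hcond : ∀ V : ∀ i, ValuationSubring (E i), (∀ i, Pt k (V i)) →
      (¬ p ^ 2 ∣ Nat.card (inr ρ V)) ∨ TrC ρ p V) :
    ∃ (I : Type) (_ : Finite I) (z : I → F) (J : Set I),
      ModelG False (⊥ : Submodule k F) (⊤ : Subfield F) z J ∧
      ∀ j ∈ J, ∃ c : ι → Bool, ∀ x : F, κ x ∈ BB e (fun i => AA k (s i) (c i)) →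
        x ∈ Algebra.adjoin k (Set.range fun i => z i / z j) := by
  classical
  let _ : Fintype G := Fintype.ofFinite G
  have hκ0 : ∀ {y : F}, κ y = 0 → y = 0 := fun {y} h =>
    (map_eq_zero_iff κ κ.toRingHom.injective).1 h
  have hst : ∀ (c : ι → Bool) g i, ∀ a ∈ AA k (s i) (c i), ρ i g a ∈ AA k (s i) (c i) :=
    fun c g i a ha => AA_st (ρ i g) (hfs i g) (c i) ha
  have hisoA : ∀ c : ι → Bool, ∀ V : ∀ i, ValuationSubring (E i),
      (∀ i, PtA (AA k (s i) (c i)) (V i)) → ∀ g ∈ inr ρ V, g ≠ 1 → ∀ i, ρ i g ≠ 1 :=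
    fun c V hV => hiso V fun i => ((ptA_iff (s := s i) (c i)).1 (hV i)).1
  have hcondA : ∀ c : ι → Bool, ∀ V : ∀ i, ValuationSubring (E i),
      (∀ i, PtA (AA k (s i) (c i)) (V i)) →
        (¬ p ^ 2 ∣ Nat.card (inr ρ V)) ∨ TrC ρ p V :=
    fun c V hV => hcond V fun i => ((ptA_iff (s := s i) (c i)).1 (hV i)).1
  have hZf : ∀ c : ι → Bool, (ZR (fun i => AA k (s i) (c i)) ρ).Finite := fun c =>
    ZR_fin (fun i => cur_AA (hs i) (c i)) (hst c) (hisoA c)
  -- a bound for the weights
  obtain ⟨D, hD, hwD, hwD'⟩ : ∃ D : ℕ, 1 ≤ D ∧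
      (∀ (c : ι → Bool), ∀ V ∈ ZR (fun i => AA k (s i) (c i)) ρ, ∀ i, wt ρ p V i ≤ D) ∧
      ∀ (c : ι → Bool), ∀ V ∈ ZR (fun i => AA k (s i) (c i)) ρ, ∀ i,
        wt ρ p V i * mm ρ p V i * Nat.card G ≤ D := by
    refine ⟨(∑ c : ι → Bool, ∑ V ∈ (hZf c).toFinset, ∑ i, (wt ρ p V i +
      wt ρ p V i * mm ρ p V i * Nat.card G)) + 1, by omega, ?_, ?_⟩
    all_goals
      intro c V hV i
      have h2 : wt ρ p V i + wt ρ p V i * mm ρ p V i * Nat.card G ≤
          ∑ i, (wt ρ p V i + wt ρ p V i * mm ρ p V i * Nat.card G) :=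
        Finset.single_le_sum (f := fun i => wt ρ p V i + wt ρ p V i * mm ρ p V i * Nat.card G)
          (fun _ _ => Nat.zero_le _) (Finset.mem_univ i)
      have h3 : ∑ i, (wt ρ p V i + wt ρ p V i * mm ρ p V i * Nat.card G) ≤
          ∑ V ∈ (hZf c).toFinset, ∑ i, (wt ρ p V i + wt ρ p V i * mm ρ p V i * Nat.card G) :=
        Finset.single_le_sum
          (f := fun V => ∑ i, (wt ρ p V i + wt ρ p V i * mm ρ p V i * Nat.card G))
          (fun _ _ => Nat.zero_le _) ((hZf c).mem_toFinset.2 hV)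
      have h4 : ∑ V ∈ (hZf c).toFinset, ∑ i, (wt ρ p V i +
          wt ρ p V i * mm ρ p V i * Nat.card G) ≤ ∑ c : ι → Bool, ∑ V ∈ (hZf c).toFinset,
          ∑ i, (wt ρ p V i + wt ρ p V i * mm ρ p V i * Nat.card G) :=
        Finset.single_le_sum (f := fun c : ι → Bool => ∑ V ∈ (hZf c).toFinset,
          ∑ i, (wt ρ p V i + wt ρ p V i * mm ρ p V i * Nat.card G))
          (fun _ _ => Nat.zero_le _) (Finset.mem_univ c)
      omega
  have hy : ∀ i, ∃ y : F, κ y = e i (s i) := fun i => (hκ _).1 fun g => by rw [hσ, hfs]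
  choose y hy using hy
  have hes : ∀ i, e i (s i) ≠ 0 := fun i h0 =>
    s_ne (hs i) ((map_eq_zero_iff (e i) (e i).toRingHom.injective).1 h0)
  have hy0 : ∀ i, y i ≠ 0 := by
    intro i h0
    have h1 := hy i
    rw [h0, map_zero] at h1
    exact hes i h1.symm
  let h : (ι → Bool) → F := fun c => ∏ i, if c i then y i else 1
  have hh0 : ∀ c, h c ≠ 0 := by
    intro c
    refine Finset.prod_ne_zero_iff.2 fun i _ => ?_
    split_ifs
    · exact hy0 i
    · exact one_ne_zero
  have hquot : ∀ a b, κ (h b / h a) = uu e s a b := by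
    intro a b
    change κ ((∏ i, if b i then y i else 1) / ∏ i, if a i then y i else 1) = _
    rw [← Finset.prod_div_distrib, map_prod]
    unfold uu
    refine Finset.prod_congr rfl fun i _ => ?_
    rw [map_div₀]
    have hsi := s_ne (hs i)
    cases ha : a i <;> cases hb : b i <;> simp [hy, ch, hsi]
  obtain ⟨R, hR⟩ : ∃ R : (ι → Bool) → Subalgebra k (LP F), R = fun c =>
      res κ (RF (FF e (fun i => AA k (s i) (c i)) (ZR (fun i => AA k (s i) (c i)) ρ)
        (wt ρ p)) D) := ⟨_, rfl⟩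
  have hloc : ∀ c : ι → Bool, ∀ V ∈ ZR (fun i => AA k (s i) (c i)) ρ, LocV (fun i => AA k (s i) (c i)) V :=
    fun c V hV => locV (fun i => cur_AA (hs i) (c i)) hV.1
  have hFc : ∀ c : ι → Bool, Filt (BB e (fun i => AA k (s i) (c i)))
      (FF e (fun i => AA k (s i) (c i)) (ZR (fun i => AA k (s i) (c i)) ρ) (wt ρ p)) :=
    fun c => filt_FF (hloc c)
  have hmemR : ∀ (c : ι → Bool) (x : F), hm 0 x ∈ R c ↔
      κ x ∈ BB e (fun i => AA k (s i) (c i)) := by
    intro c x
    rw [hR, mem_res, Ph_hm]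
    exact RF_mem0 (hFc c)
  have hCh : ∀ c, Ch (R c) := by
    intro c
    rw [hR]
    exact ch_aff (A := fun i => AA k (s i) (c i)) p κ (fun i => cur_AA (hs i) (c i))
      (ld_mapA hld _) (hst c) σ hσ hκ (hisoA c) (hcondA c) hD (hwD c) (hwD' c)
  have hinj : Function.Injective (algebraMap k F) := (algebraMap k F).injective
  obtain ⟨r, T, hT, C, H, hAt, hdom⟩ := Pool.Agent.N864.GT.atlas_dom k F hinj False ⊥ ⊤
    (ι → Bool) R h hCh hh0
    (fun a => Subfield.mem_top _) (fun _ _ x _ => Subfield.mem_top x)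
    (fun a b => by
      rw [hmemR, hquot]
      exact uu_mem a b)
    (fun a b f hf => by
      rw [hR] at hf
      have hf' : Ph κ f ∈ RF (FF e (fun i => AA k (s i) (b i))
          (ZR (fun i => AA k (s i) (b i)) ρ) (wt ρ p)) D := mem_res.1 hf
      obtain ⟨n, hn⟩ := glue_RF hs p D a b hf'
      refine ⟨n, ?_⟩
      rw [hR, mem_res, map_mul, map_pow, Ph_hm, hquot]
      exact hn)
    (fun V hV => by
      obtain ⟨W, hW⟩ := ext_val (κ : F →+* L) V
      let c : ι → Bool := fun i => decide (y i ∉ V)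
      refine ⟨c, fun x hx => ?_⟩
      rw [hmemR] at hx
      rw [← hW]
      refine BB_val c W (fun z => ?_) (fun i => ?_) hx
      · have h1 := (hW (algebraMap k F z)).2 (hV z)
        have h2 : (κ : F →+* L) (algebraMap k F z) = algebraMap k L z := κ.commutes z
        rwa [h2] at h1
      · by_cases hyV : y i ∈ V
        · have h1 : c i = false := by simp [c, hyV]
          rw [h1]
          change e i (s i) ∈ W
          rw [← hy]
          exact (hW _).2 hyV
        · have h1 : c i = true := by simp [c, hyV]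
          rw [h1]
          change e i (s i)⁻¹ ∈ W
          rw [map_inv₀, ← hy, ← map_inv₀]
          exact (hW _).2 ((V.mem_or_inv_mem _).resolve_left hyV))
    (fun a x _ => by
      obtain ⟨b, hb, b', hb', hb0, hx⟩ := BB_frac hs hgen a (κ x)
      have hst' : ∀ g, ∀ z ∈ BB e (fun i => AA k (s i) (a i)),
          σ g z ∈ BB e (fun i => AA k (s i) (a i)) := fun g z hz =>
        BB_st (σ g) (fun i => ρ i g) (hσ g) (hst a g) hz
      have hsplit : ∏ g : G, σ g b' = b' * ∏ g ∈ Finset.univ.erase 1, σ g b' := by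
        rw [← Finset.mul_prod_erase Finset.univ _ (Finset.mem_univ (1 : G)), map_one]
        rfl
      have hmem : ∏ g ∈ Finset.univ.erase (1 : G), σ g b' ∈
          BB e (fun i => AA k (s i) (a i)) :=
        Subalgebra.prod_mem _ fun g _ => hst' g b' hb'
      have hne : ∏ g : G, σ g b' ≠ 0 :=
        Finset.prod_ne_zero_iff.2 fun g _ h0 => hb0 ((map_eq_zero _).1 h0)
      have hinv : ∀ g, σ g (∏ g : G, σ g b') = ∏ g : G, σ g b' := by
        intro g
        rw [map_prod]
        refine Fintype.prod_equiv (Equiv.mulLeft g) _ _ fun g' => ?_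
        rw [Equiv.coe_mulLeft, map_mul, AlgEquiv.mul_apply]
      obtain ⟨z, hz⟩ := (hκ _).1 hinv
      have hz0 : z ≠ 0 := by
        rintro rfl
        rw [map_zero] at hz
        exact hne hz.symm
      refine ⟨x * z, z, ?_, ?_, hz0, ?_⟩
      · rw [hmemR, map_mul, hz, hx, hsplit]
        have e1 : b / b' * (b' * ∏ g ∈ Finset.univ.erase (1 : G), σ g b') =
            b * ∏ g ∈ Finset.univ.erase (1 : G), σ g b' := by
          field_simp
        rw [e1]
        exact Subalgebra.mul_mem _ hb hmem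
      · rw [hmemR, hz, hsplit]
        exact Subalgebra.mul_mem _ hb' hmem
      · rw [mul_div_cancel_right₀ _ hz0])
    (fun h => absurd h id) (fun h => absurd h id)
  obtain ⟨I, hI, w, J, hmod, hdom'⟩ := Pool.Agent.N864.GT.model_dom k F hinj False ⊥
    Submodule.fg_bot ⊤ (fun h => absurd h id) r T C H hAt
  refine ⟨I, hI, w, J, hmod, fun j hj => ?_⟩
  obtain ⟨t, ht⟩ := hdom' j hj
  obtain ⟨c, hc⟩ := hdom t
  exact ⟨c, fun x hx => ht x (hc x ((hmemR c x).2 hx))⟩

end prod

end Run7.h802.Rz
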