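import Pool.Agent.Run7.h802.Rz18
import Pool.Agent.N762.FP.Itg
import Pool.Agent.N864.GT.Sm

/-!
# Resolution of projective varieties dominated by a regular model
-/

set_option autoImplicit false
set_option linter.unusedVariables false
set_option linter.unusedSectionVars false

open AlgebraicGeometry CategoryTheory Limits HomogeneousLocalization
open Pool.Agent.H968R2.Quad Pool.Agent.W558 Pool.Agent.N98.PJ

namespace Run7.h802.Rz

/-- A regular projective model over a perfect field is a smooth proper scheme. -/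
theorem exists_spmG {k K : Type} [Field k] [PerfectField k] [Field K] [Algebra k K] {I : Type}
    [Finite I] {z : I → K} {J : Set I}
    (hM : Pool.Agent.Y223.G.ModelG False (⊥ : Submodule k K) (⊤ : Subfield K) z J) :
    ∃ P : SPM k K, ∀ j : P.J, ∃ j' ∈ J,
      Algebra.adjoin k (Set.range fun i => z i / z j') = P.B j := by
  classical
  let M : Submodule k K := Submodule.span k (Set.range z)
  have hz : ∀ i, z i ∈ M := fun i => Submodule.subset_span ⟨i, rfl⟩
  have hfg : M.FG := Submodule.fg_span (Set.finite_range z)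
  obtain ⟨j0, hj0, -⟩ := hM.cv ⊤ (fun _ => trivial)
  have hz0 := hM.z0
  have hB : ∀ a : K, Algebra.adjoin k {y : K | ∃ m ∈ M, y = m / a} =
      Algebra.adjoin k (Set.range fun i => z i / a) := by
    intro a
    apply le_antisymm
    · rw [Algebra.adjoin_le_iff]
      rintro _ ⟨m, hm, rfl⟩
      change m / a ∈ Algebra.adjoin k (Set.range fun i => z i / a)
      have hm' : m ∈ Submodule.span k (Set.range z) := hm
      induction hm' using Submodule.span_induction with
      | mem x hx =>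
        obtain ⟨i, rfl⟩ := hx
        exact Algebra.subset_adjoin ⟨i, rfl⟩
      | zero => rw [zero_div]; exact Subalgebra.zero_mem _
      | add x y hx' hy' hx hy => rw [add_div]; exact Subalgebra.add_mem _ (hx hx') (hy hy')
      | smul c x hx' hx =>
        rw [Algebra.smul_def, mul_div_assoc]
        exact Subalgebra.mul_mem _ (Subalgebra.algebraMap_mem _ c) (hx hx')
    · rw [Algebra.adjoin_le_iff]
      rintro _ ⟨i, rfl⟩
      exact Algebra.subset_adjoin ⟨z i, hz i, rfl⟩
  have hsm : ∀ j ∈ J, Algebra.Smooth k (Algebra.adjoin k (Set.range fun i => z i / z j)) := by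
    intro j hj
    have h1 := hM.rg j hj
    have h2 : Algebra.FiniteType k (Algebra.adjoin k (Set.range fun i => z i / z j)) :=
      (Subalgebra.fg_iff_finiteType _).1
        ⟨(Set.finite_range fun i => z i / z j).toFinset, by rw [Set.Finite.coe_toFinset]⟩
    exact Pool.Agent.N864.GT.smooth_of_regular
  have hint : IsIntegral (model M) := model_integral M (z j0) (hz j0) (hz0 j0 hj0)
  have hcov : ∀ y : Proj (mPiece M), ∃ j : {j // j ∈ J},
      y ∈ (chartB M (z j.1) (hz j.1) (hz0 j.1 j.2)).opensRange := by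
    intro y
    obtain ⟨j, hj, hy⟩ := cover_of_valuative M z hz rfl J hz0 hM.cv y
    rw [modelChart_opensRange] at hy
    refine ⟨⟨j, hj⟩, ?_⟩
    have h1 := chartB_opensRange M (z j) (hz j) (hz0 j hj)
    exact h1 ▸ hy
  have hev : ∀ j : {j // j ∈ J}, evalOne M (tElt M (z j.1) (hz j.1)) ≠ 0 := by
    intro j
    rw [evalOne_tElt]
    exact hz0 j.1 j.2
  refine ⟨{ Y := Proj (mPiece M)
            int := hint
            g := Proj.toSpecZero (mPiece M) ≫ Spec.map (toZeroHom M)
            pr := modelMap_isProper M (algebraMap k K).injective hfg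
            sm := ?_
            J := {j // j ∈ J}
            B := fun j => Algebra.adjoin k {y : K | ∃ m ∈ M, y = m / z j.1}
            c := fun j => chartB M (z j.1) (hz j.1) (hz0 j.1 j.2)
            oi := fun j => inferInstance
            cov := hcov
            χ := pt (mPiece M) (evalOne M) (tElt_mem M (z j0) (hz j0)) one_pos (hev ⟨j0, hj0⟩)
            hχ := fun j => ?_
            hg := fun j => chartB_toSpecZero M _ _ _
            ft := fun j => ?_ }, fun j => ?_⟩
  · have hsup : ⨆ j : {j // j ∈ J}, (chartB M (z j.1) (hz j.1) (hz0 j.1 j.2)).opensRange = ⊤ := by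
      rw [eq_top_iff]
      intro y _
      rw [TopologicalSpace.Opens.mem_iSup]
      exact hcov y
    rw [IsZariskiLocalAtSource.iff_of_iSup_eq_top (P := @AlgebraicGeometry.Smooth.{0})
      (fun j : {j // j ∈ J} => (chartB M (z j.1) (hz j.1) (hz0 j.1 j.2)).opensRange) hsup]
    intro j
    rw [← MorphismProperty.cancel_left_of_respectsIso (P := @AlgebraicGeometry.Smooth.{0})
      (chartB M (z j.1) (hz j.1) (hz0 j.1 j.2)).isoOpensRange.hom, ← Category.assoc,
      Scheme.Hom.isoOpensRange_hom_ι, chartB_toSpecZero,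
      HasRingHomProperty.Spec_iff (P := @AlgebraicGeometry.Smooth.{0})]
    have h1 := hsm j.1 j.2
    rw [← hB] at h1
    exact RingHom.smooth_algebraMap.2 h1
  · rw [chartB_pt M _ _ _ (hev j)]
    exact pt_eq _ _ _ _ _ _ _ _
  · rw [hB]
    exact ⟨(Set.finite_range fun i => z i / z j.1).toFinset, by rw [Set.Finite.coe_toFinset]⟩
  · exact ⟨j.1, j.2, (hB _).symm⟩

/-- Resolution of the open subsets of a projective variety with forms of degree one without common
zeros, whose quotients are in the charts of a regular model. -/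
theorem res_proj {k S K : Type} [Field k] [PerfectField k] [CommRing S] [IsDomain S] [Algebra k S]
    (𝒜 : ℕ → Submodule k S) [GradedAlgebra 𝒜] (hgen : Algebra.adjoin k (𝒜 1 : Set S) = ⊤)
    (hfg : (𝒜 1).FG)
    [Field K] [Algebra k K] (ev : S →ₐ[k] K) (hev : ∀ n, ∀ s ∈ 𝒜 n, ev s = 0 → s = 0)
    (hK : ∀ z : K, ∃ n, ∃ s ∈ 𝒜 n, ∃ t ∈ 𝒜 n, ev t ≠ 0 ∧ z = ev s / ev t)
    {m : ℕ} (b : Fin m → S) (hb : ∀ i, b i ∈ 𝒜 1)
    {n : ℕ} (hbn : ∀ s ∈ 𝒜 (n + 1), s ∈ Ideal.span (Set.range b))
    {I : Type} [Finite I] {z : I → K} {J : Set I}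
    (hM : Pool.Agent.Y223.G.ModelG False (⊥ : Submodule k K) (⊤ : Subfield K) z J)
    (hdom : ∀ j ∈ J, ∃ a, ev (b a) ≠ 0 ∧
      ∀ i, ev (b i) / ev (b a) ∈ Algebra.adjoin k (Set.range fun i => z i / z j))
    (U : (Proj 𝒜).Opens) (hU : (U : Set (Proj 𝒜)).Nonempty) :
    IsResolvableVariety (X := U.toScheme) (U.ι ≫ str 𝒜) := by
  classical
  obtain ⟨P, hP⟩ := exists_spmG hM
  obtain ⟨j₀, hj₀, -⟩ := hM.cv ⊤ (fun _ => trivial)
  obtain ⟨a₀, ha₀, -⟩ := hdom j₀ hj₀
  have hnorm : ∀ j ∈ J, IsIntegrallyClosed (Algebra.adjoin k (Set.range fun i => z i / z j)) ∧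
      IsFractionRing (Algebra.adjoin k (Set.range fun i => z i / z j)) K := by
    intro j hj
    have h1 := hM.rg j hj
    have h2 : Algebra.FiniteType k (Algebra.adjoin k (Set.range fun i => z i / z j)) :=
      (Subalgebra.fg_iff_finiteType _).1
        ⟨(Set.finite_range fun i => z i / z j).toFinset, by rw [Set.Finite.coe_toFinset]⟩
    have hsm : Algebra.Smooth k (Algebra.adjoin k (Set.range fun i => z i / z j)) :=
      Pool.Agent.N864.GT.smooth_of_regular
    refine ⟨wd_norm k _, ?_⟩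
    refine IsFractionRing.of_field _ _ fun x => ?_
    obtain ⟨u, hu, v, hv, hv0, h⟩ := hM.fr j hj x (Subfield.mem_top x)
    exact ⟨⟨u, hu⟩, ⟨v, hv⟩, h⟩
  obtain ⟨π, hπ, hsm, U0, hU0, hiso⟩ := exists_res' 𝒜 ev hev hgen (fun f hf hf0 x => by
    obtain ⟨n, s, hs, t, ht, ht0, rfl⟩ := hK x
    refine ⟨ev s / ev f ^ n, ev_div_mem 𝒜 ev f hf0 n s (le_pow 𝒜 hgen n hs), ev t / ev f ^ n,
      ev_div_mem 𝒜 ev f hf0 n t (le_pow 𝒜 hgen n ht), div_ne_zero ht0 (pow_ne_zero n hf0), ?_⟩
    rw [div_div_div_cancel_right₀ (pow_ne_zero n hf0)]) P (fun j => by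
    obtain ⟨j', hj', heq⟩ := hP j
    obtain ⟨a, ha0, ha⟩ := hdom j' hj'
    obtain ⟨hic, hfrac⟩ := hnorm j' hj'
    refine ⟨b a, hb a, ha0, fun s hs => ?_⟩
    rw [← heq]
    exact Pool.Agent.N762.FP.forms_mem 𝒜 hgen hfg ev b hb hbn _ hic hfrac a ha0 ha s hs)
  have hint : IsIntegral (Proj 𝒜) :=
    proj_integral 𝒜 one_ne_zero (b a₀) (hb a₀) (fun h => ha₀ (by rw [h, map_zero]))
  have hY := P.int
  have hUne : Nonempty U.toScheme := ⟨⟨hU.some, hU.some_mem⟩⟩
  have hUint : IsIntegral U.toScheme := isIntegral_of_isOpenImmersion U.ι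
  have hft := finiteType_zero 𝒜 hgen hfg
  have hiso0 := isIso_zero 𝒜 hgen
  have hprop : IsProper (Proj.toSpecZero 𝒜) := inferInstance
  have hsep : IsSeparated (str 𝒜) := isSeparated_str 𝒜
  have hlft : LocallyOfFiniteType (str 𝒜) := by
    unfold str
    infer_instance
  have hqc : QuasiCompact (str 𝒜) := by
    unfold str
    infer_instance
  have hnoeth : IsLocallyNoetherian (Proj 𝒜) := LocallyOfFiniteType.isLocallyNoetherian (str 𝒜)
  refine ⟨⟨hUint, inferInstance, inferInstance, inferInstance⟩, ?_⟩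
  exact restrict_resolution π hπ (str 𝒜) hsm U0 hU0 hiso U hU

end Run7.h802.Rz
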