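import Pool.Agent.Run7.h802.Rz1
import Pool.Agent.Run7.h802.Cv9

/-!
# Étale coordinates at the points of a curve over a perfect field
-/

set_option autoImplicit false
set_option linter.unusedVariables false
set_option linter.unusedSectionVars false

namespace Run7.h802.Rz

open Run7.h802.Cv
open IsLocalRing KaehlerDifferential Algebra Pool.Agent.Y223.G Pool.Agent.W418.LU2
open Pool.Agent.Y215.G (exists_der ind_of_equiv der_sq)

section etale

variable {k A : Type} [Field k] [PerfectField k] [CommRing A] [IsDomain A] [Algebra k A]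
  [Algebra.FiniteType k A]

/-- An element of a prime ideal of a domain, not zero, is transcendental over the field. -/
lemma transc {k A : Type} [Field k] [CommRing A] [IsDomain A] [Algebra k A] {𝔭 : Ideal A} (hp : 𝔭 ≠ ⊤) {t : A} (ht : t ∈ 𝔭) (ht0 : t ≠ 0) :
    Transcendental k t := by
  intro halg
  have hu : IsUnit t := by
    obtain ⟨f, hf0, hf⟩ := halg
    -- divide by the powers of `X`
    obtain ⟨g, hg0, hg⟩ : ∃ g : Polynomial k, g.coeff 0 ≠ 0 ∧ Polynomial.aeval t g = 0 := by
      obtain ⟨n, g, hn, h1⟩ : ∃ (n : ℕ) (g : Polynomial k), g.coeff 0 ≠ 0 ∧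
          f = Polynomial.X ^ n * g := by
        obtain ⟨g, hg, hg'⟩ := Polynomial.exists_eq_pow_rootMultiplicity_mul_and_not_dvd f hf0 0
        rw [map_zero, sub_zero] at hg hg'
        refine ⟨_, g, ?_, hg⟩
        rw [Polynomial.X_dvd_iff] at hg'
        exact hg'
      refine ⟨g, hn, ?_⟩
      rw [h1, map_mul, map_pow, Polynomial.aeval_X] at hf
      rcases mul_eq_zero.1 hf with h | h
      · exact absurd (eq_zero_of_pow_eq_zero h) ht0
      · exact h
    have h2 : Polynomial.aeval t g = t * Polynomial.aeval t g.divX +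
        algebraMap k A (g.coeff 0) := by
      conv_lhs => rw [← Polynomial.divX_mul_X_add g]
      rw [map_add, map_mul, Polynomial.aeval_X, Polynomial.aeval_C, mul_comm]
    have h3 : IsUnit (algebraMap k A (g.coeff 0)) := (isUnit_iff_ne_zero.2 hg0).map _
    rw [hg] at h2
    have h4 : t * (-Polynomial.aeval t g.divX) = algebraMap k A (g.coeff 0) := by
      linear_combination h2
    exact isUnit_of_mul_isUnit_left (h4 ▸ h3)
  exact hp (Ideal.eq_top_of_isUnit_mem _ ht hu)

/-- The residue fields are perfect. -/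
lemma root_quot {k A : Type} [Field k] [PerfectField k] [CommRing A] [Algebra k A]
    [Algebra.FiniteType k A] (p : ℕ) [hp : Fact p.Prime] [CharP k p] (𝔭 : Ideal A)
    [h𝔭 : 𝔭.IsMaximal] (x : A ⧸ 𝔭) : ∃ r, r ^ p = x := by
  let _ : Field (A ⧸ 𝔭) := Ideal.Quotient.field 𝔭
  have h1 : Module.Finite k (A ⧸ 𝔭) := finite_of_finite_type_of_isJacobsonRing k (A ⧸ 𝔭)
  have h2 : Algebra.IsAlgebraic k (A ⧸ 𝔭) := inferInstance
  have h3 : PerfectField (A ⧸ 𝔭) := Algebra.IsAlgebraic.perfectField (K := k)
  have hch : CharP (A ⧸ 𝔭) p :=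
    charP_of_injective_algebraMap (algebraMap k (A ⧸ 𝔭)).injective p
  have h4 : PerfectRing (A ⧸ 𝔭) p := inferInstance
  obtain ⟨r, hr⟩ := (frobeniusEquiv (A ⧸ 𝔭) p).surjective x
  exact ⟨r, hr⟩

/-- The differentials of the local ring over `k[t]` are zero. -/
lemma unram (p : ℕ) [Fact p.Prime] [CharP k p] (𝔭 : Ideal A) [h𝔭 : 𝔭.IsMaximal] {t : A}
    (ht : t ∈ 𝔭) (hgen : ∀ b ∈ 𝔭, ∃ f, f ∉ 𝔭 ∧ ∃ a, f * b = t * a) {R : Type} [CommRing R]
    [Algebra k R] [Algebra R A] [IsScalarTower k R A] [Algebra.FiniteType k R] {x : R}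
    (hx : algebraMap R A x = t) : FormallyUnramified R (Localization.AtPrime 𝔭) := by
  set B := Localization.AtPrime 𝔭 with hB
  have hft : Algebra.FiniteType R A := Algebra.FiniteType.of_restrictScalars_finiteType k R A
  have hess : EssFiniteType A B := inferInstance
  have hess2 : EssFiniteType R B := EssFiniteType.comp R A B
  have hfin : Module.Finite B Ω[B⁄R] := inferInstance
  have hcB : CharP B p := by
    have : Nontrivial B := inferInstance
    exact charP_of_injective_algebraMap (algebraMap k B).injective p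
  -- the residue field is perfect
  have hroot : ∀ z : B, ∃ y : B, y ^ p - z ∈ maximalIdeal B := by
    intro z
    let e := IsLocalization.AtPrime.equivQuotMaximalIdeal 𝔭 B
    obtain ⟨r, hr⟩ := root_quot (k := k) p 𝔭 (e.symm (residue B z))
    obtain ⟨y, hy⟩ := Ideal.Quotient.mk_surjective (e r)
    refine ⟨y, ?_⟩
    have h5 : e (e.symm (Ideal.Quotient.mk (maximalIdeal B) z)) =
        Ideal.Quotient.mk (maximalIdeal B) z := e.apply_symm_apply _
    have hr' : r ^ p = e.symm (Ideal.Quotient.mk (maximalIdeal B) z) := hr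
    rw [← Ideal.Quotient.eq_zero_iff_mem, map_sub, map_pow, hy, ← map_pow, hr', h5, sub_self]
  -- the maximal ideal
  have hmax : ∀ z ∈ maximalIdeal B, ∃ y, z = algebraMap A B t * y := by
    intro z hz
    obtain ⟨b, s, rfl⟩ := IsLocalization.exists_mk'_eq 𝔭.primeCompl z
    have hb : b ∈ 𝔭 := by
      rw [← IsLocalization.AtPrime.to_map_mem_maximal_iff B 𝔭]
      have h1 : algebraMap A B b = IsLocalization.mk' B b s * algebraMap A B s := by
        rw [IsLocalization.mk'_spec]
      rw [h1]
      exact Ideal.mul_mem_right _ _ hz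
    obtain ⟨f, hf, a, hfa⟩ := hgen b hb
    refine ⟨IsLocalization.mk' B a (⟨f, hf⟩ * s), ?_⟩
    rw [← IsLocalization.mk'_one (M := 𝔭.primeCompl) B t, ← IsLocalization.mk'_mul, one_mul,
      IsLocalization.mk'_eq_iff_eq]
    congr 1
    change (f * (s : A)) * b = (s : A) * (t * a)
    rw [← hfa]
    ring
  have hD : ∀ z : B, D R B z ∈ (maximalIdeal B) • (⊤ : Submodule B Ω[B⁄R]) := by
    intro z
    obtain ⟨w, h1⟩ := hroot z
    obtain ⟨y, hy⟩ := hmax _ h1
    have h2 : D R B (w ^ p) = 0 := by
      rw [Derivation.leibniz_pow, ← smul_assoc]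
      have h3 : p • w ^ (p - 1) = (0 : B) := by
        rw [nsmul_eq_mul, CharP.cast_eq_zero, zero_mul]
      rw [h3, zero_smul]
    have h4 : D R B (algebraMap A B t * y) = algebraMap A B t • D R B y := by
      rw [Derivation.leibniz, ← hx, ← IsScalarTower.algebraMap_apply R A B,
        Derivation.map_algebraMap, smul_zero, add_zero]
    have h5 : D R B z = -(algebraMap A B t • D R B y) := by
      rw [← h4, ← hy, map_sub, h2, zero_sub, neg_neg]
    rw [h5]
    refine Submodule.neg_mem _ (Submodule.smul_mem_smul ?_ Submodule.mem_top)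
    exact (IsLocalization.AtPrime.to_map_mem_maximal_iff B 𝔭 t).2 ht
  have htop : (⊤ : Submodule B Ω[B⁄R]) ≤ (maximalIdeal B) • (⊤ : Submodule B Ω[B⁄R]) := by
    rw [← span_range_derivation R B, Submodule.span_le]
    rintro _ ⟨z, rfl⟩
    rw [span_range_derivation]
    exact hD z
  have hbot := Submodule.eq_bot_of_le_smul_of_le_jacobson_bot (maximalIdeal B) ⊤
    (Module.Finite.fg_top) htop (IsLocalRing.maximalIdeal_le_jacobson ⊥)
  have hsub : Subsingleton Ω[B⁄R] := by
    rw [← Submodule.subsingleton_iff B]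
    exact subsingleton_of_bot_eq_top hbot.symm
  exact ⟨hsub⟩

end etale

section etAt

variable {k L : Type} [Field k] [PerfectField k] [Field L] [Algebra k L]

/-- A uniformizer of a curve is an étale coordinate. -/
theorem etAt_unif (p : ℕ) [Fact p.Prime] [CharP k p] (A : Subalgebra k L)
    (hft : Algebra.FiniteType k A) (𝔭 : Ideal A) [h𝔭 : 𝔭.IsMaximal] {t : A} (ht : t ∈ 𝔭)
    (ht0 : t ≠ 0) (hgen : ∀ b ∈ 𝔭, ∃ f, f ∉ 𝔭 ∧ ∃ a, f * b = t * a) :
    EtAt A 𝔭 (fun _ : Unit => t) := by
  let φ : MvPolynomial Unit k →ₐ[k] A := MvPolynomial.aeval fun _ : Unit => t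
  let _ : Algebra (MvPolynomial Unit k) A := φ.toRingHom.toAlgebra
  have htow : IsScalarTower k (MvPolynomial Unit k) A :=
    IsScalarTower.of_algebraMap_eq' (φ.comp_algebraMap.symm)
  have hpir : IsPrincipalIdealRing (MvPolynomial Unit k) :=
    IsPrincipalIdealRing.of_surjective
      ((MvPolynomial.uniqueAlgEquiv k Unit).symm : Polynomial k ≃+* MvPolynomial Unit k).toRingHom
      (MvPolynomial.uniqueAlgEquiv k Unit).symm.surjective
  have hinj : Function.Injective (algebraMap (MvPolynomial Unit k) A) := by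
    have h1 := transc (k := k) h𝔭.ne_top ht ht0
    exact (algebraicIndependent_unique_type_iff (x := fun _ : Unit => t)).2 h1
  have htf : Module.IsTorsionFree (MvPolynomial Unit k) A := by
    rw [Module.isTorsionFree_iff_smul_eq_zero]
    intro r a hra
    rw [Algebra.smul_def, mul_eq_zero] at hra
    rcases hra with h | h
    · left
      exact hinj (by rw [h, map_zero])
    · exact Or.inr h
  have hflat : Module.Flat (MvPolynomial Unit k) A := inferInstance
  have hft' : Algebra.FiniteType (MvPolynomial Unit k) A :=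
    Algebra.FiniteType.of_restrictScalars_finiteType k (MvPolynomial Unit k) A
  have hfp : Algebra.FinitePresentation (MvPolynomial Unit k) A :=
    Algebra.FinitePresentation.of_finiteType.1 hft'
  have hun : IsUnramifiedAt (MvPolynomial Unit k) 𝔭 :=
    unram (k := k) (R := MvPolynomial Unit k) p 𝔭 ht hgen (x := MvPolynomial.X ())
      (MvPolynomial.aeval_X _ _)
  have het : IsEtaleAt (MvPolynomial Unit k) 𝔭 := IsEtaleAt.of_isUnramifiedAt_of_flat 𝔭
  obtain ⟨g, hg, hE⟩ := exists_etale_of_isEtaleAt (R := MvPolynomial Unit k) 𝔭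
  refine ⟨g, hg, ?_⟩
  have h2 : (algebraMap (MvPolynomial Unit k) (Localization.Away g)).Etale :=
    RingHom.etale_algebraMap.2 hE
  rw [IsScalarTower.algebraMap_eq (MvPolynomial Unit k) A (Localization.Away g)] at h2
  exact h2

end etAt


end Run7.h802.Rz
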