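import Pool.Agent.Run7.h802.Rz19
import Pool.Agent.Run7.h802.Cv18

/-!
# Projective quotients of products of curves, and regular models over the integers
-/

set_option autoImplicit false
set_option linter.unusedVariables false
set_option linter.unusedSectionVars false

namespace Run7.h802.Rz

open Run7.h802.Cv
open Pool.Agent.Y223.G Pool.Agent.W418.LU2 IsLocalRing Pool.Agent.H639R3 IsDedekindDomain
  Pool.Agent.H918R2.Quad AlgebraicGeometry CategoryTheory
open Pool.Agent.H920R2 (SepEl)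
open Pool.Agent.W558 (IsResolvableVariety)
open Pool.Agent.N98.PJ (str)

section prod

variable {k L : Type} [Field k] [PerfectField k] [Field L] [Algebra k L] {ι : Type} [Fintype ι]
  [DecidableEq ι] {E : ι → Type} [∀ i, Field (E i)] [∀ i, Algebra k (E i)]
  [∀ i, Algebra.EssFiniteType k (E i)] {e : ∀ i, E i →ₐ[k] L} {s : ∀ i, E i}
  {G : Type} [Group G] {ρ : ∀ i, G →* (E i ≃ₐ[k] E i)}

/-- The quotients of the forms are in the coordinate ring of the chart. -/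
lemma ratio_mem (m : ι → ℕ) (hs0 : ∀ i, s i ≠ 0) (I : Finset ι) (c : ι → Bool) :
    (∏ i ∈ I, e i (s i) ^ m i) / (∏ i ∈ Finset.univ.filter (fun i => c i = true),
      e i (s i) ^ m i) ∈ BB e (fun i => AA k (s i) (c i)) := by
  classical
  have h1 : (∏ i ∈ I, e i (s i) ^ m i) = ∏ i, if i ∈ I then e i (s i) ^ m i else 1 := by
    rw [Finset.prod_ite_mem, Finset.univ_inter]
  rw [h1, Finset.prod_filter, ← Finset.prod_div_distrib]
  refine Subalgebra.prod_mem _ fun i _ => ?_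
  have hc : e i (ch (s i) (c i)) ∈ BB e (fun i => AA k (s i) (c i)) :=
    mem_BB (A := fun i => AA k (s i) (c i)) i (ch_mem (c i))
  have hne : e i (s i) ≠ 0 := fun h0 =>
    hs0 i ((map_eq_zero_iff (e i) (e i).toRingHom.injective).1 h0)
  cases hci : c i
  · rw [hci] at hc
    change e i (s i) ∈ _ at hc
    rw [if_neg (by decide : ¬ (false = true)), div_one]
    split_ifs
    · exact (BB e _).pow_mem hc _
    · exact (BB e _).one_mem
  · rw [hci] at hc
    change e i (s i)⁻¹ ∈ _ at hc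
    rw [map_inv₀] at hc
    rw [if_pos rfl]
    split_ifs
    · rw [div_self (pow_ne_zero _ hne)]
      exact (BB e _).one_mem
    · rw [one_div, ← inv_pow]
      exact (BB e _).pow_mem hc _

/-- Resolution of the projective quotients. -/
theorem proj_main [Nonempty ι] [Finite G] (p : ℕ) [Fact p.Prime] [CharP k p]
    {F : Type} [Field F] [Algebra k F] (κ : F →ₐ[k] L)
    (hs : ∀ i, SepEl k (s i)) (hfs : ∀ i g, ρ i g (s i) = s i)
    (hld : ∀ (S : Finset ι) (i : ι), i ∉ S → (⨆ j ∈ S, (e j).range).LinearDisjoint (e i).range)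
    (hgen : ⨆ i, (e i).fieldRange = ⊤)
    (σ : G →* (L ≃ₐ[k] L)) (hσ : ∀ g i x, σ g (e i x) = e i (ρ i g x))
    (hκ : ∀ x, (∀ g, σ g x = x) ↔ ∃ y, κ y = x)
    (hiso : ∀ V : ∀ i, ValuationSubring (E i), (∀ i, Pt k (V i)) → ∀ g ∈ inr ρ V, g ≠ 1 →
      ∀ i, ρ i g ≠ 1)
    (hcond : ∀ V : ∀ i, ValuationSubring (E i), (∀ i, Pt k (V i)) →
      (¬ p ^ 2 ∣ Nat.card (inr ρ V)) ∨ TrC ρ p V)
    {S : Type} [CommRing S] [IsDomain S] [Algebra k S] (𝒜 : ℕ → Submodule k S) [GradedAlgebra 𝒜]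
    (hS : Algebra.adjoin k (𝒜 1 : Set S) = ⊤) (hfg : (𝒜 1).FG) (ξ : S →ₐ[k] F)
    (hξ : ∀ n, ∀ a ∈ 𝒜 n, ξ a = 0 → a = 0)
    (hfrac : ∀ z : F, ∃ n, ∃ a ∈ 𝒜 n, ∃ a' ∈ 𝒜 n, ξ a' ≠ 0 ∧ z = ξ a / ξ a')
    (m : ι → ℕ) (b : Finset ι → S) (hb : ∀ I, b I ∈ 𝒜 1) (hb0 : b ∅ ≠ 0)
    (hb' : ∃ d : ℕ, ∀ a ∈ 𝒜 (d + 1), a ∈ Ideal.span (Set.range b))
    (hbs : ∀ I, κ (ξ (b I)) = κ (ξ (b ∅)) * ∏ i ∈ I, e i (s i) ^ m i)
    (U : (Proj 𝒜).Opens) (hU : (U : Set (Proj 𝒜)).Nonempty) :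
    IsResolvableVariety (X := U.toScheme) (U.ι ≫ str 𝒜) := by
  classical
  obtain ⟨I, hI, z, J, hM, hdom⟩ := glob_atlas p κ hs hfs hld hgen σ hσ hκ hiso hcond
  obtain ⟨d, hd⟩ := hb'
  have hs0 : ∀ i, s i ≠ 0 := fun i => s_ne (hs i)
  let ε := (Fintype.equivFin (Finset ι)).symm
  refine res_proj 𝒜 hS hfg ξ hξ hfrac (fun i => b (ε i)) (fun i => hb _) (n := d) ?_ hM ?_ U hU
  · have h1 : Set.range (fun i => b (ε i)) = Set.range b := ε.surjective.range_comp b
    rw [h1]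
    exact hd
  · intro j hj
    obtain ⟨c, hc⟩ := hdom j hj
    have hξ0 : ξ (b ∅) ≠ 0 := fun h => hb0 (hξ 1 _ (hb ∅) h)
    have hκ0 : ∀ {y : F}, κ y = 0 → y = 0 := fun {y} h =>
      (map_eq_zero_iff κ κ.toRingHom.injective).1 h
    have hne : ∀ I, ξ (b I) ≠ 0 := by
      intro I h0
      have h1 := hbs I
      rw [h0, map_zero] at h1
      rcases mul_eq_zero.1 h1.symm with h2 | h2
      · exact hξ0 (hκ0 h2)
      · obtain ⟨i, -, hi⟩ := Finset.prod_eq_zero_iff.1 h2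
        exact hs0 i ((map_eq_zero_iff (e i) (e i).toRingHom.injective).1
          (eq_zero_of_pow_eq_zero hi))
    obtain ⟨a, ha⟩ := ε.surjective (Finset.univ.filter (fun i => c i = true))
    refine ⟨a, hne _, fun i => hc _ ?_⟩
    rw [map_div₀, hbs (ε i), hbs (ε a), ha, mul_div_mul_left _ _ (fun h => hξ0 (hκ0 h))]
    exact ratio_mem m hs0 (ε i) c

end prod

section fin

variable {k L : Type} [Field k] [Finite k] [Field L] [Algebra k L] {ι : Type} [Fintype ι]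
  [DecidableEq ι] {E : ι → Type} [∀ i, Field (E i)] [∀ i, Algebra k (E i)]
  [∀ i, Algebra.EssFiniteType k (E i)] {e : ∀ i, E i →ₐ[k] L}
  {G : Type} [Group G] {ρ : ∀ i, G →* (E i ≃ₐ[k] E i)}

/-- The regular proper models over the integers. -/
theorem curve_modelR [Nonempty ι] [Finite G] (p : ℕ) [Fact p.Prime] [CharP k p]
    (htr : ∀ i, Algebra.trdeg k (E i) = 1)
    (hld : ∀ (S : Finset ι) (i : ι), i ∉ S → (⨆ j ∈ S, (e j).range).LinearDisjoint (e i).range)
    (hgen : ⨆ i, (e i).fieldRange = ⊤)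
    (σ : G →* (L ≃ₐ[k] L)) (hσ : ∀ g i x, σ g (e i x) = e i (ρ i g x))
    (hiso : ∀ V : ∀ i, ValuationSubring (E i), (∀ i, Pt k (V i)) → ∀ g ∈ inr ρ V, g ≠ 1 →
      ∀ i, ρ i g ≠ 1)
    (hcond : ∀ V : ∀ i, ValuationSubring (E i), (∀ i, Pt k (V i)) →
      (¬ p ^ 2 ∣ Nat.card (inr ρ V)) ∨ TrC ρ p V)
    (F : Subfield L) (hF : ∀ x, x ∈ F ↔ ∀ g, σ g x = x) {Y : Type} [Field Y] (i : Y ≃+* F) :
    ∃ (X' : Scheme.{0}) (_ : IsIntegral X') (g : X' ⟶ Spec (CommRingCat.of ℤ)),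
      IsProper g ∧
      (∀ x : X',
        (((Module.finrank (IsLocalRing.ResidueField (X'.presheaf.stalk x))
            (IsLocalRing.CotangentSpace (X'.presheaf.stalk x)) : ℕ∞)) : WithBot ℕ∞)
          = ringKrullDim (X'.presheaf.stalk x)) ∧
      Nonempty (X'.functionField ≃+* Y) := by
  classical
  let r : k →+* F := (algebraMap k L).codRestrict F fun o => (hF _).2 fun g => (σ g).commutes o
  let _ : Algebra k F := r.toAlgebra
  have hst : IsScalarTower k F L := IsScalarTower.of_algebraMap_eq fun o => rfl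
  choose s hs hfs using fun i => exists_coord (htr i) (ρ i)
  have hM : HasModule k F := by
    obtain ⟨I, hI, w, J, hmod, -⟩ := glob_atlas (F := F) p (IsScalarTower.toAlgHom k F L) hs hfs hld
      hgen σ hσ (by
        intro x
        constructor
        · intro hx
          exact ⟨⟨x, (hF x).2 hx⟩, rfl⟩
        · rintro ⟨f, rfl⟩
          exact (hF _).1 f.2) hiso hcond
    have htop : (⊤ : Subfield F) = (algebraMap F F).fieldRange := by
      ext x
      constructor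
      · exact fun _ => ⟨x, rfl⟩
      · exact fun _ => Subfield.mem_top _
    rw [htop] at hmod
    obtain ⟨M', h1, h2, h3, h4, -⟩ := Pool.Agent.Y246.G.t_HASM k F F (algebraMap k F).injective
      False ⊥ I w J hmod
    exact ⟨M', h1, h2, h3, h4⟩
  have hfin : Module.Finite ℤ k := inferInstance
  obtain ⟨X', hX', g, hg, hreg', ⟨i'⟩⟩ := model_of_hasModule (algebraMap k F).injective hM
  exact ⟨X', hX', g, hg, hreg', ⟨i'.trans i.symm⟩⟩

end fin

end Run7.h802.Rz
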