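import Pool.Agent.Run7.h802.Rz4

/-!
# Regularity of the invariants along a chain of subgroups of the inertia group
-/

set_option autoImplicit false
set_option linter.unusedSectionVars false
set_option linter.unusedVariables false

namespace Run7.h802.Rz

open Finset Polynomial IsLocalRing
open Pool.Agent.Y824.G4 (iner mem_iner rmul rone rinv iner_stab stab_of_inv stab_mul PG PG_map
  PG_coeff case2' step)

section

variable {B : Type} [CommRing B] {G : Type} [Group G] (ρ : G →* (B ≃+* B))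

/-- The subring of the invariants of a subgroup. -/
def fixR (H : Subgroup G) : Subring B where
  carrier := {b | ∀ h ∈ H, ρ h b = b}
  mul_mem' {a b} ha hb h hh := by rw [map_mul, ha h hh, hb h hh]
  one_mem' h _ := map_one _
  add_mem' {a b} ha hb h hh := by rw [map_add, ha h hh, hb h hh]
  zero_mem' h _ := map_zero _
  neg_mem' {a} ha h hh := by rw [map_neg, ha h hh]

variable {ρ}

lemma mem_fixR {H : Subgroup G} {b : B} : b ∈ fixR ρ H ↔ ∀ h ∈ H, ρ h b = b := Iff.rfl

lemma fixR_map {H : Subgroup G} {σ : G} (hc : ∀ h ∈ H, σ * h = h * σ) {b : B}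
    (hb : b ∈ fixR ρ H) : ρ σ b ∈ fixR ρ H := by
  intro h hh
  rw [← rmul, ← hc h hh, rmul, hb h hh]

/-- The automorphism of the ring of invariants. -/
def fixE {H : Subgroup G} {σ : G} (hc : ∀ h ∈ H, σ * h = h * σ) : fixR ρ H ≃+* fixR ρ H where
  toFun b := ⟨ρ σ b, fixR_map hc b.2⟩
  invFun b := ⟨ρ σ⁻¹ b, fixR_map (σ := σ⁻¹) (fun h hh => by
    have h1 := hc h hh
    rw [inv_mul_eq_iff_eq_mul, ← mul_assoc, h1, mul_assoc, mul_inv_cancel, mul_one]) b.2⟩
  left_inv b := Subtype.ext (by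
    change ρ σ⁻¹ (ρ σ b) = b
    rw [← rmul, inv_mul_cancel, rone])
  right_inv b := Subtype.ext (rinv ρ σ b)
  map_mul' a b := Subtype.ext (map_mul (ρ σ) (a : B) b)
  map_add' a b := Subtype.ext (map_add (ρ σ) (a : B) b)

lemma fixE_iter {H : Subgroup G} {σ : G} (hc : ∀ h ∈ H, σ * h = h * σ) (n : ℕ) (b : fixR ρ H) :
    (((fixE (ρ := ρ) hc)^[n] b : fixR ρ H) : B) = ρ (σ ^ n) b := by
  induction n with
  | zero => rw [pow_zero, rone]; rfl
  | succ n ih =>
    rw [Function.iterate_succ_apply', pow_succ', rmul, ← ih]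
    rfl

lemma mem_fixR_sup {H : Subgroup G} {σ : G} {b : B} :
    b ∈ fixR ρ (H ⊔ Subgroup.zpowers σ) ↔ b ∈ fixR ρ H ∧ ρ σ b = b := by
  constructor
  · intro h
    exact ⟨fun g hg => h g (Subgroup.mem_sup_left hg),
      h σ (Subgroup.mem_sup_right (Subgroup.mem_zpowers σ))⟩
  · rintro ⟨h1, h2⟩
    let S : Subgroup G :=
      { carrier := {g | ρ g b = b}
        mul_mem' := fun {x y} hx hy => by
          change ρ (x * y) b = b
          rw [rmul, show ρ y b = b from hy, show ρ x b = b from hx]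
        one_mem' := rone ρ b
        inv_mem' := fun {x} hx => by
          change ρ x⁻¹ b = b
          have h3 : ρ x b = b := hx
          calc ρ x⁻¹ b = ρ x⁻¹ (ρ x b) := by rw [h3]
            _ = b := by rw [← rmul, inv_mul_cancel, rone] }
    have h3 : H ⊔ Subgroup.zpowers σ ≤ S := by
      refine sup_le h1 ?_
      rw [Subgroup.zpowers_le]
      exact h2
    exact fun g hg => h3 hg

variable [IsDomain B] [Finite G]

/-- One step of the chain. -/
theorem reg_step (p : ℕ) [hp : Fact p.Prime] {H : Subgroup G} {σ : G}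
    (hc : ∀ h ∈ H, σ * h = h * σ) (hσp : σ ^ p = 1)
    (Q : Ideal B) [hQ : Q.IsPrime] (hHQ : H ≤ iner ρ Q) (hσQ : σ ∈ iner ρ Q)
    (hreg : IsRegularLocalRing (Localization.AtPrime (Q.comap (fixR ρ H).subtype)))
    {b : B} (hbH : b ∈ fixR ρ H) (hbσ : ρ σ b ≠ b)
    (hb : ∀ c ∈ fixR ρ H, ∃ s, s ∉ Q ∧ (ρ σ b - b) ∣ s * (ρ σ c - c)) :
    IsRegularLocalRing (Localization.AtPrime
      (Q.comap (fixR ρ (H ⊔ Subgroup.zpowers σ)).subtype)) := by
  classical
  let _ : Fintype H := Fintype.ofFinite _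
  let j : fixR ρ (H ⊔ Subgroup.zpowers σ) →+* fixR ρ H :=
    { toFun := fun x => ⟨x, (mem_fixR_sup.1 x.2).1⟩
      map_one' := rfl
      map_mul' := fun _ _ => rfl
      map_zero' := rfl
      map_add' := fun _ _ => rfl }
  have hj : Function.Injective j := fun x y h =>
    Subtype.ext (congrArg (fun z : fixR ρ H => (z : B)) h)
  have hσ : ∀ x, (fixE (ρ := ρ) hc)^[p] x = x := by
    intro x
    apply Subtype.ext
    rw [fixE_iter, hσp, rone]
  have hfix : ∀ b, fixE (ρ := ρ) hc b = b ↔ ∃ a, j a = b := by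
    intro b
    constructor
    · intro h
      exact ⟨⟨b, mem_fixR_sup.2 ⟨b.2, congrArg Subtype.val h⟩⟩, rfl⟩
    · rintro ⟨a, rfl⟩
      apply Subtype.ext
      exact (mem_fixR_sup.1 a.2).2
  refine case2' (p := p) (fixE (ρ := ρ) hc) hσ j hj hfix _ (Q.comap (fixR ρ H).subtype) rfl
    (fun x => hσQ x) ⟨⟨b, hbH⟩, fun h => hbσ (congrArg Subtype.val h)⟩ ⟨b, hbH⟩ ?_
  rintro ⟨c, hcH⟩
  obtain ⟨s, hs, u, hu⟩ := hb c hcH
  have hn : ∀ x : B, (∏ h : H, ρ h x) ∈ fixR ρ H := by
    intro x k hk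
    rw [map_prod]
    refine Fintype.prod_equiv (Equiv.mulLeft (⟨k, hk⟩ : H)) _ _ fun h => ?_
    rw [← rmul]
    rfl
  have hsplit : ∏ h : H, ρ h s = s * ∏ h ∈ univ.erase (1 : H), ρ h s := by
    rw [← Finset.mul_prod_erase univ _ (mem_univ (1 : H))]
    congr 1
    exact rone ρ s
  have hsQ : ∏ h : H, ρ h s ∉ Q := by
    rw [hQ.prod_mem_iff]
    rintro ⟨h, -, h1⟩
    apply hs
    have h2 : s = ρ h s - (ρ h s - s) := by ring
    rw [h2]
    exact Q.sub_mem h1 (hHQ h.2 s)
  have hne : ρ σ b - b ≠ 0 := sub_ne_zero.2 hbσ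
  have he : (∏ h : H, ρ h s) * (ρ σ c - c) =
      (ρ σ b - b) * (u * ∏ h ∈ univ.erase (1 : H), ρ h s) := by
    rw [hsplit]
    linear_combination (∏ h ∈ univ.erase (1 : H), ρ h s) * hu
  have huH : u * ∏ h ∈ univ.erase (1 : H), ρ h s ∈ fixR ρ H := by
    intro k hk
    apply mul_left_cancel₀ hne
    have h1 : ρ σ b - b ∈ fixR ρ H := (fixR ρ H).sub_mem (fixR_map hc hbH) hbH
    have h2 : ρ σ c - c ∈ fixR ρ H := (fixR ρ H).sub_mem (fixR_map hc hcH) hcH
    have h3 := (fixR ρ H).mul_mem (hn s) h2 k hk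
    rw [he] at h3
    rw [map_mul, h1 k hk] at h3
    exact h3
  refine ⟨⟨∏ h : H, ρ h s, hn s⟩, hsQ, ⟨_, huH⟩, Subtype.ext he⟩

/-- Descent of regularity for a finite group whose inertia groups are `p`-groups. -/
theorem descP (p : ℕ) [hp : Fact p.Prime] [CharP B p] [IsRegularRing B]
    (A : Type) [CommRing A] [IsNoetherianRing A] (j : A →+* B) (hj : Function.Injective j)
    (hfix : ∀ b, (∀ g, ρ g b = b) ↔ ∃ a, j a = b)
    (hQ : ∀ Q : Ideal B, ∀ _ : Q.IsPrime, (∀ g, (∀ b, ρ g b - b ∈ Q) → g = 1) ∨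
      ((∃ a, Nat.card (iner ρ Q) = p ^ a) ∧
        IsRegularLocalRing (Localization.AtPrime (Q.comap (fixR ρ (iner ρ Q)).subtype)))) :
    IsRegularRing A := by
  classical
  let _ : Fintype G := Fintype.ofFinite _
  rw [isRegularRing_iff]
  intro q hq
  algebraize [j]
  have hint : Algebra.IsIntegral A B := by
    refine ⟨fun b => ?_⟩
    have hl : PG ρ b ∈ lifts j := by
      rw [lifts_iff_coeff_lifts]
      intro n
      exact (hfix _).1 fun g => PG_coeff ρ b n g
    obtain ⟨PA, h1, _, h2⟩ := lifts_and_degree_eq_and_monic hl (by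
      unfold PG
      exact monic_prod_of_monic _ _ fun _ _ => monic_X_sub_C _)
    refine ⟨PA, h2, ?_⟩
    change eval₂ j b PA = 0
    rw [← eval_map, h1]
    unfold PG
    rw [eval_prod]
    refine Finset.prod_eq_zero (mem_univ (1 : G)) ?_
    rw [rone]
    simp
  obtain ⟨Q, -, hQp, hQq⟩ := Ideal.exists_ideal_over_prime_of_isIntegral q (⊥ : Ideal B) (by
    intro x hx
    rw [Ideal.mem_comap, Ideal.mem_bot] at hx
    have h1 : x = 0 := hj (by rw [map_zero]; exact hx)
    rw [h1]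
    exact q.zero_mem)
  have hQq' : q = Q.comap j := hQq.symm
  have hcase : (∃ a, Nat.card (iner ρ Q) = p ^ a) ∧
        IsRegularLocalRing (Localization.AtPrime (Q.comap (fixR ρ (iner ρ Q)).subtype)) := by
    rcases hQ Q hQp with h1 | h1
    · have hI : iner ρ Q = ⊥ := (Subgroup.eq_bot_iff_forall (iner ρ Q)).2 fun g hg => h1 g hg
      refine ⟨⟨0, by rw [hI]; simp⟩, ?_⟩
      have hreg : IsRegularLocalRing (Localization.AtPrime Q) := inferInstance
      have hall : ∀ b : B, b ∈ fixR ρ (iner ρ Q) := by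
        intro b h hh
        rw [hI, Subgroup.mem_bot] at hh
        rw [hh, rone]
      let ε : fixR ρ (iner ρ Q) ≃+* B :=
        RingEquiv.ofBijective (fixR ρ (iner ρ Q)).subtype
          ⟨Subtype.val_injective, fun b => ⟨⟨b, hall b⟩, rfl⟩⟩
      let ψ : Localization.AtPrime (Q.comap (fixR ρ (iner ρ Q)).subtype) ≃+*
          Localization.AtPrime Q :=
        IsLocalization.ringEquivOfRingEquiv (M := (Q.comap (fixR ρ (iner ρ Q)).subtype).primeCompl)
          (T := Q.primeCompl) _ _ ε (by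
            ext x
            constructor
            · rintro ⟨y, hy, rfl⟩
              exact hy
            · intro hx
              exact ⟨⟨x, hall x⟩, hx, rfl⟩)
      exact IsRegularLocalRing.of_ringEquiv ψ.symm
    · exact h1
  obtain ⟨hc, hreg⟩ := hcase
  obtain ⟨y, hy1, hy2⟩ := exists_sep (p := p) (ρ := ρ) (Q := Q) hc
  let _ : Fintype (G ⧸ iner ρ Q) := Fintype.ofFinite _
  have hC : ∀ b, (∀ h ∈ iner ρ Q, ρ h b = b) ↔ ∃ c : fixR ρ (iner ρ Q),
      (fixR ρ (iner ρ Q)).subtype c = b := by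
    intro b
    constructor
    · intro h
      exact ⟨⟨b, h⟩, rfl⟩
    · rintro ⟨c, rfl⟩
      exact c.2
  let jA : A →+* fixR ρ (iner ρ Q) := j.codRestrict (fixR ρ (iner ρ Q))
    fun a h _ => (hfix _).2 ⟨a, rfl⟩ h
  have hjA : ∀ a, (fixR ρ (iner ρ Q)).subtype (jA a) = j a := fun a => rfl
  refine step ρ (iner ρ Q) (fixR ρ (iner ρ Q)).subtype Subtype.val_injective hC jA
    (fun a a' h => hj ?_) hfix Q
    (Q.comap (fixR ρ (iner ρ Q)).subtype) rfl q ?_ (⟨y, hy1⟩ : fixR ρ (iner ρ Q)) hy2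
  · rw [← hjA, ← hjA, h]
  · rw [hQq', Ideal.comap_comap]
    rfl

end

end Run7.h802.Rz
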