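import Pool.Agent.Run7.h802.Rz5
import Pool.Agent.Y279.G.StepG

/-!
# Invariants of a finite group with elementary abelian inertia groups on a weighted blowup
-/

set_option autoImplicit false
set_option linter.unusedSectionVars false
set_option linter.unusedVariables false

namespace Run7.h802.Rz

open Finset Polynomial IsLocalRing Pool.Agent.Y223.G
open Pool.Agent.Y824.G4 (iner mem_iner rmul rone rinv iner_stab stab_of_inv stab_mul PG PG_map
  PG_coeff case2' step)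
open Pool.Agent.Y279.G (rG rG_coe fix_iffG int_invG)
open Pool.Agent.Y929.G

/-- The subgroup generated by the first elements of a sequence. -/
def sq {G : Type} [Group G] (σ : ℕ → G) : ℕ → Subgroup G
  | 0 => ⊥
  | i + 1 => sq σ i ⊔ Subgroup.zpowers (σ i)

lemma sq_comm {G : Type} [Group G] {σ : ℕ → G} (hc : ∀ i j, σ i * σ j = σ j * σ i) (n i : ℕ) :
    ∀ h ∈ sq σ i, σ n * h = h * σ n := by
  have h1 : sq σ i ≤ Subgroup.centralizer {σ n} := by
    induction i with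
    | zero => exact bot_le
    | succ i ih =>
      refine sup_le ih ?_
      rw [Subgroup.zpowers_le, Subgroup.mem_centralizer_singleton_iff]
      exact (hc n i).symm
  intro h hh
  have h2 := Subgroup.mem_centralizer_singleton_iff.1 (h1 hh)
  exact h2.symm

section

variable {B : Type} [CommRing B] {G : Type} [Group G] (ρ : G →* (B ≃+* B)) [IsDomain B] [Finite G]

/-- Regularity of the invariants of the chain. -/
theorem reg_chain (p : ℕ) [hp : Fact p.Prime] {σ : ℕ → G} (hc : ∀ i j, σ i * σ j = σ j * σ i)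
    (hσp : ∀ i, σ i ^ p = 1) (Q : Ideal B) [hQ : Q.IsPrime]
    (hreg : IsRegularLocalRing (Localization.AtPrime Q)) (r : ℕ)
    (hσQ : ∀ i < r, σ i ∈ iner ρ Q)
    (hb : ∀ i < r, ∃ b ∈ fixR ρ (sq σ i), ρ (σ i) b ≠ b ∧
      ∀ c ∈ fixR ρ (sq σ i), ∃ s, s ∉ Q ∧ (ρ (σ i) b - b) ∣ s * (ρ (σ i) c - c)) :
    ∀ i ≤ r, sq σ i ≤ iner ρ Q ∧
      IsRegularLocalRing (Localization.AtPrime (Q.comap (fixR ρ (sq σ i)).subtype)) := by
  intro i
  induction i with
  | zero =>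
    intro _
    refine ⟨bot_le, ?_⟩
    have hall : ∀ b : B, b ∈ fixR ρ (sq σ 0) := by
      intro b h hh
      have hh' : h = 1 := Subgroup.mem_bot.1 hh
      rw [hh', rone]
    let ε : fixR ρ (sq σ 0) ≃+* B :=
      RingEquiv.ofBijective (fixR ρ (sq σ 0)).subtype
        ⟨Subtype.val_injective, fun b => ⟨⟨b, hall b⟩, rfl⟩⟩
    let ψ : Localization.AtPrime (Q.comap (fixR ρ (sq σ 0)).subtype) ≃+*
        Localization.AtPrime Q :=
      IsLocalization.ringEquivOfRingEquiv (M := (Q.comap (fixR ρ (sq σ 0)).subtype).primeCompl)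
        (T := Q.primeCompl) _ _ ε (by
          ext x
          constructor
          · rintro ⟨y, hy, rfl⟩
            exact hy
          · intro hx
            exact ⟨⟨x, hall x⟩, hx, rfl⟩)
    exact IsRegularLocalRing.of_ringEquiv ψ.symm
  | succ i ih =>
    intro hi
    obtain ⟨h1, h2⟩ := ih (by omega)
    obtain ⟨b, hbH, hbσ, hbc⟩ := hb i (by omega)
    have h3 := hσQ i (by omega)
    refine ⟨sup_le h1 ?_, reg_step p (sq_comm hc i i) (hσp i) Q h1 h3 h2 hbH hbσ hbc⟩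
    rw [Subgroup.zpowers_le]
    exact h3

end

section stp

variable {k K K' : Type} [Field k] [Field K] [Algebra k K] [Field K'] [Algebra k K']
  {ι : K' →ₐ[k] K} {G : Type} [Group G] {ρ : G →* (K ≃ₐ[k] K)}

/-- The condition on the inertia group of a prime ideal of a graded algebra. -/
def InC (p : ℕ) (ρ : G →* (K ≃ₐ[k] K)) (R : Subalgebra k (LP K)) (Q : Ideal R) : Prop :=
  ∃ (σ : ℕ → G) (r : ℕ), (∀ i j, σ i * σ j = σ j * σ i) ∧ (∀ i, σ i ^ p = 1) ∧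
    (∃ a, Nat.card (sq σ r) = p ^ a) ∧
    (∀ g, (∀ f ∈ R, ∃ h : tl (ρ g) f - f ∈ R, (⟨tl (ρ g) f - f, h⟩ : R) ∈ Q) → g ∈ sq σ r) ∧
    (∀ i < r, ∀ f ∈ R, ∃ h : tl (ρ (σ i)) f - f ∈ R, (⟨tl (ρ (σ i)) f - f, h⟩ : R) ∈ Q) ∧
    ∀ i < r, ∃ b ∈ R, (∀ g ∈ sq σ i, tl (ρ g) b = b) ∧ tl (ρ (σ i)) b ≠ b ∧
      ∀ c ∈ R, (∀ g ∈ sq σ i, tl (ρ g) c = c) →
        ∃ (s : LP K) (hs : s ∈ R), (⟨s, hs⟩ : R) ∉ Q ∧
          ∃ u ∈ R, s * (tl (ρ (σ i)) c - c) = u * (tl (ρ (σ i)) b - b)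

theorem main_rgP (p : ℕ) [hp : Fact p.Prime] [CharP k p] [Finite G]
    (hι : ∀ x, (∀ g, ρ g x = x) ↔ ∃ y, ι y = x) (R : Subalgebra k (LP K))
    (hR : Ch R) (hst : ∀ g, ∀ f ∈ R, tl (ρ g) f ∈ R)
    (hft : Algebra.FiniteType k (res ι R))
    (hQ : ∀ Q : Ideal R, Q.IsPrime →
      (∃ (e : ℕ) (η : K) (he : hm e η ∈ R), 0 < e ∧ (⟨hm e η, he⟩ : R) ∉ Q) →
      (∀ g, (∀ f ∈ R, ∃ h : tl (ρ g) f - f ∈ R, (⟨tl (ρ g) f - f, h⟩ : R) ∈ Q) → g = 1) ∨
      InC p ρ R Q)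
    (e : ℕ) (η' : K') (he : hm e η' ∈ res ι R) (he0 : 0 < e) (hη : η' ≠ 0) :
    IsRegularRing (loc (res ι R) (hm e η') he) := by
  obtain ⟨η, hηd⟩ : ∃ η, η = ι η' := ⟨_, rfl⟩
  have hη0 : η ≠ 0 := by
    rw [hηd]
    exact (map_ne_zero ι).2 hη
  have heR : hm e η ∈ R := by
    rw [hηd, ← Ph_hm]
    exact he
  have hτη : ∀ g, ρ g η = η := (hι η).2 ⟨η', hηd.symm⟩
  have hreg : IsRegularRing (loc R (hm e η) heR) := hR.rg e η heR he0 hη0
  have hAB : ∀ f, f ∈ loc (res ι R) (hm e η') he ↔ Ph ι f ∈ loc R (hm e η) heR := by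
    intro f
    rw [mem_loc, mem_loc]
    refine exists_congr fun n => ?_
    rw [mem_res, map_mul, map_pow, Ph_hm, ← hηd]
  have hBst : ∀ g, ∀ f ∈ loc R (hm e η) heR, tl (ρ g) f ∈ loc R (hm e η) heR := by
    rintro g f ⟨n, hn⟩
    refine ⟨n, ?_⟩
    have h1 := hst g _ hn
    rw [map_mul, map_pow, Pool.Agent.Y223.G.tl_hm, hτη] at h1
    exact h1
  obtain ⟨B, hBd⟩ : ∃ B, B = loc R (hm e η) heR := ⟨_, rfl⟩
  obtain ⟨A, hAd⟩ : ∃ A, A = loc (res ι R) (hm e η') he := ⟨_, rfl⟩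
  have hAft : Algebra.FiniteType k A := by
    rw [hAd]
    exact ft_loc hft he (isUnit_hm hη)
  have hRB : R ≤ B := by
    rw [hBd]
    exact le_loc R _ heR
  have hinvB : hm (-(e : ℤ)) η⁻¹ ∈ B := by
    rw [hBd]
    refine inv_mem_loc R _ _ heR ?_
    rw [hm_mul, add_neg_cancel, mul_inv_cancel₀ hη0, hm_one]
  have hBm : ∀ f ∈ B, ∃ n : ℕ, hm e η ^ n * f ∈ R := by
    intro f hf
    rw [hBd] at hf
    exact hf
  rw [← hAd]
  rw [← hAd, ← hBd] at hAB
  rw [← hBd] at hBst hreg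
  clear hAd hBd
  have hAn : IsNoetherianRing A := Algebra.FiniteType.isNoetherianRing k A
  have hfix := fix_iffG hι A B hAB hBst
  obtain ⟨j, hj⟩ : ∃ j, j = rP ι A B (fun f h => (hAB f).1 h) := ⟨_, rfl⟩
  rw [← hj] at hfix
  have hjinj : Function.Injective j := by
    rw [hj]
    exact rP_inj ι A B _
  have hchB : CharP B p := charP_of_injective_algebraMap (algebraMap k B).injective p
  refine descP (ρ := rG ρ B hBst) p A j.toRingHom hjinj hfix ?_
  intro Q hQp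
  have hunit : ∀ n : ℕ, (⟨hm e η, hRB heR⟩ : B) ^ n ∉ Q := by
    intro n hn
    have h1 := hQp.mem_of_pow_mem n hn
    have h2 : (⟨hm (-(e : ℤ)) η⁻¹, hinvB⟩ : B) * ⟨hm e η, hRB heR⟩ = 1 := by
      apply Subtype.ext
      change hm (-(e : ℤ)) η⁻¹ * hm e η = 1
      rw [hm_mul, neg_add_cancel, inv_mul_cancel₀ hη0, hm_one]
    have h3 := Q.mul_mem_left (⟨hm (-(e : ℤ)) η⁻¹, hinvB⟩ : B) h1
    rw [h2] at h3
    exact hQp.ne_top ((Ideal.eq_top_iff_one Q).2 h3)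
  let i : R →+* B := (Subalgebra.inclusion hRB).toRingHom
  have hQ0 : (Q.comap i).IsPrime := Ideal.comap_isPrime i Q
  have hine : ∀ g, (∀ b, rG ρ B hBst g b - b ∈ Q) →
      (∀ f ∈ R, ∃ h : tl (ρ g) f - f ∈ R, (⟨tl (ρ g) f - f, h⟩ : R) ∈ Q.comap i) := by
    intro g hg f hf
    refine ⟨R.sub_mem (hst g f hf) hf, ?_⟩
    rw [Ideal.mem_comap]
    exact hg ⟨f, hRB hf⟩
  have hine' : ∀ g, (∀ f ∈ R, ∃ h : tl (ρ g) f - f ∈ R,
      (⟨tl (ρ g) f - f, h⟩ : R) ∈ Q.comap i) → ∀ b, rG ρ B hBst g b - b ∈ Q := by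
    intro g hg b
    obtain ⟨n, hn⟩ := hBm b b.2
    obtain ⟨h1, h2⟩ := hg _ hn
    have h3 : (⟨hm e η, hRB heR⟩ : B) ^ n * (rG ρ B hBst g b - b) ∈ Q := by
      have h4 : (⟨hm e η, hRB heR⟩ : B) ^ n * (rG ρ B hBst g b - b) =
          i ⟨tl (ρ g) (hm e η ^ n * (b : LP K)) - hm e η ^ n * (b : LP K), h1⟩ := by
        apply Subtype.ext
        change hm e η ^ n * (tl (ρ g) (b : LP K) - b) =
          tl (ρ g) (hm e η ^ n * (b : LP K)) - hm e η ^ n * (b : LP K)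
        rw [map_mul, map_pow, Pool.Agent.Y223.G.tl_hm, hτη]
        ring
      rw [h4]
      exact h2
    exact (hQp.mem_or_mem h3).resolve_left (hunit n)
  rcases hQ (Q.comap i) hQ0 ⟨e, η, heR, he0, fun h => by
    refine hunit 1 ?_
    rw [pow_one]
    exact h⟩ with h1 | ⟨σ, r, hc, hσp, hcard, hin, hin', hb⟩
  · left
    intro g hg
    exact h1 g (hine g hg)
  · right
    have hregQ : IsRegularLocalRing (Localization.AtPrime Q) := inferInstance
    obtain ⟨h1, h2⟩ := reg_chain (rG ρ B hBst) p hc hσp Q hregQ r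
      (fun i hi => hine' _ (hin' i hi)) (by
        intro m hm'
        obtain ⟨b, hbR, hbf, hbne, hbc⟩ := hb m hm'
        refine ⟨⟨b, hRB hbR⟩, fun g hg => Subtype.ext (hbf g hg),
          fun h => hbne (congrArg (fun z : B => (z : LP K)) h), ?_⟩
        intro c hcf
        obtain ⟨n, hn⟩ := hBm c c.2
        obtain ⟨s, hs, hsQ, u, hu, huv⟩ := hbc _ hn (by
          intro g hg
          have h3 : tl (ρ g) (c : LP K) = c := congrArg (fun z : B => (z : LP K)) (hcf g hg)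
          rw [map_mul, map_pow, Pool.Agent.Y223.G.tl_hm, hτη, h3])
        refine ⟨⟨s, hRB hs⟩ * (⟨hm e η, hRB heR⟩ : B) ^ n, ?_, ⟨⟨u, hRB hu⟩, ?_⟩⟩
        · intro h
          rcases hQp.mem_or_mem h with h1 | h1
          · exact hsQ h1
          · exact hunit n h1
        · apply Subtype.ext
          change s * hm e η ^ n * (tl (ρ (σ m)) (c : LP K) - c) = (tl (ρ (σ m)) b - b) * u
          rw [map_mul, map_pow, Pool.Agent.Y223.G.tl_hm, hτη] at huv
          rw [mul_comm _ u, ← huv]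
          ring) r le_rfl
    have h3 : iner (rG ρ B hBst) Q = sq σ r :=
      le_antisymm (fun g hg => hin g (hine g hg)) h1
    rw [h3]
    exact ⟨hcard, h2⟩

/-- The step for finite groups. -/
theorem stepP (p : ℕ) [hp : Fact p.Prime] [CharP k p] [Finite G]
    (hι : ∀ x, (∀ g, ρ g x = x) ↔ ∃ y, ι y = x) (R : Subalgebra k (LP K))
    (hR : Ch R) (hst : ∀ g, ∀ f ∈ R, tl (ρ g) f ∈ R)
    (hQ : ∀ Q : Ideal R, Q.IsPrime →
      (∃ (e : ℕ) (η : K) (he : hm e η ∈ R), 0 < e ∧ (⟨hm e η, he⟩ : R) ∉ Q) →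
      (∀ g, (∀ f ∈ R, ∃ h : tl (ρ g) f - f ∈ R, (⟨tl (ρ g) f - f, h⟩ : R) ∈ Q) → g = 1) ∨
      InC p ρ R Q) : Ch (res ι R) := by
  classical
  have _ : Fintype G := Fintype.ofFinite G
  have hft : Algebra.FiniteType k (res ι R) := by
    have hAB : ∀ f, f ∈ res ι R ↔ Ph ι f ∈ R := fun f => Iff.rfl
    refine ft_inv (rP ι (res ι R) R (fun f h => (hAB f).1 h)) (rP_inj ι _ _ _) ?_ hR.ft
    refine int_invG (rG ρ R hst) _ fun b hb => ?_
    exact (fix_iffG hι (res ι R) R hAB hst b).1 hb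
  refine ⟨hft, ?_, ?_, ?_, ?_, ?_⟩
  · intro f hf d
    rw [mem_res] at hf ⊢
    rw [Ph_hm, ← Ph_coeff]
    exact hR.gr _ hf d
  · rw [mem_res, Ph_hm, map_one]
    exact hR.ss
  · intro d x hx
    rw [mem_res, Ph_hm] at hx ⊢
    exact hR.cf d _ hx
  · obtain ⟨d, a, hd, ha, hda⟩ := hR.pos
    obtain ⟨N, hN⟩ : ∃ N, N = ∏ g : G, ρ g a := ⟨_, rfl⟩
    have hN0 : N ≠ 0 := by
      rw [hN]
      exact Finset.prod_ne_zero_iff.2 fun g _ => (map_ne_zero (ρ g)).2 ha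
    have hτN : ∀ h, ρ h N = N := by
      intro h
      have h1 : ρ h N = ∏ g : G, ρ (h * g) a := by
        rw [hN, map_prod]
        refine Finset.prod_congr rfl fun g _ => ?_
        rw [map_mul]
        rfl
      rw [h1, hN]
      exact Fintype.prod_equiv (Equiv.mulLeft h) _ _ fun g => rfl
    obtain ⟨y, hy⟩ := (hι N).1 hτN
    refine ⟨Fintype.card G * d, y, Nat.mul_pos Fintype.card_pos hd, ?_, ?_⟩
    · intro h
      rw [h, map_zero] at hy
      exact hN0 hy.symm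
    · rw [mem_res, Ph_hm, hy, hN]
      have h2 : hm ((Fintype.card G * d : ℕ) : ℤ) (∏ g : G, ρ g a) =
          ∏ g : G, tl (ρ g) (hm (d : ℤ) a) := by
        simp only [Pool.Agent.Y223.G.tl_hm]
        rw [hm_prod]
        congr 1
        rw [Finset.sum_const, Finset.card_univ, nsmul_eq_mul]
        push_cast
        rfl
      rw [h2]
      exact R.prod_mem fun g _ => hst g _ hda
  · intro e η' he he0 hη
    exact main_rgP p hι R hR hst hft hQ e η' he he0 hη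

end stp

end Run7.h802.Rz
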