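import Pool.Agent.Run7.h802.Rz7
import Pool.Agent.Run7.h802.Cv5

/-!
# Taylor expansions on the local ring of a product of curves
-/

set_option autoImplicit false
set_option linter.unusedVariables false
set_option linter.unusedSectionVars false

namespace Run7.h802.Rz

open Run7.h802.Cv Polynomial

section vand

variable {k X : Type} [Field k] [AddCommGroup X] [Module k X]

/-- Vandermonde. -/
theorem vand (W : Submodule k X) (q : ℕ) (v : ℕ → X) (C : Finset k) (hC : q ≤ C.card)
    (h : ∀ c ∈ C, ∑ l ∈ Finset.range q, c ^ l • v l ∈ W) : ∀ l < q, v l ∈ W := by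
  intro l hl
  rw [← Submodule.Quotient.mk_eq_zero, ← Module.forall_dual_apply_eq_zero_iff k]
  intro φ
  set P : k[X] := ∑ l ∈ Finset.range q, Polynomial.C (φ (Submodule.Quotient.mk (v l))) *
    Polynomial.X ^ l with hP
  have hdeg : P.natDegree < q := by
    have h1 : P.degree < q := by
      rw [hP]
      refine (degree_sum_le _ _).trans_lt ?_
      rw [Finset.sup_lt_iff (by exact WithBot.bot_lt_coe q)]
      intro l hl
      refine (degree_C_mul_X_pow_le _ _).trans_lt ?_
      exact_mod_cast Finset.mem_range.1 hl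
    by_cases h0 : P = 0
    · rw [h0, natDegree_zero]
      omega
    · exact (natDegree_lt_iff_degree_lt h0).2 h1
  have hP0 : P = 0 := by
    refine Polynomial.eq_zero_of_natDegree_lt_card_of_eval_eq_zero' P C ?_ (lt_of_lt_of_le hdeg hC)
    intro c hc
    have h1 := h c hc
    rw [← Submodule.Quotient.mk_eq_zero] at h1
    have h2 := congrArg φ h1
    rw [map_zero, ← Submodule.mkQ_apply, map_sum, map_sum] at h2
    rw [hP, eval_finsetSum, ← h2]
    refine Finset.sum_congr rfl fun l _ => ?_
    rw [map_smul, map_smul, smul_eq_mul, eval_mul, eval_C, eval_pow, eval_X,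
      mul_comm, Submodule.mkQ_apply]
  have h3 := congrArg (fun P : k[X] => P.coeff l) hP0
  simp only [hP, finsetSum_coeff, coeff_C_mul, coeff_X_pow, coeff_zero] at h3
  rw [Finset.sum_eq_single l] at h3
  · simpa using h3
  · intro b _ hb
    rw [if_neg (Ne.symm hb), mul_zero]
  · intro h
    exact absurd (Finset.mem_range.2 hl) h

end vand

section many

variable {k L : Type} [Field k] [Field L] [Algebra k L] {ι : Type} [Fintype ι] {E : ι → Type}
  [∀ i, Field (E i)] [∀ i, Algebra k (E i)] (e : ∀ i, E i →ₐ[k] L)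
  (V : ∀ i, ValuationSubring (E i)) (w : ι → ℕ) (M N : ℕ) {S : Type} (σ : S → (L ≃ₐ[k] L))
  (χ : S → k)

/-- The element `x` has a Taylor expansion. -/
def TayL (d : ℤ) (x : L) : Prop :=
  ∃ F : L[X], F.coeff 0 = x ∧ (∀ l : ℕ, F.coeff l ∈ JJ e V w (d + M * l)) ∧
    ∀ s, σ s x - F.eval (algebraMap k L (χ s)) ∈ JJ e V w (d + M * N)

variable {e V w M N σ χ}

lemma eval_JJ {F : L[X]} {d : ℤ} (hF : ∀ l : ℕ, F.coeff l ∈ JJ e V w (d + M * l)) (c : k) :
    F.eval (algebraMap k L c) ∈ JJ e V w d := by
  rw [eval_eq_sum_range]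
  refine Submodule.sum_mem _ fun l _ => ?_
  have h1 : F.coeff l * algebraMap k L c ^ l = c ^ l • F.coeff l := by
    rw [Algebra.smul_def, map_pow, mul_comm]
  rw [h1]
  refine Submodule.smul_mem _ _ (JJ_anti ?_ (hF l))
  have : (0 : ℤ) ≤ M * l := by positivity
  omega

lemma TayL.mono {d d' : ℤ} (hd : d ≤ d') {x : L} (h : TayL e V w M N σ χ d' x) :
    TayL e V w M N σ χ d x := by
  obtain ⟨F, h0, h1, h2⟩ := h
  exact ⟨F, h0, fun l => JJ_anti (by omega) (h1 l), fun s => JJ_anti (by omega) (h2 s)⟩

lemma TayL.add {d : ℤ} {x y : L} (hx : TayL e V w M N σ χ d x)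
    (hy : TayL e V w M N σ χ d y) : TayL e V w M N σ χ d (x + y) := by
  obtain ⟨F, h0, h1, h2⟩ := hx
  obtain ⟨F', h0', h1', h2'⟩ := hy
  refine ⟨F + F', by rw [coeff_add, h0, h0'], fun l => ?_, fun s => ?_⟩
  · rw [coeff_add]
    exact Submodule.add_mem _ (h1 l) (h1' l)
  · have h3 : σ s (x + y) - (F + F').eval (algebraMap k L (χ s)) =
        (σ s x - F.eval (algebraMap k L (χ s))) + (σ s y - F'.eval (algebraMap k L (χ s))) := by
      rw [map_add, eval_add]
      ring
    rw [h3]
    exact Submodule.add_mem _ (h2 s) (h2' s)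

lemma TayL.smul {d : ℤ} {x : L} (c : k) (hx : TayL e V w M N σ χ d x) :
    TayL e V w M N σ χ d (c • x) := by
  obtain ⟨F, h0, h1, h2⟩ := hx
  refine ⟨C (algebraMap k L c) * F, by rw [coeff_C_mul, h0, Algebra.smul_def], fun l => ?_,
    fun s => ?_⟩
  · rw [coeff_C_mul, ← Algebra.smul_def]
    exact Submodule.smul_mem _ _ (h1 l)
  · have h3 : σ s (c • x) - (C (algebraMap k L c) * F).eval (algebraMap k L (χ s)) =
        c • (σ s x - F.eval (algebraMap k L (χ s))) := by
      rw [map_smul, eval_mul, eval_C, smul_sub, Algebra.smul_def, Algebra.smul_def]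
    rw [h3]
    exact Submodule.smul_mem _ _ (h2 s)

lemma TayL.zero {d : ℤ} : TayL e V w M N σ χ d 0 :=
  ⟨0, coeff_zero 0, fun l => by rw [coeff_zero]; exact Submodule.zero_mem _, fun s => by
    rw [map_zero, eval_zero, sub_zero]
    exact Submodule.zero_mem _⟩

lemma TayL.mul {d d' : ℤ} {x y : L} (hx : TayL e V w M N σ χ d x)
    (hy : TayL e V w M N σ χ d' y) : TayL e V w M N σ χ (d + d') (x * y) := by
  obtain ⟨F, h0, h1, h2⟩ := hx
  obtain ⟨F', h0', h1', h2'⟩ := hy
  refine ⟨F * F', by rw [mul_coeff_zero, h0, h0'], fun l => ?_, fun s => ?_⟩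
  · rw [coeff_mul]
    refine Submodule.sum_mem _ fun ij hij => ?_
    have h3 := Finset.HasAntidiagonal.mem_antidiagonal.1 hij
    have h4 := JJ_mul (h1 ij.1) (h1' ij.2)
    have h5 : d + M * (ij.1 : ℤ) + (d' + M * (ij.2 : ℤ)) = d + d' + M * (l : ℤ) := by
      rw [← h3]; push_cast; ring
    rwa [h5] at h4
  · have h3 : σ s (x * y) - (F * F').eval (algebraMap k L (χ s)) =
        ((σ s x - F.eval (algebraMap k L (χ s))) + F.eval (algebraMap k L (χ s))) *
          (σ s y - F'.eval (algebraMap k L (χ s))) +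
        (σ s x - F.eval (algebraMap k L (χ s))) * F'.eval (algebraMap k L (χ s)) := by
      rw [map_mul, eval_mul]
      ring
    rw [h3]
    have h4 := eval_JJ h1 (χ s)
    have h5 := eval_JJ h1' (χ s)
    have hMN : (0 : ℤ) ≤ M * N := by positivity
    have h6 := JJ_mul (Submodule.add_mem _ (JJ_anti (d := d) (by omega) (h2 s)) h4) (h2' s)
    have h7 := JJ_mul (h2 s) h5
    exact Submodule.add_mem _ (JJ_anti (by omega) h6) (JJ_anti (by omega) h7)

lemma TayL.one (hV : ∀ i, ∃ t, IsUf (V i) t) : TayL e V w M N σ χ 0 1 := by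
  refine ⟨1, coeff_one_zero, fun l => ?_, fun s => ?_⟩
  · rw [coeff_one]
    split_ifs with hl
    · subst hl
      exact JJ_one hV (by simp)
    · exact Submodule.zero_mem _
  · rw [map_one, eval_one, sub_self]
    exact Submodule.zero_mem _

/-- All elements have Taylor expansions. -/
theorem taylorL [DecidableEq ι] (hV : ∀ i, ∃ t, IsUf (V i) t) (ρ : S → ∀ i, E i ≃ₐ[k] E i)
    (hσ : ∀ s i x, σ s (e i x) = e i (ρ s i x)) (m : ι → ℕ) (hm : ∀ i, w i * m i = M)
    (h1 : ∀ i a y, Pw (V i) a y → Tay (V i) N (m i) (fun s => (ρ s i : E i ≃+* E i)) χ a y)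
    {d : ℤ} {x : L} (hx : x ∈ JJ e V w d) : TayL e V w M N σ χ d x := by
  induction hx using Submodule.span_induction with
  | mem x hx =>
    obtain ⟨a, y, hy, hd, rfl⟩ := hx
    refine TayL.mono hd ?_
    have key : ∀ T : Finset ι, TayL e V w M N σ χ ((∑ i ∈ T, w i * a i : ℕ) : ℤ)
        (∏ i ∈ T, e i (y i)) := by
      intro T
      induction T using Finset.induction_on with
      | empty =>
        rw [Finset.sum_empty, Finset.prod_empty]
        exact TayL.one hV
      | insert i T hi ih =>
        rw [Finset.sum_insert hi, Finset.prod_insert hi, Nat.cast_add]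
        refine TayL.mul ?_ ih
        obtain ⟨F, h2, h3, h4⟩ := h1 i (a i) (y i) (hy i)
        have hev : ∀ c : k, (F.map (e i : E i →+* L)).eval (algebraMap k L c) =
            e i (F.eval (algebraMap k (E i) c)) := by
          intro c
          have h5 : algebraMap k L c = (e i : E i →+* L) (algebraMap k (E i) c) :=
            ((e i).commutes c).symm
          rw [h5, eval_map, eval₂_hom]
          rfl
        refine ⟨F.map (e i : E i →+* L), ?_, fun l => ?_, fun s => ?_⟩
        · rw [coeff_map, h2]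
          rfl
        · rw [coeff_map]
          refine JJ_single hV i (h3 l) ?_
          rw [← hm i]
          push_cast
          nlinarith
        · rw [hev, hσ, ← map_sub]
          refine JJ_single hV i (h4 s) ?_
          rw [← hm i]
          push_cast
          nlinarith
    exact key Finset.univ
  | zero => exact TayL.zero
  | add x y _ _ hx hy => exact hx.add hy
  | smul r x _ hx => exact hx.smul r

/-- The action on the invariants of a subset. -/
theorem inv_shift {d : ℤ} {x : L} (hx : TayL e V w M N σ χ d x) (T : Finset S) (hT : 1 ≤ T.card)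
    (hTN : T.card ≤ N) (hχ : Set.InjOn χ T) (hinv : ∀ s ∈ T, σ s x = x) (s : S) :
    σ s x - x ∈ JJ e V w (d + M * T.card) := by
  classical
  obtain ⟨F, h0, h1, h2⟩ := hx
  set q := T.card with hq
  set W := JJ e V w (d + M * q) with hW
  have hMN : ((M * q : ℕ) : ℤ) ≤ ((M * N : ℕ) : ℤ) := by
    exact_mod_cast Nat.mul_le_mul_left M hTN
  push_cast at hMN
  have hhigh : ∀ c : k, F.eval (algebraMap k L c) -
      ∑ l ∈ Finset.range q, c ^ l • F.coeff l ∈ W := by
    intro c
    have h3 : F.eval (algebraMap k L c) = ∑ l ∈ Finset.range (F.natDegree + 1 + q),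
        c ^ l • F.coeff l := by
      rw [eval_eq_sum_range' (by omega : F.natDegree < F.natDegree + 1 + q)]
      refine Finset.sum_congr rfl fun l _ => ?_
      rw [Algebra.smul_def, map_pow, mul_comm]
    have h4 : Finset.range q ⊆ Finset.range (F.natDegree + 1 + q) :=
      Finset.range_subset_range.2 (by omega)
    rw [h3, ← Finset.sum_sdiff h4, add_sub_cancel_right]
    refine Submodule.sum_mem _ fun l hl => ?_
    rw [Finset.mem_sdiff, Finset.mem_range, Finset.mem_range] at hl
    refine Submodule.smul_mem _ _ (JJ_anti ?_ (h1 l))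
    have h5 : ((M * q : ℕ) : ℤ) ≤ ((M * l : ℕ) : ℤ) := by
      exact_mod_cast Nat.mul_le_mul_left M (not_lt.1 hl.2)
    push_cast at h5
    omega
  have hlow : ∀ l < q, (fun l => if l = 0 then (0 : L) else F.coeff l) l ∈ W := by
    refine vand W q _ (T.image χ) (by rw [Finset.card_image_of_injOn hχ]) ?_
    intro c hc
    obtain ⟨s, hs, rfl⟩ := Finset.mem_image.1 hc
    have h3 : ∑ l ∈ Finset.range q, χ s ^ l • (fun l => if l = 0 then (0 : L) else F.coeff l) l =
        ∑ l ∈ Finset.range q, χ s ^ l • F.coeff l - x := by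
      have h4 : ∀ l ∈ Finset.range q, χ s ^ l • F.coeff l =
          χ s ^ l • (fun l => if l = 0 then (0 : L) else F.coeff l) l +
            (if l = 0 then x else 0) := by
        intro l _
        by_cases hl : l = 0
        · subst hl
          simp [h0]
        · simp [hl]
      rw [Finset.sum_congr rfl h4, Finset.sum_add_distrib, Finset.sum_ite_eq' (Finset.range q) 0,
        if_pos (Finset.mem_range.2 hT), add_sub_cancel_right]
    rw [h3]
    have h5 := h2 s
    rw [hinv s hs] at h5
    have h6 : ∑ l ∈ Finset.range q, χ s ^ l • F.coeff l - x =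
        -((F.eval (algebraMap k L (χ s)) - ∑ l ∈ Finset.range q, χ s ^ l • F.coeff l) +
          (x - F.eval (algebraMap k L (χ s)))) := by ring
    rw [h6]
    exact Submodule.neg_mem _ (Submodule.add_mem _ (hhigh _) (JJ_anti (by omega) h5))
  have h3 : σ s x - x = (σ s x - F.eval (algebraMap k L (χ s))) +
      (F.eval (algebraMap k L (χ s)) - ∑ l ∈ Finset.range q, χ s ^ l • F.coeff l) +
      (∑ l ∈ Finset.range q, χ s ^ l • (fun l => if l = 0 then (0 : L) else F.coeff l) l) := by
    have h4 : ∀ l ∈ Finset.range q, χ s ^ l • F.coeff l =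
        χ s ^ l • (fun l => if l = 0 then (0 : L) else F.coeff l) l +
          (if l = 0 then x else 0) := by
      intro l _
      by_cases hl : l = 0
      · subst hl
        simp [h0]
      · simp [hl]
    rw [Finset.sum_congr rfl h4, Finset.sum_add_distrib, Finset.sum_ite_eq' (Finset.range q) 0,
      if_pos (Finset.mem_range.2 hT)]
    ring
  rw [h3]
  refine Submodule.add_mem _ (Submodule.add_mem _ (JJ_anti (by omega) (h2 s)) (hhigh _)) ?_
  exact Submodule.sum_mem _ fun l hl => Submodule.smul_mem _ _ (hlow l (Finset.mem_range.1 hl))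

end many

end Run7.h802.Rz
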